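import Pool.Agent.T2h96.FC.Stm

/-!
# SD: second difference of the complexity (helper59)
-/

set_option autoImplicit false
set_option linter.all false

namespace Pool.Agent.T2h96.FC

theorem ncard_range_congr {ι X Y : Type} (h : ι → X) (h' : ι → Y)
    (H : ∀ i j, h i = h j ↔ h' i = h' j) : (Set.range h).ncard = (Set.range h').ncard := by
  apply Set.ncard_congr (fun a (ha : a ∈ Set.range h) => h' (Classical.choose ha))
  · intro a ha
    exact ⟨_, rfl⟩
  · intro a b ha hb hab
    have h1 := (H _ _).2 hab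
    rw [Classical.choose_spec ha, Classical.choose_spec hb] at h1
    exact h1
  · rintro _ ⟨i, rfl⟩
    refine ⟨h i, ⟨i, rfl⟩, ?_⟩
    exact (H _ _).1 (Classical.choose_spec (⟨i, rfl⟩ : h i ∈ Set.range h))

theorem ncard_range_prod {ι X Y : Type} [Finite X] [Finite Y] (f : ι → X) (g : ι → Y) :
    (Set.range fun i => (f i, g i)).ncard =
      ∑ w ∈ (Set.toFinite (Set.range f)).toFinset, (g '' {i | f i = w}).ncard := by
  classical
  rw [Set.ncard_eq_toFinset_card _ (Set.toFinite _),
    Finset.card_eq_sum_card_fiberwise (f := Prod.fst) (t := (Set.toFinite (Set.range f)).toFinset)]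
  · refine Finset.sum_congr rfl fun w _ => ?_
    rw [← Set.ncard_coe_finset]
    apply Set.ncard_congr (fun a _ => a.2)
    · rintro a ha
      simp only [Finset.coe_filter, Set.Finite.mem_toFinset, Set.mem_range, Set.mem_setOf_eq] at ha
      obtain ⟨⟨i, rfl⟩, h⟩ := ha
      exact ⟨i, h, rfl⟩
    · rintro a b ha hb hab
      simp only [Finset.coe_filter, Set.Finite.mem_toFinset, Set.mem_range, Set.mem_setOf_eq] at ha hb
      exact Prod.ext (ha.2.trans hb.2.symm) hab
    · rintro _ ⟨i, hi, rfl⟩
      refine ⟨(f i, g i), ?_, rfl⟩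
      simp only [Finset.coe_filter, Set.Finite.mem_toFinset, Set.mem_range, Set.mem_setOf_eq]
      exact ⟨⟨i, rfl⟩, hi⟩
  · intro a ha
    simp only [Set.Finite.coe_toFinset, Set.mem_range] at ha ⊢
    obtain ⟨i, rfl⟩ := ha
    exact ⟨i, rfl⟩

theorem wd_eq_iff {C : Type} (T : ℤ → C) (n : ℕ) (i j : ℤ) :
    wd T n i = wd T n j ↔ ∀ t : ℕ, t < n → T (i + t) = T (j + t) := by
  constructor
  · intro h t ht
    exact congrFun h ⟨t, ht⟩
  · intro h
    funext t
    exact h t t.2

theorem t_SD : S_SD := by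
  classical
  intro C _ T n
  have hR : (pz T (n + 1) : ℤ) = ∑ w ∈ (Set.toFinite (Set.range (wd T n))).toFinset,
      (((fun i : ℤ => T (i + n)) '' occ T w).ncard : ℤ) := by
    have h1 := ncard_range_prod (wd T n) (fun i : ℤ => T (i + n))
    rw [← Nat.cast_sum]
    unfold occ
    rw [← h1]
    congr 1
    unfold pz
    apply ncard_range_congr
    intro i j
    rw [wd_eq_iff, Prod.mk.injEq, wd_eq_iff]
    constructor
    · intro h
      exact ⟨fun t ht => h t (by omega), h n (by omega)⟩
    · rintro ⟨h1, h2⟩ t ht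
      rcases Nat.lt_succ_iff_lt_or_eq.1 ht with h | rfl
      · exact h1 t h
      · exact h2
  have hshift : ∀ m, pz T m = (Set.range fun i : ℤ => wd T m (i - 1)).ncard := by
    intro m
    unfold pz
    congr 1
    apply Set.Subset.antisymm
    · rintro _ ⟨i, rfl⟩
      exact ⟨i + 1, by simp⟩
    · rintro _ ⟨i, rfl⟩
      exact ⟨i - 1, rfl⟩
  have hL : (pz T (n + 1) : ℤ) = ∑ w ∈ (Set.toFinite (Set.range (wd T n))).toFinset,
      (((fun i : ℤ => T (i - 1)) '' occ T w).ncard : ℤ) := by
    have h1 := ncard_range_prod (wd T n) (fun i : ℤ => T (i - 1))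
    rw [← Nat.cast_sum]
    unfold occ
    rw [← h1, hshift]
    congr 1
    apply ncard_range_congr
    intro i j
    rw [wd_eq_iff, Prod.mk.injEq, wd_eq_iff]
    constructor
    · intro h
      refine ⟨fun t ht => ?_, ?_⟩
      · have h2 := h (t + 1) (by omega)
        have e1 : i - 1 + ((t + 1 : ℕ) : ℤ) = i + t := by push_cast; ring
        have e2 : j - 1 + ((t + 1 : ℕ) : ℤ) = j + t := by push_cast; ring
        rwa [e1, e2] at h2
      · have h2 := h 0 (by omega)
        simpa using h2
    · rintro ⟨h1, h2⟩ t ht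
      rcases Nat.eq_zero_or_pos t with rfl | ht0
      · simpa using h2
      · have h3 := h1 (t - 1) (by omega)
        have e1 : i + ((t - 1 : ℕ) : ℤ) = i - 1 + t := by push_cast [Nat.cast_sub ht0]; ring
        have e2 : j + ((t - 1 : ℕ) : ℤ) = j - 1 + t := by push_cast [Nat.cast_sub ht0]; ring
        rwa [e1, e2] at h3
  have h2 : (pz T (n + 2) : ℤ) = ∑ w ∈ (Set.toFinite (Set.range (wd T n))).toFinset,
      (((fun i : ℤ => (T (i - 1), T (i + n))) '' occ T w).ncard : ℤ) := by
    have h1 := ncard_range_prod (wd T n) (fun i : ℤ => (T (i - 1), T (i + n)))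
    rw [← Nat.cast_sum]
    unfold occ
    rw [← h1, hshift]
    congr 1
    apply ncard_range_congr
    intro i j
    rw [wd_eq_iff, Prod.mk.injEq, Prod.mk.injEq, wd_eq_iff]
    constructor
    · intro h
      refine ⟨fun t ht => ?_, ?_, ?_⟩
      · have h2 := h (t + 1) (by omega)
        have e1 : i - 1 + ((t + 1 : ℕ) : ℤ) = i + t := by push_cast; ring
        have e2 : j - 1 + ((t + 1 : ℕ) : ℤ) = j + t := by push_cast; ring
        rwa [e1, e2] at h2
      · have h2 := h 0 (by omega)
        simpa using h2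
      · have h2 := h (n + 1) (by omega)
        have e1 : i - 1 + ((n + 1 : ℕ) : ℤ) = i + n := by push_cast; ring
        have e2 : j - 1 + ((n + 1 : ℕ) : ℤ) = j + n := by push_cast; ring
        rwa [e1, e2] at h2
    · rintro ⟨h1, h2, h3⟩ t ht
      rcases Nat.eq_zero_or_pos t with rfl | ht0
      · simpa using h2
      · rcases Nat.lt_or_ge (t - 1) n with htn | htn
        · have h4 := h1 (t - 1) htn
          have e1 : i + ((t - 1 : ℕ) : ℤ) = i - 1 + t := by push_cast [Nat.cast_sub ht0]; ring
          have e2 : j + ((t - 1 : ℕ) : ℤ) = j - 1 + t := by push_cast [Nat.cast_sub ht0]; ring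
          rwa [e1, e2] at h4
        · have e0 : t = n + 1 := by omega
          subst e0
          have e1 : i - 1 + ((n + 1 : ℕ) : ℤ) = i + n := by push_cast; ring
          have e2 : j - 1 + ((n + 1 : ℕ) : ℤ) = j + n := by push_cast; ring
          rw [e1, e2]
          exact h3
  have h0 : (pz T n : ℤ) = ∑ w ∈ (Set.toFinite (Set.range (wd T n))).toFinset, (1 : ℤ) := by
    rw [Finset.sum_const, nsmul_eq_mul, mul_one]
    unfold pz
    rw [Set.ncard_eq_toFinset_card _ (Set.toFinite _)]
  unfold mul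
  rw [Finset.sum_add_distrib, Finset.sum_sub_distrib, Finset.sum_sub_distrib, ← h2, ← hL, ← hR, ← h0]
  ring

end Pool.Agent.T2h96.FC
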