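import Pool.Agent.T2h96.FC.Run

/-!
# Factor complexity of fixed points of morphisms: the setting after the reduction, second list of tasks
-/

set_option autoImplicit false

open Filter

namespace Pool.Agent.T2h96.FC

/-- recognizability in the form of `S_RONE` -/
def ROne {C : Type} (U : ℤ → C) (c : ℤ → ℤ) : Prop :=
  ∃ P : ℕ, 0 < P ∧ ∀ M : ℕ, ∃ L : ℕ, ∀ i i' : ℤ, i ∈ Set.range c → i' ∉ Set.range c →
    (∀ t : ℤ, |t| ≤ L → U (i + t) = U (i' + t)) →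
    ∃ p : ℕ, 0 < p ∧ p ≤ P ∧ ∀ t : ℤ, -M ≤ t → t + p ≤ M → U (i + t + p) = U (i + t)

/-- the setting after the reduction: `V` is a fixed point (cuts `c`, all blocks of length at least
two) and `U` is an image of `V` (cuts `d`) -/
structure Ctx {B C : Type} (V : ℤ → B) (U : ℤ → C) (c d : ℤ → ℤ) (m D Q q : ℕ) : Prop where
  hV : Stp V V c m D
  hU : Stp V U d m D
  hg : ∀ j, c j + 2 ≤ c (j + 1)
  hQ : PT V Q
  hq : PT U q
  hQD : D ≤ Q
  hqD : D ≤ q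
  rV : ROne V c
  rU : ROne U d

/-- growth of the images of expanding intervals -/
def GR (c d : ℤ → ℤ) : Prop := ∀ (D : ℤ) (a b δ δ' : ℕ → ℤ),
  (∀ k, 0 ≤ δ k ∧ δ k ≤ D ∧ 0 ≤ δ' k ∧ δ' k ≤ D) → (∀ k, a (k + 1) = c (a k) - δ k) →
  (∀ k, b (k + 1) = c (b k) + δ' k) → a 0 < b 0 →
  ∃ (θ : ℝ) (e : ℕ) (κ K : ℝ), 1 < θ ∧ 0 < κ ∧ 0 < K ∧ ∀ k : ℕ,
    κ * ((k : ℝ) + 1) ^ e * θ ^ k ≤ ((d (b k) - d (a k) : ℤ) : ℝ) ∧
    ((d (b k) - d (a k) : ℤ) : ℝ) ≤ K * ((k : ℝ) + 1) ^ e * θ ^ k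

/-- TASK GRO -/
def S_GRO : Prop := ∀ (B C : Type) [Fintype B] [Fintype C] (τ : B → List B) (f : B → List C)
  (V : ℤ → B) (U : ℤ → C) (c d : ℤ → ℤ), (∀ b, 2 ≤ (τ b).length) → (∀ b, f b ≠ []) →
  Des τ V V c → Des f V U d → GR c d

/-- TASK UL: two left breaks of long runs with the same small windows have the same big windows.
(The version for `V` is the case `U = V`, `d = c`, `q = Q`.) -/
def S_UL : Prop := ∀ (B C : Type) [Finite B] [Finite C] (V : ℤ → B) (U : ℤ → C) (c d : ℤ → ℤ)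
  (m D Q q : ℕ), Ctx V U c d m D Q q → ∃ K : ℕ, ∀ M : ℕ, ∃ l : ℕ, ∀ α β : ℤ, LB U q α l →
    LB U q β l → (∀ t : ℤ, -K ≤ t → t < q → U (α + t) = U (β + t)) →
    ∀ t : ℤ, -M ≤ t → t < q → U (α + t) = U (β + t)

/-- `w` has period `q` inside the margins of length `K` -/
def NPK {C : Type} (q K : ℕ) {n : ℕ} (w : Fin n → C) : Prop :=
  ∀ s t : Fin n, (t : ℕ) = s + q → K ≤ (s : ℕ) → (t : ℕ) + K < n → w t = w s

/-- the number of words `T[α-x, α+l+y)` where `[α, α+l)` is a maximal run of period `q` -/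
noncomputable def NX {C : Type} (T : ℤ → C) (q x y l : ℕ) : ℕ :=
  (wd T (x + l + y) '' {i : ℤ | PerOn T q (i + x) (i + x + l) ∧ T (i + x - 1 + q) ≠ T (i + x - 1) ∧
    T (i + x + l) ≠ T (i + x + l - q)}).ncard

open Classical in
/-- TASK EXA: the almost periodic bispecial words are counted by the maximal runs -/
def S_EXA : Prop := ∀ (C : Type) [Fintype C] (T : ℤ → C) (q K : ℕ), 0 < q → ∃ R : ℤ, ∀ n : ℕ,
  |∑ l ∈ Finset.range n, ∑ w ∈ (Set.toFinite (wd T l '' {i | NPK q K (wd T l i)})).toFinset, mul T w -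
    ∑ l ∈ Finset.range n, (NX T q (K + 1) (K + 1) l : ℤ)| ≤ R

/-- TASK RC: counting the maximal runs in `U` -/
def S_RC : Prop := ∀ (B C : Type) [Fintype B] [Fintype C] (V : ℤ → B) (U : ℤ → C) (c d : ℤ → ℤ)
  (m D Q q : ℕ), Ctx V U c d m D Q q → GR c d → ∃ x0 : ℕ, ∀ x : ℕ, x0 ≤ x → ∃ A B' K : ℝ,
    ∀ n : ℕ, 3 ≤ n → |((∑ l ∈ Finset.range n, NX U q x x l : ℕ) : ℝ) - A * Real.log n -
      B' * Real.log (Real.log n)| ≤ K

end Pool.Agent.T2h96.FC
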