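import Pool.Agent.T2h96.FC.Stm3

/-!
# Alignment of the occurrences of a child, one step
-/

set_option autoImplicit false

namespace Pool.Agent.T2h96.FC

theorem t_AL : S_AL := by
  intro B C V T c m D q L1 g E h hAH hg1 hg hE0 hDE K hLK F n F' n' L R hch hn' hnp j hj i' hag
  have hD0 : (0 : ℤ) ≤ D := by positivity
  have hm0 : (0 : ℤ) ≤ m := by positivity
  have hlen := hch.len j hj
  have hR0 := hch.R0
  have hL0 := hch.L0
  have hiF : c j - L ∈ F' := by rw [hch.im]; exact ⟨j, hj, rfl⟩
  obtain ⟨t, ht1, ht2, ht3⟩ := hAH K hLK (c j - L + E) (n' - 2 * E) (by linarith) (by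
    have := hnp _ hiF
    rwa [show c j - L + E + K = c j - L + (K + E) by ring,
      show c j - L + E + (n' - 2 * E) - K = c j - L + n' - (K + E) by ring])
  obtain ⟨x0, hx0⟩ := ht3 (c j - L + E) fun s _ _ => rfl
  obtain ⟨x0', hx0'⟩ := ht3 (i' + E) fun s h0 h1 => by
    have := hag (E + s) (by linarith) (by linarith)
    rwa [← add_assoc, ← add_assoc] at this
  have hgm : ∀ {i j : ℤ}, i ≤ j → c i + g * (j - i) ≤ c j := by
    intro i j hij
    have hgM : ∀ i : ℤ, ∀ n : ℕ, c i + g * n ≤ c (i + n) := by
      intro i n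
      induction n with
      | zero => simp
      | succ n ih => have := hg (i + n); push_cast; rw [← add_assoc]; nlinarith
    have := hgM i (j - i).toNat
    rwa [Int.toNat_of_nonneg (by linarith), show i + (j - i) = j by ring] at this
  have ht0 : 0 ≤ t := by linarith [show (0 : ℤ) ≤ L1 by positivity]
  -- reading
  have hR : ∀ y, x0 ≤ y → y ≤ j + n - D → V y = V (x0' - x0 + y) := by
    intro y h1 h2
    have h3 := h.read' (i := x0) (j := x0') (N := n' - 2 * E - t) (fun s h0 h1 => by
      have := hag (E + t + s) (by linarith) (by linarith)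
      rw [hx0, hx0', show c j - L + E + t + s = c j - L + (E + t + s) by ring, ← this]
      congr 1; ring) (r := y - x0) (by linarith) (by
      rw [show x0 + (y - x0) = y by ring]
      have h4 := hgm (show y ≤ j + n by linarith)
      have h5 : g * D ≤ g * (j + n - y) := mul_le_mul_of_nonneg_left (by linarith) (by linarith)
      linarith)
    rwa [show x0 + (y - x0) = y by ring, show x0' + (y - x0) = x0' - x0 + y by ring] at h3
  have hL : ∀ y, j + D ≤ y → y < x0 → V y = V (x0' - x0 + y) := by
    intro y h1 h2
    have h3 := h.readL (i := x0) (j := x0') (N := t) (fun s h0 h1 => by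
      have := hag (E + t - 1 - s) (by linarith) (by linarith)
      rw [hx0, hx0', show c j - L + E + t - 1 - s = c j - L + (E + t - 1 - s) by ring, ← this]
      congr 1; ring) (r := x0 - 1 - y) (by linarith) (by
      rw [show x0 - (x0 - 1 - y) = y + 1 by ring]
      have h4 := hgm (show j ≤ y + 1 by linarith)
      have h5 : g * D ≤ g * (y + 1 - j) := mul_le_mul_of_nonneg_left (by linarith) (by linarith)
      linarith)
    rwa [show x0 - 1 - (x0 - 1 - y) = y by ring, show x0' - 1 - (x0 - 1 - y) = x0' - x0 + y by ring] at h3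
  refine ⟨x0' - x0 + j, fun s h1 h2 => ?_, fun x h1 h2 => ?_⟩
  · rcases lt_or_ge (j + s) x0 with h3 | h3
    · rw [hL (j + s) (by linarith) h3]; congr 1; ring
    · rw [hR (j + s) h3 (by linarith)]; congr 1; ring
  · rcases lt_or_ge (j + x) x0 with h3 | h3
    · obtain ⟨h4, -⟩ := h.img' (i := j + x) (j := x0' - x0 + j + x) (n := x0 - (j + x)) (by linarith)
        fun s h5 h6 => by rw [hL (j + x + s) (by linarith) (by linarith)]; congr 1; ring
      rw [show j + x + (x0 - (j + x)) = x0 by ring,
        show x0' - x0 + j + x + (x0 - (j + x)) = x0' by ring] at h4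
      linarith
    · obtain ⟨h4, -⟩ := h.img' (i := x0) (j := x0') (n := j + x - x0) (by linarith)
        fun s h5 h6 => by rw [hR (x0 + s) (by linarith) (by linarith)]; congr 1; ring
      rw [show x0 + (j + x - x0) = j + x by ring,
        show x0' + (j + x - x0) = x0' - x0 + j + x by ring] at h4
      linarith

end Pool.Agent.T2h96.FC
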