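import Pool.Agent.T2h96.FC.Stm

/-!
Task ASY of project FC (helper96).
-/

set_option autoImplicit false

open Filter Asymptotics

namespace Pool.Agent.T2h96.FC

namespace AsyAux

theorem tlog : Tendsto (fun n : ℕ => Real.log (n : ℝ)) atTop atTop :=
  Real.tendsto_log_atTop.comp tendsto_natCast_atTop_atTop

theorem tloglog : Tendsto (fun n : ℕ => Real.log (Real.log (n : ℝ))) atTop atTop :=
  Real.tendsto_log_atTop.comp tlog

theorem ologlog : (fun n : ℕ => Real.log (Real.log (n : ℝ))) =o[atTop]
    (fun n : ℕ => Real.log (n : ℝ)) :=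
  Real.isLittleO_log_id_atTop.comp_tendsto tlog

theorem one_o {g : ℕ → ℝ} (hg : Tendsto g atTop atTop) : (fun _ : ℕ => (1 : ℝ)) =o[atTop] g := by
  rw [isLittleO_const_left]
  right
  exact tendsto_norm_atTop_atTop.comp hg

end AsyAux

open AsyAux in
theorem t_ASY : S_ASY := by
  intro s A B K hs hs0 hunb
  have hO : (fun n : ℕ => s n - A * Real.log n - B * Real.log (Real.log n)) =O[atTop]
      (fun _ : ℕ => (1 : ℝ)) := by
    refine IsBigO.of_bound K ?_
    filter_upwards [eventually_ge_atTop 3] with n hn
    rw [norm_one, mul_one, Real.norm_eq_abs]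
    exact hs n hn
  have key : A ≠ 0 → IsEquivalent atTop s (fun n : ℕ => A * Real.log (n : ℝ)) := by
    intro hA
    have h1 : (fun n : ℕ => s n - A * Real.log n) =o[atTop] (fun n : ℕ => Real.log (n : ℝ)) := by
      have h2 := (hO.trans_isLittleO (one_o tlog)).add (ologlog.const_mul_left B)
      refine h2.congr (fun n => ?_) (fun _ => rfl)
      ring
    exact (isLittleO_const_mul_right_iff hA).mpr h1
  rcases lt_trichotomy A 0 with hA | hA | hA
  · exfalso
    have h1 : Tendsto (fun n : ℕ => A * Real.log (n : ℝ)) atTop atBot :=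
      tlog.const_mul_atTop_of_neg hA
    have h2 := (key hA.ne).symm.tendsto_atBot h1
    obtain ⟨n, hn⟩ := (h2.eventually (eventually_lt_atBot 0)).exists
    exact absurd (hs0 n) (not_le.mpr hn)
  · subst hA
    have hO' : (fun n : ℕ => s n - B * Real.log (Real.log n)) =O[atTop] (fun _ : ℕ => (1 : ℝ)) := by
      refine hO.congr (fun n => ?_) (fun _ => rfl)
      ring
    rcases le_or_gt B 0 with hB | hB
    · exfalso
      obtain ⟨n, hn⟩ := hunb (max K (max (s 0) (max (s 1) (s 2))))
      have h0 : s 0 < s n := lt_of_le_of_lt (by simp) hn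
      have h1 : s 1 < s n := lt_of_le_of_lt (by simp) hn
      have h2 : s 2 < s n := lt_of_le_of_lt (by simp) hn
      have hK : K < s n := lt_of_le_of_lt (le_max_left _ _) hn
      have hn3 : 3 ≤ n := by
        by_contra h
        have : n = 0 ∨ n = 1 ∨ n = 2 := by omega
        rcases this with h | h | h <;> subst h
        · exact lt_irrefl _ h0
        · exact lt_irrefl _ h1
        · exact lt_irrefl _ h2
      have h3 := (abs_le.mp (hs n hn3)).2
      have h4 : 1 ≤ Real.log (n : ℝ) := by
        have h5 : Real.exp 1 ≤ (n : ℝ) := by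
          have h6 := Real.exp_one_lt_d9
          have h7 : (3 : ℝ) ≤ n := by exact_mod_cast hn3
          linarith
        rw [Real.le_log_iff_exp_le (by have := Real.exp_pos 1; linarith)]
        exact h5
      have h8 : 0 ≤ Real.log (Real.log (n : ℝ)) := Real.log_nonneg h4
      nlinarith [mul_nonneg (neg_nonneg.mpr hB) h8]
    · refine ⟨B, hB, Or.inl ?_⟩
      exact hO'.trans_isLittleO (one_o (tloglog.const_mul_atTop hB))
  · exact ⟨A, hA, Or.inr (key hA.ne')⟩

end Pool.Agent.T2h96.FC
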