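import Pool.Agent.T2h96.FC.T_SUR

/-!
# TASK CC: all the occurrences of a descendant of a seed are aligned
-/

set_option autoImplicit false

namespace Pool.Agent.T2h96.FC.CCm

open Pool.Agent.T2h96.FC
open Pool.Agent.T2h96.FC.SURm

section

variable {B C : Type} {V : ℤ → B} {T : ℤ → C} {c : ℤ → ℤ} {m D : ℕ}

/-- the left part of the composition of two levels -/
lemma kap (h : Stp V T c m D) {S F : Set ℤ} {n lam : ℤ} {e : ℤ → ℤ} (hF : Fm V F n)
    (him : F = (fun j => e j - lam) '' S) (h0 : 0 ≤ lam) (h1 : lam ≤ n) :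
    ∃ κ : ℤ, 0 ≤ κ ∧ ∀ j ∈ S, c (e j) - c (e j - lam) = κ := by
  obtain ⟨_, hj0, -⟩ := hF.lft
  rw [him] at hj0
  obtain ⟨j0, hj0, -⟩ := hj0
  refine ⟨c (e j0) - c (e j0 - lam), ?_, fun j hj => ?_⟩
  · have := h.mono (show e j0 - lam ≤ e j0 by linarith)
    linarith
  · obtain ⟨h2, -⟩ := h.img' (i := e j - lam) (j := e j0 - lam) (n := lam) h0 fun t ht0 ht1 =>
      hF.com _ (by rw [him]; exact ⟨j, hj, rfl⟩) _ (by rw [him]; exact ⟨j0, hj0, rfl⟩) t ht0
        (by linarith)
    rw [show e j - lam + lam = e j by ring, show e j0 - lam + lam = e j0 by ring] at h2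
    exact h2

/-- the right part of the composition of two levels -/
lemma kap' (h : Stp V T c m D) {S F : Set ℤ} {n lam rho : ℤ} {e e' : ℤ → ℤ} (hF : Fm V F n)
    (him : F = (fun j => e j - lam) '' S) (h0 : 0 ≤ rho) (h1 : rho ≤ n)
    (hlen : ∀ j ∈ S, n = e' j - e j + lam + rho) :
    ∃ κ : ℤ, 0 ≤ κ ∧ ∀ j ∈ S, c (e' j + rho) - c (e' j) = κ := by
  obtain ⟨_, hj0, -⟩ := hF.lft
  rw [him] at hj0
  obtain ⟨j0, hj0, -⟩ := hj0
  refine ⟨c (e' j0 + rho) - c (e' j0), ?_, fun j hj => ?_⟩
  · have := h.mono (show e' j0 ≤ e' j0 + rho by linarith)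
    linarith
  · obtain ⟨h2, -⟩ := h.img' (i := e' j) (j := e' j0) (n := rho) h0 fun t ht0 ht1 => by
      have := hF.com _ (by rw [him]; exact ⟨j, hj, rfl⟩) _ (by rw [him]; exact ⟨j0, hj0, rfl⟩)
        (n - rho + t) (by linarith) (by linarith)
      simp only at this
      have e1 := hlen j hj
      have e2 := hlen j0 hj0
      rwa [show e j - lam + (n - rho + t) = e' j + t by linarith,
        show e j0 - lam + (n - rho + t) = e' j0 + t by linarith] at this
    exact h2

end

/-- TASK CC -/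
theorem t_CC (hUNI : S_UNI) (hCHE : S_CHE) (hAL : S_AL) : S_CC := by
  intro B C V U c d m D Q q LV LU X hAV hAU M K L2 L4 hLVM hLUK hM2 hK2 hD2 s hs k L R hLv
  have hD0 : (0 : ℤ) ≤ D := by positivity
  -- the claim for `V`
  have claim : ∀ k : ℕ, ∃ lam rho : ℤ, 0 ≤ lam ∧ 0 ≤ rho ∧
      (Vk V c D s k).1 = (fun j => c^[k] j - lam) '' s.1 ∧
      (∀ j ∈ s.1, (Vk V c D s k).2 = c^[k] (j + s.2) - c^[k] j + lam + rho) ∧
      ∀ j ∈ s.1, ∀ i' : ℤ, (∀ t, (D : ℤ) ≤ t → t < (Vk V c D s k).2 - D →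
        V (i' + t) = V (c^[k] j - lam + t)) →
      ∃ j', (∀ t, (D : ℤ) ≤ t → t < s.2 - D → V (j' + t) = V (j + t)) ∧
        ∀ x, (D : ℤ) ≤ x → x ≤ s.2 - D → c^[k] (j' + x) - i' = c^[k] (j + x) - (c^[k] j - lam) := by
    intro k
    induction k with
    | zero =>
      refine ⟨0, 0, le_rfl, le_rfl, ?_, ?_, ?_⟩
      · show s.1 = _
        simp
      · intro j hj
        show s.2 = _
        simp
      · intro j hj i' h1
        refine ⟨i', fun t h2 h3 => ?_, fun x h2 h3 => ?_⟩
        · have := h1 t h2 h3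
          simpa using this
        · simp
    | succ k ih =>
      obtain ⟨lam, rho, hl0, hr0, him, hlen, hal⟩ := ih
      obtain ⟨L, R, hC⟩ := nx_spec hCHE X.hV (hs.fV k)
      have e1 : nx V V c D ((Vk V c D s k).1, (Vk V c D s k).2) = Vk V c D s (k + 1) := by
        unfold Vk
        rw [Function.iterate_succ_apply']
      rw [e1] at hC
      have hn := (hs.fV 0).n0
      have hn' : 0 ≤ s.2 := hn
      obtain ⟨j0, hj0⟩ := Fm.ne (hs.fV 0)
      have hj0' : j0 ∈ s.1 := hj0
      have hmn := it_lb X.hV k (show j0 ≤ j0 + s.2 by linarith)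
      have hl1 : lam ≤ (Vk V c D s k).2 := by
        have := hlen j0 hj0'
        linarith
      have hr1 : rho ≤ (Vk V c D s k).2 := by
        have := hlen j0 hj0'
        linarith
      obtain ⟨κ, hκ0, hκ⟩ := kap X.hV (hs.fV k) him hl0 hl1
      obtain ⟨κ', hκ0', hκ'⟩ := kap' (e' := fun j => c^[k] (j + s.2)) X.hV (hs.fV k) him hr0 hr1 hlen
      refine ⟨L + κ, R + κ', by linarith [hC.L0], by linarith [hC.R0], ?_, ?_, ?_⟩
      · rw [hC.im, him, Set.image_image]
        refine Set.image_congr fun j hj => ?_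
        have := hκ j hj
        rw [Function.iterate_succ_apply']
        linarith
      · intro j hj
        have h1 := hC.len (c^[k] j - lam) (by rw [him]; exact ⟨j, hj, rfl⟩)
        have h2 := hlen j hj
        rw [show c^[k] j - lam + (Vk V c D s k).2 = c^[k] (j + s.2) + rho by linarith] at h1
        simp only [Function.iterate_succ_apply']
        have h3 := hκ j hj
        have h4 := hκ' j hj
        linarith
      · intro j hj i2 h1
        have hκj := hκ j hj
        obtain ⟨i1, h2, h3⟩ := hAL B B V V c m D Q LV 2 D X.hV hAV (by norm_num) X.hg hD0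
          (by linarith) (M - D) (by linarith) (Vk V c D s k).1 (Vk V c D s k).2
          (Vk V c D s (k + 1)).1 (Vk V c D s (k + 1)).2 L R hC
          (by have := hs.lo (k + 1); linarith)
          (fun i hi => by
            rw [show M - (D : ℤ) + D = M by ring]
            exact hs.nV (k + 1) i hi)
          (c^[k] j - lam) (by rw [him]; exact ⟨j, hj, rfl⟩) i2 (fun t ht0 ht1 => by
            have := h1 t ht0 ht1
            rw [this, Function.iterate_succ_apply']
            congr 1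
            linarith)
        obtain ⟨j', h4, h5⟩ := hal j hj i1 h2
        refine ⟨j', h4, fun x hx0 hx1 => ?_⟩
        have h6 := h5 x hx0 hx1
        have h7 := it_lb X.hV k (show j ≤ j + x by linarith)
        have h8 := it_lb X.hV k (show j + x ≤ j + s.2 by linarith)
        have h9 := hlen j hj
        have h10 := h3 (c^[k] (j + x) - (c^[k] j - lam)) (by linarith) (by linarith)
        rw [show i1 + (c^[k] (j + x) - (c^[k] j - lam)) = c^[k] (j' + x) by linarith,
          show c^[k] j - lam + (c^[k] (j + x) - (c^[k] j - lam)) = c^[k] (j + x) by ring] at h10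
        simp only [Function.iterate_succ_apply']
        linarith
  obtain ⟨lam, rho, hl0, hr0, him, hlen, hal⟩ := claim k
  obtain ⟨L0, R0, hC⟩ := nx_spec hCHE X.hU (hs.fV k)
  have e1 : nx V U d D ((Vk V c D s k).1, (Vk V c D s k).2) = Uk V U c d D s k := rfl
  rw [e1] at hC
  have hn' : 0 ≤ s.2 := (hs.fV 0).n0
  obtain ⟨j0, hj0⟩ := Fm.ne (hs.fV 0)
  have hj0' : j0 ∈ s.1 := hj0
  have hmn := it_lb X.hV k (show j0 ≤ j0 + s.2 by linarith)
  have hlen0 := hlen j0 hj0'
  have hl1 : lam ≤ (Vk V c D s k).2 := by linarith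
  obtain ⟨κ, hκ0, hκ⟩ := kap X.hU (hs.fV k) him hl0 hl1
  have him2 : (Uk V U c d D s k).1 = (fun j => d (c^[k] j) - (L0 + κ)) '' s.1 := by
    rw [hC.im, him, Set.image_image]
    refine Set.image_congr fun j hj => ?_
    have := hκ j hj
    linarith
  have hLeq : L = L0 + κ := by
    have f1 := hLv.fU
    have f2 := hLv.fU
    rw [hLv.im] at f1
    rw [him2] at f2
    refine (hUNI C U s.1 (fun j => d (c^[k] j)) L (L0 + κ) _ _ f1 f2 hLv.L0 ?_
      (by linarith [hC.L0]) ?_).1
    · have h1 := hLv.len j0 hj0'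
      have h2 := e_mono X.hV X.hU k (show j0 ≤ j0 + s.2 by linarith)
      linarith [hLv.R0]
    · have h1 := hC.len (c^[k] j0 - lam) (by rw [him]; exact ⟨j0, hj0', rfl⟩)
      have h2 := X.hU.mono (show c^[k] j0 ≤ c^[k] j0 - lam + (Vk V c D s k).2 by linarith)
      have h3 := hκ j0 hj0'
      linarith [hC.R0]
  intro j hj i' h1
  have hκj := hκ j hj
  have hlo := hs.lo k
  have hlen1 := Ch.lb X.hU hC
  obtain ⟨i1, h2, h3⟩ := hAL B C V U d m D q LU 1 0 X.hU hAU le_rfl X.hU.pos le_rfl
    (by linarith) K hLUK (Vk V c D s k).1 (Vk V c D s k).2 (Uk V U c d D s k).1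
    (Uk V U c d D s k).2 L0 R0 hC (by linarith)
    (fun i hi => by
      rw [show K + (0 : ℤ) = K by ring]
      exact hs.nU k i hi)
    (c^[k] j - lam) (by rw [him]; exact ⟨j, hj, rfl⟩) i' (fun t ht0 ht1 => by
      have := h1 t ht0 (by linarith)
      rw [this]
      congr 1
      linarith)
  obtain ⟨j', h4, h5⟩ := hal j hj i1 h2
  refine ⟨j', h4, fun x hx0 hx1 => ?_⟩
  have h6 := h5 x hx0 hx1
  have h7 := it_lb X.hV k (show j ≤ j + x by linarith)
  have h8 := it_lb X.hV k (show j + x ≤ j + s.2 by linarith)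
  have h9 := hlen j hj
  have h10 := h3 (c^[k] (j + x) - (c^[k] j - lam)) (by linarith) (by linarith)
  rw [show i1 + (c^[k] (j + x) - (c^[k] j - lam)) = c^[k] (j' + x) by linarith,
    show c^[k] j - lam + (c^[k] (j + x) - (c^[k] j - lam)) = c^[k] (j + x) by ring] at h10
  linarith

end Pool.Agent.T2h96.FC.CCm
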