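import Pool.Agent.T2h96.FC.Stm3

/-!
# TASK CHE and TASK UNI: every family has a unique child
-/

set_option autoImplicit false

namespace Pool.Agent.T2h96.FC.CHEm

open Pool.Agent.T2h96.FC

/-- TASK UNI -/
theorem t_UNI : S_UNI := by
  intro C T G e t t' n n' h h' ht0 ht ht0' ht'
  have key : ∀ (t t' n n' : ℤ), Fm T ((fun j => e j - t) '' G) n →
      Fm T ((fun j => e j - t') '' G) n' → 0 ≤ t → t' ≤ n' → t < t' → False := by
    intro t t' n n' h h' h0 h1 h2
    obtain ⟨_, ⟨i, hi, rfl⟩, _, ⟨j, hj, rfl⟩, h3⟩ := h.lft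
    have := h'.com (e i - t') ⟨i, hi, rfl⟩ (e j - t') ⟨j, hj, rfl⟩ (t' - t - 1) (by linarith)
      (by linarith)
    apply h3
    simp only
    rwa [show e i - t' + (t' - t - 1) = e i - t - 1 by ring,
      show e j - t' + (t' - t - 1) = e j - t - 1 by ring] at this
  have e1 : t = t' := by
    rcases lt_trichotomy t t' with h1 | h1 | h1
    · exact (key t t' n n' h h' ht0 ht' h1).elim
    · exact h1
    · exact (key t' t n' n h' h ht0' ht h1).elim
  subst e1
  refine ⟨rfl, ?_⟩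
  have key2 : ∀ (n n' : ℤ), Fm T ((fun j => e j - t) '' G) n →
      Fm T ((fun j => e j - t) '' G) n' → n < n' → False := by
    intro n n' h h' h1
    obtain ⟨i, hi, j, hj, h3⟩ := h.rgt
    exact h3 (h'.com i hi j hj n h.n0 h1)
  rcases lt_trichotomy n n' with h1 | h1 | h1
  · exact (key2 n n' h h' h1).elim
  · exact h1
  · exact (key2 n' n h' h h1).elim

/-- TASK CHE -/
theorem t_CHE : S_CHE := by
  intro B C V T c m D h F n hF
  obtain ⟨i0, hi0, -⟩ := hF.lft
  have hP : NC V F (fun j => j + n) := hF.rgt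
  obtain ⟨R, hRD, hR⟩ := h.bet hP
  have hP' : NC (rf V) F (fun j => -j) := by
    obtain ⟨i, hi, j, hj, h1⟩ := hF.lft
    refine ⟨i, hi, j, hj, ?_⟩
    unfold rf
    rwa [show -1 - -i = i - 1 by ring, show -1 - -j = j - 1 by ring]
  obtain ⟨L, hLD, hL⟩ := h.refl.bet hP'
  have hL1 : ∀ i ∈ F, ∀ j ∈ F, ∀ t, 0 ≤ t → t < L → T (c i - 1 - t) = T (c j - 1 - t) := by
    intro i hi j hj t h1 h2
    have := hL.2.1 i hi j hj t h1 h2
    unfold rf rc at this
    simp only [neg_neg] at this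
    rwa [show -1 - (-c i + t) = c i - 1 - t by ring, show -1 - (-c j + t) = c j - 1 - t by ring] at this
  have hL2 : ∃ i ∈ F, ∃ j ∈ F, T (c i - 1 - L) ≠ T (c j - 1 - L) := by
    obtain ⟨i, hi, j, hj, this⟩ := hL.2.2
    refine ⟨i, hi, j, hj, ?_⟩
    unfold rf rc at this
    simp only [neg_neg] at this
    rwa [show -1 - (-c i + L) = c i - 1 - L by ring, show -1 - (-c j + L) = c j - 1 - L by ring] at this
  have hL0 := hL.1
  have hR0 := hR.1
  have hI : ∀ i ∈ F, ∀ j ∈ F, c (i + n) - c i = c (j + n) - c j ∧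
      ∀ t, 0 ≤ t → t < c (i + n) - c i → T (c i + t) = T (c j + t) :=
    fun i hi j hj => h.img' hF.n0 (hF.com i hi j hj)
  have hp : 0 ≤ c (i0 + n) - c i0 := by
    have := h.mono (show i0 ≤ i0 + n by linarith [hF.n0])
    linarith
  refine ⟨(fun j => c j - L) '' F, c (i0 + n) - c i0 + L + R, L, R, hF, ⟨?_, ?_, ?_, ?_⟩, hL0, hLD,
    hR0, hRD, rfl, ?_⟩
  · linarith
  · rintro _ ⟨i, hi, rfl⟩ _ ⟨j, hj, rfl⟩ t ht0 ht1
    simp only
    rcases lt_or_ge t L with h1 | h1
    · have := hL1 i hi j hj (L - 1 - t) (by linarith) (by linarith)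
      rwa [show c i - 1 - (L - 1 - t) = c i - L + t by ring,
        show c j - 1 - (L - 1 - t) = c j - L + t by ring] at this
    rcases lt_or_ge (t - L) (c (i0 + n) - c i0) with h2 | h2
    · have := (hI i hi j hj).2 (t - L) (by linarith) (by linarith [(hI i hi i0 hi0).1])
      rwa [show c i + (t - L) = c i - L + t by ring, show c j + (t - L) = c j - L + t by ring] at this
    · have := hR.2.1 i hi j hj (t - L - (c (i0 + n) - c i0)) (by linarith) (by linarith)
      simp only at this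
      have e1 := (hI i hi i0 hi0).1
      have e2 := (hI j hj i0 hi0).1
      rwa [show c (i + n) + (t - L - (c (i0 + n) - c i0)) = c i - L + t by linarith,
        show c (j + n) + (t - L - (c (i0 + n) - c i0)) = c j - L + t by linarith] at this
  · obtain ⟨i, hi, j, hj, h1⟩ := hL2
    refine ⟨_, ⟨i, hi, rfl⟩, _, ⟨j, hj, rfl⟩, ?_⟩
    simp only
    rwa [show c i - L - 1 = c i - 1 - L by ring, show c j - L - 1 = c j - 1 - L by ring]
  · obtain ⟨i, hi, j, hj, h1⟩ := hR.2.2
    refine ⟨_, ⟨i, hi, rfl⟩, _, ⟨j, hj, rfl⟩, ?_⟩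
    simp only at h1 ⊢
    have e1 := (hI i hi i0 hi0).1
    have e2 := (hI j hj i0 hi0).1
    rwa [show c i - L + (c (i0 + n) - c i0 + L + R) = c (i + n) + R by linarith,
      show c j - L + (c (i0 + n) - c i0 + L + R) = c (j + n) + R by linarith]
  · intro j hj
    have e1 := (hI j hj i0 hi0).1
    linarith

end Pool.Agent.T2h96.FC.CHEm
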