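import Pool.Agent.T2h96.FC.T_MLP

set_option autoImplicit false

namespace Pool.Agent.T2h96.FC

lemma IsR.single {C : Type} {U : ℤ → C} {X : Set ℤ} {e : ℤ → ℤ} {T x0 y : ℤ} (hT : IsR U X e T)
    (hx0 : x0 ∈ X) : (∀ s, 0 ≤ s → s < T → U (e y + s) = U (e x0 + s)) ↔
      (∀ x ∈ X, ∀ s, 0 ≤ s → s < T → U (e y + s) = U (e x + s)) :=
  ⟨fun h x hx s h0 h1 => (h s h0 h1).trans (hT.2.1 x0 hx0 x hx s h0 h1), fun h => h x0 hx0⟩

section

variable {B C : Type} {V : ℤ → B} {U : ℤ → C} {c d : ℤ → ℤ} {m D : ℕ}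

lemma Fm.coreR {F : Set ℤ} {n : ℤ} (h : Fm V F n) (hD : 2 * (D : ℤ) ≤ n) :
    IsR V ((fun j => j + n - D) '' F) id D := by
  refine ⟨by positivity, ?_, ?_⟩
  · rintro _ ⟨i, hi, rfl⟩ _ ⟨j, hj, rfl⟩ t h0 h1
    have := h.com i hi j hj (n - D + t) (by linarith [show (0 : ℤ) ≤ D by positivity]) (by linarith)
    simp only [id_eq]
    rwa [show i + n - D + t = i + (n - D + t) by ring, show j + n - D + t = j + (n - D + t) by ring]
  · obtain ⟨i, hi, j, hj, h1⟩ := h.rgt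
    refine ⟨i + n - D, ⟨i, hi, rfl⟩, j + n - D, ⟨j, hj, rfl⟩, ?_⟩
    simp only [id_eq]
    rwa [show i + n - D + (D : ℤ) = i + n by ring, show j + n - D + (D : ℤ) = j + n by ring]

lemma Fm.coreL {F : Set ℤ} {n : ℤ} (h : Fm V F n) (hD : 2 * (D : ℤ) ≤ n) :
    IsR (rf V) ((fun j => -(j + D)) '' F) id D := by
  refine ⟨by positivity, ?_, ?_⟩
  · rintro _ ⟨i, hi, rfl⟩ _ ⟨j, hj, rfl⟩ t h0 h1
    have := h.com i hi j hj (D - 1 - t) (by linarith) (by linarith [show (0 : ℤ) ≤ D by positivity])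
    simp only [id_eq]
    unfold rf
    rwa [show -1 - (-(i + D) + t) = i + (D - 1 - t) by ring,
      show -1 - (-(j + D) + t) = j + (D - 1 - t) by ring]
  · obtain ⟨i, hi, j, hj, h1⟩ := h.lft
    refine ⟨-(i + D), ⟨i, hi, rfl⟩, -(j + D), ⟨j, hj, rfl⟩, ?_⟩
    simp only [id_eq]
    unfold rf
    rwa [show -1 - (-(i + D) + (D : ℤ)) = i - 1 by ring, show -1 - (-(j + D) + (D : ℤ)) = j - 1 by ring]

lemma Lv.coreR (hV : Stp V V c m D) (hU : Stp V U d m D) {k : ℕ} {F : Set ℤ} {n : ℤ} {F' : Set ℤ}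
    {n' L R : ℤ} (h : Lv V U c d k F n F' n' L R) (hD : 2 * (D : ℤ) ≤ n) {j : ℤ} (hj : j ∈ F) :
    IsR U ((fun j => j + n - D) '' F) (fun j => d (c^[k] j))
      (d (c^[k] (j + n)) - d (c^[k] (j + n - D)) + R) := by
  obtain ⟨r, h1, h2⟩ := (h.fV.coreR hD).up hV hU k
  have h3 : (fun x => x + (D : ℤ)) '' ((fun j => j + n - D) '' F) = (fun j => j + n) '' F := by
    rw [Set.image_image]; exact Set.image_congr fun x _ => by ring
  rw [h3] at h1
  have h4 := h1.unique (h.isR hV hU)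
  have h5 := h2 (j + n - D) ⟨j, hj, rfl⟩
  rwa [h4, show j + n - D + (D : ℤ) = j + n by ring] at h5

lemma Lv.coreL (hV : Stp V V c m D) (hU : Stp V U d m D) {k : ℕ} {F : Set ℤ} {n : ℤ} {F' : Set ℤ}
    {n' L R : ℤ} (h : Lv V U c d k F n F' n' L R) (hD : 2 * (D : ℤ) ≤ n) {j : ℤ} (hj : j ∈ F) :
    IsR (rf U) ((fun j => -(j + D)) '' F) (fun j => rc d ((rc c)^[k] j))
      (d (c^[k] (j + D)) - d (c^[k] j) + L) := by
  obtain ⟨r, h1, h2⟩ := (h.fV.coreL hD).up hV.refl hU.refl k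
  have h3 : (fun x => x + (D : ℤ)) '' ((fun j => -(j + D)) '' F) = (fun j => -j) '' F := by
    rw [Set.image_image]; exact Set.image_congr fun x _ => by ring
  rw [h3] at h1
  have h4 := h1.unique (h.isL hV hU)
  have h5 := h2 (-(j + D)) ⟨j, hj, rfl⟩
  rw [h4, show -(j + D) + (D : ℤ) = -j by ring, rcd_it, rcd_it] at h5
  rwa [show d (c^[k] (j + D)) - d (c^[k] j) + L = -d (c^[k] j) - -d (c^[k] (j + D)) + L by ring]

end

theorem t_CLP (hRAP : S_RAP) : S_CLP := by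
  intro B C _ V U c d m D hV hg hU
  obtain ⟨N1, P1, hP1, h1⟩ := hRAP B C V U c d m D hV hg hU
  obtain ⟨N2, P2, hP2, h2⟩ := hRAP B C (rf V) (rf U) (rc c) (rc d) m D hV.refl (gap_refl hg) hU.refl
  refine ⟨max N1 N2, P1 * P2, Nat.mul_pos hP1 hP2, ?_⟩
  intro k hk r F n F' n' L R F'' n'' L' R' hD hl hl'
  have key : ∀ j ∈ F, ∀ j' : ℤ,
      ((∀ s : ℤ, 0 ≤ s → s < d (c^[k] (j + n)) - d (c^[k] (j + n - D)) + R →
        U (d (c^[k] (j' + n - D)) + s) = U (d (c^[k] (j + n - D)) + s)) ↔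
      (∀ s : ℤ, 0 ≤ s → s < d (c^[k + r * (P1 * P2)] (j + n)) - d (c^[k + r * (P1 * P2)] (j + n - D))
          + R' → U (d (c^[k + r * (P1 * P2)] (j' + n - D)) + s) =
            U (d (c^[k + r * (P1 * P2)] (j + n - D)) + s))) ∧
      ((∀ s : ℤ, 0 ≤ s → s < d (c^[k] (j + D)) - d (c^[k] j) + L →
        U (d (c^[k] (j' + D)) - 1 - s) = U (d (c^[k] (j + D)) - 1 - s)) ↔
      (∀ s : ℤ, 0 ≤ s → s < d (c^[k + r * (P1 * P2)] (j + D)) - d (c^[k + r * (P1 * P2)] j) + L' →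
        U (d (c^[k + r * (P1 * P2)] (j' + D)) - 1 - s) =
          U (d (c^[k + r * (P1 * P2)] (j + D)) - 1 - s))) := by
    intro j hj j'
    constructor
    · have e1 : r * (P1 * P2) = (r * P2) * P1 := by ring
      have a := hl.coreR hV hU hD hj
      have b := hl'.coreR hV hU hD hj
      rw [e1] at b ⊢
      have s1 := a.single (y := j' + n - D) ⟨j, hj, rfl⟩
      have s2 := b.single (y := j' + n - D) ⟨j, hj, rfl⟩
      simp only at s1 s2
      rw [s1, s2]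
      exact h1 k (le_trans (le_max_left _ _) hk) (r * P2) _ (j' + n - D) _ _ _ (hl.fV.coreR hD) a b
    · have e1 : r * (P1 * P2) = (r * P1) * P2 := by ring
      have a := hl.coreL hV hU hD hj
      have b := hl'.coreL hV hU hD hj
      rw [e1] at b ⊢
      have s1 := a.single (y := -(j' + D)) ⟨j, hj, rfl⟩
      have s2 := b.single (y := -(j' + D)) ⟨j, hj, rfl⟩
      have s3 := h2 k (le_trans (le_max_right _ _) hk) (r * P1) _ (-(j' + D)) _ _ _
        (hl.fV.coreL hD) a b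
      rw [← s1, ← s2] at s3
      simp only [rcd_it] at s3
      unfold rf at s3
      have e2 : ∀ x s : ℤ, -1 - (-x + s) = x - 1 - s := fun x s => by ring
      simp only [e2] at s3
      exact s3
  constructor
  · intro h j hj j' h3 h4 h5
    exact h j hj j' h3 ((key j hj j').1.2 h4) ((key j hj j').2.2 h5)
  · intro h j hj j' h3 h4 h5
    exact h j hj j' h3 ((key j hj j').1.1 h4) ((key j hj j').2.1 h5)

end Pool.Agent.T2h96.FC
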