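import Pool.Agent.T2h96.FC.Stm3

/-!
# Closedness in terms of the cores
-/

set_option autoImplicit false

namespace Pool.Agent.T2h96.FC

theorem t_CLQ : S_CLQ := by
  intro B C V U c d m D hV hU k F n F' n' L R hLv hDn hAl
  have hD0 : (0 : ℤ) ≤ D := by positivity
  have hL0 := hLv.L0
  have hR0 := hLv.R0
  have hm : ∀ {i j : ℤ}, i ≤ j → d (c^[k] i) ≤ d (c^[k] j) := fun hij => e_mono hV hU k hij
  constructor
  · intro hC j hj j' hcore hright hleft
    have hlen := hLv.len j hj
    obtain ⟨i, hi⟩ : ∃ i, i = d (c^[k] j) - L := ⟨_, rfl⟩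
    have hiF : i ∈ F' := by rw [hLv.im, hi]; exact ⟨j, hj, rfl⟩
    have m1 := hm (show j ≤ j + D by linarith)
    have m2 := hm (show j + D ≤ j + n - D by linarith)
    have m3 := hm (show j + n - D ≤ j + n by linarith)
    obtain ⟨e1, e2⟩ := Eimg hV hU k (i := j + D) (j := j' + D) (n := n - 2 * D) (by linarith)
      fun s h0 h1 => by
        have := hcore (D + s) (by linarith) (by linarith)
        rw [← add_assoc, ← add_assoc] at this
        exact this.symm
    rw [show j + D + (n - 2 * D) = j + n - D by ring, show j' + D + (n - 2 * D) = j' + n - D by ring] at e1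
    rw [show j + D + (n - 2 * D) = j + n - D by ring] at e2
    have h1 := hC i hiF (d (c^[k] (j' + D)) - (d (c^[k] (j + D)) - i)) fun s h0 h1 => by
      rcases lt_or_ge s (d (c^[k] (j + D)) - i) with h2 | h2
      · have := hleft (d (c^[k] (j + D)) - i - 1 - s) (by linarith) (by linarith)
        rwa [show d (c^[k] (j' + D)) - 1 - (d (c^[k] (j + D)) - i - 1 - s) =
            d (c^[k] (j' + D)) - (d (c^[k] (j + D)) - i) + s by ring,
          show d (c^[k] (j + D)) - 1 - (d (c^[k] (j + D)) - i - 1 - s) = i + s by ring] at this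
      rcases lt_or_ge s (d (c^[k] (j + n - D)) - i) with h3 | h3
      · have := e2 (s - (d (c^[k] (j + D)) - i)) (by linarith) (by linarith)
        rw [show d (c^[k] (j + D)) + (s - (d (c^[k] (j + D)) - i)) = i + s by ring] at this
        rw [this]; congr 1; ring
      · have := hright (s - (d (c^[k] (j + n - D)) - i)) (by linarith) (by linarith)
        rw [show d (c^[k] (j + n - D)) + (s - (d (c^[k] (j + n - D)) - i)) = i + s by ring] at this
        rw [← this]; congr 1; linarith
    rw [hLv.im] at h1
    obtain ⟨j3, hj3, h2⟩ := h1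
    simp only at h2
    obtain ⟨e3, -⟩ := Eimg hV hU k (i := j3) (j := j) (n := D) hD0
      fun s h0 h1 => hLv.fV.com j3 hj3 j hj s h0 (by linarith)
    have h3 := e_inj hV hU k (i := j3 + D) (j := j' + D) (by linarith)
    have h4 : j3 = j' := by linarith
    rwa [← h4]
  · intro hCL i hi i' hag
    rw [hLv.im] at hi
    obtain ⟨j, hj, rfl⟩ := hi
    simp only at hag
    have hlen := hLv.len j hj
    have m1 := hm (show j ≤ j + D by linarith)
    have m2 := hm (show j + D ≤ j + n - D by linarith)
    have m3 := hm (show j + n - D ≤ j + n by linarith)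
    obtain ⟨j', hcore, hal⟩ := hAl j hj i' hag
    have a1 := hal D le_rfl (by linarith)
    have a2 := hal (n - D) (by linarith) le_rfl
    rw [← add_sub_assoc, ← add_sub_assoc] at a2
    have hj' : j' ∈ F := by
      refine hCL j hj j' hcore (fun s h0 h1 => ?_) (fun s h0 h1 => ?_)
      · have := hag (d (c^[k] (j + n - D)) - (d (c^[k] j) - L) + s) (by linarith) (by linarith)
        rw [show d (c^[k] j) - L + (d (c^[k] (j + n - D)) - (d (c^[k] j) - L) + s) =
          d (c^[k] (j + n - D)) + s by ring] at this
        rw [← this]; congr 1; linarith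
      · have := hag (d (c^[k] (j + D)) - (d (c^[k] j) - L) - 1 - s) (by linarith) (by linarith)
        rw [show d (c^[k] j) - L + (d (c^[k] (j + D)) - (d (c^[k] j) - L) - 1 - s) =
          d (c^[k] (j + D)) - 1 - s by ring] at this
        rw [← this]; congr 1; linarith
    obtain ⟨e3, -⟩ := Eimg hV hU k (i := j') (j := j) (n := D) hD0
      fun s h0 h1 => hLv.fV.com j' hj' j hj s h0 (by linarith)
    rw [hLv.im]
    exact ⟨j', hj', by simp only; linarith⟩

end Pool.Agent.T2h96.FC
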