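import Pool.Agent.T2h96.FC.Stm

/-!
Task CNT of project FC (helper96).
-/

set_option autoImplicit false

open Filter

namespace Pool.Agent.T2h96.FC

theorem t_CNT : S_CNT := by
  intro g θ e c C hθ hc hC hg P r hr
  have hθ0 : 0 < θ := by linarith
  set L : ℝ := Real.log θ with hL
  have hL0 : 0 < L := Real.log_pos hθ
  have he0 : (0 : ℝ) ≤ e := Nat.cast_nonneg e
  have hP0 : (0 : ℝ) < P := by
    have : 0 < P := by omega
    exact_mod_cast this
  set K1 : ℝ := (|Real.log C| + e * Real.log (1 / L + 1)) / L with hK1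
  set K2 : ℝ := (|Real.log c| + e * |Real.log (2 * L)| + e * Real.log (2 * (e + 1)) + 1) / L with hK2
  have hl1 : 0 ≤ Real.log (1 / L + 1) := Real.log_nonneg (by
    have : 0 < 1 / L := by positivity
    linarith)
  have hl2 : 0 ≤ Real.log (2 * ((e : ℝ) + 1)) := Real.log_nonneg (by linarith)
  have hK10 : 0 ≤ K1 := by positivity
  have hK20 : 0 ≤ K2 := by positivity
  have hK1L : K1 * L = |Real.log C| + e * Real.log (1 / L + 1) := by
    rw [hK1]; field_simp
  have hK2L : K2 * L = |Real.log c| + e * |Real.log (2 * L)| + e * Real.log (2 * (e + 1)) + 1 := by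
    rw [hK2]; field_simp
  refine ⟨K1 + K2 + 2, fun n hn => ?_⟩
  have hn3 : (3 : ℝ) ≤ n := by exact_mod_cast hn
  have hn0 : (0 : ℝ) < n := by linarith
  set y : ℝ := Real.log (n : ℝ) with hy
  have hy1 : 1 ≤ y := by
    have h5 : Real.exp 1 ≤ (n : ℝ) := by
      have h6 := Real.exp_one_lt_d9
      linarith
    rw [hy, Real.le_log_iff_exp_le hn0]
    exact h5
  have hy0 : 0 < y := by linarith
  have hly : 0 ≤ Real.log y := Real.log_nonneg hy1
  set X : ℝ := (y - e * Real.log y) / L with hX
  have hXL : X * L = y - e * Real.log y := by rw [hX]; field_simp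
  -- `e log y ≤ y / 2 + e log (2 (e+1))`
  have hely : e * Real.log y ≤ y / 2 + e * Real.log (2 * (e + 1)) := by
    have h1 : Real.log (y / (2 * (e + 1))) ≤ y / (2 * (e + 1)) - 1 :=
      Real.log_le_sub_one_of_pos (by positivity)
    rw [Real.log_div hy0.ne' (by positivity)] at h1
    have h2 : Real.log y ≤ y / (2 * (e + 1)) + Real.log (2 * (e + 1)) := by linarith
    calc (e : ℝ) * Real.log y ≤ e * (y / (2 * (e + 1)) + Real.log (2 * (e + 1))) :=
          mul_le_mul_of_nonneg_left h2 he0
      _ = e / (e + 1) * (y / 2) + e * Real.log (2 * (e + 1)) := by field_simp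
      _ ≤ 1 * (y / 2) + e * Real.log (2 * (e + 1)) := by
          refine add_le_add (mul_le_mul_of_nonneg_right ?_ (by positivity)) le_rfl
          rw [div_le_one (by positivity)]; linarith
      _ = _ := by ring
  have habs1 : 0 ≤ |Real.log c| := abs_nonneg _
  have habs2 : 0 ≤ (e : ℝ) * |Real.log (2 * L)| := by positivity
  have habs3 : 0 ≤ (e : ℝ) * Real.log (2 * (e + 1)) := by positivity
  have hXK2 : 0 ≤ X + K2 := by
    have : 0 ≤ (X + K2) * L := by
      rw [add_mul, hXL, hK2L]
      linarith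
    exact nonneg_of_mul_nonneg_left this hL0
  -- small indices
  have small : ∀ k : ℕ, (k : ℝ) ≤ X - K1 → g k ≤ n := by
    intro k hk
    refine (hg k).2.trans ?_
    have hk1 : (0 : ℝ) < (k : ℝ) + 1 := by positivity
    rw [← Real.log_le_log_iff (by positivity) hn0, Real.log_mul (by positivity) (by positivity),
      Real.log_mul hC.ne' (by positivity), Real.log_pow, Real.log_pow, ← hL, ← hy]
    have h1 : (k : ℝ) * L ≤ y - e * Real.log y - (|Real.log C| + e * Real.log (1 / L + 1)) := by
      calc (k : ℝ) * L ≤ (X - K1) * L := mul_le_mul_of_nonneg_right hk hL0.le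
        _ = _ := by rw [sub_mul, hXL, hK1L]
    have h2 : (k : ℝ) + 1 ≤ y * (1 / L + 1) := by
      have h3 : (k : ℝ) * L ≤ y := by
        have h4 : 0 ≤ |Real.log C| := abs_nonneg _
        have h5 : 0 ≤ (e : ℝ) * Real.log y := by positivity
        have h6 : 0 ≤ (e : ℝ) * Real.log (1 / L + 1) := by positivity
        linarith
      have h7 : (k : ℝ) ≤ y / L := by rwa [le_div_iff₀ hL0]
      calc (k : ℝ) + 1 ≤ y / L + y := add_le_add h7 hy1
        _ = _ := by ring
    have h8 : Real.log ((k : ℝ) + 1) ≤ Real.log y + Real.log (1 / L + 1) := by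
      rw [← Real.log_mul hy0.ne' (by positivity)]
      exact Real.log_le_log hk1 h2
    have h9 := mul_le_mul_of_nonneg_left h8 he0
    have h10 := le_abs_self (Real.log C)
    linarith
  -- large indices
  have large : ∀ k : ℕ, X + K2 ≤ (k : ℝ) → (n : ℝ) < g k := by
    intro k hk
    refine lt_of_lt_of_le ?_ (hg k).1
    have hk1 : (0 : ℝ) < (k : ℝ) + 1 := by positivity
    rw [← Real.log_lt_log_iff hn0 (by positivity), Real.log_mul (by positivity) (by positivity),
      Real.log_mul hc.ne' (by positivity), Real.log_pow, Real.log_pow, ← hL, ← hy]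
    have h1 : y - e * Real.log y + (|Real.log c| + e * |Real.log (2 * L)| +
        e * Real.log (2 * (e + 1)) + 1) ≤ (k : ℝ) * L := by
      calc _ = (X + K2) * L := by rw [add_mul, hXL, hK2L]
        _ ≤ (k : ℝ) * L := mul_le_mul_of_nonneg_right hk hL0.le
    have h2 : y ≤ ((k : ℝ) + 1) * (2 * L) := by
      have : y / 2 ≤ (k : ℝ) * L := by linarith
      nlinarith
    have h3 : Real.log y ≤ Real.log ((k : ℝ) + 1) + Real.log (2 * L) := by
      rw [← Real.log_mul hk1.ne' (by positivity)]
      exact Real.log_le_log hy0 h2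
    have h4 := mul_le_mul_of_nonneg_left h3 he0
    have h5 := neg_abs_le (Real.log c)
    have h6 := mul_le_mul_of_nonneg_left (le_abs_self (Real.log (2 * L))) he0
    linarith
  -- the set
  have hup : {k : ℕ | k % P = r ∧ g k ≤ n} ⊆
      (((Finset.range (⌊(X + K2) / P⌋₊ + 1)).image (fun j => r + P * j) : Finset ℕ) : Set ℕ) := by
    rintro k ⟨hk1, hk2⟩
    have hkX : (k : ℝ) < X + K2 := by
      by_contra h
      exact absurd hk2 (not_le.mpr (large k (not_lt.mp h)))
    rw [Finset.mem_coe, Finset.mem_image]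
    refine ⟨k / P, ?_, ?_⟩
    · rw [Finset.mem_range, Nat.lt_succ_iff, Nat.le_floor_iff (by positivity)]
      calc ((k / P : ℕ) : ℝ) ≤ (k : ℝ) / P := Nat.cast_div_le
        _ ≤ (X + K2) / P := by gcongr
    · rw [← hk1]; exact Nat.mod_add_div k P
  have hfin : {k : ℕ | k % P = r ∧ g k ≤ n}.Finite := (Finset.finite_toSet _).subset hup
  refine ⟨hfin, ?_⟩
  have hXP : (y - e * Real.log y) / (P * L) = X / P := by
    rw [hX]; field_simp
  rw [hXP]
  have hcard_le : (({k : ℕ | k % P = r ∧ g k ≤ n}.ncard : ℕ) : ℝ) ≤ (X + K2) / P + 1 := by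
    have h1 : {k : ℕ | k % P = r ∧ g k ≤ n}.ncard ≤ ⌊(X + K2) / P⌋₊ + 1 := by
      refine (Set.ncard_le_ncard hup (Finset.finite_toSet _)).trans ?_
      rw [Set.ncard_coe_finset]
      exact Finset.card_image_le.trans (by simp)
    have h2 : ((⌊(X + K2) / P⌋₊ : ℕ) : ℝ) ≤ (X + K2) / P := Nat.floor_le (by positivity)
    have h3 : (({k : ℕ | k % P = r ∧ g k ≤ n}.ncard : ℕ) : ℝ) ≤
      ((⌊(X + K2) / P⌋₊ + 1 : ℕ) : ℝ) := by exact_mod_cast h1
    push_cast at h3
    linarith
  have hcard_ge : (X - K1 - r) / P ≤ (({k : ℕ | k % P = r ∧ g k ≤ n}.ncard : ℕ) : ℝ) := by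
    rcases lt_or_ge ((X - K1 - r) / P) 0 with hneg | hpos
    · exact hneg.le.trans (Nat.cast_nonneg _)
    have hlow : (((Finset.range (⌊(X - K1 - r) / P⌋₊ + 1)).image (fun j => r + P * j) :
        Finset ℕ) : Set ℕ) ⊆ {k : ℕ | k % P = r ∧ g k ≤ n} := by
      intro k hk
      rw [Finset.mem_coe, Finset.mem_image] at hk
      obtain ⟨j, hj, rfl⟩ := hk
      rw [Finset.mem_range, Nat.lt_succ_iff, Nat.le_floor_iff hpos, le_div_iff₀ hP0] at hj
      refine ⟨?_, small _ ?_⟩
      · rw [Nat.add_mul_mod_self_left]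
        exact Nat.mod_eq_of_lt hr
      · push_cast
        linarith
    have h1 := Set.ncard_le_ncard hlow hfin
    rw [Set.ncard_coe_finset, Finset.card_image_of_injective, Finset.card_range] at h1
    · have h2 := (Nat.lt_floor_add_one ((X - K1 - r) / P)).le
      refine h2.trans ?_
      exact_mod_cast h1
    · intro i j hij
      have hij' : r + P * i = r + P * j := hij
      have hP : 0 < P := by omega
      have : P * i = P * j := by omega
      exact Nat.eq_of_mul_eq_mul_left hP this
  have hP1 : (1 : ℝ) ≤ P := by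
    have : 1 ≤ P := by omega
    exact_mod_cast this
  have hrP : (r : ℝ) / P ≤ 1 := by
    rw [div_le_one hP0]
    exact_mod_cast hr.le
  have hK1P : K1 / P ≤ K1 := div_le_self hK10 hP1
  have hK2P : K2 / P ≤ K2 := div_le_self hK20 hP1
  rw [abs_le]
  constructor
  · have : (X - K1 - r) / P = X / P - K1 / P - r / P := by ring
    linarith
  · have : (X + K2) / P = X / P + K2 / P := by ring
    linarith

end Pool.Agent.T2h96.FC
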