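import Pool.Agent.T2h96.FC.Stm

/-!
# DEL: elementary morphisms have bounded delay (helper59)
-/

set_option autoImplicit false
set_option linter.all false

namespace Pool.Agent.T2h96.FC

section

variable {B C : Type} [Fintype B]

/-- an elementary morphism does not factor through a proper subset of the alphabet -/
theorem Elem.not_factor {H : B → List C} (hH : Elem H) (c0 : B) (g : B → List {a : B // a ≠ c0})
    (f : {a : B // a ≠ c0} → List C) (h : ∀ b, H b = (g b).flatMap f) : False := by
  classical
  have hcard : Fintype.card {a : B // a ≠ c0} = Fintype.card B - 1 := by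
    rw [Fintype.card_subtype_compl]
    simp
  have hpos : 0 < Fintype.card B := Fintype.card_pos_iff.2 ⟨c0⟩
  let e : {a : B // a ≠ c0} ≃ Fin (Fintype.card B - 1) := Fintype.equivFinOfCardEq hcard
  have := hH (Fintype.card B - 1) (fun b => (g b).map e) (fun i => f (e.symm i)) (by
    intro b
    rw [h b, List.flatMap_map]
    congr 1
    funext a
    simp)
  omega

theorem Elem.nonerasing {H : B → List C} (hH : Elem H) (b : B) : H b ≠ [] := by
  classical
  intro hb
  refine hH.not_factor b (fun a => if h : a ≠ b then [⟨a, h⟩] else []) (fun a => H a) ?_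
  intro a
  by_cases h : a ≠ b
  · simp only [dif_pos h, List.flatMap_cons, List.flatMap_nil, List.append_nil]
  · have : a = b := not_not.1 h
    rw [dif_neg h, this, hb]
    rfl

theorem Elem.injective {H : B → List C} (hH : Elem H) {b c : B} (h : H b = H c) : b = c := by
  classical
  by_contra hbc
  refine hH.not_factor c (fun a => if h : a ≠ c then [⟨a, h⟩] else [⟨b, hbc⟩]) (fun a => H a) ?_
  intro a
  by_cases h' : a ≠ c
  · simp only [dif_pos h', List.flatMap_cons, List.flatMap_nil, List.append_nil]
  · have : a = c := not_not.1 h'
    subst this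
    rw [dif_neg h']
    simp only [List.flatMap_cons, List.flatMap_nil, List.append_nil]
    exact h.symm

theorem Elem.right {H' : B → List C} {g : B → List B} (h : Elem fun b => (g b).flatMap H') :
    Elem H' := by
  intro m g' f hf
  refine h m (fun b => (g b).flatMap g') f fun b => ?_
  show (g b).flatMap H' = _
  rw [List.flatMap_assoc]
  congr 1
  funext a
  exact hf a

theorem take_ne_of_prefix {l l' p : List C} {D : ℕ} (h : l.take D ≠ l'.take D) :
    (p ++ l).take (D + p.length) ≠ (p ++ l').take (D + p.length) := by
  intro h1
  apply h
  have h2 := congrArg (List.drop p.length) h1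
  rw [List.drop_take, List.drop_take, List.drop_left, List.drop_left, Nat.add_sub_cancel] at h2
  exact h2

theorem take_ne_mono {l l' : List C} {D D' : ℕ} (hD : D ≤ D') (h : l.take D ≠ l'.take D) :
    l.take D' ≠ l'.take D' := by
  intro h1
  apply h
  have h2 := congrArg (List.take D) h1
  rw [List.take_take, List.take_take, min_eq_left hD] at h2
  exact h2

/-- words with different first letters have different images -/
theorem del_fin (N : ℕ) : ∀ (H : B → List C), ∑ b, (H b).length ≤ N → Elem H →
    ∃ D : ℕ, ∀ (b c : B) (u v : List B), b ≠ c →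
      D ≤ ((b :: u).flatMap H).length → D ≤ ((c :: v).flatMap H).length →
      ((b :: u).flatMap H).take D ≠ ((c :: v).flatMap H).take D := by
  classical
  induction N with
  | zero =>
    intro H hN hH
    refine ⟨0, fun b c u v _ _ _ => ?_⟩
    exfalso
    apply hH.nonerasing b
    have h1 : (H b).length ≤ ∑ b, (H b).length :=
      Finset.single_le_sum (f := fun b => (H b).length) (fun _ _ => Nat.zero_le _) (Finset.mem_univ b)
    exact List.length_eq_zero_iff.1 (by omega)
  | succ N ih =>
    intro H hN hH
    by_cases hcmp : ∃ b c : B, b ≠ c ∧ H b <+: H c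
    · obtain ⟨b, c, hbc, w, hw⟩ := hcmp
      have hbne := hH.nonerasing b
      have hwne : w ≠ [] := by
        rintro rfl
        rw [List.append_nil] at hw
        exact hbc (hH.injective hw)
      let g : B → List B := fun e => if e = c then [b, c] else [e]
      let H' : B → List C := fun e => if e = c then w else H e
      have hgc : g c = [b, c] := if_pos rfl
      have hge : ∀ e, e ≠ c → g e = [e] := fun e he => if_neg he
      have hH'c : H' c = w := if_pos rfl
      have hH'e : ∀ e, e ≠ c → H' e = H e := fun e he => if_neg he
      have hfac : ∀ e, H e = (g e).flatMap H' := by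
        intro e
        by_cases he : e = c
        · subst he
          rw [hgc]
          simp only [List.flatMap_cons, List.flatMap_nil, List.append_nil, hH'c, hH'e b hbc]
          exact hw.symm
        · rw [hge e he]
          simp only [List.flatMap_cons, List.flatMap_nil, List.append_nil, hH'e e he]
      have hfacw : ∀ u : List B, u.flatMap H = (u.flatMap g).flatMap H' := by
        intro u
        rw [List.flatMap_assoc]
        congr 1
        funext e
        exact hfac e
      have hel : Elem H' := by
        apply Elem.right (g := g)
        have : (fun b => (g b).flatMap H') = H := by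
          funext e
          exact (hfac e).symm
        rw [this]
        exact hH
      have hsum : ∑ e, (H' e).length ≤ N := by
        have h1 : ∑ e, (H' e).length < ∑ e, (H e).length := by
          apply Finset.sum_lt_sum
          · intro e _
            by_cases he : e = c
            · subst he
              rw [hH'c, ← hw, List.length_append]
              omega
            · rw [hH'e e he]
          · refine ⟨c, Finset.mem_univ _, ?_⟩
            rw [hH'c, ← hw, List.length_append]
            have := List.length_pos_of_ne_nil hbne
            omega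
        omega
      obtain ⟨D, hD⟩ := ih H' hsum hel
      -- the first letters of the images under `g`
      have key : ∀ (b' c' : B) (u v : List B), b' ≠ c' → ¬ (b' = b ∧ c' = c) → ¬ (b' = c ∧ c' = b) →
          D ≤ ((b' :: u).flatMap H).length → D ≤ ((c' :: v).flatMap H).length →
          ((b' :: u).flatMap H).take D ≠ ((c' :: v).flatMap H).take D := by
        intro b' c' u v hne h1 h2 hl1 hl2
        rw [hfacw, List.flatMap_cons] at hl1 ⊢
        rw [hfacw, List.flatMap_cons] at hl2
        rw [hfacw (c' :: v), List.flatMap_cons]
        by_cases hb' : b' = c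
        · subst hb'
          rw [hgc] at hl1 ⊢
          rw [hge c' (Ne.symm hne)] at hl2 ⊢
          exact hD b c' _ _ (fun h => h2 ⟨rfl, h.symm⟩) hl1 hl2
        · by_cases hc' : c' = c
          · subst hc'
            rw [hgc] at hl2 ⊢
            rw [hge b' hb'] at hl1 ⊢
            exact hD b' b _ _ (fun h => h1 ⟨h, rfl⟩) hl1 hl2
          · rw [hge b' hb'] at hl1 ⊢
            rw [hge c' hc'] at hl2 ⊢
            exact hD b' c' _ _ hne hl1 hl2
      have key2 : ∀ (u v : List B), D + (H b).length + 1 ≤ ((b :: u).flatMap H).length →
          D + (H b).length + 1 ≤ ((c :: v).flatMap H).length →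
          ((b :: u).flatMap H).take (D + (H b).length) ≠ ((c :: v).flatMap H).take (D + (H b).length) := by
        intro u v hl1 hl2
        have e1 : (b :: u).flatMap H = H b ++ (u.flatMap g).flatMap H' := by
          rw [← hfacw, List.flatMap_cons]
        have e2 : (c :: v).flatMap H = H b ++ (c :: v.flatMap g).flatMap H' := by
          rw [List.flatMap_cons, ← hw, List.flatMap_cons, hH'c, ← hfacw, List.append_assoc]
        rw [e1, List.length_append] at hl1
        rw [e2, List.length_append] at hl2
        rw [e1, e2]
        apply take_ne_of_prefix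
        cases u with
        | nil =>
          simp at hl1
        | cons e u =>
          rw [List.flatMap_cons] at hl1 ⊢
          by_cases he : e = c
          · subst he
            rw [hgc] at hl1 ⊢
            have hl1' : D ≤ (([b, e] ++ u.flatMap g).flatMap H').length := by omega
            have hl2' : D ≤ ((e :: v.flatMap g).flatMap H').length := by omega
            exact hD b e _ _ hbc hl1' hl2'
          · rw [hge e he] at hl1 ⊢
            have hl1' : D ≤ (([e] ++ u.flatMap g).flatMap H').length := by omega
            have hl2' : D ≤ ((c :: v.flatMap g).flatMap H').length := by omega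
            exact hD e c _ _ he hl1' hl2'
      refine ⟨D + (H b).length + 1, fun b' c' u v hne hl1 hl2 => ?_⟩
      by_cases h1 : b' = b ∧ c' = c
      · obtain ⟨rfl, rfl⟩ := h1
        exact take_ne_mono (Nat.le_succ _) (key2 u v hl1 hl2)
      · by_cases h2 : b' = c ∧ c' = b
        · obtain ⟨rfl, rfl⟩ := h2
          exact take_ne_mono (Nat.le_succ _) (key2 v u hl2 hl1).symm
        · exact take_ne_mono (by omega) (key b' c' u v hne h1 h2 (by omega) (by omega))
    · push Not at hcmp
      refine ⟨∑ b, (H b).length, fun b c u v hbc hl1 hl2 h => ?_⟩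
      have hb : (H b).length ≤ ∑ b, (H b).length :=
        Finset.single_le_sum (f := fun b => (H b).length) (fun _ _ => Nat.zero_le _) (Finset.mem_univ b)
      have hc : (H c).length ≤ ∑ b, (H b).length :=
        Finset.single_le_sum (f := fun b => (H b).length) (fun _ _ => Nat.zero_le _) (Finset.mem_univ c)
      have p1 : H b <+: ((b :: u).flatMap H).take (∑ b, (H b).length) := by
        rw [List.flatMap_cons, List.prefix_take_iff]
        exact ⟨List.prefix_append _ _, hb⟩
      have p2 : H c <+: ((b :: u).flatMap H).take (∑ b, (H b).length) := by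
        rw [h, List.flatMap_cons, List.prefix_take_iff]
        exact ⟨List.prefix_append _ _, hc⟩
      rcases List.prefix_or_prefix_of_prefix p1 p2 with h1 | h1
      · exact hcmp b c hbc h1
      · exact hcmp c b hbc.symm h1

end

section

variable {B C : Type}

/-- the letters at the positions `i, …, i + n - 1` -/
def seg (x : ℤ → B) : ℤ → ℕ → List B
  | _, 0 => []
  | i, n + 1 => x i :: seg x (i + 1) n

theorem Des.seg_val {H : B → List C} {x : ℤ → B} {W : ℤ → C} {c : ℤ → ℤ} (h : Des H x W c)
    (n : ℕ) : ∀ (i : ℤ) (t : ℕ), t < ((seg x i n).flatMap H).length →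
      ((seg x i n).flatMap H)[t]? = some (W (c i + t)) := by
  induction n with
  | zero =>
    intro i t ht
    exact absurd ht (by simp [seg])
  | succ n ih =>
    intro i t ht
    unfold seg at ht ⊢
    rw [List.flatMap_cons] at ht ⊢
    rw [List.length_append] at ht
    rcases Nat.lt_or_ge t (H (x i)).length with h1 | h1
    · rw [List.getElem?_append_left h1]
      exact h.val i t h1
    · rw [List.getElem?_append_right h1, ih (i + 1) _ (by omega), h.step i]
      congr 2
      omega

theorem seg_length {H : B → List C} (hH : ∀ b, H b ≠ []) (x : ℤ → B) (n : ℕ) : ∀ i : ℤ,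
    n ≤ ((seg x i n).flatMap H).length := by
  induction n with
  | zero => intro i; exact Nat.zero_le _
  | succ n ih =>
    intro i
    unfold seg
    rw [List.flatMap_cons, List.length_append]
    have := List.length_pos_of_ne_nil (hH (x i))
    have := ih (i + 1)
    omega

/-- the reversed word -/
theorem Des.rev {H : B → List C} {x : ℤ → B} {W : ℤ → C} {c : ℤ → ℤ} (h : Des H x W c) :
    Des (fun b => (H b).reverse) (fun k => x (-k - 1)) (fun s => W (-s - 1)) (fun k => -c (-k)) where
  step := by
    intro k
    have h1 := h.step (-k - 1)
    rw [sub_add_cancel] at h1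
    simp only [List.length_reverse]
    have e1 : -(k + 1) = -k - 1 := by ring
    rw [h1, e1]
    ring
  val := by
    intro k r hr
    simp only [List.length_reverse] at hr
    rw [List.getElem?_reverse hr]
    have h1 := h.step (-k - 1)
    rw [sub_add_cancel] at h1
    have h2 := h.val (-k - 1) ((H (x (-k - 1))).length - 1 - r) (by omega)
    rw [h2]
    congr 2
    rw [h1]
    omega

theorem Elem.reverse [Fintype B] {H : B → List C} (hH : Elem H) : Elem fun b => (H b).reverse := by
  intro m g f hf
  refine hH m (fun b => (g b).reverse) (fun i => (f i).reverse) fun b => ?_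
  have h1 := congrArg List.reverse (hf b)
  rw [List.reverse_reverse, List.reverse_flatMap] at h1
  exact h1

theorem del_right [Fintype B] {H : B → List C} (hH : Elem H) : ∃ D : ℕ,
    ∀ (x y : ℤ → B) (W W' : ℤ → C) (c c' : ℤ → ℤ), Des H x W c → Des H y W' c' →
      ∀ i j, x i ≠ y j → ∃ t : ℕ, t < D ∧ W (c i + t) ≠ W' (c' j + t) := by
  obtain ⟨D, hD⟩ := del_fin _ H le_rfl hH
  refine ⟨D, fun x y W W' c c' h h' i j hij => ?_⟩
  by_contra hcon
  push Not at hcon
  have h1 := seg_length hH.nonerasing x (D + 1) i
  have h2 := seg_length hH.nonerasing y (D + 1) j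
  refine hD (x i) (y j) (seg x (i + 1) D) (seg y (j + 1) D) hij (by
    have : x i :: seg x (i + 1) D = seg x i (D + 1) := rfl
    rw [this]; omega) (by
    have : y j :: seg y (j + 1) D = seg y j (D + 1) := rfl
    rw [this]; omega) ?_
  have e1 : x i :: seg x (i + 1) D = seg x i (D + 1) := rfl
  have e2 : y j :: seg y (j + 1) D = seg y j (D + 1) := rfl
  rw [e1, e2]
  apply List.ext_getElem?
  intro t
  rcases Nat.lt_or_ge t D with ht | ht
  · rw [List.getElem?_take_of_lt ht, List.getElem?_take_of_lt ht,
      h.seg_val (D + 1) i t (by omega), h'.seg_val (D + 1) j t (by omega), hcon t ht]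
  · rw [List.getElem?_eq_none (by rw [List.length_take]; omega),
      List.getElem?_eq_none (by rw [List.length_take]; omega)]

end

theorem t_DEL : S_DEL := by
  intro B C _ _ H hH
  refine ⟨hH.nonerasing, ?_⟩
  obtain ⟨D1, hD1⟩ := del_right hH
  obtain ⟨D2, hD2⟩ := del_right hH.reverse
  refine ⟨max D1 D2, fun x y W W' c c' h h' => ⟨fun i j hij => ?_, fun i j hij => ?_⟩⟩
  · obtain ⟨t, ht, hne⟩ := hD1 x y W W' c c' h h' i j hij
    exact ⟨t, lt_of_lt_of_le ht (le_max_left _ _), hne⟩
  · obtain ⟨t, ht, hne⟩ := hD2 _ _ _ _ _ _ h.rev h'.rev (-i) (-j) (by simpa using hij)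
    refine ⟨t, lt_of_lt_of_le ht (le_max_right _ _), ?_⟩
    simp only [neg_neg] at hne
    have e1 : -(-c i + (t : ℤ)) - 1 = c i - 1 - t := by ring
    have e2 : -(-c' j + (t : ℤ)) - 1 = c' j - 1 - t := by ring
    rw [e1, e2] at hne
    exact hne

end Pool.Agent.T2h96.FC
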