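import Pool.Agent.T2h96.FC.T_LV

/-!
# Task GRA: growth of the length of the descendants
-/

set_option autoImplicit false

open Filter

namespace Pool.Agent.T2h96.FC

theorem t_GRA : S_CHE → S_GRA := by
  intro hC B C V U c d m D hV hU hG F n hF hn
  obtain ⟨j, hj, -⟩ := hF.lft
  obtain ⟨s, hs⟩ : ∃ s : Set ℤ × ℤ, s = (F, n) := ⟨_, rfl⟩
  rw [← hs]
  have hFs : Fm V s.1 s.2 := by rw [hs]; exact hF
  have hjs : j ∈ s.1 := by rw [hs]; exact hj
  have hns : 0 < s.2 := by rw [hs]; exact hn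
  have hsucc : ∀ k, Vk V c D s (k + 1) = nx V V c D (Vk V c D s k) := fun k =>
    Function.iterate_succ_apply' _ _ _
  have hfm : ∀ k, Fm V (Vk V c D s k).1 (Vk V c D s k).2 := by
    intro k
    induction k with
    | zero => exact hFs
    | succ k ih =>
      rw [hsucc]
      obtain ⟨L, R, h⟩ := nx_spec62 hC hV ih
      exact h.fT
  have hch : ∀ k, ∃ L R, Ch V V c D (Vk V c D s k).1 (Vk V c D s k).2 (Vk V c D s (k + 1)).1
      (Vk V c D s (k + 1)).2 L R := by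
    intro k
    rw [hsucc]
    exact nx_spec62 hC hV (hfm k)
  choose L R hLR using hch
  obtain ⟨a, ha0, ha⟩ : ∃ a : ℕ → ℤ, a 0 = j ∧ ∀ k, a (k + 1) = c (a k) - L k :=
    ⟨fun k => Nat.rec j (fun k x => c x - L k) k, rfl, fun k => rfl⟩
  obtain ⟨b, hb0, hb⟩ : ∃ b : ℕ → ℤ, b 0 = j + s.2 ∧ ∀ k, b (k + 1) = c (b k) + R k :=
    ⟨fun k => Nat.rec (j + s.2) (fun k x => c x + R k) k, rfl, fun k => rfl⟩
  have hab : ∀ k, a k ∈ (Vk V c D s k).1 ∧ b k = a k + (Vk V c D s k).2 := by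
    intro k
    induction k with
    | zero => exact ⟨by rw [ha0]; exact hjs, by rw [ha0, hb0]; rfl⟩
    | succ k ih =>
      obtain ⟨h1, h2⟩ := ih
      have h3 := (hLR k).len _ h1
      refine ⟨?_, ?_⟩
      · rw [(hLR k).im, ha]; exact ⟨_, h1, rfl⟩
      · rw [hb, ha, h3, h2]; ring
  obtain ⟨θ, e, κ, K, h1, h2, h3, h4⟩ := hG D a b L R (fun k =>
    ⟨(hLR k).L0, (hLR k).LD.le, (hLR k).R0, (hLR k).RD.le⟩) ha hb (by rw [ha0, hb0]; linarith)
  refine ⟨θ, e, κ, (2 * D + 2) * K, h1, h2, by positivity, fun k => ?_⟩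
  obtain ⟨h5, h6⟩ := h4 k
  obtain ⟨L', R', h7⟩ := nx_spec62 hC hU (hfm k)
  have h8 : (Uk V U c d D s k).2 = d (b k) - d (a k) + L' + R' := by
    have := h7.len _ (hab k).1
    rw [(hab k).2]; exact this
  have h9 := h7.L0
  have h10 := h7.LD
  have h11 := h7.R0
  have h12 := h7.RD
  have hx : (0 : ℝ) < ((d (b k) - d (a k) : ℤ) : ℝ) := lt_of_lt_of_le (by positivity) h5
  have hx1 : (1 : ℤ) ≤ d (b k) - d (a k) := by
    have : (0 : ℤ) < d (b k) - d (a k) := by exact_mod_cast hx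
    linarith
  have hx2 : (1 : ℝ) ≤ ((d (b k) - d (a k) : ℤ) : ℝ) := by exact_mod_cast hx1
  have hD0 : (0 : ℝ) ≤ (D : ℝ) := by positivity
  constructor
  · refine h5.trans ?_
    have : d (b k) - d (a k) ≤ (Uk V U c d D s k).2 + 1 := by rw [h8]; linarith
    exact_mod_cast this
  · have h13 : (Uk V U c d D s k).2 + 1 ≤ (d (b k) - d (a k)) + 2 * D + 1 := by rw [h8]; linarith
    have h14 : (((Uk V U c d D s k).2 + 1 : ℤ) : ℝ) ≤ ((d (b k) - d (a k) : ℤ) : ℝ) + 2 * D + 1 := by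
      exact_mod_cast h13
    have h15 : ((d (b k) - d (a k) : ℤ) : ℝ) + 2 * D + 1 ≤
        (2 * D + 2) * ((d (b k) - d (a k) : ℤ) : ℝ) := by nlinarith
    calc (((Uk V U c d D s k).2 + 1 : ℤ) : ℝ) ≤ (2 * D + 2) * ((d (b k) - d (a k) : ℤ) : ℝ) :=
          h14.trans h15
      _ ≤ (2 * D + 2) * (K * ((k : ℝ) + 1) ^ e * θ ^ k) :=
          mul_le_mul_of_nonneg_left h6 (by positivity)
      _ = (2 * D + 2) * K * ((k : ℝ) + 1) ^ e * θ ^ k := by ring

end Pool.Agent.T2h96.FC
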