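import Pool.Agent.T2h96.FC.Stm

/-!
# Growth of the letters (task GROW)
-/

set_option autoImplicit false

open Filter Finset

namespace Pool.Agent.T2h96.FC

namespace GrowAux

/-- Types of growth. -/
def Typed (f : ℕ → ℝ) : Prop :=
  ∃ (θ : ℝ) (e : ℕ) (c C : ℝ), 1 < θ ∧ 0 < c ∧ 0 < C ∧
    ∀ k : ℕ, c * ((k : ℝ) + 1) ^ e * θ ^ k ≤ f k ∧ f k ≤ C * ((k : ℝ) + 1) ^ e * θ ^ k

lemma Typed.transfer {f g : ℕ → ℝ} (hf : Typed f) (K K' : ℝ) (hK : 0 < K) (hK' : 0 < K')
    (h1 : ∀ k, f k ≤ K * g k) (h2 : ∀ k, g k ≤ K' * f k) : Typed g := by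
  obtain ⟨θ, e, c, C, hθ, hc, hC, h⟩ := hf
  refine ⟨θ, e, c / K, K' * C, hθ, by positivity, by positivity, fun k => ⟨?_, ?_⟩⟩
  · have := (h k).1.trans (h1 k)
    have e1 : c / K * ((k : ℝ) + 1) ^ e * θ ^ k = (c * ((k : ℝ) + 1) ^ e * θ ^ k) / K := by ring
    rw [e1, div_le_iff₀ hK]
    linarith
  · calc g k ≤ K' * f k := h2 k
      _ ≤ K' * (C * ((k : ℝ) + 1) ^ e * θ ^ k) := mul_le_mul_of_nonneg_left (h k).2 hK'.le
      _ = _ := by ring

lemma bdd_aux (e : ℕ) (q : ℝ) (hq0 : 0 < q) (hq : q < 1) :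
    ∃ K : ℝ, 0 < K ∧ ∀ k : ℕ, ((k : ℝ) + 1) ^ e * q ^ k ≤ K := by
  have h1 : Tendsto (fun n : ℕ => (n : ℝ) ^ e * q ^ n) atTop (nhds 0) :=
    tendsto_pow_const_mul_const_pow_of_lt_one e hq0.le hq
  have h2 := (tendsto_add_atTop_iff_nat 1).2 h1
  obtain ⟨K, hK⟩ := h2.bddAbove_range
  refine ⟨max 1 (K / q), by positivity, fun k => ?_⟩
  have h3 := hK ⟨k, rfl⟩
  simp only [Nat.cast_add, Nat.cast_one, pow_succ] at h3
  refine le_trans ?_ (le_max_right _ _)
  rw [le_div_iff₀ hq0]
  linarith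

lemma cmp_aux (e e' : ℕ) (θ θ' : ℝ) (h1 : 1 < θ) (h : θ < θ' ∨ (θ = θ' ∧ e ≤ e')) :
    ∃ K : ℝ, 0 < K ∧ ∀ k : ℕ, ((k : ℝ) + 1) ^ e * θ ^ k ≤ K * ((k : ℝ) + 1) ^ e' * θ' ^ k := by
  rcases h with h | ⟨rfl, h⟩
  · have hp : 0 < θ := by linarith
    have hp' : 0 < θ' := by linarith
    obtain ⟨K, hK, hk⟩ := bdd_aux e (θ / θ') (by positivity) ((div_lt_one (by linarith)).2 h)
    refine ⟨K, hK, fun k => ?_⟩
    have h3 := hk k
    have hθ' : 0 < θ' ^ k := by positivity
    have h4 : ((k : ℝ) + 1) ^ e * θ ^ k ≤ K * θ' ^ k := by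
      have : ((k : ℝ) + 1) ^ e * θ ^ k = ((k : ℝ) + 1) ^ e * (θ / θ') ^ k * θ' ^ k := by
        rw [div_pow]; field_simp
      rw [this]
      exact mul_le_mul_of_nonneg_right h3 hθ'.le
    refine h4.trans ?_
    have h5 : 1 ≤ ((k : ℝ) + 1) ^ e' := one_le_pow₀ (by linarith [Nat.cast_nonneg (α := ℝ) k])
    have : K * θ' ^ k * 1 ≤ K * θ' ^ k * ((k : ℝ) + 1) ^ e' :=
      mul_le_mul_of_nonneg_left h5 (by positivity)
    linarith
  · refine ⟨1, one_pos, fun k => ?_⟩
    rw [one_mul]
    exact mul_le_mul_of_nonneg_right (pow_le_pow_right₀ (by linarith [Nat.cast_nonneg (α := ℝ) k]) h)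
      (by positivity)

lemma Typed.add {f g : ℕ → ℝ} (hf : Typed f) (hg : Typed g) :
    Typed (fun k => f k + g k) := by
  have key : ∀ {f g : ℕ → ℝ} (θ θ' : ℝ) (e e' : ℕ) (c C c' C' : ℝ), 1 < θ → 1 < θ' → 0 < c → 0 < C →
      0 < c' → 0 < C' →
      (∀ k : ℕ, c * ((k : ℝ) + 1) ^ e * θ ^ k ≤ f k ∧ f k ≤ C * ((k : ℝ) + 1) ^ e * θ ^ k) →
      (∀ k : ℕ, c' * ((k : ℝ) + 1) ^ e' * θ' ^ k ≤ g k ∧
        g k ≤ C' * ((k : ℝ) + 1) ^ e' * θ' ^ k) →
      (θ < θ' ∨ (θ = θ' ∧ e ≤ e')) → Typed (fun k => f k + g k) := by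
    intro f g θ θ' e e' c C c' C' h1 h1' hc hC hc' hC' hf hg h
    obtain ⟨K, hK, hk⟩ := cmp_aux e e' θ θ' h1 h
    refine ⟨θ', e', c', C * K + C', h1', hc', by positivity, fun k => ⟨?_, ?_⟩⟩
    · have := (hf k).1
      have h0 : 0 ≤ c * ((k : ℝ) + 1) ^ e * θ ^ k := by positivity
      have := (hg k).1
      linarith
    · have a1 := (hf k).2
      have a2 := (hg k).2
      have a3 := mul_le_mul_of_nonneg_left (hk k) hC.le
      calc f k + g k ≤ C * (((k : ℝ) + 1) ^ e * θ ^ k) + C' * ((k : ℝ) + 1) ^ e' * θ' ^ k := by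
            linarith
        _ ≤ _ := by linarith
  obtain ⟨θ, e, c, C, h1, hc, hC, hf⟩ := hf
  obtain ⟨θ', e', c', C', h1', hc', hC', hg⟩ := hg
  rcases lt_trichotomy θ θ' with h | h | h
  · exact key θ θ' e e' c C c' C' h1 h1' hc hC hc' hC' hf hg (Or.inl h)
  · rcases le_total e e' with h2 | h2
    · exact key θ θ' e e' c C c' C' h1 h1' hc hC hc' hC' hf hg (Or.inr ⟨h, h2⟩)
    · have := key θ' θ e' e c' C' c C h1' h1 hc' hC' hc hC hg hf (Or.inr ⟨h.symm, h2⟩)
      simpa [add_comm] using this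
  · have := key θ' θ e' e c' C' c C h1' h1 hc' hC' hc hC hg hf (Or.inl h)
    simpa [add_comm] using this

lemma Typed.mul {f : ℕ → ℝ} (hf : Typed f) (m : ℝ) (hm : 0 < m) : Typed (fun k => m * f k) :=
  hf.transfer (1 / m) m (by positivity) hm (fun k => by field_simp; exact le_refl _)
    (fun k => le_refl _)

lemma Typed.sum {ι : Type} (S : Finset ι) (m : ι → ℝ) (g : ι → ℕ → ℝ)
    (hm : ∀ i ∈ S, 0 ≤ m i) (h : ∀ i ∈ S, 0 < m i → Typed (g i)) :
    (∀ i ∈ S, m i = 0) ∨ Typed (fun k => ∑ i ∈ S, m i * g i k) := by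
  classical
  induction S using Finset.induction_on with
  | empty => left; simp
  | insert a S ha ih =>
    have ih' := ih (fun i hi => hm i (Finset.mem_insert_of_mem hi))
      (fun i hi => h i (Finset.mem_insert_of_mem hi))
    have hma := hm a (Finset.mem_insert_self a S)
    rcases hma.eq_or_lt with h0 | h0
    · rcases ih' with h1 | h1
      · left
        intro i hi
        rcases Finset.mem_insert.1 hi with rfl | hi
        · exact h0.symm
        · exact h1 i hi
      · right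
        have : (fun k => ∑ i ∈ insert a S, m i * g i k) = fun k => ∑ i ∈ S, m i * g i k := by
          funext k
          rw [Finset.sum_insert ha, ← h0]; ring
        rw [this]; exact h1
    · right
      have hta := (h a (Finset.mem_insert_self a S) h0).mul (m a) h0
      rcases ih' with h1 | h1
      · have : (fun k => ∑ i ∈ insert a S, m i * g i k) = fun k => m a * g a k := by
          funext k
          rw [Finset.sum_insert ha, Finset.sum_eq_zero (fun i hi => by rw [h1 i hi]; ring)]; ring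
        rw [this]; exact hta
      · have : (fun k => ∑ i ∈ insert a S, m i * g i k) =
            fun k => m a * g a k + ∑ i ∈ S, m i * g i k := by
          funext k
          rw [Finset.sum_insert ha]
        rw [this]; exact hta.add h1

lemma pow_aux (e : ℕ) (x : ℝ) (hx : 1 ≤ x) : (x + 1) ^ (e + 1) ≤ x ^ (e + 1) + 3 ^ (e + 1) * x ^ e := by
  induction e with
  | zero => simp
  | succ e ih =>
    have hx0 : 0 ≤ x := by linarith
    calc (x + 1) ^ (e + 1 + 1) = (x + 1) * (x + 1) ^ (e + 1) := by ring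
      _ ≤ (x + 1) * (x ^ (e + 1) + 3 ^ (e + 1) * x ^ e) :=
          mul_le_mul_of_nonneg_left ih (by linarith)
      _ = x ^ (e + 1 + 1) + x ^ (e + 1) + 3 ^ (e + 1) * x ^ (e + 1) + 3 ^ (e + 1) * x ^ e := by ring
      _ ≤ x ^ (e + 1 + 1) + 3 ^ (e + 1) * x ^ (e + 1) + 3 ^ (e + 1) * x ^ (e + 1)
          + 3 ^ (e + 1) * x ^ (e + 1) := by
          have h1 : x ^ e ≤ x ^ (e + 1) := pow_le_pow_right₀ hx (by omega)
          have h2 : (1 : ℝ) ≤ 3 ^ (e + 1) := one_le_pow₀ (by norm_num)
          have h3 : (3 : ℝ) ^ (e + 1) * x ^ e ≤ 3 ^ (e + 1) * x ^ (e + 1) :=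
            mul_le_mul_of_nonneg_left h1 (by positivity)
          have h4 : 1 * x ^ (e + 1) ≤ 3 ^ (e + 1) * x ^ (e + 1) :=
            mul_le_mul_of_nonneg_right h2 (by positivity)
          linarith
      _ = _ := by ring

lemma rec_typed (F L : ℕ → ℝ) (ρ : ℝ) (hρ : 0 ≤ ρ) (hF0 : 0 < F 0)
    (hrec : ∀ k, F (k + 1) = ρ * F k + L k) (hL : Typed L) : Typed F := by
  obtain ⟨θ, e, c, C, h1, hc, hC, hL⟩ := hL
  have hLpos : ∀ k, 0 ≤ L k := fun k => le_trans (by positivity) (hL k).1
  have hFpos : ∀ k, 0 ≤ F k := by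
    intro k
    induction k with
    | zero => exact hF0.le
    | succ k ih => rw [hrec]; have := hLpos k; positivity
  rcases lt_trichotomy ρ θ with h | h | h
  · -- the input dominates
    have hd : 0 < θ - ρ := by linarith
    set K := max (F 0) (C / (θ - ρ)) with hK
    have hK1 : F 0 ≤ K := le_max_left _ _
    have hK2 : C ≤ K * (θ - ρ) := by
      have : C / (θ - ρ) ≤ K := le_max_right _ _
      rwa [div_le_iff₀ hd] at this
    have hK0 : 0 < K := lt_of_lt_of_le hF0 hK1
    set c' := min (F 0) (c / (2 ^ e * θ)) with hc'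
    have hc0 : 0 < c' := lt_min hF0 (by positivity)
    have hc2 : c' * (2 ^ e * θ) ≤ c := by
      have : c' ≤ c / (2 ^ e * θ) := min_le_right _ _
      rwa [le_div_iff₀ (by positivity)] at this
    refine ⟨θ, e, c', K, h1, hc0, hK0, fun k => ⟨?_, ?_⟩⟩
    · rcases k with _ | k
      · simp; exact min_le_left _ _
      · have h2 : ((((k + 1 : ℕ) : ℝ)) + 1) ^ e ≤ 2 ^ e * ((k : ℝ) + 1) ^ e := by
          rw [← mul_pow]
          exact pow_le_pow_left₀ (by positivity) (by push_cast; linarith [Nat.cast_nonneg (α := ℝ) k]) e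
        calc c' * (((k + 1 : ℕ) : ℝ) + 1) ^ e * θ ^ (k + 1)
            ≤ c' * (2 ^ e * ((k : ℝ) + 1) ^ e) * θ ^ (k + 1) := by gcongr
          _ = (c' * (2 ^ e * θ)) * (((k : ℝ) + 1) ^ e * θ ^ k) := by ring
          _ ≤ c * (((k : ℝ) + 1) ^ e * θ ^ k) := by gcongr
          _ = c * ((k : ℝ) + 1) ^ e * θ ^ k := by ring
          _ ≤ L k := (hL k).1
          _ ≤ F (k + 1) := by rw [hrec]; have := mul_nonneg hρ (hFpos k); linarith
    · induction k with
      | zero => simpa using hK1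
      | succ k ih =>
        have h2 : ((k : ℝ) + 1) ^ e ≤ ((((k + 1 : ℕ) : ℝ)) + 1) ^ e :=
          pow_le_pow_left₀ (by positivity) (by push_cast; linarith) e
        calc F (k + 1) = ρ * F k + L k := hrec k
          _ ≤ ρ * (K * ((k : ℝ) + 1) ^ e * θ ^ k) + C * ((k : ℝ) + 1) ^ e * θ ^ k := by
              have := mul_le_mul_of_nonneg_left ih hρ
              have := (hL k).2
              linarith
          _ = (ρ * K + C) * (((k : ℝ) + 1) ^ e * θ ^ k) := by ring
          _ ≤ (K * θ) * (((k : ℝ) + 1) ^ e * θ ^ k) := by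
              apply mul_le_mul_of_nonneg_right _ (by positivity)
              linarith
          _ = K * ((k : ℝ) + 1) ^ e * θ ^ (k + 1) := by ring
          _ ≤ _ := by gcongr
  · -- resonance
    subst h
    set K := max (F 0) (C / ρ) with hK
    have hρ0 : 0 < ρ := by linarith
    have hK1 : F 0 ≤ K := le_max_left _ _
    have hK2 : C ≤ K * ρ := by
      have : C / ρ ≤ K := le_max_right _ _
      rwa [div_le_iff₀ hρ0] at this
    have hK0 : 0 < K := lt_of_lt_of_le hF0 hK1
    set c' := min (F 0) (c / (3 ^ (e + 1) * ρ)) with hc'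
    have hc0 : 0 < c' := lt_min hF0 (by positivity)
    have hc2 : c' * (3 ^ (e + 1) * ρ) ≤ c := by
      have : c' ≤ c / (3 ^ (e + 1) * ρ) := min_le_right _ _
      rwa [le_div_iff₀ (by positivity)] at this
    refine ⟨ρ, e + 1, c', K, h1, hc0, hK0, fun k => ⟨?_, ?_⟩⟩
    · induction k with
      | zero => simp; exact min_le_left _ _
      | succ k ih =>
        have hx : (1 : ℝ) ≤ (k : ℝ) + 1 := by linarith [Nat.cast_nonneg (α := ℝ) k]
        have h2 := pow_aux e ((k : ℝ) + 1) hx
        calc c' * (((k + 1 : ℕ) : ℝ) + 1) ^ (e + 1) * ρ ^ (k + 1)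
            = c' * ρ ^ (k + 1) * ((k : ℝ) + 1 + 1) ^ (e + 1) := by push_cast; ring
          _ ≤ c' * ρ ^ (k + 1) * (((k : ℝ) + 1) ^ (e + 1) + 3 ^ (e + 1) * ((k : ℝ) + 1) ^ e) := by
              gcongr
          _ = ρ * (c' * ((k : ℝ) + 1) ^ (e + 1) * ρ ^ k) +
                (c' * (3 ^ (e + 1) * ρ)) * (((k : ℝ) + 1) ^ e * ρ ^ k) := by ring
          _ ≤ ρ * F k + c * (((k : ℝ) + 1) ^ e * ρ ^ k) := by gcongr
          _ = ρ * F k + c * ((k : ℝ) + 1) ^ e * ρ ^ k := by ring
          _ ≤ ρ * F k + L k := by have := (hL k).1; linarith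
          _ = F (k + 1) := (hrec k).symm
    · induction k with
      | zero => simpa using hK1
      | succ k ih =>
        have h2 : ((k : ℝ) + 1) ^ e ≤ ((k : ℝ) + 1 + 1) ^ e :=
          pow_le_pow_left₀ (by positivity) (by linarith) e
        calc F (k + 1) = ρ * F k + L k := hrec k
          _ ≤ ρ * (K * ((k : ℝ) + 1) ^ (e + 1) * ρ ^ k) + C * ((k : ℝ) + 1) ^ e * ρ ^ k := by
              have := mul_le_mul_of_nonneg_left ih hρ
              have := (hL k).2
              linarith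
          _ = ρ * (K * ((k : ℝ) + 1) ^ (e + 1) * ρ ^ k) + C * (((k : ℝ) + 1) ^ e * ρ ^ k) := by ring
          _ ≤ ρ * (K * ((k : ℝ) + 1) ^ (e + 1) * ρ ^ k) + (K * ρ) * (((k : ℝ) + 1) ^ e * ρ ^ k) := by
              gcongr
          _ = K * ρ ^ (k + 1) * (((k : ℝ) + 1) ^ e * ((k : ℝ) + 1 + 1)) := by ring
          _ ≤ K * ρ ^ (k + 1) * (((k : ℝ) + 1 + 1) ^ e * ((k : ℝ) + 1 + 1)) := by gcongr
          _ = _ := by push_cast; ring
  · -- the component dominates
    obtain ⟨σ, hσ1, hσ2⟩ := exists_between h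
    have hσ0 : 0 < σ := by linarith
    obtain ⟨D, hD, hDk⟩ := bdd_aux e (θ / σ) (by positivity) ((div_lt_one hσ0).2 hσ1)
    have hL' : ∀ k, L k ≤ C * D * σ ^ k := by
      intro k
      have h3 : ((k : ℝ) + 1) ^ e * θ ^ k ≤ D * σ ^ k := by
        have : ((k : ℝ) + 1) ^ e * θ ^ k = ((k : ℝ) + 1) ^ e * (θ / σ) ^ k * σ ^ k := by
          rw [div_pow]; field_simp
        rw [this]
        exact mul_le_mul_of_nonneg_right (hDk k) (by positivity)
      calc L k ≤ C * ((k : ℝ) + 1) ^ e * θ ^ k := (hL k).2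
        _ = C * (((k : ℝ) + 1) ^ e * θ ^ k) := by ring
        _ ≤ C * (D * σ ^ k) := by gcongr
        _ = _ := by ring
    have hd : 0 < ρ - σ := by linarith
    set K' := C * D / (ρ - σ) with hK'
    have hK'0 : 0 < K' := by positivity
    have hK'1 : C * D = K' * (ρ - σ) := by rw [hK']; field_simp
    refine ⟨ρ, 0, F 0, F 0 + K', by linarith, hF0, by positivity, fun k => ⟨?_, ?_⟩⟩
    · induction k with
      | zero => simp
      | succ k ih =>
        rw [hrec]
        have := mul_le_mul_of_nonneg_left ih hρ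
        have h3 := hLpos k
        calc F 0 * (((k + 1 : ℕ) : ℝ) + 1) ^ 0 * ρ ^ (k + 1)
            = ρ * (F 0 * ((k : ℝ) + 1) ^ 0 * ρ ^ k) := by simp; ring
          _ ≤ _ := by linarith
    · have h4 : ∀ k, F k ≤ (F 0 + K') * ρ ^ k - K' * σ ^ k := by
        intro k
        induction k with
        | zero => simp
        | succ k ih =>
          rw [hrec]
          have a1 := mul_le_mul_of_nonneg_left ih hρ
          have a2 := hL' k
          calc ρ * F k + L k ≤ ρ * ((F 0 + K') * ρ ^ k - K' * σ ^ k) + C * D * σ ^ k := by linarith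
            _ = (F 0 + K') * ρ ^ (k + 1) - K' * σ ^ (k + 1) := by rw [hK'1]; ring
            _ ≤ _ := le_refl _
      have := h4 k
      have h5 : 0 ≤ K' * σ ^ k := by positivity
      simp only [pow_zero, mul_one]
      linarith

/-! ## Perron vectors -/

/-- A left Perron vector of an irreducible nonnegative matrix. -/
lemma perron {C : Type} [Fintype C] [DecidableEq C] [Nonempty C] (M : Matrix C C ℝ)
    (h0 : ∀ i j, 0 ≤ M i j)
    (hirr : ∀ i j, Relation.ReflTransGen (fun a b => 0 < M a b) i j) :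
    ∃ (ρ : ℝ) (v : C → ℝ), 0 ≤ ρ ∧ (∀ i, 0 < v i) ∧ ∀ j, ∑ i, v i * M i j = ρ * v j := by
  classical
  -- powers
  have hpow0 : ∀ k i j, 0 ≤ (M ^ k) i j := by
    intro k
    induction k with
    | zero => intro i j; rw [pow_zero, Matrix.one_apply]; split_ifs <;> norm_num
    | succ k ih =>
      intro i j
      rw [pow_succ, Matrix.mul_apply]
      exact Finset.sum_nonneg (fun l _ => mul_nonneg (ih i l) (h0 l j))
  have hpath : ∀ i j, ∃ k, 0 < (M ^ k) i j := by
    intro i j
    induction hirr i j with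
    | refl => exact ⟨0, by simp⟩
    | tail _ hab ih =>
      obtain ⟨k, hk⟩ := ih
      refine ⟨k + 1, ?_⟩
      rw [pow_succ, Matrix.mul_apply]
      exact Finset.sum_pos' (fun l _ => mul_nonneg (hpow0 k i l) (h0 l _))
        ⟨_, Finset.mem_univ _, mul_pos hk hab⟩
  choose κ hκ using hpath
  set s : ℕ := (∑ i, ∑ j, κ i j) + 1 with hs
  have hκs : ∀ i j, κ i j < s := by
    intro i j
    have h1 : κ i j ≤ ∑ j, κ i j := Finset.single_le_sum (fun _ _ => Nat.zero_le _) (Finset.mem_univ j)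
    have h2 : ∑ j, κ i j ≤ ∑ i, ∑ j, κ i j :=
      Finset.single_le_sum (f := fun i => ∑ j, κ i j) (fun _ _ => Nat.zero_le _) (Finset.mem_univ i)
    omega
  set P : Matrix C C ℝ := ∑ k ∈ Finset.range s, M ^ k with hP
  have hPapp : ∀ i j, P i j = ∑ k ∈ Finset.range s, (M ^ k) i j := by
    intro i j
    rw [hP, Matrix.sum_apply]
  have hPpos : ∀ i j, 0 < P i j := by
    intro i j
    rw [hPapp]
    exact Finset.sum_pos' (fun k _ => hpow0 k i j) ⟨κ i j, Finset.mem_range.2 (hκs i j), hκ i j⟩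
  have hPM : M * P = P * M := by
    rw [hP, Finset.mul_sum, Finset.sum_mul]
    exact Finset.sum_congr rfl (fun k _ => by rw [← pow_succ', ← pow_succ])
  -- the extremal problem
  set R : ℝ := ∑ i, ∑ j, M i j with hR
  set T : Set (ℝ × (C → ℝ)) := {p | p.1 ∈ Set.Icc 0 R ∧ p.2 ∈ stdSimplex ℝ C ∧
    ∀ j, p.1 * p.2 j ≤ ∑ i, p.2 i * M i j} with hT
  have hTc : IsCompact T := by
    have h1 : IsCompact ((Set.Icc (0 : ℝ) R) ×ˢ (stdSimplex ℝ C)) :=
      isCompact_Icc.prod (isCompact_stdSimplex ℝ C)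
    refine h1.of_isClosed_subset ?_ (fun p hp => ⟨hp.1, hp.2.1⟩)
    have h2 : T = ((Set.Icc (0 : ℝ) R) ×ˢ (stdSimplex ℝ C)) ∩
        ⋂ j, {p : ℝ × (C → ℝ) | p.1 * p.2 j ≤ ∑ i, p.2 i * M i j} := by
      ext p
      simp only [hT, Set.mem_ofPred_eq, Set.mem_inter_iff, Set.mem_prod, Set.mem_iInter]
      tauto
    rw [h2]
    refine h1.isClosed.inter (isClosed_iInter (fun j => isClosed_le (by fun_prop) (by fun_prop)))
  have hTn : T.Nonempty := by
    obtain ⟨i0⟩ := ‹Nonempty C›
    refine ⟨(0, Pi.single i0 1), ⟨le_refl _, ?_⟩, single_mem_stdSimplex ℝ i0, fun j => ?_⟩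
    · exact Finset.sum_nonneg (fun i _ => Finset.sum_nonneg (fun j _ => h0 i j))
    · simp only [zero_mul]
      refine Finset.sum_nonneg (fun i _ => mul_nonneg ?_ (h0 i j))
      rcases eq_or_ne i i0 with rfl | h
      · simp
      · simp [h]
  obtain ⟨⟨ρ, v⟩, ⟨hρR, hvs, hv⟩, hmax⟩ := hTc.exists_isMaxOn hTn continuous_fst.continuousOn
  simp only at hρR hvs hv
  have hv0 : ∀ i, 0 ≤ v i := hvs.1
  have hv1 : ∑ i, v i = 1 := hvs.2
  have hbound : ∀ (t : ℝ) (z : C → ℝ), z ∈ stdSimplex ℝ C → (∀ j, t * z j ≤ ∑ i, z i * M i j) →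
      t ≤ R := by
    intro t z hz h
    have hz1 : ∀ i, z i ≤ 1 := by
      intro i
      rw [← hz.2]
      exact Finset.single_le_sum (fun i _ => hz.1 i) (Finset.mem_univ i)
    calc t = ∑ j, t * z j := by rw [← Finset.mul_sum, hz.2, mul_one]
      _ ≤ ∑ j, ∑ i, z i * M i j := Finset.sum_le_sum (fun j _ => h j)
      _ ≤ ∑ j, ∑ i, M i j := Finset.sum_le_sum (fun j _ => Finset.sum_le_sum (fun i _ => by
          have := mul_le_mul_of_nonneg_right (hz1 i) (h0 i j); linarith))
      _ = R := Finset.sum_comm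
  have heq : ∀ j, ∑ i, v i * M i j = ρ * v j := by
    by_contra hne
    push Not at hne
    obtain ⟨j0, hj0⟩ := hne
    set y : C → ℝ := fun j => ∑ i, v i * M i j - ρ * v j with hy
    have hy0 : ∀ j, 0 ≤ y j := fun j => by have := hv j; simp only [hy]; linarith
    have hyj0 : 0 < y j0 := lt_of_le_of_ne (hy0 j0) (fun h => hj0 (by simp only [hy] at h; linarith))
    set v' : C → ℝ := fun j => ∑ i, v i * P i j with hv'
    have hyP : ∀ j, 0 < ∑ i, y i * P i j := fun j =>
      Finset.sum_pos' (fun i _ => mul_nonneg (hy0 i) (hPpos i j).le)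
        ⟨j0, Finset.mem_univ _, mul_pos hyj0 (hPpos j0 j)⟩
    have hv'0 : ∀ j, 0 ≤ v' j := fun j =>
      Finset.sum_nonneg (fun i _ => mul_nonneg (hv0 i) (hPpos i j).le)
    have hcomm : ∀ j, ∑ i, v' i * M i j - ρ * v' j = ∑ i, y i * P i j := by
      intro j
      have e1 : ∑ i, v' i * M i j = ∑ l, v l * (P * M) l j := by
        simp only [hv', Matrix.mul_apply, Finset.sum_mul, Finset.mul_sum]
        rw [Finset.sum_comm]
        exact Finset.sum_congr rfl (fun l _ => Finset.sum_congr rfl (fun i _ => by ring))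
      have e2 : ∑ i, y i * P i j = ∑ l, v l * (M * P) l j - ρ * v' j := by
        simp only [hy, hv', sub_mul, Finset.sum_sub_distrib, Matrix.mul_apply, Finset.sum_mul,
          Finset.mul_sum]
        congr 1
        · rw [Finset.sum_comm]
          exact Finset.sum_congr rfl (fun l _ => Finset.sum_congr rfl (fun i _ => by ring))
        · exact Finset.sum_congr rfl (fun l _ => by ring)
      rw [e1, e2, hPM]
    have hσ : 0 < ∑ j, v' j := by
      obtain ⟨i1, hi1⟩ : ∃ i, 0 < v i := by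
        by_contra hcon
        push Not at hcon
        have : ∑ i, v i ≤ 0 := Finset.sum_nonpos (fun i _ => hcon i)
        linarith
      refine Finset.sum_pos' (fun j _ => hv'0 j) ⟨i1, Finset.mem_univ _, ?_⟩
      exact Finset.sum_pos' (fun i _ => mul_nonneg (hv0 i) (hPpos i _).le)
        ⟨i1, Finset.mem_univ _, mul_pos hi1 (hPpos i1 i1)⟩
    set σ := ∑ j, v' j with hσd
    obtain ⟨jm, _, hjm⟩ := Finset.exists_min_image Finset.univ (fun j => ∑ i, y i * P i j)
      Finset.univ_nonempty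
    set ε := (∑ i, y i * P i jm) / σ with hε
    have hε0 : 0 < ε := div_pos (hyP jm) hσ
    have hεj : ∀ j, ε * v' j ≤ ∑ i, y i * P i j := by
      intro j
      have h1 : v' j ≤ σ := Finset.single_le_sum (fun j _ => hv'0 j) (Finset.mem_univ j)
      calc ε * v' j ≤ ε * σ := mul_le_mul_of_nonneg_left h1 hε0.le
        _ = ∑ i, y i * P i jm := by rw [hε]; field_simp
        _ ≤ _ := hjm j (Finset.mem_univ j)
    set z : C → ℝ := fun j => v' j / σ with hz
    have hzs : z ∈ stdSimplex ℝ C := by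
      refine ⟨fun j => div_nonneg (hv'0 j) hσ.le, ?_⟩
      simp only [hz]
      rw [← Finset.sum_div, ← hσd, div_self hσ.ne']
    have hzf : ∀ j, (ρ + ε) * z j ≤ ∑ i, z i * M i j := by
      intro j
      have e1 : ∑ i, z i * M i j = (∑ i, v' i * M i j) / σ := by
        simp only [hz]
        rw [Finset.sum_div]
        exact Finset.sum_congr rfl (fun i _ => by ring)
      rw [e1, le_div_iff₀ hσ]
      have e2 : (ρ + ε) * z j * σ = ρ * v' j + ε * v' j := by
        simp only [hz]; field_simp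
      rw [e2]
      have := hcomm j
      have := hεj j
      linarith
    have hmem : ((ρ + ε, z) : ℝ × (C → ℝ)) ∈ T :=
      ⟨⟨by have := hρR.1; simp only; linarith, hbound _ z hzs hzf⟩, hzs, hzf⟩
    have := hmax hmem
    simp only [Set.mem_ofPred_eq] at this
    linarith
  refine ⟨ρ, v, hρR.1, ?_, heq⟩
  -- positivity
  have hpw : ∀ k j, ∑ i, v i * (M ^ k) i j = ρ ^ k * v j := by
    intro k
    induction k with
    | zero => intro j; simp [Matrix.one_apply]
    | succ k ih =>
      intro j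
      have e1 : ∑ i, v i * (M ^ (k + 1)) i j = ∑ l, (∑ i, v i * (M ^ k) i l) * M l j := by
        simp only [pow_succ, Matrix.mul_apply, Finset.sum_mul, Finset.mul_sum]
        rw [Finset.sum_comm]
        exact Finset.sum_congr rfl (fun l _ => Finset.sum_congr rfl (fun i _ => by ring))
      rw [e1]
      simp only [ih]
      calc ∑ l, ρ ^ k * v l * M l j = ρ ^ k * ∑ l, v l * M l j := by
            rw [Finset.mul_sum]; exact Finset.sum_congr rfl (fun l _ => by ring)
        _ = ρ ^ (k + 1) * v j := by rw [heq]; ring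
  intro j
  obtain ⟨i1, hi1⟩ : ∃ i, 0 < v i := by
    by_contra hcon
    push Not at hcon
    have : ∑ i, v i ≤ 0 := Finset.sum_nonpos (fun i _ => hcon i)
    linarith
  have h1 : 0 < ∑ i, v i * P i j :=
    Finset.sum_pos' (fun i _ => mul_nonneg (hv0 i) (hPpos i _).le)
      ⟨i1, Finset.mem_univ _, mul_pos hi1 (hPpos i1 j)⟩
  have h2 : ∑ i, v i * P i j = (∑ k ∈ Finset.range s, ρ ^ k) * v j := by
    simp only [hPapp, Finset.mul_sum]
    rw [Finset.sum_comm, Finset.sum_mul]
    exact Finset.sum_congr rfl (fun k _ => hpw k j)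
  rw [h2] at h1
  rcases (hv0 j).eq_or_lt with h | h
  · rw [← h, mul_zero] at h1; exact absurd h1 (lt_irrefl 0)
  · exact h

/-! ## The main induction -/

section Main

variable {B : Type} [Fintype B] (N : B → B → ℕ) (w : B → ℕ)

/-- Reachability. -/
def Rch (b c : B) : Prop := Relation.ReflTransGen (fun a b => N a b ≠ 0) b c

lemma G_pos (hw : ∀ b, 0 < w b)
    (ht : ∀ b, Tendsto (fun k => G N w k b) atTop atTop) : ∀ k b, 0 < G N w k b := by
  intro k
  induction k with
  | zero => exact hw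
  | succ k ih =>
    intro b
    have hsucc : ∃ c, N b c ≠ 0 := by
      by_contra hcon
      push Not at hcon
      have h1 : ∀ k, G N w (k + 1) b = 0 := fun k => by
        simp only [G]; exact Finset.sum_eq_zero (fun c _ => by rw [hcon c]; ring)
      obtain ⟨k0, hk0⟩ := ((tendsto_atTop_atTop.1 (ht b)) 1)
      have := hk0 (k0 + 1) (by omega)
      rw [h1] at this
      omega
    obtain ⟨c, hc⟩ := hsucc
    exact Finset.sum_pos' (fun c _ => Nat.zero_le _)
      ⟨c, Finset.mem_univ _, Nat.mul_pos (Nat.pos_of_ne_zero hc) (ih c)⟩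

lemma G_step_le (hw : ∀ b, 0 < w b) :
    ∃ K : ℕ, 0 < K ∧ ∀ k b, G N w (k + 1) b ≤ K * G N w k b := by
  refine ⟨∑ b, G N w 1 b + 1, by omega, fun k => ?_⟩
  induction k with
  | zero =>
    intro b
    have h1 : G N w 1 b ≤ ∑ b, G N w 1 b :=
      Finset.single_le_sum (f := fun b => G N w 1 b) (fun _ _ => Nat.zero_le _) (Finset.mem_univ b)
    have h2 := hw b
    have h3 : G N w 0 b = w b := rfl
    rw [h3]
    nlinarith
  | succ k ih =>
    intro b
    calc G N w (k + 1 + 1) b = ∑ c, N b c * G N w (k + 1) c := rfl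
      _ ≤ ∑ c, N b c * ((∑ b, G N w 1 b + 1) * G N w k c) :=
          Finset.sum_le_sum (fun c _ => Nat.mul_le_mul_left _ (ih c))
      _ = (∑ b, G N w 1 b + 1) * G N w (k + 1) b := by
          simp only [G]
          rw [Finset.mul_sum]
          exact Finset.sum_congr rfl (fun c _ => by ring)

lemma G_rch (hw : ∀ b, 0 < w b) (b c : B) (h : Rch N b c) :
    ∃ K : ℝ, 0 < K ∧ ∀ k, (G N w k c : ℝ) ≤ K * G N w k b := by
  obtain ⟨K0, hK0, hstep⟩ := G_step_le N w hw
  induction h with
  | refl => exact ⟨1, one_pos, fun k => by simp⟩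
  | @tail x y _ hxy ih =>
    obtain ⟨K, hK, hk⟩ := ih
    refine ⟨K0 * K, by positivity, fun k => ?_⟩
    have h1 : G N w k y ≤ G N w (k + 1) x := by
      calc G N w k y = 1 * G N w k y := (one_mul _).symm
        _ ≤ N x y * G N w k y := Nat.mul_le_mul_right _ (Nat.pos_of_ne_zero hxy)
        _ ≤ _ := Finset.single_le_sum (f := fun y => N x y * G N w k y)
            (fun _ _ => Nat.zero_le _) (Finset.mem_univ y)
    have h2 := h1.trans (hstep k x)
    have h3 : (G N w k y : ℝ) ≤ K0 * G N w k x := by exact_mod_cast h2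
    calc (G N w k y : ℝ) ≤ K0 * G N w k x := h3
      _ ≤ K0 * (K * G N w k b) := mul_le_mul_of_nonneg_left (hk k) (by positivity)
      _ = _ := by ring

lemma main (hw : ∀ b, 0 < w b) (ht : ∀ b, Tendsto (fun k => G N w k b) atTop atTop) :
    ∀ (m : ℕ) (b : B), (Set.ncard {c | Rch N b c}) ≤ m → Typed (fun k => (G N w k b : ℝ)) := by
  classical
  intro m
  induction m with
  | zero =>
    intro b hb
    exfalso
    have : b ∈ {c | Rch N b c} := Relation.ReflTransGen.refl
    have h2 : 0 < Set.ncard {c | Rch N b c} := (Set.ncard_pos (Set.toFinite _)).2 ⟨b, this⟩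
    omega
  | succ m ih =>
    intro b hb
    -- the component of `b`
    let C := {c : B // Rch N b c ∧ Rch N c b}
    have : Nonempty C := ⟨⟨b, Relation.ReflTransGen.refl, Relation.ReflTransGen.refl⟩⟩
    have hirr : ∀ i j : C, Relation.ReflTransGen (fun a b : C => (0 : ℝ) < (N a b : ℝ)) i j := by
      rintro ⟨i, hi⟩ ⟨j, hj⟩
      have hij : Rch N i j := hi.2.trans hj.1
      have key : ∀ x, Rch N i x → ∀ hx : Rch N b x ∧ Rch N x b,
          Relation.ReflTransGen (fun a b : C => (0 : ℝ) < (N a b : ℝ)) ⟨i, hi⟩ ⟨x, hx⟩ := by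
        intro x hix
        induction hix with
        | refl => intro hx; exact Relation.ReflTransGen.refl
        | @tail y z hiy hyz ih2 =>
          intro hz
          have hy : Rch N b y ∧ Rch N y b :=
            ⟨hi.1.trans hiy, Relation.ReflTransGen.head hyz hz.2⟩
          exact (ih2 hy).tail (by
            show (0 : ℝ) < (N y z : ℝ)
            exact_mod_cast Nat.pos_of_ne_zero hyz)
      exact key j hij hj
    obtain ⟨ρ, v, hρ, hv, hvM⟩ := perron (C := C) (fun a b => (N a b : ℝ))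
      (fun _ _ => Nat.cast_nonneg _) hirr
    -- the weighted sum
    set F : ℕ → ℝ := fun k => ∑ c : C, v c * G N w k c with hF
    set mm : B → ℝ := fun d => ∑ c : C, v c * N c d with hmm
    set E : Finset B := Finset.univ.filter (fun d => ¬ (Rch N b d ∧ Rch N d b)) with hE
    set L : ℕ → ℝ := fun k => ∑ d ∈ E, mm d * G N w k d with hL
    have hmm0 : ∀ d, 0 ≤ mm d := fun d =>
      Finset.sum_nonneg (fun c _ => mul_nonneg (hv c).le (Nat.cast_nonneg _))
    have hrec : ∀ k, F (k + 1) = ρ * F k + L k := by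
      intro k
      have e1 : F (k + 1) = ∑ d : B, mm d * G N w k d := by
        simp only [hF, hmm, G]
        push_cast
        simp only [Finset.mul_sum, Finset.sum_mul]
        rw [Finset.sum_comm]
        exact Finset.sum_congr rfl (fun d _ => Finset.sum_congr rfl (fun c _ => by ring))
      have e2 : ∑ d : B, mm d * G N w k d =
          ∑ d ∈ Finset.univ.filter (fun d => Rch N b d ∧ Rch N d b), mm d * G N w k d + L k := by
        rw [hL]
        exact (Finset.sum_filter_add_sum_filter_not _ _ _).symm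
      have e3 : ∑ d ∈ Finset.univ.filter (fun d => Rch N b d ∧ Rch N d b), mm d * G N w k d =
          ∑ d : C, mm d * G N w k d := by
        rw [← Finset.sum_subtype_eq_sum_filter]
        simp
        rfl
      rw [e1, e2, e3]
      congr 1
      rw [hF, Finset.mul_sum]
      refine Finset.sum_congr rfl (fun d _ => ?_)
      have := hvM d
      simp only [hmm]
      rw [this]; ring
    have hGpos := G_pos N w hw ht
    have hF0 : 0 < F 0 :=
      Finset.sum_pos (fun c _ => mul_pos (hv c) (by exact_mod_cast hGpos 0 c))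
        Finset.univ_nonempty
    -- comparison of `F` and `G b`
    let b' : C := ⟨b, Relation.ReflTransGen.refl, Relation.ReflTransGen.refl⟩
    have hc1 : ∀ k, (G N w k b : ℝ) ≤ (1 / v b') * F k := by
      intro k
      have h1 : v b' * G N w k b ≤ F k :=
        Finset.single_le_sum (f := fun c : C => v c * (G N w k c : ℝ))
          (fun c _ => mul_nonneg (hv c).le (Nat.cast_nonneg _)) (Finset.mem_univ b')
      have h2 := hv b'
      rw [one_div, ← div_eq_inv_mul, le_div_iff₀ h2]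
      linarith
    have hc2 : ∃ K : ℝ, 0 < K ∧ ∀ k, F k ≤ K * G N w k b := by
      have : ∀ c : C, ∃ K : ℝ, 0 < K ∧ ∀ k, (G N w k c : ℝ) ≤ K * G N w k b :=
        fun c => G_rch N w hw b c c.2.1
      choose K hK hk using this
      refine ⟨∑ c : C, v c * K c, Finset.sum_pos (fun c _ => mul_pos (hv c) (hK c))
        Finset.univ_nonempty, fun k => ?_⟩
      rw [Finset.sum_mul]
      refine Finset.sum_le_sum (fun c _ => ?_)
      have := mul_le_mul_of_nonneg_left (hk c k) (hv c).le
      linarith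
    obtain ⟨K, hK, hKk⟩ := hc2
    refine Typed.transfer (f := F) ?_ K (1 / v b') hK (by have := hv b'; positivity) hKk hc1
    have hS := Typed.sum E mm (fun d k => (G N w k d : ℝ)) (fun d _ => hmm0 d) (by
      intro d hd hmd
      apply ih d
      -- `d` is an exit letter
      have hex : ∃ c : C, 0 < v c * (N c d : ℝ) := by
        by_contra hcon
        push Not at hcon
        have : mm d ≤ 0 := Finset.sum_nonpos (fun c _ => hcon c)
        linarith
      obtain ⟨c, hc⟩ := hex
      have hNcd : N c d ≠ 0 := by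
        intro h
        rw [h] at hc
        simp at hc
      have hbd : Rch N b d := c.2.1.trans (Relation.ReflTransGen.single hNcd)
      have hdb : ¬ Rch N d b := fun h => (Finset.mem_filter.1 hd).2 ⟨hbd, h⟩
      have hlt : Set.ncard {c | Rch N d c} < Set.ncard {c | Rch N b c} := by
        apply Set.ncard_lt_ncard _ (Set.toFinite _)
        have hsub : {c | Rch N d c} ⊆ {c | Rch N b c} :=
          fun c (hc : Rch N d c) => (show Rch N b c from hbd.trans hc)
        exact (Set.ssubset_iff_of_subset hsub).2 ⟨b, Relation.ReflTransGen.refl, hdb⟩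
      omega)
    rcases hS with h | h
    · -- no exits
      have hL0 : ∀ k, L k = 0 := fun k => Finset.sum_eq_zero (fun d hd => by rw [h d hd]; ring)
      have hFk : ∀ k, F k = ρ ^ k * F 0 := by
        intro k
        induction k with
        | zero => simp
        | succ k ihk => rw [hrec, hL0, ihk]; ring
      have hρ1 : 1 < ρ := by
        by_contra hcon
        push Not at hcon
        obtain ⟨k0, hk0⟩ := (tendsto_atTop_atTop.1 (ht b)) (⌈(1 / v b') * F 0⌉₊ + 1)
        have h1 := hk0 k0 le_rfl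
        have h2 := hc1 k0
        have h3 : F k0 ≤ F 0 := by
          rw [hFk]
          have : ρ ^ k0 ≤ 1 := pow_le_one₀ hρ hcon
          nlinarith
        have h4 : (1 / v b') * F k0 ≤ (1 / v b') * F 0 :=
          mul_le_mul_of_nonneg_left h3 (by have := hv b'; positivity)
        have h5 : (1 / v b') * F 0 ≤ ⌈(1 / v b') * F 0⌉₊ := Nat.le_ceil _
        have h6 : ((⌈(1 / v b') * F 0⌉₊ + 1 : ℕ) : ℝ) ≤ G N w k0 b := by exact_mod_cast h1
        push_cast at h6
        linarith
      refine ⟨ρ, 0, F 0, F 0, hρ1, hF0, hF0, fun k => ?_⟩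
      have h9 := hFk k
      rw [pow_zero, mul_one]
      constructor <;> linarith
    · exact rec_typed F L ρ hρ hF0 hrec h

end Main

end GrowAux

theorem t_GROW : S_GROW := by
  intro B _ _ N w hw ht b
  obtain ⟨θ, e, c, C, h1, h2, h3, h4⟩ := GrowAux.main N w hw ht _ b le_rfl
  exact ⟨θ, e, c, C, h1, h2, h3, h4⟩

end Pool.Agent.T2h96.FC
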