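import Pool.Agent.T2h96.FC.Stm

/-!
# Task HULL: the defect theorem for an elementary morphism and one more word
-/

set_option autoImplicit false

namespace Pool.Agent.T2h96.FC.HULL

variable {C : Type}

/-- stable submonoids -/
structure St (M : List C → Prop) : Prop where
  nil : M []
  mul : ∀ u v, M u → M v → M (u ++ v)
  stab : ∀ u v w, M u → M v → M (u ++ w) → M (w ++ v) → M w

/-- the free hull -/
def Hl (S : List C → Prop) (w : List C) : Prop := ∀ M : List C → Prop, St M → (∀ s, S s → M s) → M w

theorem Hl_st (S : List C → Prop) : St (Hl S) where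
  nil := fun M hM _ => hM.nil
  mul := fun u v hu hv M hM hS => hM.mul u v (hu M hM hS) (hv M hM hS)
  stab := fun u v w hu hv huw hwv M hM hS =>
    hM.stab u v w (hu M hM hS) (hv M hM hS) (huw M hM hS) (hwv M hM hS)

theorem Hl_sub (S : List C → Prop) {s : List C} (hs : S s) : Hl S s := fun _ _ hS => hS s hs

/-- irreducible elements -/
def Irr (M : List C → Prop) (w : List C) : Prop :=
  M w ∧ w ≠ [] ∧ ∀ u v, M u → M v → w = u ++ v → u = [] ∨ v = []

/-- the type of the irreducible elements -/
abbrev F (M : List C → Prop) : Type := {w : List C // Irr M w}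

/-- the product -/
def ev (M : List C → Prop) (l : List (F M)) : List C := l.flatMap Subtype.val

theorem ev_append (M : List C → Prop) (l l' : List (F M)) : ev M (l ++ l') = ev M l ++ ev M l' :=
  List.flatMap_append

theorem ev_nil (M : List C → Prop) : ev M [] = [] := rfl

theorem ev_cons (M : List C → Prop) (x : F M) (l : List (F M)) : ev M (x :: l) = x.1 ++ ev M l := rfl

theorem ev_mem {M : List C → Prop} (hM : St M) (l : List (F M)) : M (ev M l) := by
  induction l with
  | nil => exact hM.nil
  | cons x l ih =>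
    rw [ev_cons]
    exact hM.mul _ _ x.2.1 ih

theorem exists_ev {M : List C → Prop} : ∀ (n : ℕ) (w : List C), w.length ≤ n → M w →
    ∃ l, ev M l = w := by
  intro n
  induction n with
  | zero =>
    intro w hw _
    have : w = [] := List.length_eq_zero_iff.1 (Nat.le_zero.1 hw)
    exact ⟨[], by rw [this]; rfl⟩
  | succ n ih =>
    intro w hw hMw
    by_cases hnil : w = []
    · exact ⟨[], by rw [hnil]; rfl⟩
    by_cases hirr : Irr M w
    · exact ⟨[⟨w, hirr⟩], by simp [ev]⟩
    · have : ∃ u v, M u ∧ M v ∧ w = u ++ v ∧ u ≠ [] ∧ v ≠ [] := by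
        by_contra hc
        push Not at hc
        apply hirr
        refine ⟨hMw, hnil, fun u v hu hv huv => ?_⟩
        by_contra hcon
        rw [not_or] at hcon
        exact hcon.2 (hc u v hu hv huv hcon.1)
      obtain ⟨u, v, hu, hv, huv, hu0, hv0⟩ := this
      have hlen : w.length = u.length + v.length := by rw [huv, List.length_append]
      have h1 : 0 < u.length := List.length_pos_iff.2 hu0
      have h2 : 0 < v.length := List.length_pos_iff.2 hv0
      obtain ⟨l, hl⟩ := ih u (by omega) hu
      obtain ⟨l', hl'⟩ := ih v (by omega) hv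
      exact ⟨l ++ l', by rw [ev_append, hl, hl', huv]⟩

theorem ev_inj {M : List C → Prop} (hM : St M) : Function.Injective (ev M) := by
  intro l
  induction l with
  | nil =>
    intro l' h
    rw [ev_nil] at h
    cases l' with
    | nil => rfl
    | cons y l' =>
      rw [ev_cons] at h
      exact absurd (List.append_eq_nil_iff.1 h.symm).1 y.2.2.1
  | cons x l ih =>
    intro l' h
    cases l' with
    | nil =>
      rw [ev_cons, ev_nil] at h
      exact absurd (List.append_eq_nil_iff.1 h).1 x.2.2.1
    | cons y l' =>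
      rw [ev_cons, ev_cons] at h
      have key : ∀ (x y : F M) (p q : List C), M p → M q → x.1 ++ p = y.1 ++ q →
          ∀ w, x.1 = y.1 ++ w → x = y := by
        intro x y p q hp hq h w hw
        rw [hw, List.append_assoc] at h
        have h1 : w ++ p = q := List.append_cancel_left h
        have hMw : M w := hM.stab y.1 p w y.2.1 hp (by rw [← hw]; exact x.2.1) (by rw [h1]; exact hq)
        rcases x.2.2.2 y.1 w y.2.1 hMw hw with h2 | h2
        · exact absurd h2 y.2.2.1
        · apply Subtype.ext
          rw [hw, h2, List.append_nil]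
      have hxy : x = y := by
        rcases List.append_eq_append_iff.1 h with ⟨w, hw, -⟩ | ⟨w, hw, -⟩
        · exact (key y x _ _ (ev_mem hM l') (ev_mem hM l) h.symm w hw).symm
        · exact key x y _ _ (ev_mem hM l) (ev_mem hM l') h w hw
      subst hxy
      rw [ih (List.append_cancel_left h)]

open Classical in
/-- the factorization -/
noncomputable def fac (M : List C → Prop) (w : List C) : List (F M) :=
  if h : M w then (exists_ev w.length w le_rfl h).choose else []

theorem ev_fac {M : List C → Prop} {w : List C} (h : M w) : ev M (fac M w) = w := by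
  rw [fac, dif_pos h]
  exact (exists_ev w.length w le_rfl h).choose_spec

theorem fac_mul {M : List C → Prop} (hM : St M) {u v : List C} (hu : M u) (hv : M v) :
    fac M (u ++ v) = fac M u ++ fac M v := by
  apply ev_inj hM
  rw [ev_fac (hM.mul u v hu hv), ev_append, ev_fac hu, ev_fac hv]

theorem fac_nil {M : List C → Prop} (hM : St M) : fac M [] = [] := by
  apply ev_inj hM
  rw [ev_fac hM.nil, ev_nil]

theorem fac_ne {M : List C → Prop} {w : List C} (h : M w) (hw : w ≠ []) : fac M w ≠ [] := by
  intro hc
  apply hw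
  rw [← ev_fac h, hc, ev_nil]

theorem fac_irr {M : List C → Prop} (hM : St M) (x : F M) : fac M x.1 = [x] := by
  apply ev_inj hM
  rw [ev_fac x.2.1]
  simp [ev]

/-- every irreducible element of the hull is a first factor -/
theorem head_surj (S : List C → Prop) (x : F (Hl S)) : ∃ s, S s ∧ (fac (Hl S) s).head? = some x := by
  by_contra hc
  push Not at hc
  have hM := Hl_st S
  have hx := x.2.1 (fun w => Hl S w ∧ (fac (Hl S) w).head? ≠ some x) ?_
    (fun s hs => ⟨Hl_sub S hs, hc s hs⟩)
  · apply hx.2
    rw [fac_irr hM x]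
    rfl
  · refine ⟨⟨hM.nil, by rw [fac_nil hM]; simp⟩, ?_, ?_⟩
    · rintro u v ⟨hu, hu'⟩ ⟨hv, hv'⟩
      refine ⟨hM.mul u v hu hv, ?_⟩
      rw [fac_mul hM hu hv]
      cases h : fac (Hl S) u with
      | nil => simpa using hv'
      | cons y l =>
        rw [h] at hu'
        simpa using hu'
    · rintro u v w ⟨hu, hu'⟩ ⟨hv, hv'⟩ ⟨huw, huw'⟩ ⟨hwv, hwv'⟩
      have hw := hM.stab u v w hu hv huw hwv
      refine ⟨hw, ?_⟩
      rw [fac_mul hM hw hv] at hwv'
      cases h : fac (Hl S) w with
      | nil => simp
      | cons y l =>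
        rw [h] at hwv'
        simpa using hwv'

/-- every irreducible element of the hull is a last factor -/
theorem last_surj (S : List C → Prop) (x : F (Hl S)) :
    ∃ s, S s ∧ (fac (Hl S) s).getLast? = some x := by
  by_contra hc
  push Not at hc
  have hM := Hl_st S
  have hx := x.2.1 (fun w => Hl S w ∧ (fac (Hl S) w).getLast? ≠ some x) ?_
    (fun s hs => ⟨Hl_sub S hs, hc s hs⟩)
  · apply hx.2
    rw [fac_irr hM x]
    rfl
  · refine ⟨⟨hM.nil, by rw [fac_nil hM]; simp⟩, ?_, ?_⟩
    · rintro u v ⟨hu, hu'⟩ ⟨hv, hv'⟩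
      refine ⟨hM.mul u v hu hv, ?_⟩
      rw [fac_mul hM hu hv]
      rcases List.eq_nil_or_concat (fac (Hl S) v) with h | ⟨l, y, h⟩
      · rw [h, List.append_nil]
        exact hu'
      · rw [h] at hv' ⊢
        rw [List.concat_eq_append] at hv' ⊢
        rw [← List.append_assoc]
        simpa using hv'
    · rintro u v w ⟨hu, hu'⟩ ⟨hv, hv'⟩ ⟨huw, huw'⟩ ⟨hwv, hwv'⟩
      have hw := hM.stab u v w hu hv huw hwv
      refine ⟨hw, ?_⟩
      rw [fac_mul hM hu hw] at huw'
      rcases List.eq_nil_or_concat (fac (Hl S) w) with h | ⟨l, y, h⟩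
      · rw [h]
        simp
      · rw [h] at huw' ⊢
        rw [List.concat_eq_append] at huw' ⊢
        rw [← List.append_assoc] at huw'
        simpa using huw'

theorem ne_nil {B : Type} [Fintype B] (H : B → List C) (hH : Elem H) (b₀ : B) : H b₀ ≠ [] := by
  classical
  intro h0
  have hcard : Fintype.card {b : B // b ≠ b₀} = Fintype.card B - 1 := by
    rw [Fintype.card_subtype_compl, Fintype.card_subtype_eq]
  have e : {b : B // b ≠ b₀} ≃ Fin (Fintype.card B - 1) := Fintype.equivFinOfCardEq hcard
  have h1 := hH (Fintype.card B - 1) (fun b => if h : b ≠ b₀ then [e ⟨b, h⟩] else [])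
    (fun i => H (e.symm i).1) (by
      intro b
      by_cases h : b ≠ b₀
      · rw [dif_pos h]
        simp
      · rw [dif_neg h]
        rw [ne_eq, not_not] at h
        rw [h, h0]
        rfl)
  have h2 : 0 < Fintype.card B := Fintype.card_pos_iff.2 ⟨b₀⟩
  omega

theorem head?_append_of_ne {D : Type} {l l' : List D} (h : l ≠ []) : (l ++ l').head? = l.head? := by
  cases l with
  | nil => exact absurd rfl h
  | cons x l => rfl

theorem getLast?_append_of_ne {D : Type} {l l' : List D} (h : l' ≠ []) :
    (l ++ l').getLast? = l'.getLast? := by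
  rcases List.eq_nil_or_concat l' with h' | ⟨k, y, h'⟩
  · exact absurd h' h
  · rw [h', List.concat_eq_append, ← List.append_assoc]
    simp

theorem t_HULL : S_HULL := by
  classical
  intro B C _ H hH z X Y hz hX hY hrel
  have hne := ne_nil H hH
  let S : List C → Prop := fun w => (∃ b, w = H b) ∨ w = z
  set M := Hl S with hMdef
  have hM : St M := Hl_st S
  have hMH : ∀ b, M (H b) := fun b => Hl_sub S (Or.inl ⟨b, rfl⟩)
  have hMz : M z := Hl_sub S (Or.inr rfl)
  have hMl : ∀ l : List B, M (l.flatMap H) := by
    intro l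
    induction l with
    | nil => exact hM.nil
    | cons x l ih =>
      rw [List.flatMap_cons]
      exact hM.mul _ _ (hMH x) ih
  -- the first and last factors
  obtain ⟨x₀, X', rfl⟩ := List.exists_cons_of_ne_nil hX
  have hfz : (fac M z).head? = (fac M (H x₀)).head? := by
    have h1 : fac M ((x₀ :: X').flatMap H ++ z) = fac M (z ++ Y.flatMap H) := by rw [hrel]
    rw [List.flatMap_cons, List.append_assoc, fac_mul hM (hMH x₀) (hM.mul _ _ (hMl X') hMz),
      fac_mul hM hMz (hMl Y)] at h1
    have h2 := congrArg List.head? h1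
    rw [head?_append_of_ne (fac_ne (hMH x₀) (hne x₀)), head?_append_of_ne (fac_ne hMz hz)] at h2
    exact h2.symm
  obtain ⟨Y', y₀, hYc⟩ : ∃ Y' y₀, Y = Y' ++ [y₀] := by
    rcases List.eq_nil_or_concat Y with h | ⟨l, y, h⟩
    · exact absurd h hY
    · exact ⟨l, y, by rw [h, List.concat_eq_append]⟩
  have hlz : (fac M z).getLast? = (fac M (H y₀)).getLast? := by
    have h1 : fac M ((x₀ :: X').flatMap H ++ z) = fac M (z ++ Y.flatMap H) := by rw [hrel]
    have h3 : Y.flatMap H = Y'.flatMap H ++ H y₀ := by
      rw [hYc, List.flatMap_append]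
      simp
    rw [h3, ← List.append_assoc, fac_mul hM (hMl _) hMz,
      fac_mul hM (hM.mul _ _ hMz (hMl Y')) (hMH y₀)] at h1
    have h2 := congrArg List.getLast? h1
    rw [getLast?_append_of_ne (fac_ne hMz hz), getLast?_append_of_ne (fac_ne (hMH y₀) (hne y₀))] at h2
    exact h2
  have hfH : ∀ b, ∃ x : F M, (fac M (H b)).head? = some x := by
    intro b
    obtain ⟨x, l, h⟩ := List.exists_cons_of_ne_nil (fac_ne (hMH b) (hne b))
    exact ⟨x, by rw [h]; rfl⟩
  have hlH : ∀ b, ∃ x : F M, (fac M (H b)).getLast? = some x := by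
    intro b
    rcases List.eq_nil_or_concat (fac M (H b)) with h | ⟨l, y, h⟩
    · exact absurd h (fac_ne (hMH b) (hne b))
    · exact ⟨y, by rw [h, List.concat_eq_append]; simp⟩
  choose fi hfi using hfH
  choose la hla using hlH
  have hfis : Function.Surjective fi := by
    intro x
    obtain ⟨s, hs, hsx⟩ : ∃ s, S s ∧ (fac M s).head? = some x := head_surj S x
    rcases hs with ⟨b, rfl⟩ | rfl
    · refine ⟨b, ?_⟩
      have h1 := hfi b
      rw [hsx] at h1
      exact (Option.some.inj h1).symm
    · refine ⟨x₀, ?_⟩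
      have h1 := hfi x₀
      rw [← hfz, hsx] at h1
      exact (Option.some.inj h1).symm
  have hlas : Function.Surjective la := by
    intro x
    obtain ⟨s, hs, hsx⟩ : ∃ s, S s ∧ (fac M s).getLast? = some x := last_surj S x
    rcases hs with ⟨b, rfl⟩ | rfl
    · refine ⟨b, ?_⟩
      have h1 := hla b
      rw [hsx] at h1
      exact (Option.some.inj h1).symm
    · refine ⟨y₀, ?_⟩
      have h1 := hla y₀
      rw [← hlz, hsx] at h1
      exact (Option.some.inj h1).symm
  have : Finite (F M) := Finite.of_surjective fi hfis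
  have : Fintype (F M) := Fintype.ofFinite _
  have hcle : Fintype.card B ≤ Fintype.card (F M) := by
    let e := Fintype.equivFin (F M)
    refine hH (Fintype.card (F M)) (fun b => (fac M (H b)).map e) (fun i => (e.symm i).1) ?_
    intro b
    rw [List.flatMap_map]
    conv_lhs => rw [← ev_fac (hMH b)]
    simp [ev]
  have hcard : Fintype.card B = Fintype.card (F M) :=
    le_antisymm hcle (Fintype.card_le_of_surjective fi hfis)
  have hfib : Function.Bijective fi := (Fintype.bijective_iff_surjective_and_card fi).2 ⟨hfis, hcard⟩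
  have hlab : Function.Bijective la := (Fintype.bijective_iff_surjective_and_card la).2 ⟨hlas, hcard⟩
  let φ : B ≃ F M := Equiv.ofBijective fi hfib
  have hev : ∀ l : List (F M), (l.map φ.symm).flatMap (fun b => (φ b).1) = ev M l := by
    intro l
    rw [List.flatMap_map]
    simp [ev]
  refine ⟨fun b => (fac M (H b)).map φ.symm, fun b => (φ b).1, (fac M z).map φ.symm, ?_, ?_, ?_,
    ?_, ?_, ?_⟩
  · intro b
    rw [hev, ev_fac (hMH b)]
  · rw [hev, ev_fac hMz]
  · intro b
    rw [Ne, List.map_eq_nil_iff]
    exact fac_ne (hMH b) (hne b)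
  · intro m g f hgf
    refine hH m (fun b => ((fac M (H b)).map φ.symm).flatMap g) f ?_
    intro b
    conv_lhs => rw [← ev_fac (hMH b), ← hev]
    rw [List.flatMap_assoc]
    refine List.flatMap_congr fun x _ => ?_
    exact hgf x
  · intro b b' h
    simp only [List.head?_map, hfi] at h
    simp only [Option.map_some, Option.some.injEq] at h
    exact hfib.1 (φ.symm.injective h)
  · intro b b' h
    simp only [List.getLast?_map, hla] at h
    simp only [Option.map_some, Option.some.injEq] at h
    exact hlab.1 (φ.symm.injective h)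

end Pool.Agent.T2h96.FC.HULL

namespace Pool.Agent.T2h96.FC

theorem t_HULL : S_HULL := HULL.t_HULL

end Pool.Agent.T2h96.FC
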