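import Pool.Agent.T2h96.FC.T_SUR

/-!
# TASK INJ: a family of `U` determines the seed and the level
-/

set_option autoImplicit false

namespace Pool.Agent.T2h96.FC.INJm

open Pool.Agent.T2h96.FC
open Pool.Agent.T2h96.FC.SURm

/-- TASK INJ -/
theorem t_INJ (hCHE : S_CHE) (hPAR : S_PAR) : S_INJ := by
  intro B C V U c d m D Q q LV LU X hAV hAU M K L2 L4 hLVM hDM hLUK hDK hM2 hK2 s s' hs hs' k k' hkk
  -- the descendants in `V` agree
  have h1 : Vk V c D s k = Vk V c D s' k' := by
    obtain ⟨L, R, hC⟩ := nx_spec hCHE X.hU (hs.fV k)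
    obtain ⟨L', R', hC'⟩ := nx_spec hCHE X.hU (hs'.fV k')
    have e1 : nx V U d D ((Vk V c D s k).1, (Vk V c D s k).2) = Uk V U c d D s k := rfl
    have e2 : nx V U d D ((Vk V c D s' k').1, (Vk V c D s' k').2) = Uk V U c d D s' k' := rfl
    rw [e1] at hC
    rw [e2, ← hkk] at hC'
    have hlen := Ch.lb X.hU hC
    have hlo := hs.lo k
    obtain ⟨-, hu⟩ := hPAR B C V U d m D q LU X.hU hAU K hLUK hDK (Uk V U c d D s k).1
      (Uk V U c d D s k).2 (hs.fU k) (by linarith) (hs.nU k)
    obtain ⟨h2, h3⟩ := hu _ _ _ _ _ _ _ _ hC hC'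
    exact Prod.ext h2 h3
  clear hkk
  -- going down
  have key : ∀ k k' : ℕ, Vk V c D s k = Vk V c D s' k' → s = s' ∧ k = k' := by
    intro k
    induction k with
    | zero =>
      intro k' h
      rcases Nat.eq_zero_or_pos k' with h0 | h0
      · subst h0
        exact ⟨h, rfl⟩
      · exfalso
        have h2 := hs'.hi k' h0
        rw [← h] at h2
        have h3 := hs.s0
        have h4 : Vk V c D s 0 = s := rfl
        rw [h4] at h2
        linarith
    | succ k ih =>
      intro k' h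
      rcases Nat.eq_zero_or_pos k' with h0 | h0
      · exfalso
        subst h0
        have h2 := hs.hi (k + 1) (by omega)
        rw [h] at h2
        have h3 := hs'.s0
        have h4 : Vk V c D s' 0 = s' := rfl
        rw [h4] at h2
        linarith
      obtain ⟨l, rfl⟩ : ∃ l, k' = l + 1 := ⟨k' - 1, by omega⟩
      obtain ⟨L, R, hC⟩ := nx_spec hCHE X.hV (hs.fV k)
      obtain ⟨L', R', hC'⟩ := nx_spec hCHE X.hV (hs'.fV l)
      have e1 : nx V V c D ((Vk V c D s k).1, (Vk V c D s k).2) = Vk V c D s (k + 1) := by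
        unfold Vk
        rw [Function.iterate_succ_apply']
      have e2 : nx V V c D ((Vk V c D s' l).1, (Vk V c D s' l).2) = Vk V c D s' (l + 1) := by
        unfold Vk
        rw [Function.iterate_succ_apply']
      rw [e1] at hC
      rw [e2, ← h] at hC'
      have hlo := hs.lo (k + 1)
      obtain ⟨-, hu⟩ := hPAR B B V V c m D Q LV X.hV hAV M hLVM hDM (Vk V c D s (k + 1)).1
        (Vk V c D s (k + 1)).2 (hs.fV (k + 1)) (by linarith) (hs.nV (k + 1))
      obtain ⟨h2, h3⟩ := hu _ _ _ _ _ _ _ _ hC hC'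
      obtain ⟨h4, h5⟩ := ih l (Prod.ext h2 h3)
      exact ⟨h4, by omega⟩
  exact key k k' h1

end Pool.Agent.T2h96.FC.INJm
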