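import Pool.Agent.T2h96.FC.Stm3

/-!
# Long bispecial families periodic inside big margins are periodic inside margins `K`
-/

set_option autoImplicit false

namespace Pool.Agent.T2h96.FC

/-- the left half -/
lemma ls_half {C : Type} {T : ℤ → C} {q K : ℕ} (hU : ULp T q K) (M : ℕ) : ∃ l : ℕ,
    ∀ i1 i2 n : ℤ, l ≤ n → (∀ s, 0 ≤ s → s < n → T (i1 + s) = T (i2 + s)) →
      T (i1 - 1) ≠ T (i2 - 1) → PerOn T q (i1 + M) (i1 + n - M) → PerOn T q (i1 + K) (i1 + n - M) := by
  classical
  obtain ⟨l, hl⟩ := hU (M + 1)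
  refine ⟨2 * M + l + q + 1, fun i1 i2 n hn hag hne hper => ?_⟩
  push_cast at hn
  have hl0 : (0 : ℤ) ≤ l := by positivity
  have hq0 : (0 : ℤ) ≤ q := by positivity
  have hK0 : (0 : ℤ) ≤ K := by positivity
  have hM0 : (0 : ℤ) ≤ M := by positivity
  have hex : ∃ a : ℕ, PerOn T q (i1 + a) (i1 + n - M) := ⟨M, hper⟩
  obtain ⟨a, ha⟩ : ∃ a : ℕ, a = Nat.find hex := ⟨_, rfl⟩
  have ha1 : PerOn T q (i1 + a) (i1 + n - M) := by rw [ha]; exact Nat.find_spec hex
  have haM : a ≤ M := by rw [ha]; exact Nat.find_min' hex hper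
  have haM' : (a : ℤ) ≤ M := by exact_mod_cast haM
  rcases le_or_gt a K with h1 | h1
  · exact ha1.sub (by linarith [show (a : ℤ) ≤ K by exact_mod_cast h1]) le_rfl
  exfalso
  have h1' : (K : ℤ) < a := by exact_mod_cast h1
  have hbr : T (i1 + a - 1 + q) ≠ T (i1 + a - 1) := by
    intro h2
    have h3 := Nat.find_min hex (m := a - 1) (by omega)
    apply h3
    have h4 : ((a - 1 : ℕ) : ℤ) = a - 1 := by push_cast [Nat.cast_sub (show 1 ≤ a by omega)]; ring
    rw [h4]
    intro t h5 h6
    rcases eq_or_lt_of_le h5 with h7 | h7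
    · rw [← h7, show i1 + ((a : ℤ) - 1) = i1 + a - 1 by ring]; exact h2
    · exact ha1 t (by linarith) h6
  have hLB1 : LB T q (i1 + a) (n - M - a) := ⟨by rwa [show i1 + a + (n - M - a) = i1 + n - M by ring], hbr⟩
  have hLB2 : LB T q (i2 + a) (n - M - a) := by
    refine ⟨fun t h2 h3 => ?_, ?_⟩
    · have e1 := ha1 (i1 + (t - i2)) (by linarith) (by linarith)
      have e2 := hag (t - i2) (by linarith) (by linarith)
      have e3 := hag (t - i2 + q) (by linarith) (by linarith)
      rw [show i1 + (t - i2) + (q : ℤ) = i1 + (t - i2 + q) by ring, e2, e3] at e1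
      rwa [show i2 + (t - i2 + (q : ℤ)) = t + q by ring, show i2 + (t - i2) = t by ring] at e1
    · have e2 := hag (a - 1) (by linarith) (by linarith)
      have e3 := hag (a - 1 + q) (by linarith) (by linarith)
      rw [show i1 + (a : ℤ) - 1 + q = i1 + (a - 1 + q) by ring, show i1 + (a : ℤ) - 1 = i1 + (a - 1) by ring,
        e2, e3] at hbr
      rwa [show i2 + (a : ℤ) - 1 + q = i2 + (a - 1 + q) by ring, show i2 + (a : ℤ) - 1 = i2 + (a - 1) by ring]
  have h2 := hl _ _ (hLB1.mono (by linarith)) (hLB2.mono (by linarith)) (fun t h3 h4 => by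
    have := hag (a + t) (by linarith) (by linarith)
    rwa [← add_assoc, ← add_assoc] at this) (-(a + 1)) (by push_cast; linarith) (by linarith)
  apply hne
  rwa [show i1 + (a : ℤ) + -(a + 1) = i1 - 1 by ring, show i2 + (a : ℤ) + -(a + 1) = i2 - 1 by ring] at h2

theorem t_LS : S_LS := by
  intro C T q K hq hU hU' M
  obtain ⟨l1, hl1⟩ := ls_half hU M
  obtain ⟨l2, hl2⟩ := ls_half hU' M
  refine ⟨l1 + l2 + 2 * M + q + 1, fun F n hn hF i hi hper i' hi' => ?_⟩
  push_cast at hn
  have p1 : (0 : ℤ) ≤ l1 := by positivity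
  have p2 : (0 : ℤ) ≤ l2 := by positivity
  have p3 : (0 : ℤ) ≤ M := by positivity
  have p4 : (0 : ℤ) < q := by exact_mod_cast hq
  have p5 : (0 : ℤ) ≤ K := by positivity
  -- transfer of the periodicity between the members of `F`
  have htr : ∀ x y : ℤ, 0 ≤ x → y ≤ n → ∀ j ∈ F, ∀ j' ∈ F, PerOn T q (j + x) (j + y) →
      PerOn T q (j' + x) (j' + y) := by
    intro x y hx hy j hj j' hj' hp t h1 h2
    have e1 := hp (j + (t - j')) (by linarith) (by linarith)
    have e2 := hF.com j hj j' hj' (t - j') (by linarith) (by linarith)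
    have e3 := hF.com j hj j' hj' (t - j' + q) (by linarith) (by linarith)
    rw [show j + (t - j') + (q : ℤ) = j + (t - j' + q) by ring, e2, e3] at e1
    rwa [show j' + (t - j' + (q : ℤ)) = t + q by ring, show j' + (t - j') = t by ring] at e1
  -- left half
  have hleft : PerOn T q (i' + K) (i' + (n - M)) := by
    obtain ⟨a, ha, b, hb, hab⟩ := hF.lft
    have h1 := hl1 a b n (by linarith) (fun s h0 h1 => hF.com a ha b hb s h0 h1) hab (by
      have := htr M (n - M) p3 (by linarith) i hi a ha (by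
        rwa [show i + (n - (M : ℤ)) = i + n - M by ring])
      rwa [show a + (n - (M : ℤ)) = a + n - M by ring] at this)
    exact htr K (n - M) p5 (by linarith) a ha i' hi' (by
      rwa [show a + (n - (M : ℤ)) = a + n - M by ring])
  -- right half
  have hright : PerOn T q (i' + M) (i' + (n - K)) := by
    obtain ⟨a, ha, b, hb, hab⟩ := hF.rgt
    have h1 := hl2 (-(a + n)) (-(b + n)) n (by linarith) (fun s h0 h1 => by
      unfold rf
      have := hF.com a ha b hb (n - 1 - s) (by linarith) (by linarith)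
      rwa [show -1 - (-(a + n) + s) = a + (n - 1 - s) by ring,
        show -1 - (-(b + n) + s) = b + (n - 1 - s) by ring]) (by
      unfold rf
      rwa [show -1 - (-(a + n) - 1) = a + n by ring, show -1 - (-(b + n) - 1) = b + n by ring]) (by
      have := (htr M (n - M) p3 (by linarith) i hi a ha (by
        rwa [show i + (n - (M : ℤ)) = i + n - M by ring])).rf
      rwa [show -(a + (n - (M : ℤ))) = -(a + n) + M by ring,
        show -(a + (M : ℤ)) = -(a + n) + n - M by ring] at this)
    have h2 := h1.rf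
    rw [rf_rf, show -(-(a + n) + n - (M : ℤ)) = a + M by ring,
      show -(-(a + n) + (K : ℤ)) = a + (n - K) by ring] at h2
    exact htr M (n - K) p3 (by linarith) a ha i' hi' h2
  intro t h1 h2
  rcases lt_or_ge (t + q) (i' + (n - M)) with h3 | h3
  · exact hleft t h1 h3
  · exact hright t (by linarith) (by linarith)

end Pool.Agent.T2h96.FC
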