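import Pool.Agent.T2h96.FC.Stm3

/-!
# Task LV, LVV: the descendants at all levels
-/

set_option autoImplicit false

open Filter

namespace Pool.Agent.T2h96.FC

lemma nx_spec62 (hC : S_CHE) {B C : Type} {V : ℤ → B} {T : ℤ → C} {c : ℤ → ℤ} {m D : ℕ}
    (h : Stp V T c m D) {s : Set ℤ × ℤ} (hF : Fm V s.1 s.2) :
    ∃ L R, Ch V T c D s.1 s.2 (nx V T c D s).1 (nx V T c D s).2 L R := by
  have hex : ∃ x : Set ℤ × ℤ, ∃ L R, Ch V T c D s.1 s.2 x.1 x.2 L R := by
    obtain ⟨F', n', L, R, h1⟩ := hC B C V T c m D h s.1 s.2 hF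
    exact ⟨(F', n'), L, R, h1⟩
  unfold nx
  rw [dif_pos hex]
  exact hex.choose_spec

lemma comp62 {B C : Type} {V : ℤ → B} {U : ℤ → C} {c d : ℤ → ℤ} {D : ℕ} {k : ℕ}
    (hE : ∀ i j n : ℤ, 0 ≤ n → (∀ t, 0 ≤ t → t < n → V (i + t) = V (j + t)) →
      0 ≤ d (c^[k] (i + n)) - d (c^[k] i) ∧
      d (c^[k] (i + n)) - d (c^[k] i) = d (c^[k] (j + n)) - d (c^[k] j))
    {F : Set ℤ} {n : ℤ} {F1 : Set ℤ} {n1 : ℤ} {F' : Set ℤ} {n' l r L R : ℤ}
    (hmono : ∀ j ∈ F, c j ≤ c (j + n))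
    (h1 : Ch V V c D F n F1 n1 l r) (h2 : Lv V U c d k F1 n1 F' n' L R) :
    ∃ L' R', Lv V U c d (k + 1) F n F' n' L' R' := by
  obtain ⟨j0, hj0, -⟩ := h1.fV.lft
  have hm : ∀ j ∈ F, c j - l ∈ F1 := fun j hj => by rw [h1.im]; exact ⟨j, hj, rfl⟩
  have key : ∀ j ∈ F, 0 ≤ d (c^[k] (c j)) - d (c^[k] (c j - l)) ∧
      d (c^[k] (c j)) - d (c^[k] (c j - l)) = d (c^[k] (c j0)) - d (c^[k] (c j0 - l)) ∧
      0 ≤ d (c^[k] (c (j + n) + r)) - d (c^[k] (c (j + n))) ∧
      d (c^[k] (c (j + n) + r)) - d (c^[k] (c (j + n))) =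
        d (c^[k] (c (j0 + n) + r)) - d (c^[k] (c (j0 + n))) := by
    intro j hj
    have e1 := h1.len j hj
    have e2 := h1.len j0 hj0
    have e3 := hmono j hj
    have e4 := h1.L0
    have e5 := h1.R0
    obtain ⟨a1, a2⟩ := hE (c j - l) (c j0 - l) l e4 fun t h3 h4 =>
      h1.fT.com _ (hm j hj) _ (hm j0 hj0) t h3 (by linarith)
    obtain ⟨a3, a4⟩ := hE (c (j + n)) (c (j0 + n)) r e5 fun t h3 h4 => by
      have := h1.fT.com _ (hm j hj) _ (hm j0 hj0) (c (j + n) - c j + l + t) (by linarith)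
        (by linarith)
      rw [show c j - l + (c (j + n) - c j + l + t) = c (j + n) + t by ring,
        show c j0 - l + (c (j + n) - c j + l + t) = c (j0 + n) + t by linarith] at this
      exact this
    rw [sub_add_cancel, sub_add_cancel] at a2
    rw [sub_add_cancel] at a1
    exact ⟨a1, a2, a3, a4⟩
  obtain ⟨k1, -, k3, -⟩ := key j0 hj0
  refine ⟨(d (c^[k] (c j0)) - d (c^[k] (c j0 - l))) + L,
    (d (c^[k] (c (j0 + n) + r)) - d (c^[k] (c (j0 + n)))) + R, h1.fV, h2.fU, ?_, ?_, ?_, ?_⟩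
  · linarith [h2.L0]
  · linarith [h2.R0]
  · rw [h2.im, h1.im, Set.image_image]
    apply Set.image_congr
    intro j hj
    rw [Function.iterate_succ_apply]
    linarith [(key j hj).2.1]
  · intro j hj
    have e1 := h2.len _ (hm j hj)
    obtain ⟨-, b2, -, b4⟩ := key j hj
    rw [Function.iterate_succ_apply, Function.iterate_succ_apply]
    have e2 := h1.len j hj
    rw [show c j - l + n1 = c (j + n) + r by linarith] at e1
    linarith

theorem t_LV : S_CHE → S_LV := by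
  intro hC B C V U c d m D hV hU
  have main : ∀ k : ℕ, ∀ s : Set ℤ × ℤ, Fm V s.1 s.2 → ∃ L R,
      Lv V U c d k s.1 s.2 (Uk V U c d D s k).1 (Uk V U c d D s k).2 L R := by
    intro k
    induction k with
    | zero =>
      intro s hs
      obtain ⟨L, R, h⟩ := nx_spec62 hC hU hs
      exact ⟨L, R, h.fV, h.fT, h.L0, h.R0, h.im, h.len⟩
    | succ k ih =>
      intro s hs
      obtain ⟨l, r, h⟩ := nx_spec62 hC hV hs
      obtain ⟨L, R, h2⟩ := ih _ h.fT
      refine comp62 (fun i j n hn hag => ?_) (fun j _ => hV.mono (by linarith [hs.n0])) h h2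
      have h3 := e_mono hV hU k (show i ≤ i + n by linarith)
      exact ⟨by linarith, (Eimg hV hU k hn hag).1⟩
  intro F n hF k
  exact main k (F, n) hF

theorem t_LVV : S_CHE → S_LVV := by
  intro hC B V c m D hV
  have main : ∀ k : ℕ, ∀ s : Set ℤ × ℤ, Fm V s.1 s.2 → ∃ L R,
      Lv V V c id k s.1 s.2 (Vk V c D s k).1 (Vk V c D s k).2 L R := by
    intro k
    induction k with
    | zero =>
      intro s hs
      refine ⟨0, 0, hs, hs, le_rfl, le_rfl, ?_, ?_⟩
      · show s.1 = (fun j => id (id j) - 0) '' s.1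
        simp
      · intro j _
        show s.2 = (j + s.2) - j + 0 + 0
        ring
    | succ k ih =>
      intro s hs
      obtain ⟨l, r, h⟩ := nx_spec62 hC hV hs
      obtain ⟨L, R, h2⟩ := ih _ h.fT
      refine comp62 (fun i j n hn hag => ?_) (fun j _ => hV.mono (by linarith [hs.n0])) h h2
      obtain ⟨h3, h4, -⟩ := img_it hV k hn hag
      exact ⟨by simp only [id_eq]; linarith, by simpa using h4⟩
  intro F n hF k
  exact main k (F, n) hF

end Pool.Agent.T2h96.FC
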