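import Pool.Agent.T2h96.FC.Stm3

set_option autoImplicit false

namespace Pool.Agent.T2h96.FC

section

variable {B C : Type} {V : ℤ → B} {U : ℤ → C} {c d : ℤ → ℤ} {m D : ℕ}

lemma gap_refl (hg : ∀ j, c j + 2 ≤ c (j + 1)) : ∀ j, rc c j + 2 ≤ rc c (j + 1) := fun j => by
  have := hg (-(j + 1)); unfold rc
  rw [show -(j + 1) + 1 = -j by ring] at this; linarith

lemma rcd_it (c d : ℤ → ℤ) (k : ℕ) (y : ℤ) : rc d ((rc c)^[k] (-y)) = -(d (c^[k] y)) := by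
  rw [rc_it]; unfold rc; rw [neg_neg]

lemma Fm.ncR {F : Set ℤ} {n : ℤ} (h : Fm V F n) : NC V ((fun j => j + n) '' F) id := by
  obtain ⟨i, hi, j, hj, h1⟩ := h.rgt
  exact ⟨i + n, ⟨i, hi, rfl⟩, j + n, ⟨j, hj, rfl⟩, h1⟩

lemma Fm.ncL {F : Set ℤ} {n : ℤ} (h : Fm V F n) : NC (rf V) ((fun j => -j) '' F) id := by
  obtain ⟨i, hi, j, hj, h1⟩ := h.lft
  refine ⟨-i, ⟨i, hi, rfl⟩, -j, ⟨j, hj, rfl⟩, ?_⟩
  unfold rf
  simp only [id_eq]
  rwa [show -1 - -i = i - 1 by ring, show -1 - -j = j - 1 by ring]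

lemma Lv.isR (hV : Stp V V c m D) (hU : Stp V U d m D) {k : ℕ} {F : Set ℤ} {n : ℤ} {F' : Set ℤ}
    {n' L R : ℤ} (h : Lv V U c d k F n F' n' L R) :
    IsR U ((fun j => j + n) '' F) (fun j => d (c^[k] j)) R := by
  have hp : ∀ j, 0 ≤ d (c^[k] (j + n)) - d (c^[k] j) := fun j => by
    have := e_mono hV hU k (show j ≤ j + n by linarith [h.fV.n0]); linarith
  refine ⟨h.R0, ?_, ?_⟩
  · rintro _ ⟨i, hi, rfl⟩ _ ⟨j, hj, rfl⟩ t h0 h1
    have hi' : d (c^[k] i) - L ∈ F' := by rw [h.im]; exact ⟨i, hi, rfl⟩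
    have hj' : d (c^[k] j) - L ∈ F' := by rw [h.im]; exact ⟨j, hj, rfl⟩
    have e1 := h.len i hi
    have e2 := h.len j hj
    have := h.fU.com _ hi' _ hj' (n' - R + t) (by linarith [hp i, h.L0]) (by linarith)
    simp only
    rw [show d (c^[k] (i + n)) + t = d (c^[k] i) - L + (n' - R + t) by linarith, this]
    congr 1; linarith
  · obtain ⟨i', hi', j', hj', h1⟩ := h.fU.rgt
    rw [h.im] at hi' hj'
    obtain ⟨i, hi, rfl⟩ := hi'
    obtain ⟨j, hj, rfl⟩ := hj'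
    refine ⟨i + n, ⟨i, hi, rfl⟩, j + n, ⟨j, hj, rfl⟩, ?_⟩
    have e1 := h.len i hi
    have e2 := h.len j hj
    simp only at h1 ⊢
    rwa [show d (c^[k] (i + n)) + R = d (c^[k] i) - L + n' by linarith,
      show d (c^[k] (j + n)) + R = d (c^[k] j) - L + n' by linarith]

lemma Lv.isL (hV : Stp V V c m D) (hU : Stp V U d m D) {k : ℕ} {F : Set ℤ} {n : ℤ} {F' : Set ℤ}
    {n' L R : ℤ} (h : Lv V U c d k F n F' n' L R) :
    IsR (rf U) ((fun j => -j) '' F) (fun j => rc d ((rc c)^[k] j)) L := by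
  have hp : ∀ j, 0 ≤ d (c^[k] (j + n)) - d (c^[k] j) := fun j => by
    have := e_mono hV hU k (show j ≤ j + n by linarith [h.fV.n0]); linarith
  refine ⟨h.L0, ?_, ?_⟩
  · rintro _ ⟨i, hi, rfl⟩ _ ⟨j, hj, rfl⟩ t h0 h1
    have hi' : d (c^[k] i) - L ∈ F' := by rw [h.im]; exact ⟨i, hi, rfl⟩
    have hj' : d (c^[k] j) - L ∈ F' := by rw [h.im]; exact ⟨j, hj, rfl⟩
    have e1 := h.len i hi
    have := h.fU.com _ hi' _ hj' (L - 1 - t) (by linarith) (by linarith [hp i, h.R0])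
    simp only [rcd_it]
    unfold rf
    rw [show -1 - (-d (c^[k] i) + t) = d (c^[k] i) - L + (L - 1 - t) by ring, this]
    congr 1; ring
  · obtain ⟨i', hi', j', hj', h1⟩ := h.fU.lft
    rw [h.im] at hi' hj'
    obtain ⟨i, hi, rfl⟩ := hi'
    obtain ⟨j, hj, rfl⟩ := hj'
    refine ⟨-i, ⟨i, hi, rfl⟩, -j, ⟨j, hj, rfl⟩, ?_⟩
    simp only [rcd_it]
    unfold rf
    simp only at h1
    rwa [show -1 - (-d (c^[k] i) + L) = d (c^[k] i) - L - 1 by ring,
      show -1 - (-d (c^[k] j) + L) = d (c^[k] j) - L - 1 by ring]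

end

theorem t_MLP : S_MLP := by
  intro B C _ V U c d m D hV hg hU
  obtain ⟨N1, P1, hP1, h1⟩ := nl_per' hV hg hU
  obtain ⟨N2, P2, hP2, h2⟩ := nl_per' hV.refl (gap_refl hg) hU.refl
  refine ⟨max N1 N2, P1 * P2, Nat.mul_pos hP1 hP2, ?_⟩
  intro k hk r F n F' n' L R F'' n'' L' R' hl hl'
  have eR : ∀ j ∈ F, U (d (c^[k] (j + n)) + R) = U (d (c^[k + r * (P1 * P2)] (j + n)) + R') := by
    intro j hj
    have e1 : r * (P1 * P2) = (r * P2) * P1 := by ring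
    have a := hl.isR hV hU
    have b := hl'.isR hV hU
    rw [e1] at b ⊢
    exact h1 k (le_trans (le_max_left _ _) hk) (r * P2) _ hl.fV.ncR R R' a b (j + n) ⟨j, hj, rfl⟩
  have eL : ∀ j ∈ F, U (d (c^[k] j) - L - 1) = U (d (c^[k + r * (P1 * P2)] j) - L' - 1) := by
    intro j hj
    have e1 : r * (P1 * P2) = (r * P1) * P2 := by ring
    have a := hl.isL hV hU
    have b := hl'.isL hV hU
    rw [e1] at b ⊢
    have := h2 k (le_trans (le_max_right _ _) hk) (r * P1) _ hl.fV.ncL L L' a b (-j) ⟨j, hj, rfl⟩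
    rw [rcd_it, rcd_it] at this
    unfold rf at this
    rwa [show -1 - (-d (c^[k] j) + L) = d (c^[k] j) - L - 1 by ring,
      show -1 - (-d (c^[k + r * P1 * P2] j) + L') = d (c^[k + r * P1 * P2] j) - L' - 1 by ring] at this
  have g1 : ∀ {E : Type} (f : ℤ → E) (g : ℤ → E), (∀ j ∈ F, f (d (c^[k] j) - L) =
      g (d (c^[k + r * (P1 * P2)] j) - L')) → f '' F' = g '' F'' := by
    intro E f g hfg
    rw [hl.im, hl'.im, Set.image_image, Set.image_image]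
    exact Set.image_congr hfg
  have a1 : ∀ j ∈ F, U (d (c^[k] j) - L + n') = U (d (c^[k + r * (P1 * P2)] j) - L' + n'') := by
    intro j hj
    have e1 := hl.len j hj
    have e2 := hl'.len j hj
    rw [show d (c^[k] j) - L + n' = d (c^[k] (j + n)) + R by linarith, eR j hj]
    congr 1; linarith
  unfold mlF
  rw [g1 (fun i : ℤ => (U (i - 1), U (i + n'))) (fun i : ℤ => (U (i - 1), U (i + n''))) fun j hj => by
      simp only [eL j hj, a1 j hj],
    g1 (fun i : ℤ => U (i - 1)) (fun i : ℤ => U (i - 1)) eL,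
    g1 (fun i : ℤ => U (i + n')) (fun i : ℤ => U (i + n'')) a1]

end Pool.Agent.T2h96.FC
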