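import Pool.Agent.T2h96.FC.T_LV

/-!
# Task NPC: all the descendants of a seed are non-periodic
-/

set_option autoImplicit false

open Filter

namespace Pool.Agent.T2h96.FC

theorem t_NPC : S_CHE → S_NPU → S_NPC := by
  intro hC hN B C V U c d m D Q q hX M K hK hKM hDM
  have hmQ : (0 : ℤ) ≤ (m : ℤ) * Q := by positivity
  have hmq : (0 : ℤ) ≤ (m : ℤ) * q := by positivity
  have hD0 : (0 : ℤ) ≤ D := by positivity
  have hM0 : 0 ≤ M := by linarith
  obtain ⟨l1, hl1⟩ := hN B B V V c m D Q Q 2 hX.hV hX.hQ hX.hQ.1 (by norm_num) hX.hg M M hM0 hM0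
    (by linarith)
  obtain ⟨l2, hl2⟩ := hN B C V U d m D Q q 1 hX.hU hX.hQ hX.hq.1 le_rfl hX.hU.pos K M hK hM0
    (by linarith)
  refine ⟨l1 + l2, fun L2 L4 hL2 s hs => ?_⟩
  push_cast at hL2
  have hl10 : (0 : ℤ) ≤ l1 := by positivity
  have hl20 : (0 : ℤ) ≤ l2 := by positivity
  have hsucc : ∀ k, Vk V c D s (k + 1) = nx V V c D (Vk V c D s k) := fun k =>
    Function.iterate_succ_apply' _ _ _
  have main : ∀ k, Fm V (Vk V c D s k).1 (Vk V c D s k).2 ∧
      (∀ j ∈ (Vk V c D s k).1, ¬ PerOn V Q (j + M) (j + (Vk V c D s k).2 - M)) ∧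
      L2 ≤ (Vk V c D s k).2 := by
    intro k
    induction k with
    | zero => exact ⟨hs.fm, hs.np, hs.lo⟩
    | succ k ih =>
      obtain ⟨h1, h2, h3⟩ := ih
      obtain ⟨L, R, h⟩ := nx_spec62 hC hX.hV h1
      rw [← hsucc] at h
      refine ⟨h.fT, fun i hi hper => ?_, ?_⟩
      · have h4 := hl1 _ _ _ _ _ _ h (by linarith) i hi hper
        obtain ⟨j, hj, -⟩ := h1.lft
        exact h2 j hj (h4 j hj)
      · obtain ⟨j, hj, -⟩ := h1.lft
        have h4 := h.len j hj
        have h5 := hX.hV.lb' (show j ≤ j + (Vk V c D s k).2 by linarith [h1.n0])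
        have h6 := h.L0
        have h7 := h.R0
        linarith
  have hmono : ∀ k, (Vk V c D s k).2 ≤ (Vk V c D s (k + 1)).2 := by
    intro k
    obtain ⟨h1, -, -⟩ := main k
    obtain ⟨L, R, h⟩ := nx_spec62 hC hX.hV h1
    rw [← hsucc] at h
    obtain ⟨j, hj, -⟩ := h1.lft
    have h4 := h.len j hj
    have h5 := hX.hV.lb' (show j ≤ j + (Vk V c D s k).2 by linarith [h1.n0])
    have h6 := h.L0
    have h7 := h.R0
    linarith
  refine ⟨fun k => (main k).1, fun k => (main k).2.1, fun k => (main k).2.2, hs.hi, fun k hk => ?_,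
    fun k => ?_, fun k i hi hper => ?_⟩
  · induction k with
    | zero => omega
    | succ k ih =>
      rcases Nat.eq_zero_or_pos k with h0 | h0
      · subst h0; exact hs.nxt
      · exact lt_of_lt_of_le (ih h0) (hmono k)
  · obtain ⟨L, R, h⟩ := nx_spec62 hC hX.hU (main k).1
    exact h.fT
  · obtain ⟨L, R, h⟩ := nx_spec62 hC hX.hU (main k).1
    have h4 := hl2 _ _ _ _ _ _ h (by linarith [(main k).2.2]) i hi hper
    obtain ⟨j, hj, -⟩ := (main k).1.lft
    exact (main k).2.1 j hj (h4 j hj)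

end Pool.Agent.T2h96.FC
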