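import Pool.Agent.T2h96.FC.Stm3

set_option autoImplicit false

namespace Pool.Agent.T2h96.FC

theorem t_NPD (hLS : S_LS) : S_NPD := by
  intro B C V T c m D Q q K hV hQ hq hu1 hu2 M
  obtain ⟨l1, hl1⟩ := hV.imgQ hQ hq
  obtain ⟨l2, hl2⟩ := hLS C T q K hq.1 hu1 hu2 (D + m * M)
  refine ⟨l1 + l2 + 2 * M, ?_⟩
  intro F n F' n' L R h hn j hj hp i' hi'
  push_cast at hn
  have hl10 : (0 : ℤ) ≤ l1 := by positivity
  have hl20 : (0 : ℤ) ≤ l2 := by positivity
  have hM0 : (0 : ℤ) ≤ M := by positivity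
  have e1 := h.len j hj
  have h1 := hl1 (j + M) (j + n - M) hp (by linarith)
  have h2 := hV.ub' (show j ≤ j + M by linarith)
  have h3 := hV.ub' (show j + n - M ≤ j + n by linarith)
  have h4 := hV.lb' (show j ≤ j + n by linarith)
  rw [show j + M - j = (M : ℤ) by ring] at h2
  rw [show j + n - (j + n - M) = (M : ℤ) by ring] at h3
  refine hl2 F' n' (by linarith [h.L0, h.R0]) h.fT (c j - L) (by rw [h.im]; exact ⟨j, hj, rfl⟩)
    (h1.sub ?_ ?_) i' hi'
  · push_cast; linarith [h.LD]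
  · push_cast; linarith [h.RD]

end Pool.Agent.T2h96.FC
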