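import Pool.Agent.T2h96.FC.Stm3

set_option autoImplicit false

namespace Pool.Agent.T2h96.FC

lemma gap_mul {c : ℤ → ℤ} {g : ℤ} (hg : ∀ j, c j + g ≤ c (j + 1)) (z : ℤ) {x : ℤ} (hx : 0 ≤ x) :
    c z + g * x ≤ c (z + x) := by
  obtain ⟨n, rfl⟩ : ∃ n : ℕ, x = n := ⟨x.toNat, (Int.toNat_of_nonneg hx).symm⟩
  clear hx
  induction n with
  | zero => simp
  | succ n ih => have := hg (z + n); push_cast; rw [← add_assoc]; nlinarith

lemma Fm.perOn {B : Type} {V : ℤ → B} {F : Set ℤ} {n : ℤ} (h : Fm V F n) {Q : ℤ} (hQ : 0 ≤ Q) {M : ℤ}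
    (hM : 0 ≤ M) {i j : ℤ} (hi : i ∈ F) (hj : j ∈ F) (hp : PerOn V Q (i + M) (i + n - M)) :
    PerOn V Q (j + M) (j + n - M) := by
  intro t h1 h2
  have h3 := hp (i + (t - j)) (by linarith) (by linarith)
  have h4 := h.com i hi j hj (t - j) (by linarith) (by linarith)
  have h5 := h.com i hi j hj (t - j + Q) (by linarith) (by linarith)
  rw [show j + (t - j) = t by ring] at h4
  rw [show j + (t - j + Q) = t + Q by ring, show i + (t - j + Q) = i + (t - j) + Q by ring] at h5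
  rw [← h5, h3, h4]

theorem t_NPU : S_NPU := by
  intro B C V T c m D Q q g hV hQ hq hg1 hg K M hK hM hKM
  obtain ⟨l, hl⟩ := hV.pre' hQ hq
  refine ⟨l + 2 * M.toNat, ?_⟩
  intro F n F' n' L R h hn i hi hp j hj
  have hi' := hi
  rw [h.im] at hi'
  obtain ⟨j0, hj0, rfl⟩ := hi'
  simp only at hp
  have e1 := h.len j0 hj0
  have hmq : (0 : ℤ) ≤ m * q := by positivity
  have g1 := gap_mul hg j0 hM
  have g2 := gap_mul hg (j0 + n - M) hM
  rw [show j0 + n - M + M = j0 + n by ring] at g2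
  push_cast at hn
  rw [Int.toNat_of_nonneg hM] at hn
  refine h.fV.perOn (by positivity) hM hj0 hj (hl _ _ (j0 + M) (j0 + n - M) hp ?_ ?_ ?_)
  · linarith [h.L0]
  · linarith [h.R0]
  · linarith

end Pool.Agent.T2h96.FC
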