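import Pool.Agent.T2h96.FC.Stm

/-!
# PU: one-sided versus two-sided complexity (helper59)
-/

set_option autoImplicit false
set_option linter.all false

namespace Pool.Agent.T2h96.FC

theorem t_PU : S_PU := by
  classical
  intro A _ u U hneg hpos n
  set S0 : Set (Fin n → Option A) := Set.range (fun i : ℕ => wd U n (i : ℤ)) with hS0
  set S1 : Set (Fin n → Option A) := (fun r : ℕ => wd U n (-(r : ℤ))) '' (Finset.Icc 1 n : Finset ℕ) with hS1
  have hrange : Set.range (wd U n) = S0 ∪ S1 := by
    apply Set.Subset.antisymm
    · rintro _ ⟨i, rfl⟩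
      rcases le_or_gt 0 i with hi | hi
      · left
        exact ⟨i.toNat, by simp [Int.toNat_of_nonneg hi]⟩
      · rcases Nat.eq_zero_or_pos n with rfl | hn
        · left
          exact ⟨0, Subsingleton.elim _ _⟩
        right
        rcases le_or_gt (-i).toNat n with h | h
        · refine ⟨(-i).toNat, ?_, ?_⟩
          · simp only [Finset.coe_Icc, Set.mem_Icc]
            omega
          · have h1 : -(((-i).toNat : ℕ) : ℤ) = i := by omega
            simp only [h1]
        · refine ⟨n, ?_, ?_⟩
          · simp only [Finset.coe_Icc, Set.mem_Icc]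
            omega
          · funext t
            have := t.2
            show U (-(n : ℤ) + (t : ℕ)) = U (i + (t : ℕ))
            rw [hneg _ (by omega), hneg _ (by omega)]
    · rintro _ (⟨i, rfl⟩ | ⟨r, _, rfl⟩)
      · exact ⟨_, rfl⟩
      · exact ⟨_, rfl⟩
  have hdisj : Disjoint S0 S1 := by
    rw [Set.disjoint_left]
    rintro _ ⟨i, rfl⟩ ⟨r, hr, h⟩
    simp only [Finset.coe_Icc, Set.mem_Icc] at hr
    have hn : 0 < n := by omega
    have h1 := congrFun h ⟨0, hn⟩
    unfold wd at h1
    simp only [Nat.cast_zero, add_zero] at h1
    rw [hneg _ (by omega), hpos] at h1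
    exact absurd h1 (by simp)
  have hc1 : S1.ncard = n := by
    rw [hS1, Set.ncard_image_of_injOn, Set.ncard_coe_finset, Nat.card_Icc]
    · omega
    · intro r hr r' hr' h
      simp only [Finset.coe_Icc, Set.mem_Icc] at hr hr'
      by_contra hne
      rcases lt_or_gt_of_ne hne with hlt | hlt
      · have h1 := congrFun h ⟨r, by omega⟩
        simp only [wd] at h1
        have h2 : -(r : ℤ) + (r : ℤ) = ((0 : ℕ) : ℤ) := by omega
        rw [h2, hpos, hneg _ (by omega)] at h1
        exact absurd h1 (by simp)
      · have h1 := congrFun h ⟨r', by omega⟩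
        simp only [wd] at h1
        have h2 : -(r' : ℤ) + (r' : ℤ) = ((0 : ℕ) : ℤ) := by omega
        rw [h2, hpos 0, hneg _ (by omega)] at h1
        exact absurd h1 (by simp)
  have hc0 : S0.ncard = pc u n := by
    set R : Set (Fin n → A) := Set.range (fun (i : ℕ) (j : Fin n) => u (i + j.val)) with hR
    have h1 : S0 = (fun (w : Fin n → A) (j : Fin n) => some (w j)) '' R := by
      rw [hS0, hR, ← Set.range_comp]
      congr 1
      funext i t
      simp only [wd, Function.comp]
      rw [← Nat.cast_add, hpos]
    have h2 : Set.range (fun i : ℕ => List.ofFn (fun j : Fin n => u (i + j.val))) =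
        List.ofFn '' R := by
      rw [hR, ← Set.range_comp]
      rfl
    unfold pc
    rw [h1, h2, Set.ncard_image_of_injective, Set.ncard_image_of_injective]
    · exact List.ofFn_injective
    · intro w w' h
      funext j
      exact Option.some_injective _ (congrFun h j)
  have hfin : ∀ S : Set (Fin n → Option A), S.Finite := fun S => Set.toFinite S
  unfold pz
  rw [hrange, Set.ncard_union_eq hdisj (hfin _) (hfin _), hc0, hc1]

end Pool.Agent.T2h96.FC
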