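import Pool.Agent.T2h96.FC.T_MLP

set_option autoImplicit false

namespace Pool.Agent.T2h96.FC

lemma IsR.ins {B : Type} {V : ℤ → B} {X : Set ℤ} {a : ℤ} (h : IsR V X id a) (y : ℤ) :
    ∃ b, IsR V (insert y X) id b := by
  classical
  obtain ⟨i, hi, j, hj, h1⟩ := h.2.2
  have hex : ∃ s : ℕ, ∃ i ∈ insert y X, ∃ j ∈ insert y X, V (i + s) ≠ V (j + s) :=
    ⟨a.toNat, i, Or.inr hi, j, Or.inr hj, by rwa [Int.toNat_of_nonneg h.1]⟩
  refine ⟨Nat.find hex, by positivity, fun i hi j hj s hs0 hs => ?_, Nat.find_spec hex⟩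
  have h2 := Nat.find_min hex (m := s.toNat) (by omega)
  push Not at h2
  have := h2 i hi j hj
  rwa [Int.toNat_of_nonneg hs0] at this

section

variable {B C : Type} {V : ℤ → B} {U : ℤ → C} {c d : ℤ → ℤ} {m D : ℕ}

lemma rap_key {X : Set ℤ} {y b T r : ℤ} {e : ℤ → ℤ}
    (hS : ∀ x ∈ insert y X, IsR U (insert y X) e (e (x + b) - e x + r))
    (hT : IsR U X e T) :
    (∀ x ∈ X, ∀ s, 0 ≤ s → s < T → U (e y + s) = U (e x + s)) ↔
      ∃ x ∈ X, ∃ x' ∈ X, U (e (x + b) + r) ≠ U (e (x' + b) + r) := by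
  constructor
  · intro h
    have h1 : IsR U (insert y X) e T := by
      refine ⟨hT.1, ?_, ?_⟩
      · rintro i (rfl | hi) j (rfl | hj) t h0 h1
        · rfl
        · exact h j hj t h0 h1
        · exact (h i hi t h0 h1).symm
        · exact hT.2.1 i hi j hj t h0 h1
      · obtain ⟨i, hi, j, hj, h2⟩ := hT.2.2
        exact ⟨i, Or.inr hi, j, Or.inr hj, h2⟩
    obtain ⟨i, hi, j, hj, h2⟩ := hT.2.2
    refine ⟨i, hi, j, hj, ?_⟩
    have e1 := (hS i (Or.inr hi)).unique h1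
    have e2 := (hS j (Or.inr hj)).unique h1
    rwa [show e i + T = e (i + b) + r by linarith, show e j + T = e (j + b) + r by linarith] at h2
  · rintro ⟨x, hx, x', hx', h1⟩ z hz s h0 hs
    have e1 := (hS x (Or.inr hx)).unique (hS x' (Or.inr hx'))
    have h2 := hS x (Or.inr hx)
    have h3 : T ≤ e (x + b) - e x + r := by
      by_contra h4
      push Not at h4
      have := hT.2.1 x hx x' hx' _ h2.1 h4
      rw [show e x + (e (x + b) - e x + r) = e (x + b) + r by ring,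
        show e x' + (e (x + b) - e x + r) = e (x' + b) + r by linarith] at this
      exact h1 this
    exact h2.2.1 y (Or.inl rfl) z (Or.inr hz) s h0 (by linarith)

end

theorem t_RAP : S_RAP := by
  intro B C _ V U c d m D hV hg hU
  obtain ⟨N, P, hP, h⟩ := nl_per' hV hg hU
  refine ⟨N, P, hP, fun k hk r X y a T T' hX hT hT' => ?_⟩
  obtain ⟨b, hb⟩ := hX.ins y
  obtain ⟨r1, h1, h2⟩ := hb.up hV hU k
  obtain ⟨r2, h3, h4⟩ := hb.up hV hU (k + r * P)
  rw [rap_key h2 hT, rap_key h4 hT']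
  have hF : NC V ((fun x => x + b) '' (insert y X)) id := by
    obtain ⟨i, hi, j, hj, h5⟩ := hb.2.2
    exact ⟨i + b, ⟨i, hi, rfl⟩, j + b, ⟨j, hj, rfl⟩, h5⟩
  have key := h k hk r _ hF r1 r2 h1 h3
  constructor
  · rintro ⟨x, hx, x', hx', h5⟩
    refine ⟨x, hx, x', hx', ?_⟩
    rwa [← key (x + b) ⟨x, Or.inr hx, rfl⟩, ← key (x' + b) ⟨x', Or.inr hx', rfl⟩]
  · rintro ⟨x, hx, x', hx', h5⟩
    refine ⟨x, hx, x', hx', ?_⟩
    rwa [key (x + b) ⟨x, Or.inr hx, rfl⟩, key (x' + b) ⟨x', Or.inr hx', rfl⟩]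

end Pool.Agent.T2h96.FC
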