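import Pool.Agent.T2h96.FC.RC1

/-!
# Counting the maximal runs up to equality of windows
-/

set_option autoImplicit false

namespace Pool.Agent.T2h96.FC

lemma rc_len {B C : Type} {V : ℤ → B} {U : ℤ → C} {c : ℤ → ℤ} {m D q : ℕ} (h : Stp V U c m D)
    {a b a' b' : ℤ} (hab : a ≤ b) (hc : CH U c q D a b a' b') : b - a ≤ b' - a' := by
  have := h.lb' hab
  obtain ⟨-, h1, h2, h3, h4⟩ := hc
  linarith

lemma rc_len' {B C : Type} {V : ℤ → B} {U : ℤ → C} {c : ℤ → ℤ} {m D q : ℕ} (h : Stp V U c m D)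
    {a b a' b' : ℤ} (hab : a ≤ b) (hc : CH U c q D a b a' b') : b' - a' ≤ m * (b - a) + 2 * D := by
  have := h.ub' hab
  obtain ⟨-, h1, h2, h3, h4⟩ := hc
  linarith

/-- representatives of the classes of seeds -/
lemma rc_reps {B : Type} [Finite B] (V : ℤ → B) (K N : ℕ) (S : Set (ℤ × ℤ))
    (hS : ∀ s ∈ S, 0 ≤ s.2 - s.1 ∧ s.2 - s.1 ≤ N) :
    ∃ F : Finset (ℤ × ℤ), (∀ σ ∈ F, σ ∈ S) ∧
      (∀ s ∈ S, ∃ σ ∈ F, EQ V K s.1 s.2 σ.1 σ.2) ∧
      (∀ σ ∈ F, ∀ σ' ∈ F, EQ V K σ.1 σ.2 σ'.1 σ'.2 → σ = σ') := by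
  classical
  obtain ⟨lab, hlab⟩ : ∃ lab : ℤ × ℤ → ℤ × (Fin (2 * K + N) → Option B), ∀ s, lab s =
      (s.2 - s.1, fun t : Fin (2 * K + N) => if ((t : ℕ) : ℤ) < s.2 - s.1 + 2 * K then
        some (V (s.1 - K + (t : ℕ))) else none) :=
    ⟨_, fun _ => rfl⟩
  obtain ⟨F, hF1, hF2⟩ := Set.exists_subset_bijOn S lab
  have hfin : (lab '' S).Finite := by
    refine Set.Finite.subset ((Set.finite_Icc (0 : ℤ) N).prod (Set.finite_univ
      (α := Fin (2 * K + N) → Option B))) ?_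
    rintro _ ⟨s, hs, rfl⟩
    rw [hlab]
    exact ⟨⟨(hS s hs).1, (hS s hs).2⟩, Set.mem_univ _⟩
  have hFfin : F.Finite := by
    refine Set.Finite.of_finite_image (f := lab) ?_ hF2.injOn
    rw [hF2.image_eq]; exact hfin
  have key : ∀ s ∈ S, ∀ s' ∈ S, (lab s = lab s' ↔ EQ V K s.1 s.2 s'.1 s'.2) := by
    intro s hs s' hs'
    rw [hlab, hlab]
    constructor
    · intro h
      have h1 := congrArg Prod.fst h
      have h2 := congrArg Prod.snd h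
      simp only at h1 h2
      refine ⟨h1, fun t h3 h4 => ?_⟩
      have h5 := (hS s hs).2
      have h6 := congrFun h2 ⟨(t + K).toNat, by omega⟩
      have h7 : (((t + K).toNat : ℕ) : ℤ) = t + K := Int.toNat_of_nonneg (by linarith)
      simp only [h7] at h6
      rw [if_pos (by linarith), if_pos (by linarith)] at h6
      have h8 := Option.some_injective _ h6
      rwa [show s.1 - K + (t + K) = s.1 + t by ring, show s'.1 - K + (t + K) = s'.1 + t by ring] at h8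
    · rintro ⟨h1, h2⟩
      refine Prod.ext h1 ?_
      funext t
      simp only
      rw [← h1]
      split_ifs with h3
      · have := h2 (t - K) (by linarith [show (0 : ℤ) ≤ ((t : ℕ) : ℤ) by positivity]) (by linarith)
        rw [show s.1 - K + (t : ℕ) = s.1 + ((t : ℕ) - K) by ring, this]
        congr 2; ring
      · rfl
  refine ⟨hFfin.toFinset, fun σ hσ => hF1 (by simpa using hσ), fun s hs => ?_, fun σ hσ σ' hσ' hE => ?_⟩
  · obtain ⟨σ, hσ, he⟩ := hF2.surjOn (Set.mem_image_of_mem lab hs)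
    exact ⟨σ, by simpa using hσ, (key s hs σ (hF1 hσ)).1 he.symm⟩
  · have hσ1 : σ ∈ F := by simpa using hσ
    have hσ2 : σ' ∈ F := by simpa using hσ'
    exact hF2.injOn hσ1 hσ2 ((key σ (hF1 hσ1) σ' (hF1 hσ2)).2 hE)

/-- the chains of descendants -/
lemma rc_chain {B : Type} [Finite B] {V : ℤ → B} {c : ℤ → ℤ} {m D Q : ℕ} (h : Stp V V c m D)
    (hg : ∀ j, c j + 2 ≤ c (j + 1)) (hQ : PT V Q) (hQD : D ≤ Q) (hr : ROne V c) (K0 : ℕ)
    (hK0 : ∀ M : ℕ, ∃ l : ℕ, ∀ a b a' b' : ℤ, MR V Q a b → MR V Q a' b' → l ≤ b - a →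
      EQ V K0 a b a' b' → EQ V M a b a' b') (K : ℕ) (hK : K0 + D + 1 ≤ K) (l' : ℕ) :
    ∃ (F : Finset (ℤ × ℤ)) (ch : ℤ × ℤ → ℤ × ℤ) (l1 : ℕ), l' ≤ l1 ∧
      (∀ σ ∈ F, ∀ k, MR V Q (ch^[k] σ).1 (ch^[k] σ).2 ∧ l1 ≤ (ch^[k] σ).2 - (ch^[k] σ).1) ∧
      (∀ s : ℤ × ℤ, MR V Q s.1 s.2 → l1 ≤ s.2 - s.1 → CH V c Q D s.1 s.2 (ch s).1 (ch s).2) ∧
      (∀ s : ℤ × ℤ, MR V Q s.1 s.2 → l1 ≤ s.2 - s.1 → ∃ σ ∈ F, ∃ k,
        EQ V K s.1 s.2 (ch^[k] σ).1 (ch^[k] σ).2) ∧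
      (∀ σ ∈ F, ∀ σ' ∈ F, ∀ k j, EQ V K (ch^[k] σ).1 (ch^[k] σ).2 (ch^[j] σ').1 (ch^[j] σ').2 →
        σ = σ' ∧ k = j) := by
  classical
  obtain ⟨lc, hlc⟩ := h.childEx hQ hQ hQD hQD
  obtain ⟨M, hM⟩ := h.up hQ hQ hQD hr (K1 := K) (by
    have : (1 : ℤ) ≤ (K0 + D + 1 : ℕ) := by push_cast; linarith [show (0:ℤ) ≤ K0 by positivity, show (0:ℤ) ≤ D by positivity]
    exact this.trans (by exact_mod_cast hK))
  obtain ⟨lE, hlE⟩ := hK0 M
  obtain ⟨lu, hlu⟩ : ∃ lu : ℕ, lu = lE + 2 * Q + 1 := ⟨_, rfl⟩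
  have hluc : (lu : ℤ) = lE + 2 * Q + 1 := by rw [hlu]; push_cast; ring
  obtain ⟨lp, hlp⟩ := h.parentEx hQ hQ hQD hQD lu
  obtain ⟨l1, hl1⟩ : ∃ l1 : ℕ, l1 = lp + lu + lc + l' + Q + 2 * D + 1 := ⟨_, rfl⟩
  have hl1c : (l1 : ℤ) = lp + lu + lc + l' + Q + 2 * D + 1 := by rw [hl1]; push_cast; ring
  have p1 : (0 : ℤ) ≤ lp := by positivity
  have p2 : (0 : ℤ) ≤ lu := by positivity
  have p3 : (0 : ℤ) ≤ lc := by positivity
  have p4 : (0 : ℤ) ≤ l' := by positivity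
  have p5 : (0 : ℤ) ≤ Q := by positivity
  have p6 : (0 : ℤ) ≤ D := by positivity
  have p7 : (0 : ℤ) ≤ lE := by positivity
  have hKc : (K0 : ℤ) + D + 1 ≤ K := by exact_mod_cast hK
  have p8 : (0 : ℤ) ≤ K0 := by positivity
  -- UP
  have hUP : ∀ s1 s2 s1' s2' : ℤ × ℤ, lu ≤ s1.2 - s1.1 → lu ≤ s2.2 - s2.1 → MR V Q s1.1 s1.2 →
      MR V Q s2.1 s2.2 → CH V c Q D s1.1 s1.2 s1'.1 s1'.2 → CH V c Q D s2.1 s2.2 s2'.1 s2'.2 →
      EQ V K s1'.1 s1'.2 s2'.1 s2'.2 → EQ V K s1.1 s1.2 s2.1 s2.2 := by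
    intro s1 s2 s1' s2' h1 h2 h3 h4 h5 h6 h7
    have h8 := rc_len h (by linarith) h5
    exact hM _ _ _ _ _ _ _ _ (by linarith) (by linarith) h3 h4 h5 h6
      (hlE _ _ _ _ h5.1 h6.1 (by linarith) (h7.mono (by linarith)))
  -- DOWN
  have hDN : ∀ s1 s2 s1' s2' : ℤ × ℤ, l1 ≤ s1.2 - s1.1 →
      CH V c Q D s1.1 s1.2 s1'.1 s1'.2 → CH V c Q D s2.1 s2.2 s2'.1 s2'.2 →
      EQ V K s1.1 s1.2 s2.1 s2.2 → EQ V K s1'.1 s1'.2 s2'.1 s2'.2 := by
    intro s1 s2 s1' s2' h1 h5 h6 h7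
    have := h.down (g := 2) (by norm_num) hg (M := K) (by linarith) (by linarith) h5 h6 h7
    exact this.mono (by linarith)
  -- children
  have hch : ∀ s : ℤ × ℤ, ∃ s' : ℤ × ℤ, MR V Q s.1 s.2 → l1 ≤ s.2 - s.1 →
      CH V c Q D s.1 s.2 s'.1 s'.2 := by
    intro s
    by_cases hs : MR V Q s.1 s.2 ∧ l1 ≤ s.2 - s.1
    · obtain ⟨a', b', hab⟩ := hlc s.1 s.2 (by linarith [hs.2]) hs.1
      exact ⟨(a', b'), fun _ _ => hab⟩
    · exact ⟨s, fun h1 h2 => absurd ⟨h1, h2⟩ hs⟩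
  choose ch hch using hch
  -- seeds
  obtain ⟨S, hS⟩ : ∃ S : Set (ℤ × ℤ), ∀ s, s ∈ S ↔ (MR V Q s.1 s.2 ∧ l1 ≤ s.2 - s.1 ∧
      ∃ p : ℤ × ℤ, MR V Q p.1 p.2 ∧ lu ≤ p.2 - p.1 ∧ p.2 - p.1 < l1 ∧
        CH V c Q D p.1 p.2 s.1 s.2) := ⟨{s | _}, fun _ => Iff.rfl⟩
  obtain ⟨F, hF1, hF2, hF3⟩ := rc_reps V K (m * l1 + 2 * D) S (by
    intro s hs
    obtain ⟨h1, h2, p, h3, h4, h5, h6⟩ := (hS s).1 hs
    refine ⟨by linarith, ?_⟩
    have h7 := rc_len' h (by linarith) h6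
    push_cast
    have h8 : (m : ℤ) * (p.2 - p.1) ≤ m * l1 := mul_le_mul_of_nonneg_left h5.le (by positivity)
    linarith)
  have hit : ∀ σ ∈ F, ∀ k, MR V Q (ch^[k] σ).1 (ch^[k] σ).2 ∧ l1 ≤ (ch^[k] σ).2 - (ch^[k] σ).1 := by
    intro σ hσ k
    induction k with
    | zero =>
      obtain ⟨h1, h2, -⟩ := (hS σ).1 (hF1 σ hσ)
      exact ⟨h1, h2⟩
    | succ k ih =>
      rw [Function.iterate_succ_apply']
      have h1 := hch _ ih.1 ih.2
      exact ⟨h1.1, ih.2.trans (rc_len h (by linarith [ih.2]) h1)⟩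
  refine ⟨F, ch, l1, by omega, hit, hch, ?_, ?_⟩
  · -- surjectivity
    have : ∀ n : ℕ, ∀ s : ℤ × ℤ, s.2 - s.1 ≤ n → MR V Q s.1 s.2 → l1 ≤ s.2 - s.1 → ∃ σ ∈ F, ∃ k,
        EQ V K s.1 s.2 (ch^[k] σ).1 (ch^[k] σ).2 := by
      intro n
      induction n with
      | zero => intro s h1 h2 h3; exfalso; push_cast at h1; linarith
      | succ n ih =>
        intro s h1 h2 h3
        obtain ⟨a, b, h4, h5, h6⟩ := hlp s.1 s.2 (by linarith) h2
        rcases lt_or_ge (b - a) l1 with h7 | h7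
        · obtain ⟨σ, hσ, hE⟩ := hF2 s ((hS s).2 ⟨h2, h3, (a, b), h5, h4, h7, h6⟩)
          exact ⟨σ, hσ, 0, hE⟩
        · have h8 := h.gmul hg (show a ≤ b by linarith)
          obtain ⟨-, h9, h10, h11, h12⟩ := id h6
          obtain ⟨σ, hσ, k, hE⟩ := ih (a, b) (by push_cast at h1; simp only; linarith) h5 h7
          refine ⟨σ, hσ, k + 1, ?_⟩
          rw [Function.iterate_succ_apply']
          exact hDN (a, b) _ s _ h7 h6 (hch _ (hit σ hσ k).1 (hit σ hσ k).2) hE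
    intro s h1 h2
    exact this (s.2 - s.1).toNat s (by rw [Int.toNat_of_nonneg (by linarith)]) h1 h2
  · -- injectivity
    have key : ∀ σ ∈ F, ∀ σ' ∈ F, ∀ j, ¬ EQ V K σ.1 σ.2 (ch^[j + 1] σ').1 (ch^[j + 1] σ').2 := by
      intro σ hσ σ' hσ' j hE
      rw [Function.iterate_succ_apply'] at hE
      obtain ⟨h1, h2, p, h3, h4, h5, h6⟩ := (hS σ).1 (hF1 σ hσ)
      obtain ⟨h7, h8⟩ := hit σ' hσ' j
      have h9 := hUP p (ch^[j] σ') σ _ h4 (by linarith) h3 h7 h6 (hch _ h7 h8) hE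
      have := h9.1
      linarith
    have : ∀ k, ∀ σ ∈ F, ∀ σ' ∈ F, ∀ j, EQ V K (ch^[k] σ).1 (ch^[k] σ).2 (ch^[j] σ').1 (ch^[j] σ').2 →
        σ = σ' ∧ k = j := by
      intro k
      induction k with
      | zero =>
        intro σ hσ σ' hσ' j hE
        rcases j with _ | j
        · exact ⟨hF3 σ hσ σ' hσ' hE, rfl⟩
        · exact absurd hE (key σ hσ σ' hσ' j)
      | succ k ih =>
        intro σ hσ σ' hσ' j hE
        rcases j with _ | j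
        · exact absurd hE.symm (key σ' hσ' σ hσ k)
        · rw [Function.iterate_succ_apply', Function.iterate_succ_apply'] at hE
          obtain ⟨h7, h8⟩ := hit σ hσ k
          obtain ⟨h7', h8'⟩ := hit σ' hσ' j
          obtain ⟨h9, h10⟩ := ih σ hσ σ' hσ' j (hUP _ _ _ _ (by linarith) (by linarith) h7 h7'
            (hch _ h7 h8) (hch _ h7' h8') hE)
          exact ⟨h9, by rw [h10]⟩
    intro σ hσ σ' hσ' k j hE
    exact this k σ hσ σ' hσ' j hE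

/-- fibres of a function `ℕ → ℕ` -/
lemma rc_fib (f : ℕ → ℕ) (hf : ∀ n, {k | f k < n}.Finite) (n : ℕ) :
    ∑ l ∈ Finset.range n, {k | f k = l}.ncard = {k | f k < n}.ncard := by
  induction n with
  | zero => simp
  | succ n ih =>
    rw [Finset.sum_range_succ, ih, ← Set.ncard_union_eq _ (hf n)
      ((hf (n + 1)).subset fun k hk => by simp only [Set.mem_ofPred_eq] at hk ⊢; omega)]
    · congr 1
      ext k
      simp only [Set.mem_union, Set.mem_ofPred_eq]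
      omega
    · rw [Set.disjoint_left]
      intro k h1 h2
      simp only [Set.mem_ofPred_eq] at h1 h2
      omega

lemma rc_prod {α : Type} (F : Finset α) (S : α → Set ℕ) (hS : ∀ σ ∈ F, (S σ).Finite) :
    {p : α × ℕ | p.1 ∈ F ∧ p.2 ∈ S p.1}.Finite ∧
      {p : α × ℕ | p.1 ∈ F ∧ p.2 ∈ S p.1}.ncard = ∑ σ ∈ F, (S σ).ncard := by
  classical
  induction F using Finset.induction_on with
  | empty => simp
  | insert a F ha ih =>
    obtain ⟨h1, h2⟩ := ih fun σ hσ => hS σ (Finset.mem_insert_of_mem hσ)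
    have hSa := hS a (Finset.mem_insert_self _ _)
    have he : {p : α × ℕ | p.1 ∈ insert a F ∧ p.2 ∈ S p.1} =
        (fun k => (a, k)) '' S a ∪ {p : α × ℕ | p.1 ∈ F ∧ p.2 ∈ S p.1} := by
      ext ⟨x, k⟩
      simp only [Finset.mem_insert, Set.mem_ofPred_eq, Set.mem_union, Set.mem_image, Prod.mk.injEq]
      constructor
      · rintro ⟨h3 | h3, h4⟩
        · subst h3; exact Or.inl ⟨k, h4, rfl, rfl⟩
        · exact Or.inr ⟨h3, h4⟩
      · rintro (⟨j, h3, h4, h5⟩ | h3)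
        · subst h4; subst h5; exact ⟨Or.inl rfl, h3⟩
        · exact ⟨Or.inr h3.1, h3.2⟩
    rw [he]
    refine ⟨(hSa.image _).union h1, ?_⟩
    rw [Set.ncard_union_eq _ (hSa.image _) h1, Finset.sum_insert ha, h2,
      Set.ncard_image_of_injective _ (fun x y h => by simpa using h)]
    rw [Set.disjoint_left]
    rintro ⟨x, k⟩ ⟨j, h3, h4⟩ ⟨h5, h6⟩
    simp only [Prod.mk.injEq] at h4
    simp only at h5
    rw [← h4.1] at h5
    exact ha h5

/-- the lengths along one chain -/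
lemma rc_grow (hCNT : S_CNT) {B C : Type} {V : ℤ → B} {U : ℤ → C} {c d : ℤ → ℤ} {D Q q : ℕ}
    (hG : GR c d) (s s' : ℕ → ℤ × ℤ) (h0 : (s 0).1 < (s 0).2)
    (hs : ∀ k, CH V c Q D (s k).1 (s k).2 (s (k + 1)).1 (s (k + 1)).2)
    (hs' : ∀ k, CH U d q D (s k).1 (s k).2 (s' k).1 (s' k).2)
    (hnn : ∀ k, 0 ≤ (s' k).2 - (s' k).1) :
    ∃ A B' K : ℝ, ∀ n : ℕ, 3 ≤ n → {k | ((s' k).2 - (s' k).1).toNat < n}.Finite ∧
      |({k | ((s' k).2 - (s' k).1).toNat < n}.ncard : ℝ) - A * Real.log n -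
        B' * Real.log (Real.log n)| ≤ K := by
  obtain ⟨θ, e, κ, K, hθ, hκ, hK, hb⟩ := hG D (fun k => (s k).1) (fun k => (s k).2)
    (fun k => c (s k).1 - (s (k + 1)).1) (fun k => (s (k + 1)).2 - c (s k).2)
    (fun k => by
      obtain ⟨-, h1, h2, h3, h4⟩ := hs k
      exact ⟨by linarith, by linarith, by linarith, by linarith⟩)
    (fun k => by ring) (fun k => by ring) h0
  obtain ⟨K', hK'⟩ := hCNT (fun k => (((s' k).2 - (s' k).1 : ℤ) : ℝ) + 1) θ e κ (K + 2 * D + 1) hθ hκ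
    (by positivity) (fun k => by
      obtain ⟨-, h1, h2, h3, h4⟩ := hs' k
      obtain ⟨g1, g2⟩ := hb k
      have e1 : ((d (s k).2 - d (s k).1 : ℤ) : ℝ) ≤ (((s' k).2 - (s' k).1 : ℤ) : ℝ) := by
        exact_mod_cast (by linarith : d (s k).2 - d (s k).1 ≤ (s' k).2 - (s' k).1)
      have e2 : (((s' k).2 - (s' k).1 : ℤ) : ℝ) ≤ ((d (s k).2 - d (s k).1 : ℤ) : ℝ) + 2 * D := by
        exact_mod_cast (by linarith : (s' k).2 - (s' k).1 ≤ d (s k).2 - d (s k).1 + 2 * D)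
      have e3 : (1 : ℝ) ≤ ((k : ℝ) + 1) ^ e * θ ^ k := by
        have i1 : (1 : ℝ) ≤ ((k : ℝ) + 1) ^ e := one_le_pow₀ (by linarith [show (0 : ℝ) ≤ k by positivity])
        have i2 : (1 : ℝ) ≤ θ ^ k := one_le_pow₀ hθ.le
        nlinarith
      constructor
      · linarith
      · have e4 : (2 * (D : ℝ) + 1) * 1 ≤ (2 * D + 1) * (((k : ℝ) + 1) ^ e * θ ^ k) :=
          mul_le_mul_of_nonneg_left e3 (by positivity)
        nlinarith) 1 0 (by norm_num)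
  refine ⟨1 / Real.log θ, -(e : ℝ) / Real.log θ, K', fun n hn => ?_⟩
  have hset : {k : ℕ | k % 1 = 0 ∧ (((s' k).2 - (s' k).1 : ℤ) : ℝ) + 1 ≤ n} =
      {k | ((s' k).2 - (s' k).1).toNat < n} := by
    ext k
    have h1 := hnn k
    simp only [Set.mem_ofPred_eq]
    constructor
    · rintro ⟨-, h2⟩
      have h3 : (s' k).2 - (s' k).1 + 1 ≤ n := by exact_mod_cast h2
      omega
    · intro h2
      refine ⟨by omega, ?_⟩
      have h3 : (s' k).2 - (s' k).1 + 1 ≤ n := by omega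
      exact_mod_cast h3
  obtain ⟨h1, h2⟩ := hK' n hn
  rw [hset] at h1 h2
  refine ⟨h1, ?_⟩
  have h3 : 1 / Real.log θ * Real.log n = Real.log n / Real.log θ := by ring
  have h4 : -(e : ℝ) / Real.log θ * Real.log (Real.log n) = -(e * Real.log (Real.log n) / Real.log θ) := by
    ring
  rw [h3, h4]
  rw [Nat.cast_one, one_mul, sub_div] at h2
  convert h2 using 2
  ring

theorem t_RC : S_UL → S_CNT → S_RC := by
  classical
  intro hUL hCNT B C _ _ V U c d m D Q q h hG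
  have hQ0 : (0 : ℤ) < Q := by exact_mod_cast h.hQ.1
  have hq0 : (0 : ℤ) < q := by exact_mod_cast h.hq.1
  have p6 : (0 : ℤ) ≤ D := by positivity
  obtain ⟨KV, hKV⟩ := h.self.big hUL
  obtain ⟨KU, hKU⟩ := h.big hUL
  obtain ⟨K, hK⟩ : ∃ K : ℕ, K = KV + D + 1 := ⟨_, rfl⟩
  have hKc : (K : ℤ) = KV + D + 1 := by rw [hK]; push_cast; ring
  obtain ⟨ld, hld⟩ := h.hU.childEx h.hQ h.hq h.hQD h.hqD
  obtain ⟨M, hM⟩ := h.hU.up h.hQ h.hq h.hQD h.rU (K1 := K) (by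
    rw [hKc]; linarith [show (0:ℤ) ≤ KV by positivity])
  obtain ⟨lM, hlM⟩ := hKU M
  obtain ⟨F, ch, l1, hl1, hF, hch, hsur, hinj⟩ := rc_chain h.hV h.hg h.hQ h.hQD h.rV KV hKV K
    (by omega) (ld + lM + 2 * Q + q + 2 * D + 1)
  have hl1c : (ld : ℤ) + lM + 2 * Q + q + 2 * D + 1 ≤ l1 := by exact_mod_cast hl1
  have q1 : (0 : ℤ) ≤ ld := by positivity
  have q2 : (0 : ℤ) ≤ lM := by positivity
  -- children in `U`
  have hcd : ∀ s : ℤ × ℤ, ∃ s' : ℤ × ℤ, MR V Q s.1 s.2 → l1 ≤ s.2 - s.1 →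
      CH U d q D s.1 s.2 s'.1 s'.2 := by
    intro s
    by_cases hs : MR V Q s.1 s.2 ∧ l1 ≤ s.2 - s.1
    · obtain ⟨a', b', hab⟩ := hld s.1 s.2 (by linarith [hs.2]) hs.1
      exact ⟨(a', b'), fun _ _ => hab⟩
    · exact ⟨s, fun h1 h2 => absurd ⟨h1, h2⟩ hs⟩
  choose cd hcd using hcd
  obtain ⟨E, hE⟩ : ∃ E : ℤ × ℤ → ℕ → ℤ × ℤ, ∀ σ k, E σ k = cd (ch^[k] σ) := ⟨_, fun _ _ => rfl⟩
  have hEc : ∀ σ ∈ F, ∀ k, CH U d q D (ch^[k] σ).1 (ch^[k] σ).2 (E σ k).1 (E σ k).2 := by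
    intro σ hσ k; rw [hE]; exact hcd _ (hF σ hσ k).1 (hF σ hσ k).2
  have hElen : ∀ σ ∈ F, ∀ k, (l1 : ℤ) ≤ (E σ k).2 - (E σ k).1 := by
    intro σ hσ k
    exact (hF σ hσ k).2.trans (rc_len h.hU (by linarith [(hF σ hσ k).2]) (hEc σ hσ k))
  -- growth along the chains
  have hgr : ∀ σ : ℤ × ℤ, ∃ A B' K : ℝ, σ ∈ F → ∀ n : ℕ, 3 ≤ n →
      {k | ((E σ k).2 - (E σ k).1).toNat < n}.Finite ∧
      |({k | ((E σ k).2 - (E σ k).1).toNat < n}.ncard : ℝ) - A * Real.log n -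
        B' * Real.log (Real.log n)| ≤ K := by
    intro σ
    by_cases hσ : σ ∈ F
    · obtain ⟨A, B', K, hAB⟩ := rc_grow hCNT hG (V := V) (U := U) (Q := Q) (q := q) (D := D)
        (fun k => ch^[k] σ) (E σ)
        (by have := (hF σ hσ 0).2; linarith)
        (fun k => by
          rw [Function.iterate_succ_apply']
          exact hch _ (hF σ hσ k).1 (hF σ hσ k).2)
        (fun k => hEc σ hσ k) (fun k => by linarith [hElen σ hσ k])
      exact ⟨A, B', K, fun _ => hAB⟩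
    · exact ⟨0, 0, 0, fun h => absurd h hσ⟩
  choose A B' KK hAB using hgr
  have hfin : ∀ σ ∈ F, ∀ n, {k | ((E σ k).2 - (E σ k).1).toNat < n}.Finite := by
    intro σ hσ n
    refine ((hAB σ hσ (n + 3) (by omega)).1).subset fun k hk => ?_
    simp only [Set.mem_ofPred_eq] at hk ⊢
    omega
  refine ⟨KU, fun x hx => ?_⟩
  have hxc : (KU : ℤ) ≤ x := by exact_mod_cast hx
  have q3 : (0 : ℤ) ≤ KU := by positivity
  obtain ⟨lE, hlE⟩ := hKV (x + D + 1)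
  obtain ⟨lp, hlp⟩ := h.hU.parentEx h.hQ h.hq h.hQD h.hqD (l1 + lE)
  have q4 : (0 : ℤ) ≤ lE := by positivity
  -- the main equality
  have hmain : ∀ l : ℕ, lp + m * (l1 + lE) + 2 * D ≤ l →
      NX U q x x l = ∑ σ ∈ F, {k | ((E σ k).2 - (E σ k).1).toNat = l}.ncard := by
    intro l hl
    obtain ⟨hPfin, hPcard⟩ := rc_prod F (fun σ => {k | ((E σ k).2 - (E σ k).1).toNat = l})
      (fun σ hσ => (hfin σ hσ (l + 1)).subset fun k hk => by
        simp only [Set.mem_ofPred_eq] at hk ⊢; omega)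
    rw [← hPcard]
    unfold NX
    have hlen : ∀ σ ∈ F, ∀ k, ((E σ k).2 - (E σ k).1).toNat = l →
        (E σ k).2 - (E σ k).1 = l ∧ lE + l1 ≤ (ch^[k] σ).2 - (ch^[k] σ).1 := by
      intro σ hσ k hk
      have h1 := hElen σ hσ k
      have h2 : (E σ k).2 - (E σ k).1 = l := by omega
      refine ⟨h2, ?_⟩
      have h3 := rc_len' h.hU (by linarith [(hF σ hσ k).2]) (hEc σ hσ k)
      have h4 : (lp : ℤ) + m * (l1 + lE) + 2 * D ≤ l := by exact_mod_cast hl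
      have h5 : (m : ℤ) * (l1 + lE) ≤ m * ((ch^[k] σ).2 - (ch^[k] σ).1) := by linarith
      have h6 : (0 : ℤ) < m := by exact_mod_cast h.hU.mpos
      have := le_of_mul_le_mul_left h5 h6
      linarith
    have hinjOn : Set.InjOn (fun p : (ℤ × ℤ) × ℕ => wd U (x + l + x) ((E p.1 p.2).1 - x))
        {p : (ℤ × ℤ) × ℕ | p.1 ∈ F ∧ p.2 ∈ {k | ((E p.1 k).2 - (E p.1 k).1).toNat = l}} := by
      rintro ⟨σ, k⟩ ⟨hσ, hk⟩ ⟨σ', k'⟩ ⟨hσ', hk'⟩ heq
      simp only [Set.mem_ofPred_eq] at hσ hk hσ' hk'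
      obtain ⟨g1, g2⟩ := hlen σ hσ k hk
      obtain ⟨g1', g2'⟩ := hlen σ' hσ' k' hk'
      have h1 : EQ U x (E σ k).1 (E σ k).2 (E σ' k').1 (E σ' k').2 := by
        refine ⟨by rw [g1, g1'], fun t h1 h2 => ?_⟩
        have := congrFun heq ⟨(t + x).toNat, by omega⟩
        simp only [wd] at this
        rw [Int.toNat_of_nonneg (by linarith)] at this
        rwa [show (E σ k).1 - x + (t + x) = (E σ k).1 + t by ring,
          show (E σ' k').1 - x + (t + x) = (E σ' k').1 + t by ring] at this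
      have c1 := hEc σ hσ k
      have c2 := hEc σ' hσ' k'
      have h2 := hM _ _ _ _ _ _ _ _ (by linarith [(hF σ hσ k).2]) (by linarith [(hF σ' hσ' k').2])
        (hF σ hσ k).1 (hF σ' hσ' k').1 c1 c2
        (hlM _ _ _ _ c1.1 c2.1 (by linarith [hElen σ hσ k]) (h1.mono (by linarith)))
      obtain ⟨e1, e2⟩ := hinj σ hσ σ' hσ' k k' h2
      rw [e1, e2]
    rw [← hinjOn.ncard_image]
    congr 1
    ext w
    constructor
    · rintro ⟨i, ⟨h1, h2, h3⟩, rfl⟩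
      have hMR : MR U q (i + x) (i + x + l) := ⟨h1, h2, h3⟩
      have hll : (lp : ℤ) ≤ i + x + l - (i + x) := by
        have : (lp : ℤ) + m * (l1 + lE) + 2 * D ≤ l := by exact_mod_cast hl
        have h6 : (0 : ℤ) ≤ m * (l1 + lE) := by positivity
        linarith
      obtain ⟨a, b, g1, g2, g3⟩ := hlp _ _ hll hMR
      push_cast at g1
      obtain ⟨σ, hσ, k, hEq⟩ := hsur (a, b) g2 (by simp only; linarith)
      have c1 := hEc σ hσ k
      have e1 := hlE a b _ _ g2 (hF σ hσ k).1 (by linarith) (hEq.mono (by linarith))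
      have e2 := h.hU.down (g := 1) le_rfl h.hU.pos (M := (x + D + 1 : ℕ))
        (by push_cast; linarith) (by linarith) g3 c1 e1
      push_cast at e2
      have e3 : EQ U x (i + x) (i + x + l) (E σ k).1 (E σ k).2 := e2.mono (by linarith)
      refine ⟨(σ, k), ⟨hσ, ?_⟩, ?_⟩
      · simp only [Set.mem_ofPred_eq]
        have := e3.1
        omega
      · funext t
        simp only [wd]
        have := e3.2 ((t : ℕ) - x) (by linarith [show (0 : ℤ) ≤ ((t : ℕ) : ℤ) by positivity]) (by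
          have := t.2
          have h7 : ((t : ℕ) : ℤ) < x + l + x := by exact_mod_cast this
          linarith)
        rw [show i + x + (((t : ℕ) : ℤ) - x) = i + (t : ℕ) by ring] at this
        rw [this]; congr 1; ring
    · rintro ⟨⟨σ, k⟩, ⟨hσ, hk⟩, rfl⟩
      simp only [Set.mem_ofPred_eq] at hσ hk
      obtain ⟨g1, g2⟩ := hlen σ hσ k hk
      have c1 := (hEc σ hσ k).1
      have e1 : (E σ k).1 - x + x = (E σ k).1 := by ring
      have e2 : (E σ k).1 - x + x + l = (E σ k).2 := by linarith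
      refine ⟨(E σ k).1 - x, ?_, rfl⟩
      simp only [Set.mem_ofPred_eq]
      rw [e2, e1]
      exact c1
  -- the conclusion
  obtain ⟨l3, hl3⟩ : ∃ l3 : ℕ, l3 = lp + m * (l1 + lE) + 2 * D := ⟨_, rfl⟩
  rw [← hl3] at hmain
  refine ⟨∑ σ ∈ F, A σ, ∑ σ ∈ F, B' σ, ∑ l ∈ Finset.range l3, |(NX U q x x l : ℝ) -
    ∑ σ ∈ F, ({k | ((E σ k).2 - (E σ k).1).toNat = l}.ncard : ℝ)| + ∑ σ ∈ F, KK σ, fun n hn => ?_⟩
  have s1 : |((∑ l ∈ Finset.range n, NX U q x x l : ℕ) : ℝ) - ∑ l ∈ Finset.range n,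
      ∑ σ ∈ F, ({k | ((E σ k).2 - (E σ k).1).toNat = l}.ncard : ℝ)| ≤
      ∑ l ∈ Finset.range l3, |(NX U q x x l : ℝ) -
        ∑ σ ∈ F, ({k | ((E σ k).2 - (E σ k).1).toNat = l}.ncard : ℝ)| := by
    rw [Nat.cast_sum, ← Finset.sum_sub_distrib]
    refine (Finset.abs_sum_le_sum_abs _ _).trans ?_
    have : ∀ l ∈ Finset.range n, l ∉ Finset.range l3 → |(NX U q x x l : ℝ) -
        ∑ σ ∈ F, ({k | ((E σ k).2 - (E σ k).1).toNat = l}.ncard : ℝ)| = 0 := by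
      intro l _ hl
      rw [Finset.mem_range, not_lt] at hl
      rw [hmain l hl]
      push_cast
      simp
    rw [← Finset.sum_subset (Finset.inter_subset_left (s₁ := Finset.range n)
      (s₂ := Finset.range l3)) fun l hl hl' => this l hl fun h => hl' (Finset.mem_inter.2 ⟨hl, h⟩)]
    exact Finset.sum_le_sum_of_subset_of_nonneg Finset.inter_subset_right fun _ _ _ => abs_nonneg _
  have s2 : ∑ l ∈ Finset.range n, ∑ σ ∈ F, ({k | ((E σ k).2 - (E σ k).1).toNat = l}.ncard : ℝ) =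
      ∑ σ ∈ F, ({k | ((E σ k).2 - (E σ k).1).toNat < n}.ncard : ℝ) := by
    rw [Finset.sum_comm]
    refine Finset.sum_congr rfl fun σ hσ => ?_
    rw [← rc_fib _ (hfin σ hσ)]
    push_cast
    rfl
  have s3 : |∑ σ ∈ F, ({k | ((E σ k).2 - (E σ k).1).toNat < n}.ncard : ℝ) -
      (∑ σ ∈ F, A σ) * Real.log n - (∑ σ ∈ F, B' σ) * Real.log (Real.log n)| ≤ ∑ σ ∈ F, KK σ := by
    rw [Finset.sum_mul, Finset.sum_mul, ← Finset.sum_sub_distrib, ← Finset.sum_sub_distrib]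
    refine (Finset.abs_sum_le_sum_abs _ _).trans (Finset.sum_le_sum fun σ hσ => ?_)
    exact (hAB σ hσ n hn).2
  rw [s2] at s1
  have s4 := abs_add_le (((∑ l ∈ Finset.range n, NX U q x x l : ℕ) : ℝ) -
    ∑ σ ∈ F, ({k | ((E σ k).2 - (E σ k).1).toNat < n}.ncard : ℝ))
    (∑ σ ∈ F, ({k | ((E σ k).2 - (E σ k).1).toNat < n}.ncard : ℝ) -
      (∑ σ ∈ F, A σ) * Real.log n - (∑ σ ∈ F, B' σ) * Real.log (Real.log n))
  refine le_trans (le_of_eq ?_) (s4.trans (add_le_add s1 s3))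
  congr 1
  ring

end Pool.Agent.T2h96.FC
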