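import Pool.Agent.T2h96.FC.Stm

/-!
# Recognizability of elementary morphisms in non-periodic words (task REC of MP_52de8b_co)
-/

set_option autoImplicit false

namespace Pool.Agent.T2h96.FC.Rec

open Pool.Agent.T2h96.FC

/-- The word of `W` on `[a, a+n)`. -/
def seg {C : Type} (W : ℤ → C) (a : ℤ) (n : ℕ) : List C :=
  (List.range n).map fun t : ℕ => W (a + t)

section Seg

variable {C : Type}

lemma seg_length (W : ℤ → C) (a : ℤ) (n : ℕ) : (seg W a n).length = n := by simp [seg]

lemma seg_zero (W : ℤ → C) (a : ℤ) : seg W a 0 = [] := by simp [seg]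

lemma seg_succ (W : ℤ → C) (a : ℤ) (n : ℕ) : seg W a (n + 1) = seg W a n ++ [W (a + n)] := by
  simp [seg, List.range_succ]

lemma seg_add (W : ℤ → C) (a : ℤ) (m n : ℕ) :
    seg W a (m + n) = seg W a m ++ seg W (a + m) n := by
  induction n with
  | zero => simp [seg]
  | succ n ih =>
    rw [← Nat.add_assoc, seg_succ, ih, seg_succ, List.append_assoc]
    push_cast
    rw [add_assoc]

lemma seg_getElem? (W : ℤ → C) (a : ℤ) (n : ℕ) (r : ℕ) (h : r < n) :
    (seg W a n)[r]? = some (W (a + r)) := by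
  simp [seg, List.getElem?_map, List.getElem?_range h]

lemma seg_eq (W : ℤ → C) (a : ℤ) (l : List C) (h : ∀ r < l.length, l[r]? = some (W (a + r))) :
    seg W a l.length = l := by
  apply List.ext_getElem?
  intro r
  by_cases hr : r < l.length
  · rw [seg_getElem? W a _ r hr, h r hr]
  · rw [List.getElem?_eq_none (by rw [seg_length]; omega), List.getElem?_eq_none (by omega)]

end Seg

section Basic

variable {B C : Type} {H : B → List C} {x : ℤ → B} {W : ℤ → C} {c : ℤ → ℤ}

lemma des_mono (hne : ∀ b, H b ≠ []) (h : Des H x W c) : StrictMono c := by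
  apply strictMono_int_of_lt_succ
  intro n
  rw [h.step n]
  have := List.length_pos_iff.mpr (hne (x n))
  omega

lemma mono_add {c : ℤ → ℤ} (hc : StrictMono c) (a : ℤ) (n : ℕ) : c a + n ≤ c (a + n) := by
  induction n with
  | zero => simp
  | succ n ih =>
    have h1 : c (a + n) < c (a + (n + 1 : ℕ)) := hc (by push_cast; omega)
    push_cast at *
    omega

lemma exists_block {c : ℤ → ℤ} (hc : StrictMono c) (s : ℤ) : ∃ j, c j ≤ s ∧ s < c (j + 1) := by
  have h1 : ∃ b : ℤ, ∀ z : ℤ, c z ≤ s → z ≤ b := by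
    refine ⟨max 0 (s - c 0), fun z hz => ?_⟩
    by_contra hcon
    push Not at hcon
    have hz0 : 0 < z := lt_of_le_of_lt (le_max_left _ _) hcon
    have hz1 : s - c 0 < z := lt_of_le_of_lt (le_max_right _ _) hcon
    have := mono_add hc 0 z.toNat
    rw [Int.toNat_of_nonneg hz0.le, zero_add] at this
    omega
  have h2 : ∃ z : ℤ, c z ≤ s := by
    refine ⟨-((c 0 - s).toNat : ℤ), ?_⟩
    have := mono_add hc (-((c 0 - s).toNat : ℤ)) (c 0 - s).toNat
    rw [neg_add_cancel] at this
    have h3 : c 0 - s ≤ ((c 0 - s).toNat : ℤ) := Int.self_le_toNat _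
    omega
  obtain ⟨j, hj, hj2⟩ := Int.exists_greatest_of_bdd h1 h2
  refine ⟨j, hj, ?_⟩
  by_contra hcon
  push Not at hcon
  have := hj2 _ hcon
  omega

lemma block_unique {c : ℤ → ℤ} (hc : StrictMono c) {s j j' : ℤ} (h1 : c j ≤ s) (h2 : s < c (j + 1))
    (h3 : c j' ≤ s) (h4 : s < c (j' + 1)) : j = j' := by
  have h5 : j < j' + 1 := hc.lt_iff_lt.mp (lt_of_le_of_lt h1 h4)
  have h6 : j' < j + 1 := hc.lt_iff_lt.mp (lt_of_le_of_lt h3 h2)
  omega

lemma seg_des (h : Des H x W c) (j : ℤ) : seg W (c j) (H (x j)).length = H (x j) :=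
  seg_eq W (c j) _ (h.val j)

lemma flatMap_seg (h : Des H x W c) (i : ℤ) (n : ℕ) : c (i + n) = c i + ((seg x i n).flatMap H).length ∧
    seg W (c i) ((seg x i n).flatMap H).length = (seg x i n).flatMap H := by
  induction n with
  | zero => simp [seg_zero]
  | succ n ih =>
    obtain ⟨h1, h2⟩ := ih
    rw [seg_succ, List.flatMap_append, List.flatMap_singleton, List.length_append]
    constructor
    · push_cast
      rw [← add_assoc, h.step, h1]
      ring
    · rw [seg_add, h2, ← h1, seg_des h]

end Basic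

section Sync

variable {B C : Type} {H : B → List C}

/-- The two-sided delay property. -/
def Delay (H : B → List C) : Prop :=
  ∃ D : ℕ, ∀ (x y : ℤ → B) (W W' : ℤ → C) (c c' : ℤ → ℤ), Des H x W c → Des H y W' c' →
    (∀ i j, x i ≠ y j → ∃ t : ℕ, t < D ∧ W (c i + t) ≠ W' (c' j + t)) ∧
    (∀ i j, x (i - 1) ≠ y (j - 1) → ∃ t : ℕ, t < D ∧ W (c i - 1 - t) ≠ W' (c' j - 1 - t))

lemma sync (hD : Delay H) {x y : ℤ → B} {W : ℤ → C} {c c' : ℤ → ℤ} (h : Des H x W c)
    (h' : Des H y W c') {i j : ℤ} (hij : c i = c' j) :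
    ∀ r : ℤ, c (i + r) = c' (j + r) ∧ x (i + r) = y (j + r) := by
  obtain ⟨D, hD⟩ := hD
  have hR : ∀ i j, c i = c' j → x i = y j := by
    intro i j hij
    by_contra hcon
    obtain ⟨t, -, ht⟩ := (hD x y W W c c' h h').1 i j hcon
    rw [hij] at ht
    exact ht rfl
  have hL : ∀ i j, c i = c' j → x (i - 1) = y (j - 1) := by
    intro i j hij
    by_contra hcon
    obtain ⟨t, -, ht⟩ := (hD x y W W c c' h h').2 i j hcon
    rw [hij] at ht
    exact ht rfl
  have key : ∀ r : ℤ, c (i + r) = c' (j + r) := by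
    intro r
    induction r using Int.induction_on with
    | zero => simpa using hij
    | succ n ih =>
      rw [← add_assoc, ← add_assoc, h.step, h'.step, ih, hR _ _ ih]
    | pred n ih =>
      have h1 := h.step (i + (-(n : ℤ)) - 1)
      have h2 := h'.step (j + (-(n : ℤ)) - 1)
      rw [sub_add_cancel] at h1 h2
      rw [hL _ _ ih] at h1
      rw [← add_sub_assoc, ← add_sub_assoc]
      omega
  intro r
  exact ⟨key r, hR _ _ (key r)⟩

end Sync

section Image

lemma exists_sum (a : ℤ → ℤ) : ∃ e : ℤ → ℤ, ∀ j, e (j + 1) = e j + a j := by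
  refine ⟨fun j => match j with
    | Int.ofNat n => ∑ k ∈ Finset.range n, a k
    | Int.negSucc n => -∑ k ∈ Finset.range (n + 1), a (-(k : ℤ) - 1), ?_⟩
  intro j
  match j with
  | Int.ofNat n =>
    show (∑ k ∈ Finset.range (n + 1), a k) = (∑ k ∈ Finset.range n, a k) + a n
    rw [Finset.sum_range_succ]
  | Int.negSucc 0 =>
    show (∑ k ∈ Finset.range 0, a k) = (-∑ k ∈ Finset.range (0 + 1), a (-(k : ℤ) - 1)) + a (-1)
    simp
  | Int.negSucc (n + 1) =>
    show (-∑ k ∈ Finset.range (n + 1), a (-(k : ℤ) - 1)) =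
      (-∑ k ∈ Finset.range (n + 1 + 1), a (-(k : ℤ) - 1)) + a (Int.negSucc (n + 1))
    rw [Finset.sum_range_succ _ (n + 1)]
    have : Int.negSucc (n + 1) = -((n + 1 : ℕ) : ℤ) - 1 := by
      rw [Int.negSucc_eq]; push_cast; ring
    rw [this]
    ring

variable {A B C : Type}

lemma exists_image (g : A → List B) (hg : ∀ b, g b ≠ []) (x : ℤ → A) :
    ∃ (X : ℤ → B) (e : ℤ → ℤ), Des g x X e := by
  obtain ⟨e, he⟩ := exists_sum (fun j => ((g (x j)).length : ℤ))
  have hm : StrictMono e := by
    apply strictMono_int_of_lt_succ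
    intro n
    rw [he n]
    have := List.length_pos_iff.mpr (hg (x n))
    omega
  choose bl h1 h2 using exists_block hm
  have hlt : ∀ t, (t - e (bl t)).toNat < (g (x (bl t))).length := by
    intro t
    have := h1 t
    have := h2 t
    rw [he] at this
    omega
  refine ⟨fun t => (g (x (bl t)))[(t - e (bl t)).toNat]'(hlt t), e, he, ?_⟩
  intro j r hr
  have hb : bl (e j + r) = j := by
    apply block_unique hm (h1 _) (h2 _)
    · omega
    · rw [he]; omega
  rw [List.getElem?_eq_getElem hr]
  congr 1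
  simp only [hb]
  congr 1
  omega

/-- Refinement of a structure. -/
lemma refine_des {H : A → List C} {g : A → List B} {f : B → List C} (hg : ∀ b, g b ≠ [])
    (hH : ∀ b, H b = (g b).flatMap f) {x : ℤ → A} {W : ℤ → C} {c : ℤ → ℤ} (h : Des H x W c)
    {X : ℤ → B} {e : ℤ → ℤ} (hX : Des g x X e) :
    ∃ d : ℤ → ℤ, Des f X W d ∧ ∀ j, d (e j) = c j := by
  have hm := des_mono hg hX
  choose bl h1 h2 using exists_block hm
  obtain ⟨d, hd⟩ : ∃ d : ℤ → ℤ, ∀ t, d t =
      c (bl t) + (((g (x (bl t))).take (t - e (bl t)).toNat).flatMap f).length := ⟨_, fun _ => rfl⟩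
  have key : ∀ i (r : ℕ), r ≤ (g (x i)).length →
      d (e i + r) = c i + (((g (x i)).take r).flatMap f).length := by
    intro i r hr
    rcases hr.lt_or_eq with hr | hr
    · have hb : bl (e i + r) = i := by
        apply block_unique hm (h1 _) (h2 _)
        · omega
        · rw [hX.step]; omega
      rw [hd, hb]
      have : (e i + (r : ℤ) - e i).toNat = r := by omega
      rw [this]
    · have hb : bl (e i + r) = i + 1 := by
        apply block_unique hm (h1 _) (h2 _)
        · rw [hX.step]; omega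
        · have := hm (show i + 1 < i + 1 + 1 by omega)
          rw [hX.step i] at this
          omega
      rw [hd, hb]
      have : (e i + (r : ℤ) - e (i + 1)).toNat = 0 := by rw [hX.step]; omega
      rw [this, hr, List.take_length, ← hH, h.step]
      simp
  have hdec : ∀ t, ∃ i, ∃ r : ℕ, ∃ hr : r < (g (x i)).length, t = e i + r := by
    intro t
    refine ⟨bl t, (t - e (bl t)).toNat, ?_, ?_⟩
    · have := h1 t
      have := h2 t
      rw [hX.step] at this
      omega
    · have := h1 t
      omega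
  have htake : ∀ (l : List B) (r : ℕ) (hr : r < l.length),
      (l.take (r + 1)).flatMap f = (l.take r).flatMap f ++ f l[r] := by
    intro l r hr
    rw [List.take_add_one, List.flatMap_append, List.getElem?_eq_getElem hr]
    simp
  have hXv : ∀ i (r : ℕ) (hr : r < (g (x i)).length), X (e i + r) = (g (x i))[r] := by
    intro i r hr
    have := hX.val i r hr
    rw [List.getElem?_eq_getElem hr] at this
    exact (Option.some.inj this).symm
  refine ⟨d, ⟨?_, ?_⟩, ?_⟩
  · intro t
    obtain ⟨i, r, hr, rfl⟩ := hdec t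
    have h3 := key i (r + 1) hr
    push_cast at h3
    rw [← add_assoc] at h3
    rw [h3, key i r hr.le, hXv i r hr, htake _ _ hr, List.length_append]
    push_cast
    ring
  · intro t k hk
    obtain ⟨i, r, hr, rfl⟩ := hdec t
    rw [hXv i r hr] at hk ⊢
    rw [key i r hr.le]
    have hsplit : H (x i) = ((g (x i)).take r).flatMap f ++ f (g (x i))[r] ++
        ((g (x i)).drop (r + 1)).flatMap f := by
      rw [hH, ← htake _ _ hr, ← List.flatMap_append, List.take_append_drop]
    have h4 := h.val i ((((g (x i)).take r).flatMap f).length + k) (by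
      rw [hsplit, List.length_append, List.length_append]; omega)
    rw [hsplit, List.append_assoc, List.getElem?_append_right (by omega), Nat.add_sub_cancel_left,
      List.getElem?_append_left hk] at h4
    rw [h4]
    push_cast
    rw [add_assoc]
  · intro j
    have := key j 0 (Nat.zero_le _)
    simpa using this

end Image

section Splice

variable {B C : Type}

lemma splice {f : B → List C} {X Y : ℤ → B} {W : ℤ → C} {d d' : ℤ → ℤ} (hd : Des f X W d)
    (hd' : Des f Y W d') {i q : ℤ} (Z : List B) (h1 : d' q = d i + (Z.flatMap f).length)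
    (h2 : seg W (d i) (Z.flatMap f).length = Z.flatMap f) :
    ∃ (V : ℤ → B) (d'' : ℤ → ℤ), Des f V W d'' ∧ d'' 0 = d i ∧ d'' Z.length = d' q := by
  obtain ⟨V, hV⟩ : ∃ V : ℤ → B, ∀ s, V s = if s < 0 then X (i + s) else
      if h : s.toNat < Z.length then Z[s.toNat] else Y (q + (s - Z.length)) := ⟨_, fun _ => rfl⟩
  obtain ⟨d'', hd''⟩ : ∃ d'' : ℤ → ℤ, ∀ s, d'' s = if s ≤ 0 then d (i + s) else
      if s ≤ Z.length then d i + ((Z.take s.toNat).flatMap f).length else
        d' (q + (s - Z.length)) := ⟨_, fun _ => rfl⟩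
  have Va : ∀ s, s < 0 → V s = X (i + s) := by
    intro s hs
    rw [hV, if_pos hs]
  have Vb : ∀ (n : ℕ) (hn : n < Z.length), V n = Z[n] := by
    intro n hn
    rw [hV, if_neg (by omega), dif_pos (by simpa using hn)]
    simp
  have Vc : ∀ n : ℕ, V (Z.length + n) = Y (q + n) := by
    intro n
    rw [hV, if_neg (by omega), dif_neg (by omega)]
    congr 1
    omega
  have da : ∀ s, s ≤ 0 → d'' s = d (i + s) := by
    intro s hs
    rw [hd'', if_pos hs]
  have db : ∀ n : ℕ, n ≤ Z.length → d'' n = d i + ((Z.take n).flatMap f).length := by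
    intro n hn
    rcases Nat.eq_zero_or_pos n with rfl | hn0
    · rw [hd'', if_pos (by simp)]
      simp
    · rw [hd'', if_neg (by omega), if_pos (by omega)]
      simp
  have dc : ∀ n : ℕ, d'' (Z.length + n) = d' (q + n) := by
    intro n
    rcases Nat.eq_zero_or_pos n with rfl | hn0
    · have := db Z.length le_rfl
      rw [List.take_length] at this
      simp only [Nat.cast_zero, add_zero]
      rw [this, h1]
    · rw [hd'', if_neg (by omega), if_neg (by omega)]
      congr 1
      omega
  have tri : ∀ s : ℤ, s < 0 ∨ (∃ n : ℕ, n < Z.length ∧ s = n) ∨ ∃ n : ℕ, s = Z.length + n := by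
    intro s
    rcases lt_or_ge s 0 with h | h
    · exact Or.inl h
    · rcases lt_or_ge s Z.length with h3 | h3
      · exact Or.inr (Or.inl ⟨s.toNat, by omega, by omega⟩)
      · exact Or.inr (Or.inr ⟨(s - Z.length).toNat, by omega⟩)
  have htake : ∀ (l : List B) (r : ℕ) (hr : r < l.length),
      (l.take (r + 1)).flatMap f = (l.take r).flatMap f ++ f l[r] := by
    intro l r hr
    rw [List.take_add_one, List.flatMap_append, List.getElem?_eq_getElem hr]
    simp
  refine ⟨V, d'', ⟨?_, ?_⟩, ?_, ?_⟩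
  · intro s
    rcases tri s with hs | ⟨n, hn, rfl⟩ | ⟨n, rfl⟩
    · rw [da _ hs.le, da _ (by omega), Va _ hs, ← add_assoc, hd.step]
    · have := db (n + 1) hn
      push_cast at this
      rw [this, db n hn.le, Vb n hn, htake _ _ hn, List.length_append]
      push_cast
      ring
    · have := dc (n + 1)
      push_cast at this
      rw [← add_assoc] at this
      rw [this, dc, Vc, ← add_assoc, hd'.step]
  · intro s k hk
    rcases tri s with hs | ⟨n, hn, rfl⟩ | ⟨n, rfl⟩
    · rw [Va _ hs] at hk ⊢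
      rw [da _ hs.le]
      exact hd.val _ _ hk
    · rw [Vb _ hn] at hk ⊢
      rw [db n hn.le]
      have hsplit : Z.flatMap f = (Z.take n).flatMap f ++ f Z[n] ++ (Z.drop (n + 1)).flatMap f := by
        rw [← htake _ _ hn, ← List.flatMap_append, List.take_append_drop]
      have hlt : ((Z.take n).flatMap f).length + k < (Z.flatMap f).length := by
        rw [hsplit, List.length_append, List.length_append]; omega
      have h4 := seg_getElem? W (d i) (Z.flatMap f).length (((Z.take n).flatMap f).length + k) hlt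
      rw [h2] at h4
      have h5 : (Z.flatMap f)[((Z.take n).flatMap f).length + k]? = (f Z[n])[k]? := by
        conv_lhs => rw [hsplit]
        rw [List.append_assoc, List.getElem?_append_right (by omega), Nat.add_sub_cancel_left,
          List.getElem?_append_left hk]
      rw [h5] at h4
      rw [h4]
      push_cast
      rw [add_assoc]
    · rw [Vc] at hk ⊢
      rw [dc]
      exact hd'.val _ _ hk
  · have := da 0 le_rfl
    simpa using this
  · have := dc 0
    simpa using this

end Splice

section State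

variable {A B : Type} {g : A → List B}

/-- The positions `t` and `t'` have the same state in the structure `(x, e)`. -/
def St (x : ℤ → A) (e : ℤ → ℤ) (t t' : ℤ) : Prop :=
  ∃ i i', x i = x i' ∧ e i ≤ t ∧ t < e (i + 1) ∧ t - e i = t' - e i'

lemma St_val {x : ℤ → A} {e : ℤ → ℤ} {X : ℤ → B} (hx : Des g x X e) {t t' : ℤ}
    (h : St x e t t') : X t = X t' := by
  obtain ⟨i, i', h1, h2, h3, h4⟩ := h
  rw [hx.step] at h3
  have h5 := hx.val i (t - e i).toNat (by omega)
  have h6 := hx.val i' (t - e i).toNat (by rw [← h1]; omega)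
  rw [h1, h6] at h5
  have := Option.some.inj h5
  rw [show e i + (((t - e i).toNat : ℕ) : ℤ) = t by omega,
    show e i' + (((t - e i).toNat : ℕ) : ℤ) = t' by omega] at this
  exact this.symm

lemma St_right (hg : ∀ b, g b ≠ []) (hh : ∀ b b', (g b).head? = (g b').head? → b = b')
    {x y : ℤ → A} {e e' : ℤ → ℤ} {X : ℤ → B} (hx : Des g x X e) (hy : Des g y X e')
    (hdis : ∀ i j, e i ≠ e' j) {t t' : ℤ} (h : St x e t t') (h' : St y e' t t') :
    St x e (t + 1) (t' + 1) := by
  obtain ⟨i, i', h1, h2, h3, h4⟩ := h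
  rcases lt_or_ge (t + 1) (e (i + 1)) with h5 | h5
  · exact ⟨i, i', h1, by omega, h5, by omega⟩
  · have h6 : t + 1 = e (i + 1) := by omega
    have h7 : t' + 1 = e (i' + 1) := by
      rw [hx.step] at h6 ⊢
      rw [← h1]
      omega
    have hX : X (t + 1) = X (t' + 1) := by
      obtain ⟨j, j', k1, k2, k3, k4⟩ := h'
      have : t + 1 ≠ e' (j + 1) := by rw [h6]; exact hdis _ _
      exact St_val hy ⟨j, j', k1, by omega, by omega, by omega⟩
    have hhead : ∀ i, (g (x i)).head? = some (X (e i)) := by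
      intro i
      have := hx.val i 0 (List.length_pos_iff.mpr (hg _))
      rw [List.head?_eq_getElem?, this]
      simp
    refine ⟨i + 1, i' + 1, ?_, h6.ge, ?_, by omega⟩
    · apply hh
      rw [hhead, hhead, ← h6, ← h7, hX]
    · rw [h6]
      exact des_mono hg hx (by omega)

lemma St_left (hg : ∀ b, g b ≠ []) (hh : ∀ b b', (g b).getLast? = (g b').getLast? → b = b')
    {x y : ℤ → A} {e e' : ℤ → ℤ} {X : ℤ → B} (hx : Des g x X e) (hy : Des g y X e')
    (hdis : ∀ i j, e i ≠ e' j) {t t' : ℤ} (h : St x e t t') (h' : St y e' t t') :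
    St x e (t - 1) (t' - 1) := by
  obtain ⟨i, i', h1, h2, h3, h4⟩ := h
  rcases lt_or_ge (e i) t with h5 | h5
  · exact ⟨i, i', h1, by omega, by omega, by omega⟩
  · have h6 : t = e i := by omega
    have h7 : t' = e i' := by omega
    have hX : X (t - 1) = X (t' - 1) := by
      obtain ⟨j, j', k1, k2, k3, k4⟩ := h'
      have : t ≠ e' j := by rw [h6]; exact hdis _ _
      exact St_val hy ⟨j, j', k1, by omega, by omega, by omega⟩
    have hlast : ∀ i, (g (x (i - 1))).getLast? = some (X (e i - 1)) := by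
      intro i
      have hpos := List.length_pos_iff.mpr (hg (x (i - 1)))
      have := hx.val (i - 1) ((g (x (i - 1))).length - 1) (by omega)
      rw [List.getLast?_eq_getElem?, this]
      congr 2
      have h8 := hx.step (i - 1)
      rw [sub_add_cancel] at h8
      omega
    have hsx : ∀ i, e i = e (i - 1) + (g (x (i - 1))).length := by
      intro i
      have := hx.step (i - 1)
      rwa [sub_add_cancel] at this
    have hxx : x (i - 1) = x (i' - 1) := by
      apply hh
      rw [hlast, hlast, ← h6, ← h7, hX]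
    have k1 := hsx i
    have k2 := hsx i'
    have hpos := List.length_pos_iff.mpr (hg (x (i - 1)))
    refine ⟨i - 1, i' - 1, hxx, by omega, ?_, ?_⟩
    · rw [sub_add_cancel]; omega
    · rw [← hxx] at k2
      omega

lemma St_all (hg : ∀ b, g b ≠ []) (hh : ∀ b b', (g b).head? = (g b').head? → b = b')
    (hl : ∀ b b', (g b).getLast? = (g b').getLast? → b = b')
    {x y : ℤ → A} {e e' : ℤ → ℤ} {X : ℤ → B} (hx : Des g x X e) (hy : Des g y X e')
    (hdis : ∀ i j, e i ≠ e' j) {t t' : ℤ} (h : St x e t t') (h' : St y e' t t') :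
    ∀ r : ℤ, St x e (t + r) (t' + r) ∧ St y e' (t + r) (t' + r) := by
  have hdis' : ∀ i j, e' i ≠ e j := fun i j h => hdis j i h.symm
  intro r
  induction r using Int.induction_on with
  | zero => simpa using ⟨h, h'⟩
  | succ n ih =>
    rw [← add_assoc, ← add_assoc]
    exact ⟨St_right hg hh hx hy hdis ih.1 ih.2, St_right hg hh hy hx hdis' ih.2 ih.1⟩
  | pred n ih =>
    rw [← add_sub_assoc, ← add_sub_assoc]
    exact ⟨St_left hg hl hx hy hdis ih.1 ih.2, St_left hg hl hy hx hdis' ih.2 ih.1⟩

lemma period_x (hg : ∀ b, g b ≠ []) (hh : ∀ b b', (g b).head? = (g b').head? → b = b')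
    (hl : ∀ b b', (g b).getLast? = (g b').getLast? → b = b')
    {x y : ℤ → A} {e e' : ℤ → ℤ} {X : ℤ → B} (hx : Des g x X e) (hy : Des g y X e')
    (hdis : ∀ i j, e i ≠ e' j) {t t' : ℤ} (htt : t < t') (h : St x e t t') (h' : St y e' t t') :
    ∃ m : ℕ, 0 < m ∧ (m : ℤ) ≤ t' - t ∧ ∀ i : ℤ, x (i + m) = x i := by
  have hm := des_mono hg hx
  have key : ∀ i, ∃ i2, x i2 = x i ∧ e i2 = e i + (t' - t) := by
    intro i
    obtain ⟨⟨i1, i2, h1, h2, h3, h4⟩, -⟩ := St_all hg hh hl hx hy hdis h h' (e i - t)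
    have h5 : i1 = i := by
      apply block_unique hm (s := e i)
      · omega
      · omega
      · exact le_rfl
      · exact hm (by omega)
    subst h5
    exact ⟨i2, h1.symm, by omega⟩
  choose φ h1 h2 using key
  have h3 : ∀ i, φ (i + 1) = φ i + 1 := by
    intro i
    apply hm.injective
    rw [h2, hx.step, hx.step, h1, h2]
    ring
  have h4 : ∀ i, φ i = i + φ 0 := by
    intro i
    induction i using Int.induction_on with
    | zero => simp
    | succ n ih => rw [h3, ih]; ring
    | pred n ih =>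
      have := h3 (-(n : ℤ) - 1)
      rw [sub_add_cancel] at this
      omega
  have h5 : 0 < φ 0 := by
    apply hm.lt_iff_lt.mp
    rw [h2]
    omega
  have h6 := mono_add hm 0 (φ 0).toNat
  rw [Int.toNat_of_nonneg h5.le, zero_add, h2] at h6
  refine ⟨(φ 0).toNat, by omega, by omega, fun i => ?_⟩
  rw [Int.toNat_of_nonneg h5.le, ← h4, h1]

end State

section Final

variable {B C : Type} {H : B → List C}

lemma period_W (hne : ∀ b, H b ≠ []) {M : ℕ} (hM : ∀ b, (H b).length ≤ M) {x : ℤ → B}
    {W : ℤ → C} {c : ℤ → ℤ} (h : Des H x W c) {m : ℕ} (hm0 : 0 < m)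
    (hm : ∀ i : ℤ, x (i + m) = x i) :
    ∃ p : ℕ, 0 < p ∧ p ≤ m * M ∧ ∀ t, W (t + p) = W t := by
  have hmono := des_mono hne h
  have h1 : ∀ i : ℤ, c (i + m) = c i + (c m - c 0) := by
    intro i
    induction i using Int.induction_on with
    | zero => simp
    | succ n ih =>
      rw [add_right_comm, h.step, h.step, hm, ih]
      ring
    | pred n ih =>
      have k1 := h.step (-(n : ℤ) - 1 + m)
      have k2 := h.step (-(n : ℤ) - 1)
      rw [hm] at k1
      rw [sub_add_cancel] at k2
      rw [show (-(n : ℤ) - 1 + m + 1) = -(n : ℤ) + m by ring] at k1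
      omega
  have h2 : c 0 < c m := hmono (by omega)
  have h3 : ∀ n : ℕ, c n ≤ c 0 + n * M := by
    intro n
    induction n with
    | zero => simp
    | succ n ih =>
      push_cast
      rw [h.step]
      have : ((H (x n)).length : ℤ) ≤ M := by exact_mod_cast hM _
      linarith
  refine ⟨(c m - c 0).toNat, by omega, ?_, ?_⟩
  · have := h3 m
    zify
    rw [Int.toNat_of_nonneg (by omega)]
    linarith
  · intro t
    rw [Int.toNat_of_nonneg (by omega)]
    obtain ⟨i, hi1, hi2⟩ := exists_block hmono t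
    rw [h.step] at hi2
    have k1 := h.val i (t - c i).toNat (by omega)
    have k2 := h.val (i + m) (t - c i).toNat (by rw [hm]; omega)
    rw [hm, k1] at k2
    have k3 := Option.some.inj k2
    rw [h1, show c i + (((t - c i).toNat : ℕ) : ℤ) = t by omega,
      show c i + (c m - c 0) + (((t - c i).toNat : ℕ) : ℤ) = t + (c m - c 0) by omega] at k3
    exact k3.symm

lemma length_le_flatMap {A : Type} {f : A → List C} (hf : ∀ b, f b ≠ []) (l : List A) :
    l.length ≤ (l.flatMap f).length := by
  induction l with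
  | nil => simp
  | cons a l ih =>
    have := List.length_pos_iff.mpr (hf a)
    simp only [List.flatMap_cons, List.length_append, List.length_cons]
    omega

/-- The overhangs: two equal ones. -/
lemma exists_overhang [Finite C] (hne : ∀ b, H b ≠ []) {M : ℕ} (hM : ∀ b, (H b).length ≤ M)
    {x y : ℤ → B} {W : ℤ → C} {c c' : ℤ → ℤ} (h : Des H x W c) (h' : Des H y W c') :
    ∃ (i : ℤ) (n : ℕ) (q : ℤ) (k : ℕ) (z : List C), 0 < n ∧ 0 < k ∧ z ≠ [] ∧
      c' q = c i + z.length ∧ seg W (c i) z.length = z ∧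
      c' (q + k) = c (i + n) + z.length ∧ seg W (c (i + n)) z.length = z := by
  have hm := des_mono hne h
  have hm' := des_mono hne h'
  choose bl h1 h2 using fun i => exists_block hm' (c i)
  obtain ⟨z, hz⟩ : ∃ z : ℤ → List C, ∀ i, z i = seg W (c i) (c' (bl i + 1) - c i).toNat :=
    ⟨_, fun _ => rfl⟩
  have hlen : ∀ i, ((z i).length : ℤ) = c' (bl i + 1) - c i := by
    intro i
    rw [hz, seg_length]
    have := h2 i
    omega
  have hfin : Set.Finite {l : List C | l.length ≤ M} := List.finite_length_le C M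
  have hmap : ∀ i, z i ∈ {l : List C | l.length ≤ M} := by
    intro i
    have k1 := hlen i
    have k2 := h1 i
    have k3 := h'.step (bl i)
    have k4 := hM (y (bl i))
    show (z i).length ≤ M
    omega
  obtain ⟨i1, -, i2, -, hi12, heq⟩ : ∃ i1 ∈ (Set.univ : Set ℤ), ∃ i2 ∈ (Set.univ : Set ℤ),
      i1 ≠ i2 ∧ z i1 = z i2 :=
    Set.Infinite.exists_ne_map_eq_of_mapsTo Set.infinite_univ (fun i _ => hmap i) hfin
  obtain ⟨i, i', hlt, heq⟩ : ∃ i i', i < i' ∧ z i = z i' := by
    rcases lt_or_gt_of_ne hi12 with h3 | h3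
    · exact ⟨i1, i2, h3, heq⟩
    · exact ⟨i2, i1, h3, heq.symm⟩
  have hbl : bl i < bl i' := by
    by_contra hcon
    push Not at hcon
    have k1 : c i < c i' := hm hlt
    have k2 : c' (bl i' + 1) ≤ c' (bl i + 1) := hm'.monotone (by omega)
    have k3 := hlen i
    have k4 := hlen i'
    rw [heq] at k3
    omega
  have hzne : z i ≠ [] := by
    intro h0
    have k1 := hlen i
    have k2 := h2 i
    rw [h0] at k1
    simp at k1
    omega
  refine ⟨i, (i' - i).toNat, bl i + 1, (bl i' - bl i).toNat, z i, by omega, by omega, hzne, ?_, ?_,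
    ?_, ?_⟩
  · rw [hlen]; ring
  · conv_lhs => rw [show (z i).length = (c' (bl i + 1) - c i).toNat by have := hlen i; omega]
    rw [← hz]
  · rw [show bl i + 1 + (((bl i' - bl i).toNat : ℕ) : ℤ) = bl i' + 1 by omega,
      show i + (((i' - i).toNat : ℕ) : ℤ) = i' by omega, heq, hlen]
    ring
  · rw [show i + (((i' - i).toNat : ℕ) : ℤ) = i' by omega, heq]
    conv_lhs => rw [show (z i').length = (c' (bl i' + 1) - c i').toNat by have := hlen i'; omega]
    rw [← hz]

end Final

end Pool.Agent.T2h96.FC.Rec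

namespace Pool.Agent.T2h96.FC

open Rec in
/-- Recognizability of elementary morphisms: two different structures of the same bi-infinite word
force bounded periods. -/
theorem t_REC : S_HULL → S_DEL → S_REC := by
  classical
  intro hHull hDel B C _ _ H hE
  obtain ⟨hne, D, hD⟩ := hDel B C H hE
  have hDelay : Delay H := ⟨D, hD⟩
  obtain ⟨M, hM⟩ : ∃ M : ℕ, ∀ b, (H b).length ≤ M :=
    ⟨∑ b, (H b).length, fun b => Finset.single_le_sum (f := fun b => (H b).length)
      (fun _ _ => Nat.zero_le _) (Finset.mem_univ b)⟩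
  obtain ⟨N, hN⟩ : ∃ N : ℕ, N = Fintype.card ((B × Fin (M + 1)) × (B × Fin (M + 1))) := ⟨_, rfl⟩
  refine ⟨N * (M + 1) + 1, by omega, ?_⟩
  intro x y W c c' hx hy ⟨i0, hi0⟩
  have hdis : ∀ i j, c i ≠ c' j := by
    intro i j hij
    obtain ⟨h1, -⟩ := sync hDelay hx hy hij (i0 - i)
    rw [show i + (i0 - i) = i0 by ring] at h1
    exact hi0 _ h1
  obtain ⟨i, n, q, k, z, hn, hk, hz, e1, e2, e3, e4⟩ := exists_overhang hne hM hx hy
  have hrel : (seg x i n).flatMap H ++ z = z ++ (seg y q k).flatMap H := by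
    obtain ⟨a1, a2⟩ := flatMap_seg hx i n
    obtain ⟨b1, b2⟩ := flatMap_seg hy q k
    calc (seg x i n).flatMap H ++ z
        = seg W (c i) (((seg x i n).flatMap H).length + z.length) := by
          rw [seg_add, a2, ← a1, e4]
      _ = seg W (c i) (z.length + ((seg y q k).flatMap H).length) := by congr 1; omega
      _ = z ++ (seg y q k).flatMap H := by rw [seg_add, e2, ← e1, b2]
  have hsne : ∀ {T : Type} (V : ℤ → T) (a : ℤ) (m : ℕ), 0 < m → seg V a m ≠ [] := by
    intro T V a m hm h0
    have := seg_length V a m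
    rw [h0] at this
    simp at this
    omega
  obtain ⟨g, f, Z, hH, hZ, hg, hf, hh, hl⟩ := hHull B C H hE z (seg x i n) (seg y q k) hz
    (hsne _ _ _ hn) (hsne _ _ _ hk) hrel
  obtain ⟨hfne, Df, hDf⟩ := hDel B C f hf
  have hfD : Delay f := ⟨Df, hDf⟩
  obtain ⟨X, e, hX⟩ := exists_image g hg x
  obtain ⟨Y, e', hY⟩ := exists_image g hg y
  obtain ⟨d, hd, hde⟩ := refine_des hg hH hx hX
  obtain ⟨d', hd', hde'⟩ := refine_des hg hH hy hY
  obtain ⟨V, d'', hV, k1, k2⟩ := splice hd hd' (i := e i) (q := e' q) Z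
    (by rw [hde, hde', hZ, e1]) (by rw [hde, hZ, e2])
  obtain ⟨k3, -⟩ := sync hfD hV hd (i := 0) (j := e i) k1 Z.length
  rw [zero_add, k2] at k3
  have hs := sync hfD hd hd' k3.symm
  obtain ⟨s, hs0⟩ : ∃ s, s = e' q - (e i + Z.length) := ⟨_, rfl⟩
  have hs1 : ∀ t, X t = Y (t + s) := by
    intro t
    have := (hs (t - (e i + Z.length))).2
    rw [show e i + (Z.length : ℤ) + (t - (e i + Z.length)) = t by ring] at this
    rw [this, hs0]
    congr 1
    ring
  have hs2 : ∀ t, d t = d' (t + s) := by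
    intro t
    have := (hs (t - (e i + Z.length))).1
    rw [show e i + (Z.length : ℤ) + (t - (e i + Z.length)) = t by ring] at this
    rw [this, hs0]
    congr 1
    ring
  have hY' : Des g y X (fun j => e' j - s) := by
    refine ⟨fun j => ?_, fun j r hr => ?_⟩
    · simp only [hY.step]
      ring
    · rw [hY.val j r hr, hs1]
      congr 2
      ring
  have hdis' : ∀ i j, e i ≠ (fun j => e' j - s) j := by
    intro i j hij
    simp only at hij
    have k4 := hs2 (e i)
    rw [hde, hij, sub_add_cancel, hde'] at k4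
    exact hdis _ _ k4
  -- the states
  have hgM : ∀ b, (g b).length ≤ M := by
    intro b
    have := length_le_flatMap hfne (g b)
    rw [← hH] at this
    exact this.trans (hM b)
  choose bx bx1 bx2 using exists_block (des_mono hg hX)
  choose bY by1 by2 using exists_block (des_mono hg hY')
  have hbx : ∀ t, (t - e (bx t)).toNat < M + 1 := by
    intro t
    have := bx2 t
    rw [hX.step] at this
    have := hgM (x (bx t))
    have := bx1 t
    omega
  have hby : ∀ t, (t - (e' (bY t) - s)).toNat < M + 1 := by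
    intro t
    have := by2 t
    rw [hY'.step] at this
    have := hgM (y (bY t))
    have := by1 t
    simp only at *
    omega
  obtain ⟨t1, t2, hne12, heq⟩ := Fintype.exists_ne_map_eq_of_card_lt
    (fun t : Fin (N + 1) => (((x (bx t.val), (⟨_, hbx t.val⟩ : Fin (M + 1))),
      (y (bY t.val), (⟨_, hby t.val⟩ : Fin (M + 1)))) :
        (B × Fin (M + 1)) × (B × Fin (M + 1)))) (by rw [Fintype.card_fin, ← hN]; omega)
  simp only [Prod.mk.injEq, Fin.mk.injEq] at heq
  obtain ⟨⟨u1, u2⟩, u3, u4⟩ := heq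
  have hSt : ∃ t t' : ℤ, t < t' ∧ t' - t ≤ N ∧ St x e t t' ∧ St y (fun j => e' j - s) t t' := by
    have v1 := bx1 t1.val
    have v2 := bx1 t2.val
    have w1 := by1 t1.val
    have w2 := by1 t2.val
    have hlt1 := t1.isLt
    have hlt2 := t2.isLt
    have hvne : t1.val ≠ t2.val := fun h => hne12 (Fin.ext h)
    rcases lt_or_gt_of_ne hvne with hlt | hlt
    · refine ⟨t1.val, t2.val, by omega, by omega, ⟨bx t1.val, bx t2.val, u1, v1, bx2 _, by omega⟩,
        ⟨bY t1.val, bY t2.val, u3, by1 _, by2 _, ?_⟩⟩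
      simp only
      omega
    · refine ⟨t2.val, t1.val, by omega, by omega, ⟨bx t2.val, bx t1.val, u1.symm, v2, bx2 _,
        by omega⟩, ⟨bY t2.val, bY t1.val, u3.symm, by1 _, by2 _, ?_⟩⟩
      simp only
      omega
  obtain ⟨t, t', htt, hle, hSx, hSy⟩ := hSt
  obtain ⟨m, hm0, hm1, hm2⟩ := period_x hg hh hl hX hY' hdis' htt hSx hSy
  have hmN : m ≤ N := by omega
  obtain ⟨p, hp0, hp1, hp2⟩ := period_W hne hM hx hm0 hm2
  refine ⟨hdis, ⟨p, hp0, ?_, hp2⟩, ⟨m, hm0, ?_, hm2⟩⟩
  · calc p ≤ m * M := hp1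
      _ ≤ N * (M + 1) := Nat.mul_le_mul hmN (by omega)
      _ ≤ N * (M + 1) + 1 := by omega
  · calc m ≤ N := hmN
      _ ≤ N * (M + 1) := Nat.le_mul_of_pos_right _ (by omega)
      _ ≤ N * (M + 1) + 1 := by omega

end Pool.Agent.T2h96.FC

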