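import Pool.Agent.T2h96.FC.Stm

/-!
Task RONE of project FC (helper96).
-/

set_option autoImplicit false

open Filter

namespace Pool.Agent.T2h96.FC

namespace RoneAux

/-- the limit of a sequence with values in a finite type -/
theorem lim_fin {T : Type} [Finite T] (f : ℕ → T) : ∃ x, ∀ᶠ n in (hyperfilter ℕ : Filter ℕ), f n = x := by
  have h := (Ultrafilter.eventually_exists_mem_iff (f := hyperfilter ℕ) (Set.finite_univ (α := T))
    (P := fun x n => f n = x)).mp (Eventually.of_forall fun n => ⟨f n, Set.mem_univ _, rfl⟩)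
  obtain ⟨x, -, hx⟩ := h
  exact ⟨x, hx⟩

/-- the limit of a bounded sequence of integers -/
theorem lim_bdd (f : ℕ → ℤ) (M : ℤ) (h : ∀ n, |f n| ≤ M) :
    ∃ x, ∀ᶠ n in (hyperfilter ℕ : Filter ℕ), f n = x := by
  have h := (Ultrafilter.eventually_exists_mem_iff (f := hyperfilter ℕ) (Set.finite_Icc (-M) M)
    (P := fun x n => f n = x)).mp (Eventually.of_forall fun n => ⟨f n, abs_le.mp (h n), rfl⟩)
  obtain ⟨x, -, hx⟩ := h
  exact ⟨x, hx⟩

/-- integer steps -/
theorem step_le {c : ℤ → ℤ} {Lm : ℤ} (hL : ∀ j, c (j + 1) - c j ≤ Lm) (j : ℤ) (r : ℕ) :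
    c (j + r) - c j ≤ Lm * r := by
  induction r with
  | zero => simp
  | succ r ih =>
    have h1 := hL (j + r)
    have e : j + ((r + 1 : ℕ) : ℤ) = j + r + 1 := by push_cast; ring
    rw [e]
    push_cast
    linarith

theorem step_ge {c : ℤ → ℤ} (hL : ∀ j, 1 ≤ c (j + 1) - c j) (j : ℤ) (r : ℕ) :
    r ≤ c (j + r) - c j := by
  induction r with
  | zero => simp
  | succ r ih =>
    have h1 := hL (j + r)
    have e : j + ((r + 1 : ℕ) : ℤ) = j + r + 1 := by push_cast; ring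
    rw [e]
    push_cast
    linarith

theorem step_abs {c : ℤ → ℤ} {Lm : ℤ} (h1 : ∀ j, 1 ≤ c (j + 1) - c j)
    (hL : ∀ j, c (j + 1) - c j ≤ Lm) (j r : ℤ) : |c (j + r) - c j| ≤ Lm * |r| := by
  rcases le_total 0 r with hr | hr
  · lift r to ℕ using hr
    have h2 := step_le hL j r
    have h3 := step_ge h1 j r
    rw [abs_le, Nat.abs_cast]
    constructor
    · have : (0 : ℤ) ≤ r := Int.natCast_nonneg r
      linarith
    · exact h2
  · obtain ⟨s, rfl⟩ : ∃ s : ℕ, r = -(s : ℤ) := ⟨(-r).toNat, by omega⟩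
    have h2 := step_le hL (j + -(s : ℤ)) s
    have h3 := step_ge h1 (j + -(s : ℤ)) s
    have e : j + -(s : ℤ) + s = j := by ring
    rw [e] at h2 h3
    rw [abs_neg, Nat.abs_cast, abs_le]
    have : (0 : ℤ) ≤ s := Int.natCast_nonneg s
    constructor <;> linarith

/-- the block containing a position -/
theorem block_ex {c : ℤ → ℤ} (h1 : ∀ j, 1 ≤ c (j + 1) - c j) (i : ℤ) :
    ∃ j, c j ≤ i ∧ i < c (j + 1) := by
  -- the largest `j` with `c j ≤ i`
  have hbdd : ∀ j, c j ≤ i → j ≤ |i - c 0| := by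
    intro j hj
    by_contra hlt
    have hlt' := not_le.mp hlt
    have hj0 : 0 ≤ j := (abs_nonneg _).trans hlt'.le
    have h2 := step_ge h1 0 j.toNat
    rw [zero_add, Int.toNat_of_nonneg hj0] at h2
    have h3 := le_abs_self (i - c 0)
    linarith
  have hne : ∃ j, c j ≤ i := by
    refine ⟨-((c 0 - i).toNat : ℤ), ?_⟩
    have h2 := step_ge h1 (-((c 0 - i).toNat : ℤ)) (c 0 - i).toNat
    rw [neg_add_cancel] at h2
    have h3 := Int.self_le_toNat (c 0 - i)
    linarith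
  obtain ⟨j, hj, hmax⟩ := Int.exists_greatest_of_bdd ⟨_, hbdd⟩ hne
  refine ⟨j, hj, ?_⟩
  by_contra h
  have := hmax (j + 1) (not_lt.mp h)
  omega

end RoneAux

open RoneAux in
theorem t_RONE (hREC : S_REC) (hDEL : S_DEL) : S_RONE := by
  intro B C _ _ H hH
  obtain ⟨P, hP, hrec⟩ := hREC B C H hH
  obtain ⟨hne, -⟩ := hDEL B C H hH
  refine ⟨P, hP, fun V U c hdes M => ?_⟩
  -- bounds for the steps
  obtain ⟨Lm, hLm⟩ : ∃ Lm : ℕ, ∀ b, (H b).length ≤ Lm :=
    ⟨∑ b, (H b).length, fun b => Finset.single_le_sum (f := fun b => (H b).length)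
      (fun _ _ => Nat.zero_le _) (Finset.mem_univ b)⟩
  have hs1 : ∀ j, 1 ≤ c (j + 1) - c j := by
    intro j
    rw [hdes.step j]
    have := List.length_pos_iff.mpr (hne (V j))
    omega
  have hs2 : ∀ j, c (j + 1) - c j ≤ (Lm : ℤ) := by
    intro j
    rw [hdes.step j]
    have := hLm (V j)
    omega
  by_contra hcon
  push Not at hcon
  choose i i' hi hi' heq hper using hcon
  choose j hj using hi
  have hblk : ∀ n, ∃ j', c j' ≤ i' n ∧ i' n < c (j' + 1) := fun n => block_ex hs1 (i' n)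
  choose j' hj1 hj2 using hblk
  -- limits
  have hx : ∀ r : ℤ, ∃ x, ∀ᶠ n in (hyperfilter ℕ : Filter ℕ), V (j n + r) = x := fun r => lim_fin _
  choose x hx using hx
  have hy : ∀ r : ℤ, ∃ x, ∀ᶠ n in (hyperfilter ℕ : Filter ℕ), V (j' n + r) = x := fun r => lim_fin _
  choose y hy using hy
  have hW : ∀ t : ℤ, ∃ x, ∀ᶠ n in (hyperfilter ℕ : Filter ℕ), U (i n + t) = x := fun r => lim_fin _
  choose W hW using hW
  have hW' : ∀ t : ℤ, ∀ᶠ n in (hyperfilter ℕ : Filter ℕ), U (i' n + t) = W t := by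
    intro t
    have h1 : ∀ᶠ n : ℕ in atTop, |t| ≤ (n : ℤ) := by
      filter_upwards [eventually_ge_atTop t.natAbs] with n hn
      rw [Int.abs_eq_natAbs]
      exact_mod_cast hn
    filter_upwards [hW t, h1.filter_mono Nat.hyperfilter_le_atTop] with n h2 h3
    rw [← heq n t h3, h2]
  have hC : ∀ r : ℤ, ∃ x, ∀ᶠ n in (hyperfilter ℕ : Filter ℕ), c (j n + r) - i n = x := by
    intro r
    refine lim_bdd _ (Lm * |r|) fun n => ?_
    rw [← hj n]
    exact step_abs hs1 hs2 (j n) r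
  choose C₁ hC₁ using hC
  have hC' : ∀ r : ℤ, ∃ x, ∀ᶠ n in (hyperfilter ℕ : Filter ℕ), c (j' n + r) - i' n = x := by
    intro r
    refine lim_bdd _ (Lm * |r| + Lm) fun n => ?_
    have h1 := step_abs hs1 hs2 (j' n) r
    have h2 : |c (j' n) - i' n| ≤ Lm := by
      have h3 := hs2 (j' n)
      have h4 := hj1 n
      have h5 := hj2 n
      rw [abs_le]
      constructor <;> linarith
    have e : c (j' n + r) - i' n = (c (j' n + r) - c (j' n)) + (c (j' n) - i' n) := by ring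
    rw [e]
    exact (abs_add_le _ _).trans (add_le_add h1 h2)
  choose C₂ hC₂ using hC'
  -- the structures
  have des : ∀ (q k : ℕ → ℤ) (z : ℤ → B) (D : ℤ → ℤ),
      (∀ r, ∀ᶠ n in (hyperfilter ℕ : Filter ℕ), V (q n + r) = z r) →
      (∀ t, ∀ᶠ n in (hyperfilter ℕ : Filter ℕ), U (k n + t) = W t) →
      (∀ r, ∀ᶠ n in (hyperfilter ℕ : Filter ℕ), c (q n + r) - k n = D r) → Des H z W D := by
    intro q k z D h1 h2 h3
    constructor
    · intro r
      obtain ⟨n, ⟨hn1, hn2⟩, hn3⟩ := (((h1 r).and (h3 r)).and (h3 (r + 1))).exists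
      rw [← hn1, ← hn2, ← hn3]
      have := hdes.step (q n + r)
      rw [← add_assoc, this]
      ring
    · intro r s hs
      obtain ⟨n, ⟨hn1, hn2⟩, hn3⟩ := (((h1 r).and (h3 r)).and (h2 (D r + s))).exists
      rw [← hn1] at hs ⊢
      rw [← hn3, hdes.val (q n + r) s hs, ← hn2]
      congr 2
      ring
  have d1 := des j i x C₁ hx hW hC₁
  have d2 := des j' i' y C₂ hy hW' hC₂
  have hcut : ∃ i, ∀ j, C₁ i ≠ C₂ j := by
    refine ⟨0, fun r h0 => ?_⟩
    obtain ⟨n, hn1, hn2⟩ := ((hC₁ 0).and (hC₂ r)).exists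
    rw [← hn1, ← hn2, add_zero, hj n, sub_self] at h0
    exact hi' n ⟨j' n + r, by linarith⟩
  obtain ⟨-, ⟨p, hp0, hpP, hp⟩, -⟩ := hrec x y W C₁ C₂ d1 d2 hcut
  have hall : ∀ᶠ n in (hyperfilter ℕ : Filter ℕ), ∀ t ∈ Finset.Icc (-(M : ℤ)) M, U (i n + t) = W t := by
    rw [Finset.eventually_all]
    exact fun t _ => hW t
  obtain ⟨n, hn⟩ := hall.exists
  obtain ⟨t, ht1, ht2, ht3⟩ := hper n p hp0 hpP
  refine ht3 ?_
  have h1 := hn t (Finset.mem_Icc.mpr ⟨ht1, by omega⟩)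
  have h2 := hn (t + p) (Finset.mem_Icc.mpr ⟨by omega, ht2⟩)
  rw [h1, add_assoc, h2, hp t]

end Pool.Agent.T2h96.FC
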