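import Pool.Agent.T2h96.FC.T_MLP

set_option autoImplicit false

namespace Pool.Agent.T2h96.FC

lemma Sat_fin {B : Type} [Finite B] (V : ℤ → B) (D : ℕ) (n : ℤ) : {F : Set ℤ | Sat V D F n}.Finite := by
  have hfin : ((fun F : Set ℤ => (fun j => wi V (n + 2 * D).toNat (j - D)) '' F) ''
      {F : Set ℤ | Sat V D F n}).Finite := Set.toFinite _
  refine hfin.of_finite_image ?_
  have key : ∀ F G : Set ℤ, Sat V D G n → (fun j => wi V (n + 2 * D).toNat (j - D)) '' F =
      (fun j => wi V (n + 2 * D).toNat (j - D)) '' G → F ⊆ G := by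
    intro F G hG h j hj
    have h1 : wi V (n + 2 * D).toNat (j - D) ∈ (fun j => wi V (n + 2 * D).toNat (j - D)) '' G := by
      rw [← h]; exact ⟨j, hj, rfl⟩
    obtain ⟨g, hg, h2⟩ := h1
    simp only at h2
    rw [wi_eq] at h2
    refine hG g hg j fun t h3 h4 => ?_
    have := h2 (t + D) (by linarith) (by omega)
    rw [show g - D + (t + D) = g + t by ring, show j - D + (t + D) = j + t by ring] at this
    exact this.symm
  intro F hF G hG h
  exact Set.Subset.antisymm (key F G hG h) (key G F hF h.symm)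

theorem t_SAT : S_SAT := by
  intro B C _ V U c d m D hV hg hU
  refine ⟨?_, ?_⟩
  · intro k F n F' n' L R hl hC j hj j' hag
    have a := hl.isR hV hU
    have b := hl.isL hV hU
    have k1 := K_lem hV hg hU hl.fV.ncR a (j := j + n) ⟨j, hj, rfl⟩
    have k2 := K_lem hV.refl (gap_refl hg) hU.refl hl.fV.ncL b (j := -j) ⟨j, hj, rfl⟩
    rw [show -j + (D : ℤ) = -(j - D) by ring, rcd_it, rcd_it] at k2
    have hD0 : (0 : ℤ) ≤ D := by positivity
    have hn0 := hl.fV.n0
    have e1 := Eimg hV hU k (i := j' - D) (j := j - D) (n := n + 2 * D) (by linarith) fun t h0 h1 => by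
      have := hag (t - D) (by linarith) (by linarith)
      rwa [show j' + (t - D) = j' - D + t by ring, show j + (t - D) = j - D + t by ring] at this
    have e2 := Eimg hV hU k (i := j' - D) (j := j - D) (n := D) (by linarith) fun t h0 h1 => by
      have := hag (t - D) (by linarith) (by linarith)
      rwa [show j' + (t - D) = j' - D + t by ring, show j + (t - D) = j - D + t by ring] at this
    obtain ⟨e1, e3⟩ := e1
    obtain ⟨e2, -⟩ := e2
    rw [show j' - D + (n + 2 * D) = j' + n + D by ring, show j - D + (n + 2 * D) = j + n + D by ring] at e1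
    rw [show j' - D + (n + 2 * D) = j' + n + D by ring] at e3
    rw [show j' - D + (D : ℤ) = j' by ring, show j - D + (D : ℤ) = j by ring] at e2
    have e4 := hl.len j hj
    have hi : d (c^[k] j) - L ∈ F' := by rw [hl.im]; exact ⟨j, hj, rfl⟩
    have h1 := hC _ hi (d (c^[k] j') - L) fun s h0 h1 => by
      have := e3 (d (c^[k] j) - d (c^[k] (j - D)) - L + s) (by linarith) (by linarith)
      rw [show d (c^[k] (j' - D)) + (d (c^[k] j) - d (c^[k] (j - D)) - L + s) =
        d (c^[k] j') - L + s by linarith, show d (c^[k] (j - D)) + (d (c^[k] j) -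
        d (c^[k] (j - D)) - L + s) = d (c^[k] j) - L + s by linarith] at this
      exact this
    rw [hl.im] at h1
    obtain ⟨j3, hj3, h2⟩ := h1
    have h3 : j3 = j' := e_inj hV hU k (by simp only at h2; linarith)
    rwa [← h3]
  · intro N
    refine Set.Finite.subset (Set.Finite.biUnion (Set.finite_Icc (0 : ℤ) N)
      (t := fun n => (fun F : Set ℤ => (F, n)) '' {F : Set ℤ | Sat V D F n})
      fun n _ => (Sat_fin V D n).image _) ?_
    rintro ⟨F, n⟩ ⟨h0, h1, h2⟩
    simp only at h0 h1 h2
    simp only [Set.mem_iUnion]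
    exact ⟨n, ⟨h0, h1⟩, F, h2, rfl⟩

end Pool.Agent.T2h96.FC
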