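import Pool.Agent.T2h96.FC.Stm3

/-!
# TASK SUR: every long non-periodic family of `U` is a descendant of a seed
-/

set_option autoImplicit false

namespace Pool.Agent.T2h96.FC.SURm

open Pool.Agent.T2h96.FC

variable {B C : Type} {V : ℤ → B} {T : ℤ → C} {c : ℤ → ℤ} {m D : ℕ}

lemma Fm.ne {T : ℤ → C} {F : Set ℤ} {n : ℤ} (h : Fm T F n) : ∃ j, j ∈ F := by
  obtain ⟨i, hi, -⟩ := h.lft
  exact ⟨i, hi⟩

lemma Ch.L_le (h : Stp V T c m D) {F : Set ℤ} {n : ℤ} {F' : Set ℤ} {n' L R : ℤ}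
    (hC : Ch V T c D F n F' n' L R) : L ≤ n' := by
  obtain ⟨j, hj⟩ := Fm.ne hC.fV
  have h1 := hC.len j hj
  have h2 := h.mono (show j ≤ j + n by linarith [hC.fV.n0])
  linarith [hC.R0]

lemma Ch.ub (h : Stp V T c m D) {F : Set ℤ} {n : ℤ} {F' : Set ℤ} {n' L R : ℤ}
    (hC : Ch V T c D F n F' n' L R) : n' ≤ m * n + 2 * D := by
  obtain ⟨j, hj⟩ := Fm.ne hC.fV
  have h1 := hC.len j hj
  have h2 := h.ub' (show j ≤ j + n by linarith [hC.fV.n0])
  have h3 := hC.LD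
  have h4 := hC.RD
  rw [show j + n - j = n by ring] at h2
  linarith

lemma Ch.lb (h : Stp V T c m D) {F : Set ℤ} {n : ℤ} {F' : Set ℤ} {n' L R : ℤ}
    (hC : Ch V T c D F n F' n' L R) : n ≤ n' := by
  obtain ⟨j, hj⟩ := Fm.ne hC.fV
  have h1 := hC.len j hj
  have h2 := h.lb' (show j ≤ j + n by linarith [hC.fV.n0])
  have h3 := hC.L0
  have h4 := hC.R0
  linarith

lemma Ch.lbs (h : Stp V T c m D) (hg : ∀ j, c j + 2 ≤ c (j + 1)) {F : Set ℤ} {n : ℤ} {F' : Set ℤ}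
    {n' L R : ℤ} (hC : Ch V T c D F n F' n' L R) (hn : 0 < n) : n < n' := by
  obtain ⟨j, hj⟩ := Fm.ne hC.fV
  have h1 := hC.len j hj
  have h2 := h.lb' (show j + 1 ≤ j + n by linarith)
  have h3 := hC.L0
  have h4 := hC.R0
  have h5 := hg j
  linarith

/-- the child given by `nx` -/
lemma nx_spec (hCHE : S_CHE) (h : Stp V T c m D) {F : Set ℤ} {n : ℤ} (hF : Fm V F n) :
    ∃ L R, Ch V T c D F n (nx V T c D (F, n)).1 (nx V T c D (F, n)).2 L R := by
  classical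
  obtain ⟨F', n', L, R, hC⟩ := hCHE B C V T c m D h F n hF
  have hex : ∃ x : Set ℤ × ℤ, ∃ L R, Ch V T c D (F, n).1 (F, n).2 x.1 x.2 L R :=
    ⟨(F', n'), L, R, hC⟩
  have e : nx V T c D (F, n) = hex.choose := by
    unfold nx
    rw [dif_pos hex]
  rw [e]
  exact hex.choose_spec

/-- the child is unique -/
lemma nx_eq (hUNI : S_UNI) (h : Stp V T c m D) {F : Set ℤ} {n : ℤ} {F' : Set ℤ} {n' L R : ℤ}
    (hC : Ch V T c D F n F' n' L R) : nx V T c D (F, n) = (F', n') := by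
  classical
  have hex : ∃ x : Set ℤ × ℤ, ∃ L R, Ch V T c D (F, n).1 (F, n).2 x.1 x.2 L R :=
    ⟨(F', n'), L, R, hC⟩
  have e : nx V T c D (F, n) = hex.choose := by
    unfold nx
    rw [dif_pos hex]
  rw [e]
  obtain ⟨L1, R1, hC1⟩ := hex.choose_spec
  simp only at hC1
  set x := hex.choose with hx
  have h1 := hC.fT
  have h2 := hC1.fT
  rw [hC.im] at h1
  rw [hC1.im] at h2
  obtain ⟨h3, h4⟩ := hUNI C T F c L L1 n' x.2 h1 h2 hC.L0 (Ch.L_le h hC) hC1.L0 (Ch.L_le h hC1)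
  have h5 : x.1 = F' := by rw [hC1.im, hC.im, h3]
  exact Prod.ext h5 h4.symm

/-- TASK SUR -/
theorem t_SUR (hUNI : S_UNI) (hPAR : S_PAR) (hNPD : S_NPD) : S_SUR := by
  intro B C V U c d m D Q q LV LU KV K X hAV hAU hUV hUV' hUU hUU' M hKVM hLVM hDM hLUK hDK
  obtain ⟨l1, hl1⟩ := hNPD B C V U d m D Q q K X.hU X.hQ X.hq hUU hUU' M
  obtain ⟨l2, hl2⟩ := hNPD B B V V c m D Q Q KV X.hV X.hQ X.hQ hUV hUV' M
  have hm : (1 : ℤ) ≤ m := by exact_mod_cast X.hV.mpos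
  refine ⟨l1 + l2 + 2 * M + m, fun L2 L4 hL2 hL4 => ⟨2 * K + m + (m * L4 + 2 * D + 1).toNat,
    fun F' n' hF' hnp hn' => ?_⟩⟩
  push_cast at hL2 hn'
  have hl1' : (0 : ℤ) ≤ l1 := by positivity
  have hl2' : (0 : ℤ) ≤ l2 := by positivity
  have hM' : (0 : ℤ) ≤ M := by positivity
  have hD' : (0 : ℤ) ≤ D := by positivity
  have hK' : (0 : ℤ) ≤ K := by positivity
  have hL20 : 0 ≤ L2 := by linarith
  have hL24 : L2 ≤ L4 := by nlinarith
  -- the claim for `V`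
  have claim : ∀ N : ℕ, ∀ (F1 : Set ℤ) (n1 : ℤ), n1.toNat ≤ N → Fm V F1 n1 → L4 < n1 →
      (∀ j ∈ F1, ¬ PerOn V Q (j + M) (j + n1 - M)) →
      ∃ s k, 1 ≤ k ∧ Sd V c D Q M L2 L4 s ∧ Vk V c D s k = (F1, n1) := by
    intro N
    induction N with
    | zero =>
      intro F1 n1 h1 h2 h3 h4
      omega
    | succ N ih =>
      intro F1 n1 h1 h2 h3 h4
      obtain ⟨⟨F2, n2, L, R, hC⟩, -⟩ := hPAR B B V V c m D Q LV X.hV hAV M (by exact_mod_cast hLVM)
        (by exact_mod_cast hDM) F1 n1 h2 (by linarith) h4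
      have hub := Ch.ub X.hV hC
      have hn2 : L2 ≤ n2 := by
        by_contra h5
        push Not at h5
        have : (m : ℤ) * n2 ≤ m * L2 := by nlinarith
        linarith
      have hnp2 : ∀ j ∈ F2, ¬ PerOn V Q (j + M) (j + n2 - M) := by
        intro j hj hP
        obtain ⟨i, hi⟩ := Fm.ne hC.fT
        refine h4 i hi ((hl2 F2 n2 F1 n1 L R hC (by linarith) j hj hP i hi).sub ?_ ?_)
        · have : (KV : ℤ) ≤ M := by exact_mod_cast hKVM
          linarith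
        · have : (KV : ℤ) ≤ M := by exact_mod_cast hKVM
          linarith
      have hnx := nx_eq hUNI X.hV hC
      rcases le_or_gt n2 L4 with h5 | h5
      · refine ⟨(F2, n2), 1, le_refl _, ⟨hC.fV, hnp2, hn2, h5, ?_⟩, ?_⟩
        · unfold Vk
          rw [Function.iterate_one, hnx]
          exact h3
        · unfold Vk
          rw [Function.iterate_one, hnx]
      · have hlt := Ch.lbs X.hV X.hg hC (by linarith)
        obtain ⟨s, k, hk, hs, hVk⟩ := ih F2 n2 (by omega) hC.fV h5 hnp2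
        refine ⟨s, k + 1, by omega, hs, ?_⟩
        unfold Vk at hVk ⊢
        rw [Function.iterate_succ_apply', hVk, hnx]
  obtain ⟨⟨F1, n1, L, R, hC⟩, -⟩ := hPAR B C V U d m D q LU X.hU hAU K (by exact_mod_cast hLUK)
    (by exact_mod_cast hDK) F' n' hF' (by
      have := Int.self_le_toNat (m * L4 + 2 * D + 1)
      have h0 : (0 : ℤ) ≤ ((m * L4 + 2 * D + 1).toNat : ℤ) := by positivity
      linarith) hnp
  have hub := Ch.ub X.hU hC
  have hn1 : L4 < n1 := by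
    by_contra h5
    push Not at h5
    have h6 := Int.self_le_toNat (m * L4 + 2 * D + 1)
    have h7 : (m : ℤ) * n1 ≤ m * L4 := by nlinarith
    linarith
  have hnp1 : ∀ j ∈ F1, ¬ PerOn V Q (j + M) (j + n1 - M) := by
    intro j hj hP
    obtain ⟨i, hi⟩ := Fm.ne hC.fT
    exact hnp i hi (hl1 F1 n1 F' n' L R hC (by linarith) j hj hP i hi)
  obtain ⟨s, k, hk, hs, hVk⟩ := claim n1.toNat F1 n1 le_rfl hC.fV hn1 hnp1
  refine ⟨s, k, hk, hs, ?_⟩
  unfold Uk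
  rw [hVk, nx_eq hUNI X.hU hC]

end Pool.Agent.T2h96.FC.SURm
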