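import Pool.Agent.T2h96.FC.Stm2

/-!
# Task UL: two left breaks of long runs with the same small windows have the same big windows
-/

set_option autoImplicit false

namespace Pool.Agent.T2h96.FC.UL

/-! ### sets of values -/

theorem exists_fac {A X Y : Type} (S : Set A) (F : A → X) (G : A → Y) (hS : S.Nonempty)
    (h : ∀ a ∈ S, ∀ b ∈ S, G a = G b → F a = F b) : ∃ φ : Y → X, ∀ a ∈ S, φ (G a) = F a := by
  classical
  obtain ⟨a₀, ha₀⟩ := hS
  refine ⟨fun y => if h : ∃ a ∈ S, G a = y then F h.choose else F a₀, fun a ha => ?_⟩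
  have hex : ∃ b ∈ S, G b = G a := ⟨a, ha, rfl⟩
  beta_reduce
  rw [dif_pos hex]
  exact h _ hex.choose_spec.1 _ ha hex.choose_spec.2

theorem le_of_fac {A X Y : Type} (S : Set A) (F : A → X) (G : A → Y) (hG : (G '' S).Finite)
    (h : ∀ a ∈ S, ∀ b ∈ S, G a = G b → F a = F b) : (F '' S).ncard ≤ (G '' S).ncard := by
  rcases S.eq_empty_or_nonempty with rfl | hS
  · simp
  · obtain ⟨φ, hφ⟩ := exists_fac S F G hS h
    have : F '' S = φ '' (G '' S) := by
      rw [Set.image_image]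
      exact Set.image_congr fun a ha => (hφ a ha).symm
    rw [this]
    exact Set.ncard_image_le hG

theorem inj_of_le {A X Y : Type} (S : Set A) (F : A → X) (G : A → Y) (hF : (F '' S).Finite)
    (h : ∀ a ∈ S, ∀ b ∈ S, F a = F b → G a = G b) (hle : (F '' S).ncard ≤ (G '' S).ncard) :
    ∀ a ∈ S, ∀ b ∈ S, G a = G b → F a = F b := by
  intro a ha b hb hab
  obtain ⟨ψ, hψ⟩ := exists_fac S G F ⟨a, ha⟩ h
  have h1 : G '' S = ψ '' (F '' S) := by
    rw [Set.image_image]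
    exact Set.image_congr fun a ha => (hψ a ha).symm
  have h2 : (ψ '' (F '' S)).ncard = (F '' S).ncard :=
    le_antisymm (Set.ncard_image_le hF) (by rw [← h1]; exact hle)
  have h3 := Set.injOn_of_ncard_image_eq h2 hF
  refine h3 ⟨a, ha, rfl⟩ ⟨b, hb, rfl⟩ ?_
  rw [hψ a ha, hψ b hb, hab]

/-! ### windows -/

section
variable {C : Type}

/-- the window of `α` -/
def win (T : ℤ → C) (p M : ℕ) (α : ℤ) : Fin (M + p) → C := fun i => T (α - M + ((i : ℕ) : ℤ))

theorem win_eq {T : ℤ → C} {p M : ℕ} {α β : ℤ} :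
    win T p M α = win T p M β ↔ ∀ t : ℤ, -M ≤ t → t < p → T (α + t) = T (β + t) := by
  constructor
  · intro h t h1 h2
    have h3 := congrFun h ⟨(t + M).toNat, by omega⟩
    unfold win at h3
    have h4 : (((t + M).toNat : ℕ) : ℤ) = t + M := Int.toNat_of_nonneg (by omega)
    simp only at h3
    rw [h4] at h3
    rw [show α + t = α - M + (t + M) by ring, show β + t = β - M + (t + M) by ring]
    exact h3
  · intro h
    funext i
    have hi := i.2
    have := h (((i : ℕ) : ℤ) - M) (by omega) (by omega)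
    unfold win
    rw [show α - (M : ℤ) + ((i : ℕ) : ℤ) = α + (((i : ℕ) : ℤ) - M) by ring,
      show β - (M : ℤ) + ((i : ℕ) : ℤ) = β + (((i : ℕ) : ℤ) - M) by ring]
    exact this

theorem win_le {T : ℤ → C} {p M M' : ℕ} (h : M ≤ M') {α β : ℤ} (he : win T p M' α = win T p M' β) :
    win T p M α = win T p M β := by
  rw [win_eq] at he ⊢
  exact fun t h1 h2 => he t (by omega) h2

/-- the number of windows -/
noncomputable def wn (T : ℤ → C) (p M l : ℕ) : ℕ := (win T p M '' {α | LB T p α l}).ncard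

/-- its limit -/
noncomputable def wl (T : ℤ → C) (p M : ℕ) : ℕ := sInf (Set.range (wn T p M))

variable [Finite C]

theorem wn_anti (T : ℤ → C) (p M : ℕ) {l l' : ℕ} (h : l ≤ l') : wn T p M l' ≤ wn T p M l := by
  refine Set.ncard_le_ncard (Set.image_mono fun α hα => ?_) (Set.toFinite _)
  exact LB.mono hα (by exact_mod_cast h)

theorem wl_spec (T : ℤ → C) (p M : ℕ) : ∃ L, ∀ l, L ≤ l → wn T p M l = wl T p M := by
  obtain ⟨L, hL⟩ := Nat.sInf_mem (Set.range_nonempty (wn T p M))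
  refine ⟨L, fun l hl => le_antisymm ?_ (Nat.sInf_le ⟨l, rfl⟩)⟩
  have := wn_anti T p M hl
  rw [hL] at this
  exact this

theorem wl_mono (T : ℤ → C) (p : ℕ) {M M' : ℕ} (h : M ≤ M') : wl T p M ≤ wl T p M' := by
  obtain ⟨L, hL⟩ := wl_spec T p M
  obtain ⟨L', hL'⟩ := wl_spec T p M'
  rw [← hL (max L L') (le_max_left _ _), ← hL' (max L L') (le_max_right _ _)]
  exact le_of_fac _ _ _ (Set.toFinite _) fun a _ b _ hab => win_le h hab

end

theorem step {B C : Type} [Finite B] [Finite C] {V : ℤ → B} {U : ℤ → C} {c : ℤ → ℤ} {m D Q q : ℕ}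
    (h : Stp V U c m D) (hQ : PT V Q) (hq : PT U q) (hQD : D ≤ Q) (hqD : D ≤ q) {g : ℕ}
    (hg1 : 1 ≤ g) (hg : ∀ j, c j + g ≤ c (j + 1)) {M N : ℕ} (hM : D ≤ M) (hN : N + D = g * M) :
    wl U q N ≤ wl V Q M := by
  obtain ⟨l1, hl1⟩ := wl_spec V Q M
  obtain ⟨l2, hl2⟩ := wl_spec U q N
  obtain ⟨l, hl⟩ := h.parent hQ hq hQD hqD (l1 + q + Q + 1)
  rw [← hl1 (l1 + q + Q + 1) (by omega), ← hl2 (max l l2) (le_max_right _ _)]
  have hl' : ∀ α : ℤ, ∃ α' : ℤ, LB U q α ((max l l2 : ℕ) : ℤ) → ∃ δ : ℤ, 0 ≤ δ ∧ δ < D ∧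
      α = c α' - δ ∧ LB V Q α' ((l1 + q + Q + 1 : ℕ) : ℤ) ∧
      (∀ t, 0 ≤ t → t < δ → U (c α' - 1 - t) = U (c (α' + Q) - 1 - t)) ∧
      U (c α' - 1 - δ) ≠ U (c (α' + Q) - 1 - δ) := by
    intro α
    by_cases hα : LB U q α ((max l l2 : ℕ) : ℤ)
    · obtain ⟨α', hα'⟩ := hl α (hα.mono (by exact_mod_cast le_max_left _ _))
      exact ⟨α', fun _ => hα'⟩
    · exact ⟨0, fun h => absurd h hα⟩
  choose par hpar using hl'
  refine (le_of_fac {α | LB U q α ((max l l2 : ℕ) : ℤ)} (win U q N) (fun α => win V Q M (par α))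
    (Set.toFinite _) ?_).trans ?_
  · intro a ha b hb hab
    obtain ⟨δ, h1, h2, h3, h4, h5, h6⟩ := hpar a ha
    obtain ⟨δ', h1', h2', h3', h4', h5', h6'⟩ := hpar b hb
    have key := h.cwin (q := q) hQ.1 hQD (g := g) (by exact_mod_cast hg1) hg (M := M)
      (by exact_mod_cast hM) h1 h2 h1' h2' h5 h6 h5' h6' h4.1 h4'.1 (by push_cast; linarith)
      (by push_cast; linarith) (win_eq.1 hab)
    rw [win_eq]
    intro t ht1 ht2
    have hN' : (N : ℤ) + D = g * M := by exact_mod_cast hN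
    have := key.2 t (by linarith) ht2
    rw [h3, h3']
    exact this
  · refine Set.ncard_le_ncard ?_ (Set.toFinite _)
    rintro _ ⟨α, hα, rfl⟩
    obtain ⟨δ, h1, h2, h3, h4, h5, h6⟩ := hpar α hα
    exact ⟨par α, h4, rfl⟩

theorem ev_const (f : ℕ → ℕ) (hf : Monotone f) (b : ℕ) (hb : ∀ n, f n ≤ b) :
    ∃ K, ∀ n, K ≤ n → f n = f K := by
  have hbdd : BddAbove (Set.range f) := ⟨b, by rintro _ ⟨n, rfl⟩; exact hb n⟩
  obtain ⟨K, hK⟩ := Nat.sSup_mem (Set.range_nonempty f) hbdd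
  refine ⟨K, fun n hn => le_antisymm ?_ (hf hn)⟩
  rw [hK]
  exact le_csSup hbdd ⟨n, rfl⟩

end Pool.Agent.T2h96.FC.UL

namespace Pool.Agent.T2h96.FC

open UL in
theorem t_UL : S_UL := by
  intro B C _ _ V U c d m D Q q h
  -- the windows of `V`
  have hV : ∀ n : ℕ, wl V Q (D + 2 ^ n) ≤ wl V Q (D + 1) := by
    intro n
    induction n with
    | zero => simp
    | succ n ih =>
      refine le_trans ?_ ih
      refine step h.hV h.hQ h.hQ h.hQD h.hQD (g := 2) (by norm_num) (fun j => by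
        have := h.hg j
        push_cast
        exact this) (M := D + 2 ^ n) (Nat.le_add_right _ _) ?_
      rw [pow_succ]
      ring
  have hVb : ∀ M : ℕ, wl V Q M ≤ wl V Q (D + 1) := by
    intro M
    refine (wl_mono V Q (?_ : M ≤ D + 2 ^ M)).trans (hV M)
    have := (Nat.lt_two_pow_self (n := M)).le
    omega
  have hUb : ∀ M : ℕ, wl U q M ≤ wl V Q (D + 1) := by
    intro M
    refine (step h.hU h.hQ h.hq h.hQD h.hqD (g := 1) le_rfl (fun j => ?_) (M := M + D) (by omega)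
      (by ring)).trans (hVb (M + D))
    have := h.hU.pos j
    push_cast
    linarith
  obtain ⟨K, hK⟩ := ev_const (wl U q) (fun _ _ h' => wl_mono U q h') _ hUb
  refine ⟨K, fun M => ?_⟩
  rcases le_total M K with hMK | hMK
  · refine ⟨0, fun α β _ _ hw t h1 h2 => hw t ?_ h2⟩
    have : (M : ℤ) ≤ K := by exact_mod_cast hMK
    linarith
  · obtain ⟨L, hL⟩ := wl_spec U q M
    obtain ⟨L', hL'⟩ := wl_spec U q K
    refine ⟨max L L', fun α β hα hβ hw => ?_⟩
    rw [← win_eq]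
    refine inj_of_le {α | LB U q α ((max L L' : ℕ) : ℤ)} (win U q M) (win U q K) (Set.toFinite _)
      (fun a _ b _ hab => win_le hMK hab) ?_ α hα β hβ (win_eq.2 hw)
    have h1 := hL (max L L') (le_max_left _ _)
    have h2 := hL' (max L L') (le_max_right _ _)
    unfold wn at h1 h2
    rw [h1, h2, hK M hMK]

end Pool.Agent.T2h96.FC
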