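import Pool.Agent.T2h96.FC.UNB.U3

/-!
# Task UNB: the complexity of a fixed point of a morphism which is not quasi-uniform is not linear
-/

set_option autoImplicit false
set_option linter.all false

open Filter Asymptotics

namespace Pool.Agent.T2h96.FC.UNB

variable {k : ℕ} {σ : Fin k → List (Fin k)} {u : ℕ → Fin k}

theorem dd_mono (hne : ∀ b, σ b ≠ []) : StrictMono (dd σ u) := by
  refine strictMono_nat_of_lt_succ fun i => ?_
  rw [dd_succ]
  have := List.length_pos_of_ne_nil (hne (u i))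
  omega

theorem dd_infl (hne : ∀ b, σ b ≠ []) (h0 : 2 ≤ (σ (u 0)).length) {i : ℕ} (hi : 1 ≤ i) :
    i + 1 ≤ dd σ u i := by
  induction i, hi using Nat.le_induction with
  | base => rw [show (1 : ℕ) = 0 + 1 from rfl, dd_succ, dd_zero]; omega
  | succ i hi ih =>
    rw [dd_succ]
    have := List.length_pos_of_ne_nil (hne (u i))
    omega

theorem it_infl (hne : ∀ b, σ b ≠ []) (h0 : 2 ≤ (σ (u 0)).length) {i : ℕ} (hi : 1 ≤ i) (j : ℕ) :
    i + j ≤ (dd σ u)^[j] i := by
  induction j with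
  | zero => rfl
  | succ j ih =>
    rw [Function.iterate_succ_apply']
    have := dd_infl (σ := σ) (u := u) hne h0 (i := (dd σ u)^[j] i) (by omega)
    omega

/-- the system -/
theorem sys (hG : S_GROW) (hg : ∀ b, Tendsto (fun m => L σ m b) atTop atTop) {m : ℕ}
    (hm : ∀ b, (σ b).length ≤ m) (a : Fin k)
    (hstr : ∀ i t : ℕ, t < (σ (u i)).length → (σ (u i))[t]? = some (u (dd σ u i + t))) :
    Sys u (Fast σ a) (dd σ u) m (sl σ a) where
  d0 := dd_zero σ u
  dm := dd_mono (ne_nil σ hg)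
  hm i := by rw [dd_succ]; have := hm (u i); omega
  hS i hi x h1 h2 := by
    rw [dd_succ] at h2
    obtain ⟨t, rfl⟩ : ∃ t, x = dd σ u i + t := ⟨x - dd σ u i, by omega⟩
    have h3 := hstr i t (by omega)
    exact slow_image hm hi (List.mem_of_getElem? h3)
  hF i hi := by
    obtain ⟨c, hc, hc'⟩ := fast_image hG hg hi
    obtain ⟨t, ht, rfl⟩ := List.mem_iff_getElem.1 hc
    have h3 := hstr i t ht
    rw [List.getElem?_eq_getElem ht, Option.some_inj] at h3
    refine ⟨dd σ u i + t, by omega, by rw [dd_succ]; omega, ?_⟩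
    rw [← h3]; exact hc'
  hs j i hi := by
    rw [blk hstr]
    have := le_sl hi j
    omega

/-- growth of the thresholds -/
def thr (m t₀ : ℕ) : ℕ → ℕ
  | 0 => t₀
  | r + 1 => m * (thr m t₀ r + 2)

theorem thr_le {m : ℕ} (hm : 2 ≤ m) (t₀ r : ℕ) : thr m t₀ r + 4 ≤ m ^ r * (t₀ + 4) := by
  induction r with
  | zero => simp [thr]
  | succ r ih =>
    show m * (thr m t₀ r + 2) + 4 ≤ _
    calc m * (thr m t₀ r + 2) + 4 ≤ m * (thr m t₀ r + 4) := by
          rw [mul_add, mul_add]; omega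
      _ ≤ m * (m ^ r * (t₀ + 4)) := Nat.mul_le_mul_left _ ih
      _ = m ^ (r + 1) * (t₀ + 4) := by rw [pow_succ]; ring

theorem thr_mono {m : ℕ} (hm : 2 ≤ m) (t₀ : ℕ) : Monotone (thr m t₀) := by
  refine monotone_nat_of_le_succ fun r => ?_
  show thr m t₀ r ≤ m * (thr m t₀ r + 2)
  nlinarith

/-- the main part -/
theorem main (hG : S_GROW) (hg : ∀ b, Tendsto (fun m => L σ m b) atTop atTop) {a : Fin k}
    (hu0 : u 0 = a) (ha : 2 ≤ (σ a).length)
    (hstr : ∀ i t : ℕ, t < (σ (u i)).length → (σ (u i))[t]? = some (u (dd σ u i + t)))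
    (hocc : ∀ b : Fin k, ∃ i : ℕ, u i = b)
    (hnq : ¬ (∀ b c : Fin k, IsTheta atTop (fun m : ℕ => (L σ m b : ℝ)) fun m => (L σ m c : ℝ)))
    (M : ℕ) : ∃ n : ℕ, 0 < n ∧ M * n ≤ pc u n := by
  classical
  have hne := ne_nil σ hg
  set m := ∑ b, (σ b).length with hmdef
  have hm : ∀ b, (σ b).length ≤ m := fun b =>
    Finset.single_le_sum (f := fun b => (σ b).length) (fun _ _ => Nat.zero_le _) (Finset.mem_univ b)
  have hm2 : 2 ≤ m := ha.trans (hm a)
  have S := sys (u := u) hG hg hm a hstr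
  have h02 : 2 ≤ (σ (u 0)).length := by rw [hu0]; exact ha
  set D : ℕ → ℕ → ℕ := fun j => (dd σ u)^[j] with hD
  have hDblk : ∀ j i, (dd σ u)^[j] (i + 1) = (dd σ u)^[j] i + L σ j (u i) := blk hstr
  have hD1 : ∀ j, (dd σ u)^[j] 1 = L σ j a := by
    intro j
    have := hDblk j 0
    rw [S.D0, hu0, Nat.zero_add, Nat.zero_add] at this
    exact this
  have hinfl : ∀ i j, 1 ≤ i → i + j ≤ (dd σ u)^[j] i := fun i j hi => it_infl hne h02 hi j
  have hl := lam_little hG hg a m
  have hs := sl_little hG hg a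
  -- a slow letter
  obtain ⟨b, hb⟩ : ∃ b, ¬ Fast σ a b := by
    by_contra hcon
    push Not at hcon
    apply hnq
    have h1 : ∀ b, IsTheta atTop (fun m : ℕ => (L σ m a : ℝ)) fun m => (L σ m b : ℝ) := by
      intro b
      refine ⟨hcon b, ?_⟩
      obtain ⟨i, rfl⟩ := hocc b
      have h2 : ∀ j, L σ j (u i) ≤ m ^ i * L σ j a := by
        intro j
        have h3 := hDblk j i
        have h4 : (dd σ u)^[j] (i + 1) ≤ (dd σ u)^[j] ((dd σ u)^[i] 1) :=
          (S.Dm j).monotone (by have := hinfl 1 i le_rfl; omega)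
        rw [← Function.iterate_add_apply, hD1] at h4
        have h5 : ∀ r, L σ (j + r) a ≤ m ^ r * L σ j a := by
          intro r
          induction r with
          | zero => simp
          | succ r ih =>
            calc L σ (j + (r + 1)) a ≤ m * L σ (j + r) a := L_le_mul σ hm (j + r) a
              _ ≤ m * (m ^ r * L σ j a) := Nat.mul_le_mul_left _ ih
              _ = _ := by rw [pow_succ]; ring
        have h6 := h5 i
        omega
      refine isBigO_of_le (C := (m : ℝ) ^ i) (fun j => Nat.cast_nonneg _)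
        (fun j => Nat.cast_nonneg _) fun j => ?_
      have := h2 j
      exact_mod_cast this
    intro b c
    exact (h1 b).symm.trans (h1 c)
  obtain ⟨z, rfl⟩ := hocc b
  have hz1 : 1 ≤ z := by
    by_contra hc
    have : z = 0 := by omega
    rw [this, hu0] at hb
    exact hb (fast_self σ a)
  -- a fast letter in `σ a`, not the first one
  obtain ⟨f₁, hf1, hf2, hf3⟩ : ∃ x, 1 ≤ x ∧ x < dd σ u 1 ∧ Fast σ a (u x) := by
    by_contra hcon
    push Not at hcon
    have h1 : ∀ j, L σ j a ≤ 1 + lam m (sl σ a) j := by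
      intro j
      induction j with
      | zero => rw [L_zero]; omega
      | succ j ih =>
        have h2 := S.slow_sum j (p := 1) (q := dd σ u 1) (by
          have := dd_infl (σ := σ) (u := u) hne h02 (i := 1) le_rfl; omega) hcon
        have h3 : (dd σ u)^[j] (dd σ u 1) = L σ (j + 1) a := by
          rw [← Function.iterate_succ_apply, hD1]
        rw [h3, hD1] at h2
        have h4 : (dd σ u 1 - 1) * sl σ a j ≤ m * sl σ a j := by
          apply Nat.mul_le_mul_right
          have := S.hm 0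
          rw [S.d0] at this
          have h5 : dd σ u (0 + 1) = dd σ u 1 := rfl
          omega
        rw [lam_succ]
        omega
    apply self_false hne (a := a)
    have h2 : (fun j => (L σ j a : ℝ)) =O[atTop] fun j => (1 : ℝ) + (lam m (sl σ a) j : ℝ) := by
      refine isBigO_of_le (C := 1) (fun j => Nat.cast_nonneg _) (fun j => by positivity)
        fun j => ?_
      have := h1 j
      rw [one_mul]
      exact_mod_cast this
    exact h2.trans_isLittleO ((one_little hg a 1).add hl)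
  -- the initial gap
  have hslow : ¬ Fast σ a (u ((dd σ u)^[f₁] z)) :=
    S.slow_blk f₁ z hb _ le_rfl ((S.Dm f₁) (Nat.lt_succ_self z))
  set z' := (dd σ u)^[f₁] z with hz'
  have hz'1 : f₁ < z' := by have := hinfl z f₁ hz1; omega
  obtain ⟨p, hp1, hp2, hp3, hp4⟩ := exists_last (fun x => Fast σ a (u x)) (p := 0) (q := z')
    ⟨f₁, Nat.zero_le _, hz'1, hf3⟩
  obtain ⟨q, hq1, hq2, hq3⟩ : ∃ q, z' < q ∧ Fast σ a (u q) ∧ ∀ x, z' < x → x < q →
      ¬ Fast σ a (u x) := by
    obtain ⟨y, h1, h2, h3, h4⟩ := S.first (z' + 1) f₁ hf3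
    have h5 := hinfl f₁ (z' + 1) hf1
    obtain ⟨q, h6, h7, h8, h9⟩ := exists_first (fun x => Fast σ a (u x)) (p := z' + 1) (q := y + 1)
      ⟨y, by omega, by omega, h3⟩
    exact ⟨q, by omega, h8, fun x h10 h11 => h9 x (by omega) h11⟩
  have hgap : Gap u (Fast σ a) p q := by
    refine ⟨by omega, hp3, hq2, fun x h1 h2 => ?_⟩
    rcases lt_trichotomy x z' with h3 | h3 | h3
    · exact hp4 x h1 h3
    · rw [h3]; exact hslow
    · exact hq3 x h3 h2
  have hpq : p + 2 ≤ q := by omega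
  obtain ⟨X, Y, hX0, hY0, hXY, hX, hY⟩ := S.seq hgap
  have hXb : ∀ i, (dd σ u)^[i] p ≤ X i ∧ X i < (dd σ u)^[i] (p + 1) := by
    intro i
    induction i with
    | zero => rw [hX0]; exact ⟨le_rfl, Nat.lt_succ_self p⟩
    | succ i ih =>
      rw [Function.iterate_succ_apply', Function.iterate_succ_apply']
      exact ⟨(S.dm.monotone ih.1).trans (hX i).1, lt_of_lt_of_le (hX i).2 (S.dm.monotone ih.2)⟩
  have hYb : ∀ i, (dd σ u)^[i] q ≤ Y i ∧ Y i < (dd σ u)^[i] (q + 1) := by
    intro i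
    induction i with
    | zero => rw [hY0]; exact ⟨le_rfl, Nat.lt_succ_self q⟩
    | succ i ih =>
      rw [Function.iterate_succ_apply', Function.iterate_succ_apply']
      exact ⟨(S.dm.monotone ih.1).trans (hY i).1, lt_of_lt_of_le (hY i).2 (S.dm.monotone ih.2)⟩
  set l : ℕ → ℕ := fun i => Y i - X i - 1 with hldef
  have hgrow : ∀ i, l (i + 1) ≤ m * (l i + 2) := by
    intro i
    have h1 := (hX i).1
    have h2 := (hY i).2
    have h3 := (hXY i).1
    have h4 : ∀ n, dd σ u (X i + n) ≤ dd σ u (X i) + m * n := by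
      intro n
      induction n with
      | zero => simp
      | succ n ihn =>
        have := S.hm (X i + n)
        rw [Nat.mul_succ, ← add_assoc]
        omega
    have h5 := h4 (l i + 2)
    have h6 : X i + (l i + 2) = Y i + 1 := by
      show X i + (Y i - X i - 1 + 2) = Y i + 1
      omega
    rw [h6] at h5
    show Y (i + 1) - X (i + 1) - 1 ≤ _
    omega
  have hlow : ∀ i, L σ i (u (p + 1)) ≤ l i := by
    intro i
    have h1 := hDblk i (p + 1)
    have h2 : (dd σ u)^[i] (p + 1 + 1) ≤ (dd σ u)^[i] q := (S.Dm i).monotone (by omega)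
    have h3 := (hXb i).2
    have h4 := (hYb i).1
    show _ ≤ Y i - X i - 1
    omega
  have htend : Tendsto l atTop atTop := tendsto_atTop_mono hlow (hg (u (p + 1)))
  have hl0 : ∀ j, l j ≤ 2 * lam m (sl σ a) j + (q - (p + 1)) * sl σ a j := by
    intro j
    obtain ⟨r, r', hr, hr', h3, h4, h5, h6, h7⟩ := S.gap_anc j (hXY j)
    have e1 : r = p := by
      have h8 : r < p + 1 := (S.Dm j).lt_iff_lt.1 (lt_of_le_of_lt h3 (hXb j).2)
      have h9 : p < r + 1 := (S.Dm j).lt_iff_lt.1 (lt_of_le_of_lt (hXb j).1 h4)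
      omega
    have e2 : r' = q := by
      have h8 : r' < q + 1 := (S.Dm j).lt_iff_lt.1 (lt_of_le_of_lt h5 (hYb j).2)
      have h9 : q < r' + 1 := (S.Dm j).lt_iff_lt.1 (lt_of_le_of_lt (hYb j).1 h6)
      omega
    rw [e1, e2] at h7
    rcases h7 with h7 | ⟨h7, h8, h9⟩
    · omega
    have h10 := S.slow_sum j (p := p + 1) (q := q) (by omega) fun x h1 h2 =>
      h7.2.2.2 x (by omega) h2
    show Y j - X j - 1 ≤ _
    omega
  -- the choice of `j`
  obtain ⟨C, hC0, hC⟩ := fast_const hne a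
  set K := 4 * M with hK
  set c₁ := q - (p + 1) with hc₁
  have hbig : (fun j => ((C * (2 * m ^ K * (2 * lam m (sl σ a) j + c₁ * sl σ a j + 4) +
      2 * lam m (sl σ a) j) : ℕ) : ℝ)) =o[atTop] fun j => (L σ j a : ℝ) := by
    have h1 : (fun j => (2 * (lam m (sl σ a) j : ℝ))) =o[atTop] fun j => (L σ j a : ℝ) :=
      hl.const_mul_left 2
    have h2 : (fun j => ((c₁ : ℝ) * (sl σ a j : ℝ))) =o[atTop] fun j => (L σ j a : ℝ) :=
      hs.const_mul_left _
    have h3 := ((h1.add h2).add (one_little hg a 4)).const_mul_left (2 * (m : ℝ) ^ K)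
    have h4 := (h3.add h1).const_mul_left (C : ℝ)
    refine h4.congr_left fun j => ?_
    push_cast
    ring
  rw [isLittleO_iff] at hbig
  obtain ⟨j, hj⟩ := (hbig (c := 1) one_pos).exists
  rw [one_mul, Real.norm_of_nonneg (Nat.cast_nonneg _), Real.norm_of_nonneg (Nat.cast_nonneg _),
    Nat.cast_le] at hj
  set t₀ := 2 * lam m (sl σ a) j + c₁ * sl σ a j with ht₀
  set n := 2 * (m ^ K * (t₀ + 4)) with hn
  have hn' : 2 * m ^ K * (t₀ + 4) = n := by rw [hn]; ring
  rw [hn'] at hj
  have hmK : 1 ≤ m ^ K := Nat.one_le_pow _ _ (by omega)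
  have hn8 : 8 ≤ n := by rw [hn]; nlinarith
  -- the separation
  have hsep : ∀ i, Fast σ a (u i) → (dd σ u)^[j] i + (n + 2 * lam m (sl σ a) j) ≤
      (dd σ u)^[j] (i + 1) := by
    intro i hi
    rw [hDblk]
    have h1 : C * (n + 2 * lam m (sl σ a) j) ≤ C * L σ j (u i) := hj.trans (hC _ hi j)
    have h2 := Nat.le_of_mul_le_mul_left h1 hC0
    omega
  have hnA : n ≤ L σ j a := by
    have h1 : n + 2 * lam m (sl σ a) j ≤ C * (n + 2 * lam m (sl σ a) j) :=
      Nat.le_mul_of_pos_left _ hC0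
    omega
  -- the gaps
  have hex : ∀ r : ℕ, ∃ i, j ≤ i ∧ thr m t₀ r < l i ∧ l i ≤ thr m t₀ (r + 1) := by
    intro r
    have h1 : ∃ i, j ≤ i ∧ thr m t₀ r < l i := by
      obtain ⟨i, h2, h3⟩ := ((tendsto_atTop.1 htend (thr m t₀ r + 1)).and
        (eventually_ge_atTop j)).exists
      exact ⟨i, h3, h2⟩
    have h2 := Nat.find_spec h1
    set i := Nat.find h1 with hi
    refine ⟨i, h2.1, h2.2, ?_⟩
    have h3 : i ≠ j := by
      intro h
      have h4 := h2.2
      rw [h] at h4
      have h5 := hl0 j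
      have h6 : thr m t₀ 0 ≤ thr m t₀ r := thr_mono hm2 t₀ (Nat.zero_le r)
      have h7 : thr m t₀ 0 = t₀ := rfl
      omega
    obtain ⟨i', hi'⟩ : ∃ i', i = i' + 1 := ⟨i - 1, by have := h2.1; omega⟩
    have h4 : ¬ (j ≤ i' ∧ thr m t₀ r < l i') := Nat.find_min h1 (by omega)
    have h5 : l i' ≤ thr m t₀ r := by
      by_contra hc
      exact h4 ⟨by have := h2.1; omega, by omega⟩
    rw [hi']
    refine (hgrow i').trans ?_
    show _ ≤ m * (thr m t₀ r + 2)
    exact Nat.mul_le_mul_left _ (by omega)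
  choose I hI1 hI2 hI3 using hex
  have hlen : ∀ i, Y i - X i = l i + 1 := by
    intro i
    have := (hXY i).1
    show Y i - X i = Y i - X i - 1 + 1
    omega
  have hfin := count u (Fast σ a) (n := n) (Λ := 2 * lam m (sl σ a) j) (K := K)
    (fun x y x' y' g g' h1 h2 h3 => S.sep hsep g g' h1 h2 h3)
    (fun r => X (I r)) (fun r => Y (I r)) (fun r => hXY _) (fun r => ?_) (fun r => ?_)
    (fun r => ?_) (fun r r' h => ?_)
  · refine ⟨n, by omega, le_trans ?_ hfin⟩
    have e1 : n / 2 = m ^ K * (t₀ + 4) := by rw [hn]; omega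
    have e2 : 4 ≤ n / 2 := by omega
    have e3 : n = 2 * (n / 2) := by rw [e1]
    have e4 : 2 * (n / 2) ≤ 4 * (n / 2 - 1) := by omega
    calc M * n = M * (2 * (n / 2)) := by rw [← e3]
      _ ≤ M * (4 * (n / 2 - 1)) := Nat.mul_le_mul_left _ e4
      _ = K * (n / 2 - 1) := by rw [hK]; ring
  · have h1 := hI2 r
    have h2 : thr m t₀ 0 ≤ thr m t₀ r := thr_mono hm2 t₀ (Nat.zero_le _)
    have h3 : thr m t₀ 0 = t₀ := rfl
    show _ < l (I r)
    omega
  · have h1 := hI3 r
    have h2 : thr m t₀ (r + 1) ≤ thr m t₀ K := thr_mono hm2 t₀ (by have := r.2; omega)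
    have h3 := thr_le hm2 t₀ K
    show 2 * l (I r) ≤ n
    omega
  · have h1 := (hYb (I r)).1
    have h2 : (dd σ u)^[I r] 1 ≤ (dd σ u)^[I r] q := (S.Dm _).monotone (by omega)
    rw [hD1] at h2
    have h3 := L_mono σ hne a (hI1 r)
    have h3' : L σ j a ≤ L σ (I r) a := h3
    show n ≤ Y (I r)
    omega
  · have h' : Y (I r) - X (I r) = Y (I r') - X (I r') := h
    rw [hlen, hlen] at h'
    have a1 := hI2 r
    have a2 := hI3 r
    have b1 := hI2 r'
    have b2 := hI3 r'
    rcases lt_trichotomy r.val r'.val with h1 | h1 | h1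
    · exfalso
      have h2 : thr m t₀ (r + 1) ≤ thr m t₀ r' := thr_mono hm2 t₀ h1
      omega
    · exact Fin.ext h1
    · exfalso
      have h2 : thr m t₀ (r' + 1) ≤ thr m t₀ r := thr_mono hm2 t₀ h1
      omega

theorem t_UNB (hG : S_GROW) : S_UNB := by
  intro k σ a u hg h1 h2 hu hocc hnq M
  have hg' : ∀ b, Tendsto (fun m => L σ m b) atTop atTop := hg
  have hu0 : u 0 = a := by
    have h3 := hu 0 0 (by simp)
    simp only [Function.iterate_zero, id_eq, List.getElem?_cons_zero, Option.some_inj] at h3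
    exact h3.symm
  exact main hG hg' hu0 h2 (str hg' hu) hocc hnq M

end Pool.Agent.T2h96.FC.UNB
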