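import Pool.Agent.T2h96.FC.Fin
import Pool.Agent.T2h96.FC.T_ASY
import Pool.Agent.T2h96.FC.T_CNT
import Pool.Agent.T2h96.FC.T_DEL
import Pool.Agent.T2h96.FC.T_GROW
import Pool.Agent.T2h96.FC.T_HULL
import Pool.Agent.T2h96.FC.T_PU
import Pool.Agent.T2h96.FC.T_RC
import Pool.Agent.T2h96.FC.T_REC
import Pool.Agent.T2h96.FC.T_RONE
import Pool.Agent.T2h96.FC.T_SD
import Pool.Agent.T2h96.FC.T_UL
import Pool.Agent.T2h96.FC.T_UNB
import Pool.Agent.T2h96.FC.T_AH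
import Pool.Agent.T2h96.FC.T_AL
import Pool.Agent.T2h96.FC.T_CC
import Pool.Agent.T2h96.FC.T_CHE
import Pool.Agent.T2h96.FC.T_CLP
import Pool.Agent.T2h96.FC.T_CLQ
import Pool.Agent.T2h96.FC.T_GRA
import Pool.Agent.T2h96.FC.T_INJ
import Pool.Agent.T2h96.FC.T_LS
import Pool.Agent.T2h96.FC.T_LV
import Pool.Agent.T2h96.FC.T_MLP
import Pool.Agent.T2h96.FC.T_NPC
import Pool.Agent.T2h96.FC.T_NPD
import Pool.Agent.T2h96.FC.T_NPU
import Pool.Agent.T2h96.FC.T_PAR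
import Pool.Agent.T2h96.FC.T_RAP
import Pool.Agent.T2h96.FC.T_SAT
import Pool.Agent.T2h96.FC.T_SUR
import Pool.Agent.T2h38.FC.Exa
import Pool.Agent.T2h38.FC.Gro
import Pool.Agent.T2h38.FC.Per
import Pool.Agent.T2h38.FC.Red

set_option autoImplicit false

open Filter

namespace Pool.Agent.T2h96.FC

/-- the theorem without hypotheses on auxiliary statements -/
theorem main_all (k : ℕ) (σ : Fin k → List (Fin k)) (a : Fin k) (u : ℕ → Fin k)
    (h1 : ∀ b : Fin k, Tendsto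
      (fun m : ℕ => ((fun w : List (Fin k) => w.flatMap σ)^[m] [b]).length) atTop atTop)
    (h2 : (σ a).head? = some a) (h3 : 2 ≤ (σ a).length)
    (h4 : ∀ m i : ℕ, i < ((fun w : List (Fin k) => w.flatMap σ)^[m] [a]).length →
      ((fun w : List (Fin k) => w.flatMap σ)^[m] [a])[i]? = some (u i))
    (h5 : ∀ b : Fin k, ∃ i : ℕ, u i = b)
    (h6 : ¬ (∀ b c : Fin k, Asymptotics.IsTheta atTop
        (fun m : ℕ => (((fun w : List (Fin k) => w.flatMap σ)^[m] [b]).length : ℝ))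
        (fun m : ℕ => (((fun w : List (Fin k) => w.flatMap σ)^[m] [c]).length : ℝ)))) :
    ∃ C : ℝ, 0 < C ∧
      (Asymptotics.IsEquivalent atTop
        (fun n : ℕ => (pc u (n + 1) : ℝ) - (pc u n : ℝ))
        (fun n : ℕ => C * Real.log (Real.log (n : ℝ))) ∨
       Asymptotics.IsEquivalent atTop
        (fun n : ℕ => (pc u (n + 1) : ℝ) - (pc u n : ℝ))
        (fun n : ℕ => C * Real.log (n : ℝ))) := by
  have hUNI := CHEm.t_UNI
  have hCHE := CHEm.t_CHE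
  have hDEL := t_DEL
  have hREC := t_REC t_HULL hDEL
  have hRONE := t_RONE hREC hDEL
  have hPER := Pool.Agent.T2h38.FC.t_PER hREC hDEL
  have hGRO := Pool.Agent.T2h38.FC.t_GRO t_GROW
  have hPAR := t_PAR hUNI hCHE
  have hNPD := t_NPD t_LS
  have hSUR := SURm.t_SUR hUNI hPAR hNPD
  have hINJ := INJm.t_INJ hCHE hPAR
  have hCC := CCm.t_CC hUNI hCHE t_AL
  exact main_thm t_UL t_CNT t_AH (t_NPC hCHE t_NPU) hSUR hINJ hCC t_CLQ (t_CLP t_RAP) t_MLP t_SAT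
    (t_LV hCHE) (t_GRA hCHE) (t_RC t_UL t_CNT) Pool.Agent.T2h38.FC.t_EXA t_SD hDEL hPER hRONE hGRO
    Pool.Agent.T2h38.FC.t_RED t_PU (UNB.t_UNB t_GROW) t_ASY k σ a u h1 h2 h3 h4 h5 h6

end Pool.Agent.T2h96.FC
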