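import Pool.Agent.T2h96.FC.Stm

set_option autoImplicit false

namespace Pool.Agent.T2h96.FC

/-- One desubstitution step, abstractly. -/
structure Stp {B C : Type} (V : ℤ → B) (U : ℤ → C) (c : ℤ → ℤ) (m D : ℕ) : Prop where
  pos : ∀ j, c j + 1 ≤ c (j + 1)
  le : ∀ j, c (j + 1) ≤ c j + m
  len : ∀ i j, V i = V j → c (i + 1) - c i = c (j + 1) - c j
  val : ∀ i j, V i = V j → ∀ t, 0 ≤ t → t < c (i + 1) - c i → U (c i + t) = U (c j + t)
  rd : ∀ i j, V i ≠ V j → ∃ t : ℤ, 0 ≤ t ∧ t < D ∧ U (c i + t) ≠ U (c j + t)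
  ld : ∀ i j, V (i - 1) ≠ V (j - 1) → ∃ t : ℤ, 0 ≤ t ∧ t < D ∧ U (c i - 1 - t) ≠ U (c j - 1 - t)

/-- reflection of a word -/
def rf {C : Type} (T : ℤ → C) : ℤ → C := fun i => T (-1 - i)

/-- reflection of a cut function -/
def rc (c : ℤ → ℤ) : ℤ → ℤ := fun j => -c (-j)

lemma rf_rf {C : Type} (T : ℤ → C) : rf (rf T) = T := by
  funext i; unfold rf; congr 1; ring

lemma rc_rc (c : ℤ → ℤ) : rc (rc c) = c := by
  funext i; unfold rc; simp

section

variable {B C : Type} {V : ℤ → B} {U : ℤ → C} {c : ℤ → ℤ} {m D : ℕ}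

lemma Stp.refl (h : Stp V U c m D) : Stp (rf V) (rf U) (rc c) m D := by
  refine ⟨fun j => ?_, fun j => ?_, fun i j hij => ?_, fun i j hij t h0 h1 => ?_,
    fun i j hij => ?_, fun i j hij => ?_⟩
  · have := h.pos (-(j + 1)); unfold rc
    rw [show -(j + 1) + 1 = -j by ring] at this; linarith
  · have := h.le (-(j + 1)); unfold rc
    rw [show -(j + 1) + 1 = -j by ring] at this; linarith
  · unfold rf at hij; unfold rc
    have := h.len _ _ hij
    rw [show -1 - i + 1 = -i by ring, show -1 - j + 1 = -j by ring] at this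
    rw [show -(i + 1) = -1 - i by ring, show -(j + 1) = -1 - j by ring]; linarith
  · unfold rf at hij; unfold rc at h1
    rw [show -(i + 1) = -1 - i by ring] at h1
    have hl := h.len _ _ hij
    rw [show -1 - i + 1 = -i by ring, show -1 - j + 1 = -j by ring] at hl
    have := h.val _ _ hij (c (-i) - c (-1 - i) - 1 - t) (by linarith)
      (by rw [show -1 - i + 1 = -i by ring]; linarith)
    unfold rf rc
    rw [show -1 - (-c (-i) + t) = c (-1 - i) + (c (-i) - c (-1 - i) - 1 - t) by ring, this]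
    congr 1
    linarith
  · unfold rf at hij
    obtain ⟨t, h0, h1, h2⟩ := h.ld (-i) (-j) (by
      rwa [show -i - 1 = -1 - i by ring, show -j - 1 = -1 - j by ring])
    refine ⟨t, h0, h1, ?_⟩
    unfold rf rc
    rwa [show -1 - (-c (-i) + t) = c (-i) - 1 - t by ring,
      show -1 - (-c (-j) + t) = c (-j) - 1 - t by ring]
  · unfold rf at hij
    obtain ⟨t, h0, h1, h2⟩ := h.rd (-i) (-j) (by
      rwa [show -1 - (i - 1) = -i by ring, show -1 - (j - 1) = -j by ring] at hij)
    refine ⟨t, h0, h1, ?_⟩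
    unfold rf rc
    rwa [show -1 - (-c (-i) - 1 - t) = c (-i) + t by ring,
      show -1 - (-c (-j) - 1 - t) = c (-j) + t by ring]

lemma Stp.lb (h : Stp V U c m D) (i : ℤ) (n : ℕ) : c i + n ≤ c (i + n) := by
  induction n with
  | zero => simp
  | succ n ih => have := h.pos (i + n); push_cast; rw [← add_assoc, ← add_assoc]; linarith

lemma Stp.ub (h : Stp V U c m D) (i : ℤ) (n : ℕ) : c (i + n) ≤ c i + m * n := by
  induction n with
  | zero => simp
  | succ n ih => have := h.le (i + n); push_cast; rw [← add_assoc]; nlinarith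

lemma Stp.lb' (h : Stp V U c m D) {i j : ℤ} (hij : i ≤ j) : c i + (j - i) ≤ c j := by
  have := h.lb i (j - i).toNat
  rw [Int.toNat_of_nonneg (by linarith)] at this
  rwa [show i + (j - i) = j by ring] at this

lemma Stp.ub' (h : Stp V U c m D) {i j : ℤ} (hij : i ≤ j) : c j ≤ c i + m * (j - i) := by
  have := h.ub i (j - i).toNat
  rw [Int.toNat_of_nonneg (by linarith)] at this
  rwa [show i + (j - i) = j by ring] at this

lemma Stp.mono (h : Stp V U c m D) {i j : ℤ} (hij : i ≤ j) : c i ≤ c j := by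
  have := h.lb' hij; linarith

lemma Stp.smono (h : Stp V U c m D) {i j : ℤ} (hij : i < j) : c i < c j := by
  have := h.lb' hij.le; linarith

lemma Stp.le_iff (h : Stp V U c m D) {i j : ℤ} : c i ≤ c j ↔ i ≤ j :=
  ⟨fun h1 => not_lt.1 fun h2 => by have := h.smono h2; linarith, h.mono⟩

lemma Stp.lt_iff (h : Stp V U c m D) {i j : ℤ} : c i < c j ↔ i < j := by
  rw [← not_le, ← not_le, h.le_iff]

lemma Stp.inj (h : Stp V U c m D) {i j : ℤ} (hij : c i = c j) : i = j :=
  le_antisymm (h.le_iff.1 hij.le) (h.le_iff.1 hij.ge)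

/-- every position lies in a block -/
lemma Stp.block (h : Stp V U c m D) (t : ℤ) : ∃ j, c j ≤ t ∧ t < c (j + 1) := by
  have h1 : ∃ j, c j ≤ t := ⟨min 0 (t - c 0), by
    rcases le_total 0 (t - c 0) with h2 | h2
    · rw [min_eq_left h2]; linarith
    · rw [min_eq_right h2]; have := h.lb' h2; linarith⟩
  have h2 : ∀ j, c j ≤ t → j ≤ max 0 (t - c 0) := by
    intro j hj
    by_contra h3
    push Not at h3
    have h4 : 0 < j := lt_of_le_of_lt (le_max_left _ _) h3
    have h5 : t - c 0 < j := lt_of_le_of_lt (le_max_right _ _) h3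
    have := h.lb' h4.le
    linarith
  obtain ⟨j, hj1, hj2⟩ := Int.exists_greatest_of_bdd (P := fun j => c j ≤ t) ⟨_, h2⟩ h1
  exact ⟨j, hj1, not_le.1 fun h3 => by have := hj2 _ h3; linarith⟩

/-- there is a cut in every interval of length `m` -/
lemma Stp.cut_in (h : Stp V U c m D) (t : ℤ) : ∃ j, t ≤ c j ∧ c j < t + m := by
  obtain ⟨j, h1, h2⟩ := h.block (t - 1)
  refine ⟨j + 1, by linarith, ?_⟩
  have := h.le j
  linarith

/-- images of agreeing pieces agree -/
lemma Stp.img (h : Stp V U c m D) (i j : ℤ) (n : ℕ) (hag : ∀ t : ℤ, 0 ≤ t → t < n → V (i + t) = V (j + t)) :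
    c (i + n) - c i = c (j + n) - c j ∧
      ∀ t, 0 ≤ t → t < c (i + n) - c i → U (c i + t) = U (c j + t) := by
  induction n with
  | zero => simp; intro t h1 h2; linarith
  | succ n ih =>
    obtain ⟨h1, h2⟩ := ih fun t h0 h1 => hag t h0 (by push_cast; linarith)
    have h3 := hag n (by positivity) (by push_cast; linarith)
    have h4 := h.len _ _ h3
    push_cast
    rw [← add_assoc, ← add_assoc]
    refine ⟨by linarith, fun t h5 h6 => ?_⟩
    rcases lt_or_ge t (c (i + n) - c i) with h7 | h7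
    · exact h2 t h5 h7
    · have := h.val _ _ h3 (t - (c (i + n) - c i)) (by linarith) (by linarith)
      rw [show c i + t = c (i + n) + (t - (c (i + n) - c i)) by ring, this]
      congr 1
      linarith

lemma Stp.img' (h : Stp V U c m D) {i j n : ℤ} (hn : 0 ≤ n)
    (hag : ∀ t, 0 ≤ t → t < n → V (i + t) = V (j + t)) :
    c (i + n) - c i = c (j + n) - c j ∧
      ∀ t, 0 ≤ t → t < c (i + n) - c i → U (c i + t) = U (c j + t) := by
  have := h.img i j n.toNat (fun t h0 h1 => hag t h0 (by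
    rwa [Int.toNat_of_nonneg hn] at h1))
  rwa [Int.toNat_of_nonneg hn] at this

/-- reading to the right from a common cut -/
lemma Stp.read (h : Stp V U c m D) {i j N : ℤ} (hag : ∀ t, 0 ≤ t → t < N → U (c i + t) = U (c j + t))
    (r : ℕ) (hr : c (i + r) + D ≤ c i + N) : ∀ t : ℤ, 0 ≤ t → t ≤ r → V (i + t) = V (j + t) := by
  induction r with
  | zero =>
    intro t h0 h1
    have ht : t = 0 := by push_cast at h1; linarith
    subst ht
    by_contra h2
    obtain ⟨s, h3, h4, h5⟩ := h.rd _ _ h2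
    simp only [add_zero] at h5
    push_cast at hr
    rw [add_zero] at hr
    exact h5 (hag s h3 (by linarith))
  | succ r ih =>
    have hm : c (i + r) ≤ c (i + (r + 1 : ℕ)) := h.mono (by push_cast; linarith)
    have ih' := ih (by linarith)
    intro t h0 h1
    rcases le_or_gt t r with h2 | h2
    · exact ih' t h0 h2
    have ht : t = (r + 1 : ℕ) := by push_cast at h1 ⊢; linarith
    subst ht
    by_contra h3
    obtain ⟨s, h4, h5, h6⟩ := h.rd _ _ h3
    obtain ⟨h7, -⟩ := h.img i j (r + 1) fun t h0 h1 => ih' t h0 (by push_cast at h1; linarith)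
    have h8 : 0 ≤ c (i + (r + 1 : ℕ)) - c i := by
      have := h.mono (show i ≤ i + (r + 1 : ℕ) by push_cast; linarith); linarith
    have := hag (c (i + (r + 1 : ℕ)) - c i + s) (by linarith) (by linarith)
    rw [show c i + (c (i + (r + 1 : ℕ)) - c i + s) = c (i + (r + 1 : ℕ)) + s by ring, h7,
      show c j + (c (j + (r + 1 : ℕ)) - c j + s) = c (j + (r + 1 : ℕ)) + s by ring] at this
    exact h6 this

lemma Stp.read' (h : Stp V U c m D) {i j N : ℤ}
    (hag : ∀ t, 0 ≤ t → t < N → U (c i + t) = U (c j + t))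
    {r : ℤ} (h0 : 0 ≤ r) (hr : c (i + r) + D ≤ c i + N) : V (i + r) = V (j + r) := by
  have := h.read hag r.toNat (by rwa [Int.toNat_of_nonneg h0]) r h0 (by
    rw [Int.toNat_of_nonneg h0])
  exact this

/-- reading to the left from a common cut -/
lemma Stp.readL (h : Stp V U c m D) {i j N : ℤ}
    (hag : ∀ t, 0 ≤ t → t < N → U (c i - 1 - t) = U (c j - 1 - t))
    {r : ℤ} (h0 : 0 ≤ r) (hr : c i - N + D ≤ c (i - r)) : V (i - 1 - r) = V (j - 1 - r) := by
  have := h.refl.read' (i := -i) (j := -j) (N := N) (fun t h1 h2 => by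
    unfold rf rc
    rw [show -1 - (-c (-(-i)) + t) = c (-(-i)) - 1 - t by ring,
      show -1 - (-c (-(-j)) + t) = c (-(-j)) - 1 - t by ring, neg_neg, neg_neg]
    exact hag t h1 h2) h0 (by
    unfold rc
    rw [show -(-i + r) = i - r by ring, neg_neg]; linarith)
  unfold rf at this
  rwa [show -1 - (-i + r) = i - 1 - r by ring, show -1 - (-j + r) = j - 1 - r by ring] at this

end

/-- From lists to the abstract step. -/
lemma Des.stp {B C : Type} [Fintype B] {H : B → List C} (hne : ∀ b, H b ≠ []) {V : ℤ → B} {U : ℤ → C}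
    {c : ℤ → ℤ} (h : Des H V U c) {m D : ℕ} (hm : ∀ b, (H b).length ≤ m)
    (hD : ∀ i j, V i ≠ V j → ∃ t : ℕ, t < D ∧ U (c i + t) ≠ U (c j + t))
    (hD' : ∀ i j, V (i - 1) ≠ V (j - 1) → ∃ t : ℕ, t < D ∧ U (c i - 1 - t) ≠ U (c j - 1 - t)) :
    Stp V U c m D := by
  refine ⟨fun j => ?_, fun j => ?_, fun i j hij => ?_, fun i j hij t h0 h1 => ?_,
    fun i j hij => ?_, fun i j hij => ?_⟩
  · rw [h.step]
    have := List.length_pos_iff.2 (hne (V j))
    push_cast
    linarith [show (1 : ℤ) ≤ (H (V j)).length by exact_mod_cast this]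
  · rw [h.step]; have := hm (V j); linarith [show ((H (V j)).length : ℤ) ≤ m by exact_mod_cast this]
  · rw [h.step, h.step, hij]; ring
  · rw [h.step] at h1
    have h2 : t.toNat < (H (V i)).length := by omega
    have h3 := h.val i t.toNat h2
    have h4 := h.val j t.toNat (by rwa [← hij])
    rw [hij, h4] at h3
    rw [Int.toNat_of_nonneg h0] at h3
    exact (Option.some_injective _ h3).symm
  · obtain ⟨t, h1, h2⟩ := hD i j hij
    exact ⟨t, by positivity, by exact_mod_cast h1, h2⟩
  · obtain ⟨t, h1, h2⟩ := hD' i j hij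
    exact ⟨t, by positivity, by exact_mod_cast h1, h2⟩

end Pool.Agent.T2h96.FC
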