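import Pool.Agent.T2h96.FC.Stm3

set_option autoImplicit false

open Filter

namespace Pool.Agent.T2h96.FC

/-- `f` has an expansion `A log n + B loglog n + O(1)` -/
def Ex (f : ℕ → ℝ) : Prop := ∃ A B R : ℝ, ∀ n : ℕ, 3 ≤ n →
  |f n - A * Real.log n - B * Real.log (Real.log n)| ≤ R

lemma Ex.add {f g : ℕ → ℝ} (hf : Ex f) (hg : Ex g) : Ex (fun n => f n + g n) := by
  obtain ⟨A, B, R, h⟩ := hf
  obtain ⟨A', B', R', h'⟩ := hg
  refine ⟨A + A', B + B', R + R', fun n hn => ?_⟩
  have h1 := h n hn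
  have h2 := h' n hn
  rw [show f n + g n - (A + A') * Real.log n - (B + B') * Real.log (Real.log n) =
    (f n - A * Real.log n - B * Real.log (Real.log n)) +
    (g n - A' * Real.log n - B' * Real.log (Real.log n)) by ring]
  exact (abs_add_le _ _).trans (add_le_add h1 h2)

lemma Ex.bdd {f : ℕ → ℝ} {R : ℝ} (h : ∀ n, 3 ≤ n → |f n| ≤ R) : Ex f :=
  ⟨0, 0, R, fun n hn => by simpa using h n hn⟩

lemma Ex.congr {f g : ℕ → ℝ} (hf : Ex f) {R : ℝ} (h : ∀ n, 3 ≤ n → |g n - f n| ≤ R) : Ex g := by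
  have h1 : Ex (fun n => g n - f n) := Ex.bdd h
  have h2 := hf.add h1
  obtain ⟨A, B, R', h3⟩ := h2
  refine ⟨A, B, R', fun n hn => ?_⟩
  have := h3 n hn
  simp only at this
  rwa [show f n + (g n - f n) = g n by ring] at this

lemma Ex.zero : Ex (fun _ => 0) := ⟨0, 0, 0, fun n _ => by simp⟩

lemma Ex.sum {ι : Type} (s : Finset ι) {f : ι → ℕ → ℝ} (h : ∀ i ∈ s, Ex (f i)) :
    Ex (fun n => ∑ i ∈ s, f i n) := by
  classical
  induction s using Finset.induction_on with
  | empty => simpa using Ex.zero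
  | insert a s ha ih =>
    have h1 := (h a (Finset.mem_insert_self _ _)).add
      (ih fun i hi => h i (Finset.mem_insert_of_mem hi))
    simpa [Finset.sum_insert ha] using h1

lemma Ex.cmul {f : ℕ → ℝ} (hf : Ex f) (a : ℝ) : Ex (fun n => a * f n) := by
  obtain ⟨A, B, R, h⟩ := hf
  refine ⟨a * A, a * B, |a| * R, fun n hn => ?_⟩
  rw [show a * f n - a * A * Real.log n - a * B * Real.log (Real.log n) =
    a * (f n - A * Real.log n - B * Real.log (Real.log n)) by ring, abs_mul]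
  exact mul_le_mul_of_nonneg_left (h n hn) (abs_nonneg _)

/-- shifting the argument costs a bounded amount -/
lemma Ex.shift {f : ℕ → ℝ} (hf : Ex f) (a : ℕ) : Ex (fun n => f (n + a)) := by
  obtain ⟨A, B, R, h⟩ := hf
  -- log (n + a) - log n and loglog (n + a) - loglog n are bounded
  have hlog : ∀ n : ℕ, 3 ≤ n → 0 ≤ Real.log ((n + a : ℕ) : ℝ) - Real.log n ∧
      Real.log ((n + a : ℕ) : ℝ) - Real.log n ≤ a := by
    intro n hn
    have hn0 : (0 : ℝ) < n := by positivity
    have hn1 : (1 : ℝ) ≤ n := by exact_mod_cast (by omega : 1 ≤ n)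
    constructor
    · have := Real.log_le_log hn0 (show (n : ℝ) ≤ ((n + a : ℕ) : ℝ) by push_cast; linarith [show (0:ℝ) ≤ a by positivity])
      linarith
    · have h1 : Real.log ((n + a : ℕ) : ℝ) - Real.log n = Real.log (((n + a : ℕ) : ℝ) / n) := by
        rw [Real.log_div (by positivity) hn0.ne']
      rw [h1]
      have h2 : Real.log (((n + a : ℕ) : ℝ) / n) ≤ ((n + a : ℕ) : ℝ) / n - 1 :=
        Real.log_le_sub_one_of_pos (by positivity)
      have h3 : ((n + a : ℕ) : ℝ) / n - 1 ≤ a := by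
        push_cast
        rw [add_div, div_self hn0.ne']
        have : (a : ℝ) / n ≤ a := div_le_self (by positivity) hn1
        linarith
      linarith
  have hl3 : ∀ n : ℕ, 3 ≤ n → 1 ≤ Real.log n := by
    intro n hn
    rw [Real.le_log_iff_exp_le (by positivity)]
    have h1 := Real.exp_one_lt_d9
    have h2 : (3 : ℝ) ≤ n := by exact_mod_cast hn
    linarith
  have hll : ∀ n : ℕ, 3 ≤ n → 0 ≤ Real.log (Real.log ((n + a : ℕ) : ℝ)) - Real.log (Real.log n) ∧
      Real.log (Real.log ((n + a : ℕ) : ℝ)) - Real.log (Real.log n) ≤ a := by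
    intro n hn
    obtain ⟨h1, h2⟩ := hlog n hn
    have h3 := hl3 n hn
    have hx0 : (0 : ℝ) < Real.log n := by linarith
    constructor
    · have := Real.log_le_log hx0 (show Real.log n ≤ Real.log ((n + a : ℕ) : ℝ) by linarith)
      linarith
    · rw [← Real.log_div (by linarith) hx0.ne']
      have h4 : Real.log (Real.log ((n + a : ℕ) : ℝ) / Real.log n) ≤
          Real.log ((n + a : ℕ) : ℝ) / Real.log n - 1 :=
        Real.log_le_sub_one_of_pos (div_pos (by linarith) hx0)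
      have h5 : Real.log ((n + a : ℕ) : ℝ) / Real.log n - 1 ≤ a := by
        rw [div_sub_one hx0.ne', div_le_iff₀ hx0]
        nlinarith [show (0:ℝ) ≤ a by positivity]
      linarith
  refine ⟨A, B, R + |A| * a + |B| * a, fun n hn => ?_⟩
  have h1 := h (n + a) (by omega)
  obtain ⟨h2, h3⟩ := hlog n hn
  obtain ⟨h4, h5⟩ := hll n hn
  have e1 : |A * (Real.log ((n + a : ℕ) : ℝ) - Real.log n)| ≤ |A| * a := by
    rw [abs_mul, abs_of_nonneg h2]
    exact mul_le_mul_of_nonneg_left h3 (abs_nonneg _)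
  have e2 : |B * (Real.log (Real.log ((n + a : ℕ) : ℝ)) - Real.log (Real.log n))| ≤ |B| * a := by
    rw [abs_mul, abs_of_nonneg h4]
    exact mul_le_mul_of_nonneg_left h5 (abs_nonneg _)
  have e3 : f (n + a) - A * Real.log n - B * Real.log (Real.log n) =
      (f (n + a) - A * Real.log ((n + a : ℕ) : ℝ) - B * Real.log (Real.log ((n + a : ℕ) : ℝ))) +
      A * (Real.log ((n + a : ℕ) : ℝ) - Real.log n) +
      B * (Real.log (Real.log ((n + a : ℕ) : ℝ)) - Real.log (Real.log n)) := by ring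
  rw [e3]
  refine (abs_add_le _ _).trans (add_le_add ((abs_add_le _ _).trans (add_le_add h1 e1)) e2)

/-- sums of eventually periodic functions over `{k | len k ≤ n}` -/
lemma cntx (hC : S_CNT) {g len : ℕ → ℝ} {θ : ℝ} {e : ℕ} {κ K : ℝ} (hθ : 1 < θ) (hκ : 0 < κ)
    (hK : 0 < K) (hl : ∀ k : ℕ, κ * ((k : ℝ) + 1) ^ e * θ ^ k ≤ len k ∧
      len k ≤ K * ((k : ℝ) + 1) ^ e * θ ^ k) {N P : ℕ} (hP : 0 < P)
    (hper : ∀ k, N ≤ k → ∀ r, g (k + r * P) = g k) :
    (∀ n : ℕ, 3 ≤ n → {k : ℕ | len k ≤ n}.Finite) ∧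
      Ex (fun n => ∑ᶠ k ∈ {k : ℕ | len k ≤ n}, g k) := by
  classical
  have hcnt := hC len θ e κ K hθ hκ hK hl P
  have hfin : ∀ n : ℕ, 3 ≤ n → {k : ℕ | len k ≤ n}.Finite := by
    intro n hn
    have h1 : {k : ℕ | len k ≤ n} = ⋃ r ∈ Finset.range P, {k : ℕ | k % P = r ∧ len k ≤ n} := by
      ext k
      simp only [Set.mem_setOf_eq, Finset.mem_range, Set.mem_iUnion]
      constructor
      · intro h; exact ⟨k % P, Nat.mod_lt _ hP, rfl, h⟩
      · rintro ⟨r, _, _, h⟩; exact h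
    rw [h1]
    refine Set.Finite.biUnion (Finset.finite_toSet _) fun r hr => ?_
    obtain ⟨K', hK'⟩ := hcnt r (Finset.mem_range.1 hr)
    exact (hK' n hn).1
  refine ⟨hfin, ?_⟩
  -- the limit values
  obtain ⟨γ, hγ⟩ : ∃ γ : ℕ → ℝ, ∀ r, γ r = g (N * P + r) := ⟨_, fun r => rfl⟩
  have hgγ : ∀ k, N * P ≤ k → g k = γ (k % P) := by
    intro k hk
    have h1 : k = (N * P + k % P) + (k / P - N) * P := by
      have h2 := Nat.div_add_mod k P
      have h3 : N ≤ k / P := (Nat.le_div_iff_mul_le hP).2 hk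
      obtain ⟨s, hs⟩ := Nat.exists_eq_add_of_le h3
      rw [hs] at h2 ⊢
      rw [Nat.add_sub_cancel_left]
      have h4 : P * (N + s) = N * P + s * P := by ring
      omega
    rw [hγ]
    conv_lhs => rw [h1]
    exact hper _ (le_trans (Nat.le_mul_of_pos_right N hP) (Nat.le_add_right _ _)) _
  have hr : ∀ r, r ∈ Finset.range P → Ex (fun n => γ r * ({k : ℕ | k % P = r ∧ len k ≤ n}.ncard : ℝ)) := by
    intro r hr
    obtain ⟨K', hK'⟩ := hcnt r (Finset.mem_range.1 hr)
    have h1 : Ex (fun n => ({k : ℕ | k % P = r ∧ len k ≤ n}.ncard : ℝ)) := by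
      refine ⟨1 / (P * Real.log θ), -(e / (P * Real.log θ)), K', fun n hn => ?_⟩
      have := (hK' n hn).2
      rwa [show ({k : ℕ | k % P = r ∧ len k ≤ n}.ncard : ℝ) - 1 / (P * Real.log θ) * Real.log n -
        -(e / (P * Real.log θ)) * Real.log (Real.log n) =
        ({k : ℕ | k % P = r ∧ len k ≤ n}.ncard : ℝ) -
        (Real.log n - e * Real.log (Real.log n)) / (P * Real.log θ) by ring]
    exact h1.cmul _
  refine (Ex.sum (Finset.range P) hr).congr (R := ∑ k ∈ Finset.range (N * P), |g k - γ (k % P)|)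
    fun n hn => ?_
  have hf := hfin n hn
  rw [finsum_mem_eq_finite_toFinset_sum _ hf]
  have e1 : ∑ k ∈ hf.toFinset, g k = ∑ k ∈ hf.toFinset, γ (k % P) +
      ∑ k ∈ hf.toFinset, (g k - γ (k % P)) := by
    rw [← Finset.sum_add_distrib]; refine Finset.sum_congr rfl fun k _ => by ring
  have e2 : ∑ k ∈ hf.toFinset, γ (k % P) =
      ∑ r ∈ Finset.range P, γ r * ({k : ℕ | k % P = r ∧ len k ≤ n}.ncard : ℝ) := by
    rw [← Finset.sum_fiberwise_of_maps_to (t := Finset.range P) (g := fun k => k % P)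
      (fun k _ => Finset.mem_range.2 (Nat.mod_lt _ hP))]
    refine Finset.sum_congr rfl fun r _ => ?_
    have h1 : ∑ k ∈ hf.toFinset with k % P = r, γ (k % P) = ∑ k ∈ hf.toFinset with k % P = r, γ r :=
      Finset.sum_congr rfl fun k hk => by rw [(Finset.mem_filter.1 hk).2]
    rw [h1, Finset.sum_const, nsmul_eq_mul, mul_comm]
    congr 2
    rw [← Set.ncard_coe_finset]
    congr 1
    ext k
    simp [and_comm]
  rw [e1, e2, add_sub_cancel_left]
  have e3 : ∑ k ∈ hf.toFinset, (g k - γ (k % P)) =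
      ∑ k ∈ hf.toFinset.filter (· < N * P), (g k - γ (k % P)) := by
    rw [Finset.sum_filter]
    refine Finset.sum_congr rfl fun k _ => ?_
    split_ifs with h
    · rfl
    · rw [hgγ k (by omega), sub_self]
  rw [e3]
  refine (Finset.abs_sum_le_sum_abs _ _).trans ?_
  refine Finset.sum_le_sum_of_subset_of_nonneg (fun k hk => ?_) fun _ _ _ => abs_nonneg _
  exact Finset.mem_range.2 (Finset.mem_filter.1 hk).2

end Pool.Agent.T2h96.FC
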