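import Pool.Agent.T2h96.FC.PartA2

set_option autoImplicit false

open Filter

namespace Pool.Agent.T2h96.FC

/-- from the reduction to the setting -/
theorem mkCtx (hDEL : S_DEL) (hPER : S_PER) (hRONE : S_RONE) {B C : Type} [Fintype B] [Fintype C]
    {τ : B → List B} {f : B → List C} {V : ℤ → B} {U : ℤ → C} {c d : ℤ → ℤ} (eτ : Elem τ)
    (ef : Elem f) (h2 : ∀ b, 2 ≤ (τ b).length) (hV : Des τ V V c) (hU : Des f V U d) :
    ∃ m D Q q, Ctx V U c d m D Q q := by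
  classical
  obtain ⟨nτ, Dτ, hDτ⟩ := hDEL B B τ eτ
  obtain ⟨nf, Df, hDf⟩ := hDEL B C f ef
  obtain ⟨D, hD⟩ : ∃ D, D = Dτ + Df := ⟨_, rfl⟩
  obtain ⟨m, hm⟩ : ∃ m, m = (Finset.univ.sup fun b => (τ b).length) +
    (Finset.univ.sup fun b => (f b).length) := ⟨_, rfl⟩
  have hm1 : ∀ b, (τ b).length ≤ m := fun b => by
    rw [hm]
    exact le_trans (Finset.le_sup (f := fun b => (τ b).length) (Finset.mem_univ b))
      (Nat.le_add_right _ _)
  have hm2 : ∀ b, (f b).length ≤ m := fun b => by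
    rw [hm]
    exact le_trans (Finset.le_sup (f := fun b => (f b).length) (Finset.mem_univ b))
      (Nat.le_add_left _ _)
  have sV : Stp V V c m D := by
    obtain ⟨h3, h4⟩ := hDτ V V V V c c hV hV
    refine hV.stp nτ hm1 (fun i j hij => ?_) fun i j hij => ?_
    · obtain ⟨t, h5, h6⟩ := h3 i j hij
      exact ⟨t, by omega, h6⟩
    · obtain ⟨t, h5, h6⟩ := h4 i j hij
      exact ⟨t, by omega, h6⟩
  have sU : Stp V U d m D := by
    obtain ⟨h3, h4⟩ := hDf V V U U d d hU hU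
    refine hU.stp nf hm2 (fun i j hij => ?_) fun i j hij => ?_
    · obtain ⟨t, h5, h6⟩ := h3 i j hij
      exact ⟨t, by omega, h6⟩
    · obtain ⟨t, h5, h6⟩ := h4 i j hij
      exact ⟨t, by omega, h6⟩
  obtain ⟨Q0, hQ0, hQ0'⟩ := hPER B τ eτ h2 V c hV
  have ptV : PT V Q0 := by
    refine ⟨hQ0, fun p hp => ?_⟩
    obtain ⟨l, hl⟩ := hQ0' p hp
    refine ⟨l, fun a b hab hper => ?_⟩
    have h3 := hl a (b - a).toNat (by omega)
    have h4 : (((b - a).toNat : ℕ) : ℤ) = b - a := Int.toNat_of_nonneg (by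
      linarith [show (0 : ℤ) ≤ l by positivity])
    rw [h4, show a + (b - a) = b by ring] at h3
    exact h3 hper
  obtain ⟨q0, ptU⟩ := sU.ptU ptV
  refine ⟨m, D, (D + 1) * Q0, (D + 1) * q0, sV, sU, fun j => ?_, ptV.mul (Nat.succ_pos _),
    ptU.mul (Nat.succ_pos _), ?_, ?_, ?_, ?_⟩
  · rw [hV.step j]
    have := h2 (V j)
    have h3 : (2 : ℤ) ≤ (τ (V j)).length := by exact_mod_cast this
    linarith
  · have := Nat.le_mul_of_pos_right (D + 1) ptV.1; omega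
  · have := Nat.le_mul_of_pos_right (D + 1) ptU.1; omega
  · obtain ⟨P, hP, h3⟩ := hRONE B B τ eτ
    exact ⟨P, hP, h3 V V c hV⟩
  · obtain ⟨P, hP, h3⟩ := hRONE B C f ef
    exact ⟨P, hP, h3 V U d hU⟩

/-- telescoping the second difference -/
lemma pz_tel (hSD : S_SD) {C : Type} [Fintype C] (T : ℤ → C) (n : ℕ) :
    (pz T (n + 1) : ℤ) - pz T n = (pz T 1 : ℤ) - pz T 0 + ∑ l ∈ Finset.range n,
      ∑ w ∈ (Set.toFinite (Set.range (wd T l))).toFinset, mul T w := by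
  induction n with
  | zero => simp
  | succ n ih =>
    rw [Finset.sum_range_succ, ← hSD C T n]
    have e : (pz T (n + 1 + 1) : ℤ) = pz T (n + 2) := rfl
    rw [e]; linarith

/-- splitting the sum over the words -/
lemma split_sum {C : Type} [Fintype C] (T : ℤ → C) (q K l : ℕ) :
    ∑ w ∈ (Set.toFinite (Set.range (wd T l))).toFinset, mul T w =
      ∑ w ∈ (Set.toFinite (wd T l '' {i | NPK q K (wd T l i)})).toFinset, mul T w +
      ∑ w ∈ (Set.toFinite (wd T l '' {i | ¬ NPK q K (wd T l i)})).toFinset, mul T w := by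
  classical
  rw [← Finset.sum_union]
  · refine Finset.sum_congr ?_ fun _ _ => rfl
    ext w
    simp only [Set.Finite.mem_toFinset, Finset.mem_union, Set.mem_range, Set.mem_image,
      Set.mem_setOf_eq]
    constructor
    · rintro ⟨i, rfl⟩
      by_cases h : NPK q K (wd T l i)
      · exact Or.inl ⟨i, h, rfl⟩
      · exact Or.inr ⟨i, h, rfl⟩
    · rintro (⟨i, _, h⟩ | ⟨i, _, h⟩) <;> exact ⟨i, h⟩
  · rw [Finset.disjoint_left]
    intro w hw hw'
    simp only [Set.Finite.mem_toFinset, Set.mem_image, Set.mem_setOf_eq] at hw hw'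
    obtain ⟨i, hi, rfl⟩ := hw
    obtain ⟨i', hi', h⟩ := hw'
    rw [h] at hi'
    exact hi' hi

/-- the expansion of the first difference -/
theorem main_ex (hUL : S_UL) (hCNT : S_CNT) (hAH : S_AH) (hNPC : S_NPC) (hSUR : S_SUR)
    (hINJ : S_INJ) (hCC : S_CC) (hCLQ : S_CLQ) (hCLP : S_CLP) (hMLP : S_MLP) (hSAT : S_SAT)
    (hLV : S_LV) (hGRA : S_GRA) (hRC : S_RC) (hEXA : S_EXA) (hSD : S_SD)
    {B C : Type} [Fintype B] [Fintype C] {V : ℤ → B} {U : ℤ → C}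
    {c d : ℤ → ℤ} {m D Q q : ℕ} (h : Ctx V U c d m D Q q) (hGR : GR c d) :
    Ex (fun n => ((((pz U (n + 1) : ℕ) : ℤ) - ((pz U n : ℕ) : ℤ) : ℤ) : ℝ)) := by
  classical
  obtain ⟨K0, hK0⟩ := partA hUL hCNT hAH hNPC hSUR hINJ hCC hCLQ hCLP hMLP hSAT hLV hGRA h hGR
  obtain ⟨x0, hx0⟩ := hRC B C V U c d m D Q q h hGR
  obtain ⟨K, hK⟩ : ∃ K, K = K0 + x0 := ⟨_, rfl⟩
  have h1 := hK0 K (by omega)
  obtain ⟨A, B', R, h2⟩ := hx0 (K + 1) (by omega)
  have h2' : Ex (fun n => ((∑ l ∈ Finset.range n, NX U q (K + 1) (K + 1) l : ℕ) : ℝ)) :=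
    ⟨A, B', R, h2⟩
  obtain ⟨R', h3⟩ := hEXA C U q K h.hq.1
  refine (h1.add h2').congr (R := |(((pz U 1 : ℤ) - pz U 0 : ℤ) : ℝ)| + R') fun n _ => ?_
  have h4 := pz_tel hSD U n
  simp_rw [split_sum U q K] at h4
  rw [Finset.sum_add_distrib] at h4
  rw [h4]
  have h5 := h3 n
  have h6 : |((∑ l ∈ Finset.range n,
      ∑ w ∈ (Set.toFinite (wd U l '' {i | NPK q K (wd U l i)})).toFinset, mul U w -
    ∑ l ∈ Finset.range n, (NX U q (K + 1) (K + 1) l : ℤ) : ℤ) : ℝ)| ≤ R' := by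
    rw [← Int.cast_abs]
    exact_mod_cast h5
  have e : ((((pz U 1 : ℤ) - pz U 0 + (∑ l ∈ Finset.range n,
      ∑ w ∈ (Set.toFinite (wd U l '' {i | NPK q K (wd U l i)})).toFinset, mul U w +
      ∑ l ∈ Finset.range n,
      ∑ w ∈ (Set.toFinite (wd U l '' {i | ¬ NPK q K (wd U l i)})).toFinset, mul U w) : ℤ) : ℝ) -
      (((∑ l ∈ Finset.range n,
      ∑ w ∈ (Set.toFinite (wd U l '' {i | ¬ NPK q K (wd U l i)})).toFinset, mul U w : ℤ) : ℝ) +
      ((∑ l ∈ Finset.range n, NX U q (K + 1) (K + 1) l : ℕ) : ℝ))) =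
      (((pz U 1 : ℤ) - pz U 0 : ℤ) : ℝ) + ((∑ l ∈ Finset.range n,
      ∑ w ∈ (Set.toFinite (wd U l '' {i | NPK q K (wd U l i)})).toFinset, mul U w -
    ∑ l ∈ Finset.range n, (NX U q (K + 1) (K + 1) l : ℤ) : ℤ) : ℝ) := by
    push_cast; ring
  rw [e]
  exact (abs_add_le _ _).trans (add_le_add le_rfl h6)

lemma pc_mono {k : ℕ} (u : ℕ → Fin k) (n : ℕ) : pc u n ≤ pc u (n + 1) := by
  have h1 : Set.range (fun i : ℕ => List.ofFn (fun j : Fin n => u (i + j.val))) =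
      (List.take n) '' Set.range (fun i : ℕ => List.ofFn (fun j : Fin (n + 1) => u (i + j.val))) := by
    rw [← Set.range_comp]
    congr 1
    funext i
    simp only [Function.comp]
    apply List.ext_getElem
    · simp
    · intro t h1 h2
      rw [List.getElem_take, List.getElem_ofFn, List.getElem_ofFn]
  unfold pc
  rw [h1]
  refine Set.ncard_image_le ?_
  refine (List.finite_length_eq (Fin k) (n + 1)).subset ?_
  rintro _ ⟨i, rfl⟩
  simp

/-- the final theorem -/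
theorem main_thm (hUL : S_UL) (hCNT : S_CNT) (hAH : S_AH) (hNPC : S_NPC) (hSUR : S_SUR)
    (hINJ : S_INJ) (hCC : S_CC) (hCLQ : S_CLQ) (hCLP : S_CLP) (hMLP : S_MLP) (hSAT : S_SAT)
    (hLV : S_LV) (hGRA : S_GRA) (hRC : S_RC) (hEXA : S_EXA) (hSD : S_SD) (hDEL : S_DEL)
    (hPER : S_PER) (hRONE : S_RONE) (hGRO : S_GRO) (hRED : S_RED) (hPU : S_PU) (hUNB : S_UNB)
    (hASY : S_ASY) (k : ℕ) (σ : Fin k → List (Fin k)) (a : Fin k) (u : ℕ → Fin k)
    (h1 : ∀ b : Fin k, Tendsto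
      (fun m : ℕ => ((fun w : List (Fin k) => w.flatMap σ)^[m] [b]).length) atTop atTop)
    (h2 : (σ a).head? = some a) (h3 : 2 ≤ (σ a).length)
    (h4 : ∀ m i : ℕ, i < ((fun w : List (Fin k) => w.flatMap σ)^[m] [a]).length →
      ((fun w : List (Fin k) => w.flatMap σ)^[m] [a])[i]? = some (u i))
    (h5 : ∀ b : Fin k, ∃ i : ℕ, u i = b)
    (h6 : ¬ (∀ b c : Fin k, Asymptotics.IsTheta atTop
        (fun m : ℕ => (((fun w : List (Fin k) => w.flatMap σ)^[m] [b]).length : ℝ))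
        (fun m : ℕ => (((fun w : List (Fin k) => w.flatMap σ)^[m] [c]).length : ℝ)))) :
    ∃ C : ℝ, 0 < C ∧
      (Asymptotics.IsEquivalent atTop
        (fun n : ℕ => (pc u (n + 1) : ℝ) - (pc u n : ℝ))
        (fun n : ℕ => C * Real.log (Real.log (n : ℝ))) ∨
       Asymptotics.IsEquivalent atTop
        (fun n : ℕ => (pc u (n + 1) : ℝ) - (pc u n : ℝ))
        (fun n : ℕ => C * Real.log (n : ℝ))) := by
  obtain ⟨l, τ, f, V, U, c, d, eτ, ef, g2, hV, hU, hn, hs⟩ := hRED k σ a u h1 h2 h3 h4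
  obtain ⟨m, D, Q, q, hC⟩ := mkCtx hDEL hPER hRONE eτ ef g2 hV hU
  have hne : ∀ b, f b ≠ [] := (hDEL _ _ f ef).1
  have hGR : GR c d := hGRO _ _ τ f V U c d g2 hne hV hU
  obtain ⟨A, B', R, hex⟩ := main_ex hUL hCNT hAH hNPC hSUR hINJ hCC hCLQ hCLP hMLP hSAT hLV hGRA
    hRC hEXA hSD hC hGR
  have hpu := hPU (Fin k) u U hn hs
  refine hASY (fun n => (pc u (n + 1) : ℝ) - (pc u n : ℝ)) A B' (R + 1) (fun n hn3 => ?_)
    (fun n => ?_) fun M => ?_
  · have h7 := hex n hn3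
    have e : ((((pz U (n + 1) : ℕ) : ℤ) - ((pz U n : ℕ) : ℤ) : ℤ) : ℝ) =
        ((pc u (n + 1) : ℝ) - (pc u n : ℝ)) + 1 := by
      rw [hpu n, hpu (n + 1)]; push_cast; ring
    simp only [e] at h7
    have e2 : (pc u (n + 1) : ℝ) - (pc u n : ℝ) - A * Real.log n - B' * Real.log (Real.log n) =
      ((pc u (n + 1) : ℝ) - (pc u n : ℝ) + 1 - A * Real.log n - B' * Real.log (Real.log n)) + (-1) := by
      ring
    rw [e2]
    refine (abs_add_le _ _).trans (add_le_add h7 ?_)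
    simp
  · have := pc_mono u n
    have h7 : (pc u n : ℝ) ≤ pc u (n + 1) := by exact_mod_cast this
    linarith
  · by_contra hM
    push Not at hM
    have h7 : ∀ n : ℕ, (pc u n : ℝ) ≤ pc u 0 + M * n := by
      intro n
      induction n with
      | zero => simp
      | succ n ih => have := hM n; push_cast; linarith
    obtain ⟨N, hN⟩ := exists_nat_gt (M + pc u 0)
    obtain ⟨n, hn0, hn1⟩ := hUNB k σ a u h1 h2 h3 h4 h5 h6 N
    have h8 := h7 n
    have h9 : (N : ℝ) * n ≤ pc u n := by exact_mod_cast hn1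
    have h10 : (1 : ℝ) ≤ n := by exact_mod_cast hn0
    have h11 : (0 : ℝ) ≤ pc u 0 := by positivity
    nlinarith

end Pool.Agent.T2h96.FC
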