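import Pool.Agent.T2h96.FC.Ref

set_option autoImplicit false

namespace Pool.Agent.T2h96.FC

section

variable {B C : Type} {V : ℤ → B} {U : ℤ → C} {c d : ℤ → ℤ} {m D : ℕ}

/-- images under `k` steps inside `V` -/
lemma img_it (hV : Stp V V c m D) (k : ℕ) : ∀ {i j n : ℤ}, 0 ≤ n →
    (∀ t, 0 ≤ t → t < n → V (i + t) = V (j + t)) →
    c^[k] i ≤ c^[k] (i + n) ∧ c^[k] (i + n) - c^[k] i = c^[k] (j + n) - c^[k] j ∧
      ∀ t, 0 ≤ t → t < c^[k] (i + n) - c^[k] i → V (c^[k] i + t) = V (c^[k] j + t) := by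
  induction k with
  | zero =>
    intro i j n hn h
    refine ⟨by simpa using hn, by simp, fun t h0 h1 => ?_⟩
    simp only [Function.iterate_zero, id_eq] at h1 ⊢
    exact h t h0 (by linarith)
  | succ k ih =>
    intro i j n hn h
    obtain ⟨h0, h1, h2⟩ := ih hn h
    obtain ⟨h3, h4⟩ := hV.img' (i := c^[k] i) (j := c^[k] j) (n := c^[k] (i + n) - c^[k] i)
      (by linarith) h2
    rw [show c^[k] i + (c^[k] (i + n) - c^[k] i) = c^[k] (i + n) by ring] at h3 h4
    rw [show c^[k] j + (c^[k] (i + n) - c^[k] i) = c^[k] (j + n) by linarith] at h3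
    simp only [Function.iterate_succ_apply']
    exact ⟨hV.mono h0, h3, h4⟩

/-- images under `k` steps `V → V` and one step `V → U` -/
lemma Eimg (hV : Stp V V c m D) (hU : Stp V U d m D) (k : ℕ) {i j n : ℤ} (hn : 0 ≤ n)
    (h : ∀ t, 0 ≤ t → t < n → V (i + t) = V (j + t)) :
    d (c^[k] (i + n)) - d (c^[k] i) = d (c^[k] (j + n)) - d (c^[k] j) ∧
      ∀ t, 0 ≤ t → t < d (c^[k] (i + n)) - d (c^[k] i) →
        U (d (c^[k] i) + t) = U (d (c^[k] j) + t) := by
  obtain ⟨h0, h1, h2⟩ := img_it hV k hn h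
  obtain ⟨h3, h4⟩ := hU.img' (i := c^[k] i) (j := c^[k] j) (n := c^[k] (i + n) - c^[k] i)
    (by linarith) h2
  rw [show c^[k] i + (c^[k] (i + n) - c^[k] i) = c^[k] (i + n) by ring] at h3 h4
  rw [show c^[k] j + (c^[k] (i + n) - c^[k] i) = c^[k] (j + n) by linarith] at h3
  exact ⟨h3, h4⟩

lemma it_lb (hV : Stp V V c m D) (k : ℕ) {i j : ℤ} (hij : i ≤ j) :
    c^[k] i + (j - i) ≤ c^[k] j := by
  induction k with
  | zero => simp
  | succ k ih =>
    simp only [Function.iterate_succ_apply']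
    have := hV.lb' (show c^[k] i ≤ c^[k] j by linarith)
    linarith

lemma e_lb (hV : Stp V V c m D) (hU : Stp V U d m D) (k : ℕ) {i j : ℤ} (hij : i ≤ j) :
    d (c^[k] i) + (j - i) ≤ d (c^[k] j) := by
  have h1 := it_lb hV k hij
  have := hU.lb' (show c^[k] i ≤ c^[k] j by linarith)
  linarith

lemma e_mono (hV : Stp V V c m D) (hU : Stp V U d m D) (k : ℕ) {i j : ℤ} (hij : i ≤ j) :
    d (c^[k] i) ≤ d (c^[k] j) := by
  have := e_lb hV hU k hij; linarith

lemma e_inj (hV : Stp V V c m D) (hU : Stp V U d m D) (k : ℕ) {i j : ℤ}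
    (hij : d (c^[k] i) = d (c^[k] j)) : i = j := by
  rcases le_total i j with h | h
  · have := e_lb hV hU k h; linarith
  · have := e_lb hV hU k h; linarith

/-- the iterates of the reflected cut function -/
lemma rc_it (c : ℤ → ℤ) (k : ℕ) (y : ℤ) : (rc c)^[k] (-y) = -(c^[k] y) := by
  induction k with
  | zero => rfl
  | succ k ih => rw [Function.iterate_succ_apply', Function.iterate_succ_apply', ih]; simp [rc]

/-- the next letters of a family are eventually periodic in the level, all multiples -/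
theorem nl_per' (hV : Stp V V c m D) (hg : ∀ j, c j + 2 ≤ c (j + 1)) (hU : Stp V U d m D) [Finite B] :
    ∃ N P : ℕ, 0 < P ∧ ∀ k, N ≤ k → ∀ n : ℕ, ∀ F, NC V F id → ∀ r r',
      IsR U F (fun j => d (c^[k] j)) r → IsR U F (fun j => d (c^[k + n * P] j)) r' →
      ∀ j ∈ F, U (d (c^[k] j) + r) = U (d (c^[k + n * P] j) + r') := by
  obtain ⟨N, P, hP, h⟩ := nl_per hV hg hU
  refine ⟨N, P, hP, fun k hk n F hF r => ?_⟩
  induction n with
  | zero =>
    intro r' hr hr' j hj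
    rw [zero_mul, add_zero] at hr' ⊢
    rw [hr.unique hr']
  | succ n ih =>
    intro r' hr hr' j hj
    obtain ⟨s, hs, -⟩ := U_isR hV hU hF (k + n * P)
    rw [ih s hr hs j hj]
    have e1 : k + (n + 1) * P = k + n * P + P := by ring
    rw [e1] at hr' ⊢
    exact h (k + n * P) (by omega) F hF s r' hs hr' j hj

/-- a family with common extension `a` in `V` has a common extension in `U` at every level -/
lemma IsR.up (hV : Stp V V c m D) (hU : Stp V U d m D) (k : ℕ) {X : Set ℤ} {a : ℤ}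
    (h : IsR V X id a) : ∃ r, IsR U ((fun x => x + a) '' X) (fun j => d (c^[k] j)) r ∧ ∀ x ∈ X,
      IsR U X (fun j => d (c^[k] j)) (d (c^[k] (x + a)) - d (c^[k] x) + r) := by
  have hF : NC V ((fun x => x + a) '' X) id := by
    obtain ⟨i, hi, j, hj, h1⟩ := h.2.2
    exact ⟨i + a, ⟨i, hi, rfl⟩, j + a, ⟨j, hj, rfl⟩, h1⟩
  obtain ⟨r, hr, -⟩ := U_isR hV hU hF k
  refine ⟨r, hr, fun x hx => ?_⟩
  have hE : ∀ y ∈ X, d (c^[k] (x + a)) - d (c^[k] x) = d (c^[k] (y + a)) - d (c^[k] y) ∧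
      ∀ t, 0 ≤ t → t < d (c^[k] (x + a)) - d (c^[k] x) →
        U (d (c^[k] x) + t) = U (d (c^[k] y) + t) := fun y hy =>
    Eimg hV hU k h.1 fun t h0 h1 => h.2.1 x hx y hy t h0 h1
  have hp := e_mono hV hU k (show x ≤ x + a by linarith [h.1])
  refine ⟨by linarith [hr.1], fun i hi j hj t h0 h1 => ?_, ?_⟩
  · obtain ⟨e1, e2⟩ := hE i hi
    obtain ⟨e3, e4⟩ := hE j hj
    rcases lt_or_ge t (d (c^[k] (x + a)) - d (c^[k] x)) with h2 | h2
    · simp only at e2 e4 ⊢
      rw [← e2 t h0 h2, ← e4 t h0 h2]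
    · have := hr.2.1 (i + a) ⟨i, hi, rfl⟩ (j + a) ⟨j, hj, rfl⟩
        (t - (d (c^[k] (x + a)) - d (c^[k] x))) (by linarith) (by linarith)
      simp only at this ⊢
      rw [show d (c^[k] i) + t = d (c^[k] (i + a)) + (t - (d (c^[k] (x + a)) - d (c^[k] x))) by linarith,
        this]
      congr 1; linarith
  · obtain ⟨_, ⟨i, hi, rfl⟩, _, ⟨j, hj, rfl⟩, h1⟩ := hr.2.2
    refine ⟨i, hi, j, hj, ?_⟩
    obtain ⟨e1, -⟩ := hE i hi
    obtain ⟨e3, -⟩ := hE j hj
    simp only at h1 ⊢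
    rwa [show d (c^[k] i) + (d (c^[k] (x + a)) - d (c^[k] x) + r) = d (c^[k] (i + a)) + r by linarith,
      show d (c^[k] j) + (d (c^[k] (x + a)) - d (c^[k] x) + r) = d (c^[k] (j + a)) + r by linarith]

end

end Pool.Agent.T2h96.FC
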