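import Pool.Agent.T2h96.FC.Bas

set_option autoImplicit false

namespace Pool.Agent.T2h96.FC

/-- the letters at the positions `P j`, `j ∈ F`, are not all equal -/
def NC {C : Type} (T : ℤ → C) (F : Set ℤ) (P : ℤ → ℤ) : Prop := ∃ i ∈ F, ∃ j ∈ F, T (P i) ≠ T (P j)

/-- `r` is the length of the common right extension from the positions `e j`, `j ∈ F` -/
def IsR {C : Type} (T : ℤ → C) (F : Set ℤ) (e : ℤ → ℤ) (r : ℤ) : Prop :=
  0 ≤ r ∧ (∀ i ∈ F, ∀ j ∈ F, ∀ t, 0 ≤ t → t < r → T (e i + t) = T (e j + t)) ∧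
    ∃ i ∈ F, ∃ j ∈ F, T (e i + r) ≠ T (e j + r)

lemma IsR.unique {C : Type} {T : ℤ → C} {F : Set ℤ} {e : ℤ → ℤ} {r r' : ℤ} (h : IsR T F e r)
    (h' : IsR T F e r') : r = r' := by
  rcases lt_trichotomy r r' with h1 | h1 | h1
  · obtain ⟨i, hi, j, hj, h2⟩ := h.2.2
    exact absurd (h'.2.1 i hi j hj r h.1 h1) h2
  · exact h1
  · obtain ⟨i, hi, j, hj, h2⟩ := h'.2.2
    exact absurd (h.2.1 i hi j hj r' h'.1 h1) h2

section

variable {B C : Type} {V : ℤ → B} {U : ℤ → C} {c d : ℤ → ℤ} {m D : ℕ}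

lemma Stp.bet (h : Stp V U c m D) {F : Set ℤ} {P : ℤ → ℤ} (hP : NC V F P) :
    ∃ β : ℤ, β < D ∧ IsR U F (fun j => c (P j)) β := by
  obtain ⟨i, hi, j, hj, h1⟩ := hP
  obtain ⟨t, ht0, htD, ht⟩ := h.rd _ _ h1
  have hex : ∃ s : ℕ, ∃ i ∈ F, ∃ j ∈ F, U (c (P i) + s) ≠ U (c (P j) + s) :=
    ⟨t.toNat, i, hi, j, hj, by rwa [Int.toNat_of_nonneg ht0]⟩
  classical
  refine ⟨Nat.find hex, ?_, by positivity, fun i hi j hj s hs0 hs => ?_, ?_⟩
  · have : Nat.find hex ≤ t.toNat := Nat.find_min' hex ⟨i, hi, j, hj, by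
      rwa [Int.toNat_of_nonneg ht0]⟩
    omega
  · have h2 := Nat.find_min hex (m := s.toNat) (by omega)
    push Not at h2
    have := h2 i hi j hj
    rwa [Int.toNat_of_nonneg hs0] at this
  · exact Nat.find_spec hex

/-- lifting common extensions through a step -/
lemma Stp.lift (h : Stp V U c m D) {F : Set ℤ} {e : ℤ → ℤ} {ρ β : ℤ} (h1 : IsR V F e ρ)
    (h2 : IsR U F (fun j => c (e j + ρ)) β) {j : ℤ} (hj : j ∈ F) :
    IsR U F (fun j => c (e j)) (c (e j + ρ) - c (e j) + β) := by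
  have h3 : ∀ i ∈ F, ∀ j ∈ F, c (e i + ρ) - c (e i) = c (e j + ρ) - c (e j) ∧
      ∀ t, 0 ≤ t → t < c (e i + ρ) - c (e i) → U (c (e i) + t) = U (c (e j) + t) :=
    fun i hi j hj => h.img' h1.1 (h1.2.1 i hi j hj)
  have h4 : 0 ≤ c (e j + ρ) - c (e j) := by
    have := h.mono (show e j ≤ e j + ρ by linarith [h1.1]); linarith
  refine ⟨by linarith [h2.1], fun i hi i' hi' t ht0 ht => ?_, ?_⟩
  · obtain ⟨e1, e2⟩ := h3 i hi i' hi'
    obtain ⟨e3, -⟩ := h3 i hi j hj
    rcases lt_or_ge t (c (e i + ρ) - c (e i)) with h5 | h5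
    · exact e2 t ht0 h5
    · have := h2.2.1 i hi i' hi' (t - (c (e i + ρ) - c (e i))) (by linarith) (by linarith)
      simp only at this
      rw [show c (e i) + t = c (e i + ρ) + (t - (c (e i + ρ) - c (e i))) by ring, this]
      congr 1; linarith
  · obtain ⟨i, hi, i', hi', h5⟩ := h2.2.2
    refine ⟨i, hi, i', hi', ?_⟩
    simp only at h5 ⊢
    obtain ⟨e1, -⟩ := h3 i hi j hj
    obtain ⟨e2, -⟩ := h3 i' hi' j hj
    rwa [show c (e i) + (c (e j + ρ) - c (e j) + β) = c (e i + ρ) + β by linarith,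
      show c (e i') + (c (e j + ρ) - c (e j) + β) = c (e i' + ρ) + β by linarith]

/-- the extension length beyond `P`, one step -/
noncomputable def bt {C : Type} (U : ℤ → C) (c : ℤ → ℤ) (F : Set ℤ) (P : ℤ → ℤ) : ℤ := by
  classical
  exact if h : ∃ β, IsR U F (fun j => c (P j)) β then h.choose else 0

lemma bt_spec (h : Stp V U c m D) {F : Set ℤ} {P : ℤ → ℤ} (hP : NC V F P) :
    IsR U F (fun j => c (P j)) (bt U c F P) ∧ bt U c F P < D := by
  obtain ⟨β, h1, h2⟩ := h.bet hP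
  have h3 : ∃ β, IsR U F (fun j => c (P j)) β := ⟨β, h2⟩
  have h4 : IsR U F (fun j => c (P j)) (bt U c F P) := by
    unfold bt; rw [dif_pos h3]; exact h3.choose_spec
  exact ⟨h4, by rw [h4.unique h2]; exact h1⟩

/-- the positions where the letters of the family differ, after `k` steps -/
noncomputable def PP {B : Type} (V : ℤ → B) (c : ℤ → ℤ) (F : Set ℤ) : ℕ → ℤ → ℤ
  | 0, j => j
  | k + 1, j => c (PP V c F k j) + bt V c F (PP V c F k)

lemma PP_NC (hV : Stp V V c m D) {F : Set ℤ} (hF : NC V F id) (k : ℕ) : NC V F (PP V c F k) := by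
  induction k with
  | zero => exact hF
  | succ k ih => exact (bt_spec hV ih).1.2.2

lemma PP_isR (hV : Stp V V c m D) {F : Set ℤ} (hF : NC V F id) (k : ℕ) :
    ∃ ρ, IsR V F (fun j => c^[k] j) ρ ∧ ∀ j ∈ F, PP V c F k j = c^[k] j + ρ := by
  induction k with
  | zero =>
    obtain ⟨i, hi, j, hj, h⟩ := hF
    refine ⟨0, ⟨le_rfl, fun i hi j hj t h1 h2 => by linarith, i, hi, j, hj, by simpa using h⟩,
      fun j _ => by simp [PP]⟩
  | succ k ih =>
    obtain ⟨ρ, h1, h2⟩ := ih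
    obtain ⟨i, hi, -⟩ := id hF
    obtain ⟨h3, -⟩ := bt_spec hV (PP_NC hV hF k)
    have h4 : IsR V F (fun j => c (c^[k] j + ρ)) (bt V c F (PP V c F k)) := by
      refine ⟨h3.1, fun a ha b hb t ht0 ht => ?_, ?_⟩
      · have := h3.2.1 a ha b hb t ht0 ht
        simp only at this
        rwa [h2 a ha, h2 b hb] at this
      · obtain ⟨a, ha, b, hb, h5⟩ := h3.2.2
        refine ⟨a, ha, b, hb, ?_⟩
        simp only at h5
        rwa [h2 a ha, h2 b hb] at h5
    have h5 : ∀ j ∈ F, IsR V F (fun j => c (c^[k] j)) (c (c^[k] j + ρ) - c (c^[k] j) +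
        bt V c F (PP V c F k)) := fun j hj => hV.lift h1 h4 hj
    refine ⟨c (c^[k] i + ρ) - c (c^[k] i) + bt V c F (PP V c F k), ?_, fun j hj => ?_⟩
    · have := h5 i hi
      simpa only [Function.iterate_succ_apply'] using this
    · have e1 := (h5 j hj).unique (h5 i hi)
      show c (PP V c F k j) + bt V c F (PP V c F k) = _
      rw [h2 j hj, Function.iterate_succ_apply']
      linarith

lemma U_isR (hV : Stp V V c m D) (hU : Stp V U d m D) {F : Set ℤ} (hF : NC V F id) (k : ℕ) :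
    ∃ r, IsR U F (fun j => d (c^[k] j)) r ∧
      ∀ j ∈ F, d (c^[k] j) + r = d (PP V c F k j) + bt U d F (PP V c F k) := by
  obtain ⟨ρ, h1, h2⟩ := PP_isR hV hF k
  obtain ⟨i, hi, -⟩ := id hF
  obtain ⟨h3, -⟩ := bt_spec hU (PP_NC hV hF k)
  have h4 : IsR U F (fun j => d (c^[k] j + ρ)) (bt U d F (PP V c F k)) := by
    refine ⟨h3.1, fun a ha b hb t ht0 ht => ?_, ?_⟩
    · have := h3.2.1 a ha b hb t ht0 ht
      simp only at this
      rwa [h2 a ha, h2 b hb] at this
    · obtain ⟨a, ha, b, hb, h5⟩ := h3.2.2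
      refine ⟨a, ha, b, hb, ?_⟩
      simp only at h5
      rwa [h2 a ha, h2 b hb] at h5
  have h5 : ∀ j ∈ F, IsR U F (fun j => d (c^[k] j)) (d (c^[k] j + ρ) - d (c^[k] j) +
      bt U d F (PP V c F k)) := fun j hj => hU.lift h1 h4 hj
  refine ⟨_, h5 i hi, fun j hj => ?_⟩
  rw [(h5 i hi).unique (h5 j hj), h2 j hj]
  ring

/-- the windows of length `D` -/
def wi {C : Type} (T : ℤ → C) (D : ℕ) (i : ℤ) : Fin D → C := fun t => T (i + t)

lemma wi_eq {C : Type} {T : ℤ → C} {D : ℕ} {i j : ℤ} : wi T D i = wi T D j ↔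
    ∀ t : ℤ, 0 ≤ t → t < D → T (i + t) = T (j + t) := by
  constructor
  · intro h t h0 h1
    have := congrFun h ⟨t.toNat, by omega⟩
    simpa [wi, Int.toNat_of_nonneg h0] using this
  · intro h
    funext t
    exact h t (by positivity) (by exact_mod_cast t.2)

/-- equal windows have equal images -/
lemma Stp.wimg (h : Stp V U c m D) {g : ℤ} (hg : ∀ j, c j + g ≤ c (j + 1)) (_h0g : 0 ≤ g) {i j : ℤ} {n : ℕ}
    (hw : wi V n i = wi V n j) : ∀ t, 0 ≤ t → t < g * n → U (c i + t) = U (c j + t) := by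
  have h1 := h.img i j n (wi_eq.1 hw)
  have h2 : ∀ n : ℕ, c i + g * n ≤ c (i + n) := by
    intro n
    induction n with
    | zero => simp
    | succ n ih => have := hg (i + n); push_cast; rw [← add_assoc]; nlinarith
  intro t ht0 ht
  exact h1.2 t ht0 (by have := h2 n; linarith)

/-- two families with the same windows -/
def Sim {B : Type} (V : ℤ → B) (D : ℕ) (F : Set ℤ) (P : ℤ → ℤ) (F' : Set ℤ) (P' : ℤ → ℤ) : Prop :=
  (∀ j ∈ F, ∃ j' ∈ F', wi V D j = wi V D j' ∧ wi V D (P j) = wi V D (P' j')) ∧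
    (∀ j' ∈ F', ∃ j ∈ F, wi V D j = wi V D j' ∧ wi V D (P j) = wi V D (P' j'))

lemma bt_sim (h : Stp V U c m D) {F F' : Set ℤ} {P P' : ℤ → ℤ}
    (hP : NC V F P) (hP' : NC V F' P') (hs : Sim V D F P F' P') : bt U c F P = bt U c F' P' := by
  obtain ⟨h1, h2⟩ := bt_spec h hP
  obtain ⟨h3, h4⟩ := bt_spec h hP'
  have hg : ∀ j, c j + 1 ≤ c (j + 1) := h.pos
  refine IsR.unique (T := U) (F := F') (e := fun j => c (P' j)) ⟨h1.1, fun i hi j hj t ht0 ht => ?_, ?_⟩ h3
  · obtain ⟨i', hi', -, hi2⟩ := hs.2 i hi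
    obtain ⟨j', hj', -, hj2⟩ := hs.2 j hj
    have e1 := h.wimg hg (by norm_num) hi2 t ht0 (by linarith)
    have e2 := h.wimg hg (by norm_num) hj2 t ht0 (by linarith)
    have e3 := h1.2.1 i' hi' j' hj' t ht0 ht
    simp only at e3 ⊢
    rw [← e1, ← e2, e3]
  · obtain ⟨i', hi', j', hj', h5⟩ := h1.2.2
    obtain ⟨i, hi, -, hi2⟩ := hs.1 i' hi'
    obtain ⟨j, hj, -, hj2⟩ := hs.1 j' hj'
    refine ⟨i, hi, j, hj, ?_⟩
    have e1 := h.wimg hg (by norm_num) hi2 (bt U c F P) h1.1 (by linarith)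
    have e2 := h.wimg hg (by norm_num) hj2 (bt U c F P) h1.1 (by linarith)
    simp only at h5 ⊢
    rwa [← e1, ← e2]

lemma sim_step (h : Stp V V c m D) (hg : ∀ j, c j + 2 ≤ c (j + 1)) {F F' : Set ℤ} {P P' : ℤ → ℤ}
    (hP : NC V F P) (hP' : NC V F' P') (hs : Sim V D F P F' P') :
    Sim V D F (fun j => c (P j) + bt V c F P) F' (fun j => c (P' j) + bt V c F' P') := by
  have hb := bt_sim h hP hP' hs
  obtain ⟨h1, h2⟩ := bt_spec h hP
  have key : ∀ j j', wi V D (P j) = wi V D (P' j') →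
      wi V D (c (P j) + bt V c F P) = wi V D (c (P' j') + bt V c F' P') := by
    intro j j' h3
    rw [wi_eq]
    intro t ht0 ht
    have := h.wimg hg (by norm_num) h3 (bt V c F P + t) (by linarith [h1.1]) (by linarith)
    rw [← hb, add_assoc, add_assoc, this]
  refine ⟨fun j hj => ?_, fun j' hj' => ?_⟩
  · obtain ⟨j', hj', h3, h4⟩ := hs.1 j hj
    exact ⟨j', hj', h3, key j j' h4⟩
  · obtain ⟨j, hj, h3, h4⟩ := hs.2 j' hj'
    exact ⟨j, hj, h3, key j j' h4⟩

/-- the window at step `k` only depends on the window at the start -/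
lemma PP_win (h : Stp V V c m D) (hg : ∀ j, c j + 2 ≤ c (j + 1)) {F : Set ℤ} (hF : NC V F id) {i j : ℤ}
    (hw : wi V D i = wi V D j) (k : ℕ) : wi V D (PP V c F k i) = wi V D (PP V c F k j) := by
  induction k with
  | zero => exact hw
  | succ k ih =>
    obtain ⟨h1, h2⟩ := bt_spec h (PP_NC h hF k)
    rw [wi_eq]
    intro t ht0 ht
    have := h.wimg hg (by norm_num) ih (bt V c F (PP V c F k) + t) (by linarith [h1.1]) (by linarith)
    show V (c (PP V c F k i) + _ + t) = V (c (PP V c F k j) + _ + t)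
    rw [add_assoc, add_assoc, this]

/-- the state of the family at step `k` -/
def St {B : Type} (V : ℤ → B) (c : ℤ → ℤ) (D : ℕ) (F : Set ℤ) (k : ℕ) :
    Set ((Fin D → B) × (Fin D → B)) :=
  (fun j => (wi V D j, wi V D (PP V c F k j))) '' F

lemma St_sim {F F' : Set ℤ} {k k' : ℕ} : St V c D F k = St V c D F' k' ↔
    Sim V D F (PP V c F k) F' (PP V c F' k') := by
  constructor
  · intro h
    refine ⟨fun j hj => ?_, fun j' hj' => ?_⟩
    · have : (wi V D j, wi V D (PP V c F k j)) ∈ St V c D F' k' := by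
        rw [← h]; exact ⟨j, hj, rfl⟩
      obtain ⟨j', hj', h1⟩ := this
      simp only [Prod.mk.injEq] at h1
      exact ⟨j', hj', h1.1.symm, h1.2.symm⟩
    · have : (wi V D j', wi V D (PP V c F' k' j')) ∈ St V c D F k := by
        rw [h]; exact ⟨j', hj', rfl⟩
      obtain ⟨j, hj, h1⟩ := this
      simp only [Prod.mk.injEq] at h1
      exact ⟨j, hj, h1.1, h1.2⟩
  · rintro ⟨h1, h2⟩
    ext x
    constructor
    · rintro ⟨j, hj, rfl⟩
      obtain ⟨j', hj', h3, h4⟩ := h1 j hj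
      exact ⟨j', hj', by simp [h3, h4]⟩
    · rintro ⟨j', hj', rfl⟩
      obtain ⟨j, hj, h3, h4⟩ := h2 j' hj'
      exact ⟨j, hj, by simp [h3, h4]⟩

lemma St_per (h : Stp V V c m D) (hg : ∀ j, c j + 2 ≤ c (j + 1)) [Finite B] :
    ∃ N P : ℕ, 0 < P ∧ ∀ k, N ≤ k → ∀ F, NC V F id → St V c D F (k + P) = St V c D F k := by
  classical
  have : Fintype (Set ((Fin D → B) × (Fin D → B))) := Fintype.ofFinite _
  obtain ⟨N, hN⟩ : ∃ N, N = Fintype.card (Set ((Fin D → B) × (Fin D → B))) := ⟨_, rfl⟩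
  refine ⟨N, N.factorial, Nat.factorial_pos _, fun k hk F hF => ?_⟩
  have hdet : ∀ k k', St V c D F k = St V c D F k' → St V c D F (k + 1) = St V c D F (k' + 1) := by
    intro k k' hkk
    rw [St_sim] at hkk ⊢
    exact sim_step h hg (PP_NC h hF k) (PP_NC h hF k') hkk
  have hdet' : ∀ k k' n, St V c D F k = St V c D F k' → St V c D F (k + n) = St V c D F (k' + n) := by
    intro k k' n hkk
    induction n with
    | zero => exact hkk
    | succ n ih => rw [← add_assoc, ← add_assoc]; exact hdet _ _ ih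
  obtain ⟨a, b, hab, heq⟩ : ∃ a b : Fin (N + 1), a ≠ b ∧ St V c D F a = St V c D F b := by
    have := Fintype.exists_ne_map_eq_of_card_lt (fun a : Fin (N + 1) => St V c D F a)
      (by simp [hN])
    exact this
  wlog hlt : a < b generalizing a b
  · exact this b a hab.symm heq.symm (lt_of_le_of_ne (not_lt.1 hlt) hab.symm)
  have hp : 0 < (b : ℕ) - a := by have : (a : ℕ) < b := hlt; omega
  have hp1 : (b : ℕ) - a ≤ N := by have := b.2; omega
  have hdvd : (b : ℕ) - a ∣ N.factorial := Nat.dvd_factorial hp hp1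
  have hper : ∀ k, (a : ℕ) ≤ k → ∀ n, St V c D F (k + n * ((b : ℕ) - a)) = St V c D F k := by
    intro k hk n
    induction n with
    | zero => simp
    | succ n ih =>
      have h1 := hdet' a b (k + n * ((b : ℕ) - a) - a) heq
      have : (a : ℕ) < b := hlt
      have hle : (a : ℕ) ≤ k + n * ((b : ℕ) - a) := by omega
      rw [Nat.add_sub_cancel' hle] at h1
      rw [← ih, h1]
      congr 1
      rw [Nat.succ_mul]
      omega
  obtain ⟨n, hn⟩ := hdvd
  rw [hn, mul_comm]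
  exact hper k (by have := a.2; omega) n

/-- the next letters of a family are eventually periodic in the level -/
theorem nl_per (hV : Stp V V c m D) (hg : ∀ j, c j + 2 ≤ c (j + 1)) (hU : Stp V U d m D) [Finite B] :
    ∃ N P : ℕ, 0 < P ∧ ∀ k, N ≤ k → ∀ F, NC V F id → ∀ r r', IsR U F (fun j => d (c^[k] j)) r →
      IsR U F (fun j => d (c^[k + P] j)) r' → ∀ j ∈ F, U (d (c^[k] j) + r) =
        U (d (c^[k + P] j) + r') := by
  obtain ⟨N, P, hP, h⟩ := St_per hV hg
  refine ⟨N, P, hP, fun k hk F hF r r' hr hr' j hj => ?_⟩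
  obtain ⟨s, hs, hs2⟩ := U_isR hV hU hF k
  obtain ⟨s', hs', hs2'⟩ := U_isR hV hU hF (k + P)
  rw [hr.unique hs, hr'.unique hs', hs2 j hj, hs2' j hj]
  have h1 := h k hk F hF
  have h2 := St_sim.1 h1
  have hb := bt_sim hU (PP_NC hV hF (k + P)) (PP_NC hV hF k) h2
  obtain ⟨j', hj', h3, h4⟩ := h2.1 j hj
  have h5 := PP_win hV hg hF h3 k
  rw [← h5] at h4
  obtain ⟨h6, h7⟩ := bt_spec hU (PP_NC hV hF k)
  rw [hb]
  exact (hU.wimg hU.pos (by norm_num) h4 _ h6.1 (by linarith)).symm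

/-- the common extension stays in the image of the first `D` letters -/
lemma K_lem (hV : Stp V V c m D) (hg : ∀ j, c j + 2 ≤ c (j + 1)) (hU : Stp V U d m D) {F : Set ℤ}
    (hF : NC V F id) {k : ℕ} {r : ℤ} (hr : IsR U F (fun j => d (c^[k] j)) r) {j : ℤ} (hj : j ∈ F) :
    d (c^[k] j) + r < d (c^[k] (j + D)) := by
  have hmono : ∀ k : ℕ, ∀ i j : ℤ, i ≤ j → c^[k] i ≤ c^[k] j := by
    intro k
    induction k with
    | zero => intro i j h; simpa using h
    | succ k ih => intro i j h; rw [Function.iterate_succ_apply', Function.iterate_succ_apply']; exact hV.mono (ih i j h)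
  have h2D : ∀ i : ℤ, ∀ n : ℕ, c i + 2 * n ≤ c (i + n) := by
    intro i n
    induction n with
    | zero => simp
    | succ n ih => have := hg (i + n); push_cast; rw [← add_assoc]; linarith
  have key : ∀ k : ℕ, PP V c F k j + D ≤ c^[k] (j + D) := by
    intro k
    induction k with
    | zero => simp [PP]
    | succ k ih =>
      obtain ⟨h1, h2⟩ := bt_spec hV (PP_NC hV hF k)
      rw [Function.iterate_succ_apply']
      have h3 := hV.mono ih
      have h4 := h2D (PP V c F k j) D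
      show c (PP V c F k j) + bt V c F (PP V c F k) + D ≤ _
      linarith
  obtain ⟨s, hs, hs2⟩ := U_isR hV hU hF k
  rw [hr.unique hs, hs2 j hj]
  obtain ⟨h1, h2⟩ := bt_spec hU (PP_NC hV hF k)
  have h3 := hU.lb (PP V c F k j) D
  have h4 := hU.mono (key k)
  linarith

end

end Pool.Agent.T2h96.FC
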