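import Pool.Agent.T2h96.FC.Cnx

set_option autoImplicit false

open Filter

namespace Pool.Agent.T2h96.FC

/-- the closed non-periodic families -/
def Yset {C : Type} (U : ℤ → C) (q K : ℕ) : Set (Set ℤ × ℤ) :=
  {x | Fm U x.1 x.2 ∧ Cld U x.1 x.2 ∧ ∀ i ∈ x.1, ¬ PerOn U q (i + K) (i + x.2 - K)}

lemma npk_iff {C : Type} {U : ℤ → C} {q K l : ℕ} {i : ℤ} :
    NPK q K (wd U l i) ↔ PerOn U q (i + K) (i + l - K) := by
  unfold NPK PerOn wd
  constructor
  · intro h t h1 h2
    have := h ⟨(t - i).toNat, by omega⟩ ⟨(t - i).toNat + q, by omega⟩ rfl (by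
      show K ≤ (t - i).toNat; omega) (by show (t - i).toNat + q + K < l; omega)
    simp only at this
    push_cast at this
    rw [Int.toNat_of_nonneg (by linarith)] at this
    rwa [show i + (t - i + q) = t + q by ring, show i + (t - i) = t by ring] at this
  · intro h s t h1 h2 h3
    have := h (i + s) (by have : (K : ℤ) ≤ (s : ℕ) := by exact_mod_cast h2
                          linarith) (by
      have : ((t : ℕ) : ℤ) + K < l := by exact_mod_cast h3
      have h4 : ((t : ℕ) : ℤ) = (s : ℕ) + q := by exact_mod_cast h1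
      linarith)
    rw [← this, h1]; push_cast; rw [add_assoc]

lemma mlF_zero_left {C : Type} {T : ℤ → C} {F : Set ℤ} {n : ℤ} (hne : F.Nonempty)
    (h : ∀ i ∈ F, ∀ j ∈ F, T (i - 1) = T (j - 1)) : mlF T F n = 0 := by
  obtain ⟨i0, hi0⟩ := hne
  have h1 : (fun i : ℤ => T (i - 1)) '' F = {T (i0 - 1)} := by
    ext x; simp only [Set.mem_image, Set.mem_singleton_iff]
    constructor
    · rintro ⟨i, hi, rfl⟩; exact h i hi i0 hi0
    · rintro rfl; exact ⟨i0, hi0, rfl⟩
  have h2 : (fun i : ℤ => (T (i - 1), T (i + n))) '' F =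
      (fun c => (T (i0 - 1), c)) '' ((fun i : ℤ => T (i + n)) '' F) := by
    rw [Set.image_image]
    refine Set.image_congr fun i hi => ?_
    rw [h i hi i0 hi0]
  unfold mlF
  rw [h1, h2, Set.ncard_image_of_injective _ (fun a b hab => (Prod.mk.inj hab).2),
    Set.ncard_singleton]
  push_cast; ring

lemma mlF_zero_right {C : Type} {T : ℤ → C} {F : Set ℤ} {n : ℤ} (hne : F.Nonempty)
    (h : ∀ i ∈ F, ∀ j ∈ F, T (i + n) = T (j + n)) : mlF T F n = 0 := by
  obtain ⟨i0, hi0⟩ := hne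
  have h1 : (fun i : ℤ => T (i + n)) '' F = {T (i0 + n)} := by
    ext x; simp only [Set.mem_image, Set.mem_singleton_iff]
    constructor
    · rintro ⟨i, hi, rfl⟩; exact h i hi i0 hi0
    · rintro rfl; exact ⟨i0, hi0, rfl⟩
  have h2 : (fun i : ℤ => (T (i - 1), T (i + n))) '' F =
      (fun c => (c, T (i0 + n))) '' ((fun i : ℤ => T (i - 1)) '' F) := by
    rw [Set.image_image]
    refine Set.image_congr fun i hi => ?_
    rw [h i hi i0 hi0]
  unfold mlF
  rw [h1, h2, Set.ncard_image_of_injective _ (fun a b hab => (Prod.mk.inj hab).1),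
    Set.ncard_singleton]
  push_cast; ring

lemma mem_occ {C : Type} {T : ℤ → C} {n : ℕ} {w : Fin n → C} {i : ℤ} :
    i ∈ occ T w ↔ wd T n i = w := Iff.rfl

lemma wd_eq {C : Type} {T : ℤ → C} {n : ℕ} {i j : ℤ} : wd T n i = wd T n j ↔
    ∀ t : ℤ, 0 ≤ t → t < n → T (i + t) = T (j + t) := by
  constructor
  · intro h t h0 h1
    have := congrFun h ⟨t.toNat, by omega⟩
    simpa [wd, Int.toNat_of_nonneg h0] using this
  · intro h
    funext t
    exact h t (by positivity) (by exact_mod_cast t.2)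

lemma fm_of_mul {C : Type} {T : ℤ → C} {n : ℕ} {w : Fin n → C} (hne : (occ T w).Nonempty)
    (h : mul T w ≠ 0) : Fm T (occ T w) n := by
  have h1 : mul T w = mlF T (occ T w) n := rfl
  refine ⟨by positivity, fun i hi j hj => ?_, ?_, ?_⟩
  · rw [← wd_eq, mem_occ.1 hi, mem_occ.1 hj]
  · by_contra h2
    push Not at h2
    exact h (h1.trans (mlF_zero_left hne h2))
  · by_contra h2
    push Not at h2
    exact h (h1.trans (mlF_zero_right hne h2))

lemma A1 {C : Type} [Fintype C] (U : ℤ → C) (q K l : ℕ) :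
    {x ∈ Yset U q K | x.2 = l}.Finite ∧
    ((∑ w ∈ (Set.toFinite (wd U l '' {i | ¬ NPK q K (wd U l i)})).toFinset, mul U w : ℤ) : ℝ) =
      ∑ᶠ x ∈ {x ∈ Yset U q K | x.2 = l}, (mlF U x.1 x.2 : ℝ) := by
  classical
  obtain ⟨S, hS⟩ : ∃ S, S = wd U l '' {i | ¬ NPK q K (wd U l i)} := ⟨_, rfl⟩
  have hSf : S.Finite := Set.toFinite _
  obtain ⟨G, hG⟩ : ∃ G, G = {w ∈ S | Fm U (occ U w) l} := ⟨_, rfl⟩
  have hbij : Set.BijOn (fun w : Fin l → C => (occ U w, (l : ℤ))) G
      {x ∈ Yset U q K | x.2 = l} := by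
    refine ⟨fun w hw => ?_, fun w hw w' hw' hww => ?_, fun x hx => ?_⟩
    · rw [hG] at hw
      obtain ⟨hw1, hw2⟩ := hw
      rw [hS] at hw1
      obtain ⟨i0, hi0, rfl⟩ := hw1
      refine ⟨⟨hw2, fun i hi i' hi' => ?_, fun i hi => ?_⟩, rfl⟩
      · rw [mem_occ] at hi ⊢
        rw [← hi, wd_eq]; exact hi'
      · rw [mem_occ] at hi
        have h1 : ¬ NPK q K (wd U l i0) := hi0
        rw [← hi, npk_iff] at h1
        exact h1
    · rw [hG] at hw hw'
      simp only [Prod.mk.injEq, and_true] at hww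
      obtain ⟨hw1, -⟩ := hw
      rw [hS] at hw1
      obtain ⟨i0, hi0, h1⟩ := hw1
      have h2 : i0 ∈ occ U w := h1
      rw [hww] at h2
      rw [← h1]; exact h2
    · obtain ⟨⟨h1, h2, h3⟩, h4⟩ := hx
      obtain ⟨F, n⟩ := x
      simp only at h1 h2 h3 h4
      subst h4
      obtain ⟨i, hi, -⟩ := id h1.lft
      have h5 : occ U (wd U l i) = F := by
        ext i'
        rw [mem_occ, wd_eq]
        exact ⟨fun h => h2 i hi i' h, fun h => h1.com i' h i hi⟩
      refine ⟨wd U l i, ?_, by simp [h5]⟩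
      rw [hG]
      refine ⟨?_, by rw [h5]; exact h1⟩
      rw [hS]
      exact ⟨i, by show ¬ NPK q K (wd U l i); rw [npk_iff]; exact h3 i hi, rfl⟩
  have hGf : G.Finite := by rw [hG]; exact hSf.subset fun w hw => hw.1
  refine ⟨?_, ?_⟩
  · rw [← hbij.image_eq]; exact hGf.image _
  · rw [← finsum_mem_eq_of_bijOn (f := fun w : Fin l → C => (mul U w : ℝ)) _ hbij
      (fun w _ => rfl)]
    have h1 : ((∑ w ∈ (Set.toFinite (wd U l '' {i | ¬ NPK q K (wd U l i)})).toFinset, mul U w : ℤ) : ℝ)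
        = ∑ᶠ w ∈ S, (mul U w : ℝ) := by
      rw [finsum_mem_eq_finite_toFinset_sum _ hSf]
      push_cast
      refine Finset.sum_congr ?_ fun _ _ => rfl
      subst hS
      rfl
    rw [h1]
    apply finsum_mem_inter_support_eq
    ext w
    simp only [Set.mem_inter_iff, Function.mem_support, ne_eq, Int.cast_eq_zero, and_congr_left_iff]
    intro h2
    rw [hG]
    refine ⟨fun h3 => ⟨h3, ?_⟩, fun h3 => h3.1⟩
    refine fm_of_mul ?_ h2
    rw [hS] at h3
    obtain ⟨i, hi, rfl⟩ := h3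
    exact ⟨i, rfl⟩

lemma A2 {C : Type} [Fintype C] (U : ℤ → C) (q K : ℕ) (n : ℕ) :
    {x ∈ Yset U q K | x.2 < n}.Finite ∧
    ((∑ l ∈ Finset.range n,
      ∑ w ∈ (Set.toFinite (wd U l '' {i | ¬ NPK q K (wd U l i)})).toFinset, mul U w : ℤ) : ℝ) =
      ∑ᶠ x ∈ {x ∈ Yset U q K | x.2 < n}, (mlF U x.1 x.2 : ℝ) := by
  induction n with
  | zero =>
    have h1 : {x ∈ Yset U q K | x.2 < (0 : ℕ)} = ∅ := by
      ext x
      simp only [Set.mem_setOf_eq, Set.mem_empty_iff_false, iff_false, not_and, not_lt]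
      intro h; exact_mod_cast h.1.n0
    rw [h1]; simp
  | succ n ih =>
    have h1 : {x ∈ Yset U q K | x.2 < ((n + 1 : ℕ) : ℤ)} =
        {x ∈ Yset U q K | x.2 < n} ∪ {x ∈ Yset U q K | x.2 = n} := by
      ext x
      simp only [Set.mem_setOf_eq, Set.mem_union]
      push_cast
      constructor
      · rintro ⟨h1, h2⟩
        rcases lt_or_eq_of_le (Int.lt_add_one_iff.1 h2) with h3 | h3
        · exact Or.inl ⟨h1, h3⟩
        · exact Or.inr ⟨h1, h3⟩
      · rintro (⟨h1, h2⟩ | ⟨h1, h2⟩)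
        · exact ⟨h1, by linarith⟩
        · exact ⟨h1, by linarith⟩
    obtain ⟨h2, h3⟩ := A1 U q K n
    rw [h1]
    refine ⟨ih.1.union h2, ?_⟩
    rw [finsum_mem_union ?_ ih.1 h2, Finset.sum_range_succ, ← ih.2, ← h3]
    · push_cast; ring
    · rw [Set.disjoint_left]
      rintro x ⟨_, h4⟩ ⟨_, h5⟩
      rw [h5] at h4
      exact lt_irrefl _ h4

end Pool.Agent.T2h96.FC
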