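import Pool.Agent.T2h96.FC.PartA

set_option autoImplicit false

open Filter

namespace Pool.Agent.T2h96.FC

lemma ULp.mono {C : Type} {T : ℤ → C} {q K K' : ℕ} (h : ULp T q K) (hK : K ≤ K') : ULp T q K' := by
  intro M
  obtain ⟨l, hl⟩ := h M
  refine ⟨l, fun α β h1 h2 h3 => hl α β h1 h2 fun t h4 h5 => h3 t ?_ h5⟩
  have : (K : ℤ) ≤ K' := by exact_mod_cast hK
  linarith

lemma ULp_of_UL (hUL : S_UL) {B C : Type} [Finite B] [Finite C] {V : ℤ → B} {U : ℤ → C}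
    {c d : ℤ → ℤ} {m D Q q : ℕ} (h : Ctx V U c d m D Q q) : ∃ K, ULp U q K ∧ ULp (rf U) q K := by
  obtain ⟨K1, h1⟩ := hUL B C V U c d m D Q q h
  obtain ⟨K2, h2⟩ := hUL B C _ _ _ _ m D Q q h.refl
  exact ⟨max K1 K2, ULp.mono h1 (le_max_left _ _), ULp.mono h2 (le_max_right _ _)⟩

lemma tendsto_growth {len : ℕ → ℝ} {θ : ℝ} {e : ℕ} {κ : ℝ} (hθ : 1 < θ) (hκ : 0 < κ)
    (h : ∀ k : ℕ, κ * ((k : ℝ) + 1) ^ e * θ ^ k ≤ len k) : Tendsto len atTop atTop := by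
  refine tendsto_atTop_mono (f := fun k : ℕ => κ * θ ^ k) (fun k => ?_)
    (Tendsto.const_mul_atTop hκ (tendsto_pow_atTop_atTop_of_one_lt hθ))
  refine le_trans ?_ (h k)
  have h1 : (1 : ℝ) ≤ ((k : ℝ) + 1) ^ e := one_le_pow₀ (by linarith [show (0:ℝ) ≤ k by positivity])
  have h2 : 0 < θ ^ k := pow_pos (by linarith) k
  nlinarith [mul_pos hκ h2]

/-- PART A -/
theorem partA (hUL : S_UL) (hCNT : S_CNT) (hAH : S_AH) (hNPC : S_NPC) (hSUR : S_SUR) (hINJ : S_INJ)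
    (hCC : S_CC) (hCLQ : S_CLQ) (hCLP : S_CLP) (hMLP : S_MLP) (hSAT : S_SAT) (hLV : S_LV)
    (hGRA : S_GRA) {B C : Type} [Fintype B] [Fintype C] {V : ℤ → B} {U : ℤ → C}
    {c d : ℤ → ℤ} {m D Q q : ℕ} (h : Ctx V U c d m D Q q) (hGR : GR c d) :
    ∃ K0 : ℕ, ∀ K, K0 ≤ K → Ex (fun n => ((∑ l ∈ Finset.range n,
      ∑ w ∈ (Set.toFinite (wd U l '' {i | ¬ NPK q K (wd U l i)})).toFinset, mul U w : ℤ) : ℝ)) := by
  classical
  obtain ⟨KV, hKV, hKV'⟩ := ULp_of_UL hUL h.self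
  obtain ⟨KU, hKU, hKU'⟩ := ULp_of_UL hUL h
  obtain ⟨LV, hLVa⟩ := hAH B B V V c m D Q h.hV h.hQ h.rV
  obtain ⟨LU, hLUa⟩ := hAH B C V U d m D q h.hU h.hq h.rU
  refine ⟨KU + LU + D, fun K hK => ?_⟩
  obtain ⟨M, hM⟩ : ∃ M : ℕ, M = K + D + m * q + (D + m * Q) + (LV + D) + KV := ⟨_, rfl⟩
  have hMz : (M : ℤ) = K + D + m * q + (D + m * Q) + (LV + D) + KV := by rw [hM]; push_cast; ring
  have hKz : (KU : ℤ) + LU + D ≤ K := by exact_mod_cast hK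
  have p1 : (0 : ℤ) ≤ m * q := by positivity
  have p2 : (0 : ℤ) ≤ m * Q := by positivity
  have p3 : (0 : ℤ) ≤ D := by positivity
  have p4 : (0 : ℤ) ≤ KU := by positivity
  have p5 : (0 : ℤ) ≤ LU := by positivity
  have p6 : (0 : ℤ) ≤ LV := by positivity
  have p7 : (0 : ℤ) ≤ KV := by positivity
  have p8 : (0 : ℤ) ≤ m := by positivity
  have p9 : (0 : ℤ) ≤ K := by positivity
  obtain ⟨l1, hl1⟩ := hNPC B C V U c d m D Q q h M K p9 (by linarith) (by linarith)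
  obtain ⟨l2, hl2⟩ := hSUR B C V U c d m D Q q LV LU KV K h hLVa hLUa hKV hKV'
    (hKU.mono (by omega)) (hKU'.mono (by omega)) M
    (by rw [hM]; omega) (by rw [hM]; omega) (by rw [hM]; omega) (by omega) (by omega)
  obtain ⟨L2, hL2⟩ : ∃ L2 : ℤ, L2 = l1 + l2 + (2 * M + m) + (2 * K + m) + 2 * D + 1 := ⟨_, rfl⟩
  obtain ⟨L4, hL4⟩ : ∃ L4 : ℤ, L4 = m * L2 + 2 * D := ⟨_, rfl⟩
  have p10 : (0 : ℤ) ≤ l1 := by positivity
  have p11 : (0 : ℤ) ≤ l2 := by positivity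
  have p12 : (0 : ℤ) ≤ M := by positivity
  obtain ⟨l', hl'⟩ := hl2 L2 L4 (by linarith) (by linarith)
  -- the seeds
  obtain ⟨𝔖, h𝔖⟩ : ∃ 𝔖 : Set (Set ℤ × ℤ), 𝔖 = {s | Sd V c D Q M L2 L4 s ∧ Sat V D s.1 s.2} :=
    ⟨_, rfl⟩
  obtain ⟨hsat1, hsat2⟩ := hSAT B C V U c d m D h.hV h.hg h.hU
  have h𝔖f : 𝔖.Finite := by
    refine (hsat2 L4).subset fun s hs => ?_
    rw [h𝔖] at hs
    exact ⟨hs.1.fm.n0, hs.1.hi, hs.2⟩
  have hGd : ∀ s, Sd V c D Q M L2 L4 s → Gd V U c d D Q q M K L2 L4 s := fun s hs =>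
    hl1 L2 L4 (by linarith) s hs
  have hlv : ∀ s : Set ℤ × ℤ, Sd V c D Q M L2 L4 s → ∀ k, ∃ L R,
      Lv V U c d k s.1 s.2 (Uk V U c d D s k).1 (Uk V U c d D s k).2 L R := fun s hs k =>
    hLV B C V U c d m D h.hV h.hU s.1 s.2 hs.fm k
  have hlen : ∀ s, Sd V c D Q M L2 L4 s → 2 * (D : ℤ) ≤ s.2 := fun s hs => by
    have := hs.lo; linarith
  have hclq : ∀ s, Sd V c D Q M L2 L4 s → ∀ k L R,
      Lv V U c d k s.1 s.2 (Uk V U c d D s k).1 (Uk V U c d D s k).2 L R →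
      (Cld U (Uk V U c d D s k).1 (Uk V U c d D s k).2 ↔ CL V U c d D k s.1 s.2 L R) := by
    intro s hs k L R hv
    refine hCLQ B C V U c d m D h.hV h.hU k s.1 s.2 _ _ L R hv (hlen s hs) ?_
    exact hCC B C V U c d m D Q q LV LU h hLVa hLUa M K L2 L4 (by linarith) (by linarith)
      (by linarith) (by linarith) (by linarith) s (hGd s hs) k L R hv
  obtain ⟨N1, P1, hP1, hclp⟩ := hCLP B C V U c d m D h.hV h.hg h.hU
  obtain ⟨N2, P2, hP2, hmlp⟩ := hMLP B C V U c d m D h.hV h.hg h.hU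
  have hcldP : ∀ s, Sd V c D Q M L2 L4 s → ∀ k, N1 ≤ k → ∀ r : ℕ,
      (Cld U (Uk V U c d D s (k + r * (P1 * P2))).1 (Uk V U c d D s (k + r * (P1 * P2))).2 ↔
        Cld U (Uk V U c d D s k).1 (Uk V U c d D s k).2) := by
    intro s hs k hk r
    obtain ⟨L, R, hv⟩ := hlv s hs k
    obtain ⟨L', R', hv'⟩ := hlv s hs (k + r * (P1 * P2))
    rw [hclq s hs k L R hv, hclq s hs _ L' R' hv']
    have e1 : k + r * (P1 * P2) = k + (r * P2) * P1 := by ring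
    rw [e1] at hv' ⊢
    exact (hclp k hk (r * P2) s.1 s.2 _ _ L R _ _ L' R' (hlen s hs) hv hv').symm
  have hmulP : ∀ s, Sd V c D Q M L2 L4 s → ∀ k, N2 ≤ k → ∀ r : ℕ,
      mlF U (Uk V U c d D s (k + r * (P1 * P2))).1 (Uk V U c d D s (k + r * (P1 * P2))).2 =
        mlF U (Uk V U c d D s k).1 (Uk V U c d D s k).2 := by
    intro s hs k hk r
    obtain ⟨L, R, hv⟩ := hlv s hs k
    obtain ⟨L', R', hv'⟩ := hlv s hs (k + r * (P1 * P2))
    have e1 : k + r * (P1 * P2) = k + (r * P1) * P2 := by ring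
    rw [e1] at hv' ⊢
    exact (hmlp k hk (r * P1) s.1 s.2 _ _ L R _ _ L' R' hv hv').symm
  -- the contribution of a seed
  obtain ⟨cond, hcond⟩ : ∃ cond : (Set ℤ × ℤ) → ℕ → Prop, cond = fun s k => 1 ≤ k ∧
      l' ≤ (Uk V U c d D s k).2 ∧ Cld U (Uk V U c d D s k).1 (Uk V U c d D s k).2 := ⟨_, rfl⟩
  obtain ⟨g, hg⟩ : ∃ g : (Set ℤ × ℤ) → ℕ → ℝ, g = fun s k =>
      if cond s k then (mlF U (Uk V U c d D s k).1 (Uk V U c d D s k).2 : ℝ) else 0 := ⟨_, rfl⟩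
  have hseed : ∀ s ∈ 𝔖, (∀ n : ℕ, 3 ≤ n → {k : ℕ | (((Uk V U c d D s k).2 + 1 : ℤ) : ℝ) ≤ n}.Finite) ∧
      Ex (fun n => ∑ᶠ k ∈ {k : ℕ | (((Uk V U c d D s k).2 + 1 : ℤ) : ℝ) ≤ n}, g s k) := by
    intro s hs
    rw [h𝔖] at hs
    obtain ⟨θ, e, κ, K', hθ, hκ, hK', hgr⟩ := hGRA B C V U c d m D h.hV h.hU hGR s.1 s.2 hs.1.fm
      (by have := hs.1.lo; linarith)
    have htend := tendsto_growth hθ hκ fun k => (hgr k).1
    obtain ⟨N3, hN3⟩ := (tendsto_atTop.1 htend ((l' : ℝ) + 1)).exists_forall_of_atTop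
    refine cntx hCNT hθ hκ hK' hgr (N := N1 + N2 + N3 + 1) (P := P1 * P2) (Nat.mul_pos hP1 hP2)
      fun k hk r => ?_
    have hge : ∀ k, N3 ≤ k → (l' : ℤ) ≤ (Uk V U c d D s k).2 := by
      intro k hk
      have := hN3 k hk
      have h2 : ((l' : ℤ) : ℝ) + 1 ≤ (((Uk V U c d D s k).2 + 1 : ℤ) : ℝ) := by
        push_cast at this ⊢; exact this
      have h3 : ((l' : ℤ) + 1 : ℤ) ≤ (Uk V U c d D s k).2 + 1 := by exact_mod_cast h2
      linarith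
    have hc : cond s (k + r * (P1 * P2)) ↔ cond s k := by
      rw [hcond]
      simp only
      rw [hcldP s hs.1 k (by omega) r]
      refine ⟨fun h1 => ⟨by omega, hge k (by omega), h1.2.2⟩, fun h1 =>
        ⟨by omega, hge _ ?_, h1.2.2⟩⟩
      exact le_trans (by omega) (Nat.le_add_right _ _)
    rw [hg]
    simp only
    by_cases h1 : cond s k
    · rw [if_pos h1, if_pos (hc.2 h1), hmulP s hs.1 k (by omega) r]
    · rw [if_neg h1, if_neg (fun h2 => h1 (hc.1 h2))]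
  have hEx := Ex.sum h𝔖f.toFinset (f := fun s n =>
    ∑ᶠ k ∈ {k : ℕ | (((Uk V U c d D s k).2 + 1 : ℤ) : ℝ) ≤ n}, g s k)
    fun s hs => (hseed s (h𝔖f.mem_toFinset.1 hs)).2
  obtain ⟨Y0, hY0⟩ : ∃ Y0, Y0 = {x ∈ Yset U q K | x.2 < l'} := ⟨_, rfl⟩
  have hY0f : Y0.Finite := by rw [hY0]; exact (A2 U q K l').1
  refine hEx.congr (R := ∑ x ∈ hY0f.toFinset, |(mlF U x.1 x.2 : ℝ)|) fun n hn => ?_
  obtain ⟨hYf, hYe⟩ := A2 U q K n
  rw [hYe]
  obtain ⟨Yn, hYn⟩ : ∃ Yn, Yn = {x ∈ Yset U q K | x.2 < n} := ⟨_, rfl⟩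
  obtain ⟨An, hAn⟩ : ∃ An, An = {x ∈ Yset U q K | l' ≤ x.2 ∧ x.2 < n} := ⟨_, rfl⟩
  obtain ⟨Bn, hBn⟩ : ∃ Bn, Bn = {x ∈ Yset U q K | x.2 < l' ∧ x.2 < n} := ⟨_, rfl⟩
  rw [← hYn] at hYf ⊢
  have hAf : An.Finite := hYf.subset (by rw [hAn, hYn]; exact fun x hx => ⟨hx.1, hx.2.2⟩)
  have hBf : Bn.Finite := hYf.subset (by rw [hBn, hYn]; exact fun x hx => ⟨hx.1, hx.2.2⟩)
  have hYAB : Yn = An ∪ Bn := by
    rw [hYn, hAn, hBn]
    ext x
    simp only [Set.mem_setOf_eq, Set.mem_union]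
    constructor
    · rintro ⟨h1, h2⟩
      rcases lt_or_ge x.2 l' with h3 | h3
      · exact Or.inr ⟨h1, h3, h2⟩
      · exact Or.inl ⟨h1, h3, h2⟩
    · rintro (⟨h1, h2, h3⟩ | ⟨h1, h2, h3⟩) <;> exact ⟨h1, h3⟩
  have hdisj : Disjoint An Bn := by
    rw [Set.disjoint_left, hAn, hBn]
    rintro x ⟨_, h1, _⟩ ⟨_, h2, _⟩
    linarith
  rw [hYAB, finsum_mem_union hdisj hAf hBf]
  -- the main part
  have hmain : ∑ᶠ x ∈ An, (mlF U x.1 x.2 : ℝ) = ∑ s ∈ h𝔖f.toFinset,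
      ∑ᶠ k ∈ {k : ℕ | (((Uk V U c d D s k).2 + 1 : ℤ) : ℝ) ≤ n}, g s k := by
    obtain ⟨At, hAt⟩ : ∃ At : (Set ℤ × ℤ) → Set (Set ℤ × ℤ), At = fun s =>
      {x ∈ An | ∃ k, 1 ≤ k ∧ Uk V U c d D s k = x} := ⟨_, rfl⟩
    have hU : An = ⋃ s ∈ 𝔖, At s := by
      ext x
      simp only [Set.mem_iUnion]
      constructor
      · intro hx
        have hx' := hx
        rw [hAn] at hx'
        obtain ⟨⟨x1, x2, x3⟩, x4, x5⟩ := hx'
        obtain ⟨s, k, hk, hs, hsk⟩ := hl' x.1 x.2 x1 x3 x4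
        have hsk' : Uk V U c d D s k = x := hsk
        refine ⟨s, ?_, ?_⟩
        · rw [h𝔖]
          refine ⟨hs, ?_⟩
          obtain ⟨L, R, hv⟩ := hlv s hs k
          rw [hsk'] at hv
          exact hsat1 k s.1 s.2 x.1 x.2 L R hv x2
        · rw [hAt]; exact ⟨hx, k, hk, hsk'⟩
      · rintro ⟨s, hs, hx⟩
        rw [hAt] at hx; exact hx.1
    have hpd : 𝔖.PairwiseDisjoint At := by
      intro s hs s' hs' hne
      rw [Function.onFun, Set.disjoint_left]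
      intro x hx hx'
      rw [hAt] at hx hx'
      obtain ⟨_, k, hk, e1⟩ := hx
      obtain ⟨_, k', hk', e2⟩ := hx'
      rw [h𝔖] at hs hs'
      apply hne
      exact (hINJ B C V U c d m D Q q LV LU h hLVa hLUa M K L2 L4 (by linarith) (by linarith)
        (by linarith) (by linarith) (by linarith) (by linarith) s s' (hGd s hs.1) (hGd s' hs'.1)
        k k' (e1.trans e2.symm)).1
    have hAtf : ∀ s, (At s).Finite := fun s => hAf.subset (by rw [hAt]; exact fun x hx => hx.1)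
    rw [hU, finsum_mem_biUnion hpd h𝔖f (fun s _ => hAtf s), finsum_mem_eq_finite_toFinset_sum _ h𝔖f]
    refine Finset.sum_congr rfl fun s hs => ?_
    have hs' := h𝔖f.mem_toFinset.1 hs
    rw [h𝔖] at hs'
    -- reindex by the level
    have hbij : Set.BijOn (fun k => Uk V U c d D s k)
        {k : ℕ | (((Uk V U c d D s k).2 + 1 : ℤ) : ℝ) ≤ n ∧ cond s k} (At s) := by
      refine ⟨fun k hk => ?_, fun k hk k' hk' hkk => ?_, fun x hx => ?_⟩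
      · obtain ⟨k1, k2⟩ := hk
        rw [hcond] at k2
        obtain ⟨k3, k4, k5⟩ := k2
        have hgd := hGd s hs'.1
        rw [hAt]
        refine ⟨?_, k, k3, rfl⟩
        rw [hAn]
        refine ⟨⟨hgd.fU k, k5, hgd.nU k⟩, k4, ?_⟩
        have : ((Uk V U c d D s k).2 + 1 : ℤ) ≤ (n : ℤ) := by exact_mod_cast k1
        show (Uk V U c d D s k).2 < n
        linarith
      · exact (hINJ B C V U c d m D Q q LV LU h hLVa hLUa M K L2 L4 (by linarith) (by linarith)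
          (by linarith) (by linarith) (by linarith) (by linarith) s s (hGd s hs'.1) (hGd s hs'.1)
          k k' hkk).2
      · rw [hAt] at hx
        obtain ⟨hx1, k, hk, hkx⟩ := hx
        rw [hAn] at hx1
        obtain ⟨⟨x1, x2, x3⟩, x4, x5⟩ := hx1
        refine ⟨k, ⟨?_, ?_⟩, hkx⟩
        · rw [hkx]
          have : (x.2 + 1 : ℤ) ≤ (n : ℤ) := by linarith
          exact_mod_cast this
        · rw [hcond]; simp only; rw [hkx]; exact ⟨hk, x4, x2⟩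
    rw [← finsum_mem_eq_of_bijOn (f := fun k => g s k) _ hbij (fun k hk => by
      rw [hg]; simp only; rw [if_pos hk.2])]
    apply finsum_mem_inter_support_eq
    ext k
    simp only [Set.mem_inter_iff, Set.mem_setOf_eq, Function.mem_support, ne_eq,
      and_congr_left_iff, and_iff_left_iff_imp]
    intro h1 _
    by_contra h2
    apply h1
    rw [hg]; simp only; rw [if_neg h2]
  rw [hmain, add_sub_cancel_left, finsum_mem_eq_finite_toFinset_sum _ hBf]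
  refine (Finset.abs_sum_le_sum_abs _ _).trans ?_
  refine Finset.sum_le_sum_of_subset_of_nonneg (fun x hx => ?_) fun _ _ _ => abs_nonneg _
  rw [Set.Finite.mem_toFinset] at hx ⊢
  rw [hBn] at hx
  rw [hY0]
  exact ⟨hx.1, hx.2.1⟩

end Pool.Agent.T2h96.FC
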