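import Pool.Agent.T2h96.FC.Ref

/-!
# Maximal runs: children, parents, windows
-/

set_option autoImplicit false

namespace Pool.Agent.T2h96.FC

/-- `[a, b)` is a maximal run of period `q` -/
def MR {C : Type} (T : ℤ → C) (q a b : ℤ) : Prop :=
  PerOn T q a b ∧ T (a - 1 + q) ≠ T (a - 1) ∧ T b ≠ T (b - q)

/-- equality of the windows of `[a, b)` and `[a', b')` with margin `M` -/
def EQ {C : Type} (T : ℤ → C) (M a b a' b' : ℤ) : Prop :=
  b - a = b' - a' ∧ ∀ t, -M ≤ t → t < b - a + M → T (a + t) = T (a' + t)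

/-- `[a', b')` is a maximal run of `U` which is the image of `[a, b)` -/
def CH {C : Type} (U : ℤ → C) (c : ℤ → ℤ) (q D a b a' b' : ℤ) : Prop :=
  MR U q a' b' ∧ c a - D < a' ∧ a' ≤ c a ∧ c b ≤ b' ∧ b' < c b + D

lemma MR.lb {C : Type} {T : ℤ → C} {q a b : ℤ} (h : MR T q a b) : LB T q a (b - a) :=
  ⟨by rw [show a + (b - a) = b by ring]; exact h.1, h.2.1⟩

lemma MR.rf {C : Type} {T : ℤ → C} {q a b : ℤ} (h : MR T q a b) : MR (rf T) q (-b) (-a) := by
  refine ⟨h.1.rf, ?_, ?_⟩
  · unfold FC.rf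
    rw [show -1 - (-b - 1 + q) = b - q by ring, show -1 - (-b - 1) = b by ring]
    exact h.2.2.symm
  · unfold FC.rf
    rw [show -1 - -a = a - 1 by ring, show -1 - (-a - q) = a - 1 + q by ring]
    exact h.2.1.symm

lemma EQ.refl {C : Type} {T : ℤ → C} {M a b : ℤ} : EQ T M a b a b := ⟨rfl, fun _ _ _ => rfl⟩

lemma EQ.symm {C : Type} {T : ℤ → C} {M a b a' b' : ℤ} (h : EQ T M a b a' b') : EQ T M a' b' a b :=
  ⟨h.1.symm, fun t h1 h2 => (h.2 t h1 (by have := h.1; linarith)).symm⟩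

lemma EQ.trans {C : Type} {T : ℤ → C} {M a b a' b' a'' b'' : ℤ} (h : EQ T M a b a' b')
    (h' : EQ T M a' b' a'' b'') : EQ T M a b a'' b'' :=
  ⟨h.1.trans h'.1, fun t h1 h2 => (h.2 t h1 h2).trans (h'.2 t h1 (by have := h.1; linarith))⟩

lemma EQ.mono {C : Type} {T : ℤ → C} {M M' a b a' b' : ℤ} (h : EQ T M a b a' b') (hM : M' ≤ M) :
    EQ T M' a b a' b' := ⟨h.1, fun t h1 h2 => h.2 t (by linarith) (by linarith)⟩

lemma EQ.rf {C : Type} {T : ℤ → C} {M a b a' b' : ℤ} (h : EQ T M a b a' b') :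
    EQ (rf T) M (-b) (-a) (-b') (-a') := by
  refine ⟨by have := h.1; linarith, fun t h1 h2 => ?_⟩
  have := h.2 (b - a - 1 - t) (by linarith) (by linarith)
  unfold FC.rf
  rw [show -1 - (-b + t) = a + (b - a - 1 - t) by ring, this]
  congr 1
  have := h.1
  linarith

/-- the right end of a long maximal run is determined by the left end -/
lemma MR.right {C : Type} {T : ℤ → C} {q a b b' : ℤ} (h : MR T q a b) (h' : MR T q a b')
    (hl : q ≤ b - a) (hl' : q ≤ b' - a) : b = b' := by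
  rcases lt_trichotomy b b' with h1 | h1 | h1
  · exfalso; apply h.2.2
    have := h'.1 (b - q) (by linarith) (by linarith)
    rwa [sub_add_cancel] at this
  · exact h1
  · exfalso; apply h'.2.2
    have := h.1 (b' - q) (by linarith) (by linarith)
    rwa [sub_add_cancel] at this

section

variable {B C : Type} {V : ℤ → B} {U : ℤ → C} {c d : ℤ → ℤ} {m D Q q : ℕ}

/-- a long maximal run has a child -/
lemma Stp.childEx (h : Stp V U c m D) (hQ : PT V Q) (hq : PT U q) (hQD : D ≤ Q) (hqD : D ≤ q) :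
    ∃ l0 : ℕ, ∀ a b : ℤ, l0 ≤ b - a → MR V Q a b → ∃ a' b', CH U c q D a b a' b' := by
  obtain ⟨l1, hl1⟩ := h.child hQ hq hQD hqD
  obtain ⟨l2, hl2⟩ := h.refl.child hQ.rf hq.rf hQD hqD
  refine ⟨l1 + l2 + q, fun a b hab hm => ?_⟩
  push_cast at hab
  have hl10 : (0 : ℤ) ≤ l1 := by positivity
  have hl20 : (0 : ℤ) ≤ l2 := by positivity
  have hq0 : (0 : ℤ) ≤ q := by positivity
  obtain ⟨δ, h0, h1, h2, -, -⟩ := hl1 a (b - a) (by linarith) hm.lb
  obtain ⟨δ', h0', h1', h2', -, -⟩ := hl2 (-b) (-a - -b) (by linarith) hm.rf.lb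
  rw [show a + (b - a) = b by ring] at h2
  rw [show -b + (-a - -b) = -a by ring] at h2'
  have h3 := h2.1
  rw [show c a - δ + (c b - c a + δ) = c b by ring] at h3
  have h3' := h2'.1.rf
  rw [rf_rf] at h3'
  unfold rc at h3'
  rw [show -(-c (- -b) - δ' + (-c (- -a) - -c (- -b) + δ')) = c (- -a) by ring,
    show -(-c (- -b) - δ') = c (- -b) + δ' by ring, neg_neg, neg_neg] at h3'
  have h4 := h2.2
  have h4' := h2'.2
  unfold FC.rf rc at h4'
  rw [neg_neg, show -1 - (-c b - δ' - 1 + q) = c b + δ' - q by ring,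
    show -1 - (-c b - δ' - 1) = c b + δ' by ring] at h4'
  have hlen := h.lb' (show a ≤ b by linarith)
  refine ⟨c a - δ, c b + δ', ⟨fun t ht1 ht2 => ?_, h4, h4'.symm⟩, by linarith, by linarith,
    by linarith, by linarith⟩
  rcases lt_or_ge (t + q) (c b) with h5 | h5
  · exact h3 t ht1 h5
  · exact h3' t (by linarith) ht2

/-- a long maximal run has a parent -/
lemma Stp.parentEx (h : Stp V U c m D) (hQ : PT V Q) (hq : PT U q) (hQD : D ≤ Q) (hqD : D ≤ q)
    (l' : ℕ) : ∃ l : ℕ, ∀ a' b' : ℤ, l ≤ b' - a' → MR U q a' b' →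
      ∃ a b : ℤ, l' ≤ b - a ∧ MR V Q a b ∧ CH U c q D a b a' b' := by
  obtain ⟨l0, hl0⟩ := h.pre' hQ hq.1
  obtain ⟨L, hL⟩ : ∃ L : ℕ, L = l' + l0 + 2 * D + m * q + Q + 1 := ⟨_, rfl⟩
  have hLc : (L : ℤ) = l' + l0 + 2 * D + m * q + Q + 1 := by rw [hL]; push_cast; ring
  obtain ⟨l1, hl1⟩ := h.parent hQ hq hQD hqD L
  obtain ⟨l2, hl2⟩ := h.refl.parent hQ.rf hq.rf hQD hqD L
  refine ⟨l1 + l2 + 2 * D + m * L + 1, fun a' b' hab hm => ?_⟩
  push_cast at hab
  have p1 : (0 : ℤ) ≤ l1 := by positivity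
  have p2 : (0 : ℤ) ≤ l2 := by positivity
  have p3 : (0 : ℤ) ≤ D := by positivity
  have p4 : (0 : ℤ) ≤ (m * L : ℤ) := by positivity
  have p5 : (0 : ℤ) ≤ (m * q : ℤ) := by positivity
  have p6 : (0 : ℤ) ≤ l' := by positivity
  have p7 : (0 : ℤ) ≤ l0 := by positivity
  have p8 : (0 : ℤ) ≤ Q := by positivity
  have hm1 : (1 : ℤ) ≤ m := by exact_mod_cast h.mpos
  obtain ⟨a, δ, g1, g2, g3, g4, -, -⟩ := hl1 a' (hm.lb.mono (by linarith))
  obtain ⟨b0, δ', g1', g2', g3', g4', -, -⟩ := hl2 (-b') (hm.rf.lb.mono (by linarith))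
  obtain ⟨b, rfl⟩ : ∃ b, b0 = -b := ⟨-b0, by ring⟩
  unfold rc at g3'
  rw [neg_neg] at g3'
  have g5' := g4'.1.rf
  rw [rf_rf, neg_neg, show -(-b + (L : ℤ)) = b - L by ring] at g5'
  have g6' := g4'.2
  unfold FC.rf at g6'
  rw [show -1 - (-b - 1 + (Q : ℤ)) = b - Q by ring, show -1 - (-b - 1) = b by ring] at g6'
  have hcab : c a < c b := by linarith
  have hab' : a < b := h.lt_iff.1 hcab
  have hub := h.ub' hab'.le
  have hLab : (L : ℤ) ≤ b - a := by
    by_contra hcon
    push Not at hcon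
    nlinarith
  have hmid := hl0 a' b' (a + D) (b - D - m * q) hm.1
    (by have := h.lb' (show a ≤ a + D by linarith); linarith)
    (by have := h.lb' (show b - D - m * q ≤ b by linarith); linarith) (by linarith)
  refine ⟨a, b, by linarith, ⟨fun t h1 h2 => ?_, g4.2, g6'.symm⟩, hm, by linarith, by linarith,
    by linarith, by linarith⟩
  rcases lt_or_ge (t + Q) (a + L) with h3 | h3
  · exact g4.1 t h1 h3
  · rcases lt_or_ge (t + Q) (b - D - m * q) with h4 | h4
    · exact hmid t (by linarith) h4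
    · exact g5' t (by linarith) h2

lemma Stp.gmul (_h : Stp V U c m D) {g : ℤ} (hg : ∀ j, c j + g ≤ c (j + 1)) {i j : ℤ} (hij : i ≤ j) :
    c i + g * (j - i) ≤ c j := by
  have hgM : ∀ i : ℤ, ∀ n : ℕ, c i + g * n ≤ c (i + n) := by
    intro i n
    induction n with
    | zero => simp
    | succ n ih => have := hg (i + n); push_cast; rw [← add_assoc]; nlinarith
  have := hgM i (j - i).toNat
  rwa [Int.toNat_of_nonneg (by linarith), show i + (j - i) = j by ring] at this

/-- DOWN: the windows of the children are determined by the windows of the parents -/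
lemma Stp.down (h : Stp V U c m D) {g : ℤ} (hg1 : 1 ≤ g) (hg : ∀ j, c j + g ≤ c (j + 1)) {M : ℤ}
    (hM : D + 1 ≤ M) {a1 b1 a2 b2 a1' b1' a2' b2' : ℤ} (hl : q + 2 * D ≤ b1 - a1)
    (hc1 : CH U c q D a1 b1 a1' b1') (hc2 : CH U c q D a2 b2 a2' b2')
    (hE : EQ V M a1 b1 a2 b2) : EQ U (g * M - D) a1' b1' a2' b2' := by
  obtain ⟨hm1, x1, x2, x3, x4⟩ := hc1
  obtain ⟨hm2, y1, y2, y3, y4⟩ := hc2
  obtain ⟨e0, e1⟩ := hE
  have hD0 : (0 : ℤ) ≤ D := by positivity
  have hq0 : (0 : ℤ) ≤ q := by positivity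
  obtain ⟨f1, f2⟩ := h.img' (i := a1 - M) (j := a2 - M) (n := b1 - a1 + 2 * M) (by linarith)
    fun t h3 h4 => by
      have := e1 (t - M) (by linarith) (by linarith)
      rwa [show a1 + (t - M) = a1 - M + t by ring, show a2 + (t - M) = a2 - M + t by ring] at this
  obtain ⟨f3, -⟩ := h.img' (i := a1 - M) (j := a2 - M) (n := M) (by linarith) fun t h3 h4 => by
    have := e1 (t - M) (by linarith) (by linarith)
    rwa [show a1 + (t - M) = a1 - M + t by ring, show a2 + (t - M) = a2 - M + t by ring] at this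
  obtain ⟨f4, -⟩ := h.img' (i := a1) (j := a2) (n := b1 - a1) (by linarith) fun t h3 h4 => by
    exact e1 t (by linarith) (by linarith)
  rw [show a1 - M + (b1 - a1 + 2 * M) = b1 + M by ring,
    show a2 - M + (b1 - a1 + 2 * M) = b2 + M by linarith] at f1
  rw [show a1 - M + (b1 - a1 + 2 * M) = b1 + M by ring] at f2
  rw [show a1 - M + M = a1 by ring, show a2 - M + M = a2 by ring] at f3
  rw [show a1 + (b1 - a1) = b1 by ring, show a2 + (b1 - a1) = b2 by linarith] at f4
  have g1 := h.gmul hg (show a1 - M ≤ a1 by linarith)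
  have g2 := h.gmul hg (show b1 ≤ b1 + M by linarith)
  rw [show a1 - (a1 - M) = M by ring] at g1
  rw [show b1 + M - b1 = M by ring] at g2
  have g3 := h.lb' (show a1 ≤ b1 by linarith)
  have hgM : M ≤ g * M := by nlinarith
  have E : ∀ x : ℤ, -(g * M) ≤ x → x < c b1 - c a1 + g * M → U (c a1 + x) = U (c a2 + x) := by
    intro x h3 h4
    have := f2 (c a1 - c (a1 - M) + x) (by linarith) (by linarith)
    rw [show c (a1 - M) + (c a1 - c (a1 - M) + x) = c a1 + x by ring] at this
    rw [this]; congr 1; linarith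
  -- the left ends
  have hL : a1' - c a1 = a2' - c a2 := by
    rcases lt_trichotomy (a1' - c a1) (a2' - c a2) with h1 | h1 | h1
    · exfalso; apply hm2.2.1
      have k1 := hm1.1 (c a1 + (a2' - c a2 - 1)) (by linarith) (by linarith)
      rw [show c a1 + (a2' - c a2 - 1) + (q : ℤ) = c a1 + (a2' - c a2 - 1 + q) by ring,
        E _ (by linarith) (by linarith), E _ (by linarith) (by linarith)] at k1
      rwa [show c a2 + (a2' - c a2 - 1 + (q : ℤ)) = a2' - 1 + q by ring,
        show c a2 + (a2' - c a2 - 1) = a2' - 1 by ring] at k1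
    · exact h1
    · exfalso; apply hm1.2.1
      have k1 := hm2.1 (c a2 + (a1' - c a1 - 1)) (by linarith) (by linarith)
      rw [show c a2 + (a1' - c a1 - 1) + (q : ℤ) = c a2 + (a1' - c a1 - 1 + q) by ring,
        ← E _ (by linarith) (by linarith), ← E _ (by linarith) (by linarith)] at k1
      rwa [show c a1 + (a1' - c a1 - 1 + (q : ℤ)) = a1' - 1 + q by ring,
        show c a1 + (a1' - c a1 - 1) = a1' - 1 by ring] at k1
  have hR : b1' - c a1 = b2' - c a2 := by
    rcases lt_trichotomy (b1' - c a1) (b2' - c a2) with h1 | h1 | h1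
    · exfalso; apply hm1.2.2
      have k1 := hm2.1 (c a2 + (b1' - c a1 - q)) (by linarith) (by linarith)
      rw [show c a2 + (b1' - c a1 - q) + (q : ℤ) = c a2 + (b1' - c a1) by ring,
        ← E _ (by linarith) (by linarith), ← E _ (by linarith) (by linarith)] at k1
      rwa [show c a1 + (b1' - c a1) = b1' by ring,
        show c a1 + (b1' - c a1 - q) = b1' - q by ring] at k1
    · exact h1
    · exfalso; apply hm2.2.2
      have k1 := hm1.1 (c a1 + (b2' - c a2 - q)) (by linarith) (by linarith)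
      rw [show c a1 + (b2' - c a2 - q) + (q : ℤ) = c a1 + (b2' - c a2) by ring,
        E _ (by linarith) (by linarith), E _ (by linarith) (by linarith)] at k1
      rwa [show c a2 + (b2' - c a2) = b2' by ring,
        show c a2 + (b2' - c a2 - q) = b2' - q by ring] at k1
  refine ⟨by linarith, fun t h1 h2 => ?_⟩
  have := E (a1' - c a1 + t) (by linarith) (by linarith)
  rw [show c a1 + (a1' - c a1 + t) = a1' + t by ring] at this
  rw [this]; congr 1; linarith

/-- UP: the windows of the parents are determined by the windows of the children -/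
lemma Stp.up (h : Stp V U c m D) (hQ : PT V Q) (hq : PT U q) (hQD : D ≤ Q) (hr : ROne U c) {K1 : ℤ}
    (hK1 : 1 ≤ K1) : ∃ M : ℕ, ∀ a1 b1 a2 b2 a1' b1' a2' b2' : ℤ, 2 * Q < b1 - a1 →
      2 * Q < b2 - a2 → MR V Q a1 b1 → MR V Q a2 b2 → CH U c q D a1 b1 a1' b1' →
      CH U c q D a2 b2 a2' b2' → EQ U M a1' b1' a2' b2' → EQ V K1 a1 b1 a2 b2 := by
  obtain ⟨P, hP0, hP⟩ := hr
  -- a common length for the periods `p ≤ P`
  have h1 : ∀ p : ℕ, ∃ l : ℕ, 0 < p → ∀ a b : ℤ, a + l ≤ b → PerOn U p a b → PerOn U q a b := by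
    intro p
    rcases Nat.eq_zero_or_pos p with h0 | h0
    · exact ⟨0, fun h => by omega⟩
    · obtain ⟨l, hl⟩ := hq.2 p h0
      exact ⟨l, fun _ => hl⟩
  choose l hl using h1
  obtain ⟨M', hM'⟩ : ∃ M' : ℕ, M' = (Finset.range (P + 1)).sup l + D + 1 + q := ⟨_, rfl⟩
  obtain ⟨L, hL⟩ := hP M'
  have hD0 : (0 : ℤ) ≤ D := by positivity
  have hq0 : (0 : ℤ) ≤ q := by positivity
  have hQ0 : (0 : ℤ) < Q := by exact_mod_cast hQ.1
  have hm1 : (1 : ℤ) ≤ m := by exact_mod_cast h.mpos
  obtain ⟨K, rfl⟩ : ∃ K : ℕ, K1 = K := ⟨K1.toNat, (Int.toNat_of_nonneg (by linarith)).symm⟩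
  have hQD' : (D : ℤ) ≤ Q := by exact_mod_cast hQD
  refine ⟨L + m * K + 2 * D + 1, fun a1 b1 a2 b2 a1' b1' a2' b2' hl1 hl2 hV1 hV2 hc1 hc2 hE => ?_⟩
  obtain ⟨hm1', x1, x2, x3, x4⟩ := hc1
  obtain ⟨hm2', y1, y2, y3, y4⟩ := hc2
  obtain ⟨e0, e1⟩ := hE
  push_cast at e1
  have hL0 : (0 : ℤ) ≤ L := by positivity
  have hmK0 : (K : ℤ) ≤ m * K := by nlinarith
  have g1 := h.lb' (show a1 ≤ b1 by linarith)
  -- the position `c a1` corresponds to a cut
  obtain ⟨j, hj⟩ : a2' + (c a1 - a1') ∈ Set.range c := by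
    by_contra hcon
    obtain ⟨p, hp0, hpP, hper⟩ := hL (c a1) (a2' + (c a1 - a1')) ⟨a1, rfl⟩ hcon fun t ht => by
      rw [abs_le] at ht
      have := e1 (c a1 - a1' + t) (by linarith) (by linarith)
      rw [show a1' + (c a1 - a1' + t) = c a1 + t by ring] at this
      rw [this]; congr 1; ring
    have hlp : l p ≤ (Finset.range (P + 1)).sup l :=
      Finset.le_sup (f := l) (Finset.mem_range.2 (by omega))
    have hlp' : (l p : ℤ) ≤ ((Finset.range (P + 1)).sup l : ℕ) := by exact_mod_cast hlp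
    have hM'c : (M' : ℤ) = ((Finset.range (P + 1)).sup l : ℕ) + D + 1 + q := by
      rw [hM']; push_cast; ring
    have hs0 : (0 : ℤ) ≤ ((Finset.range (P + 1)).sup l : ℕ) := by positivity
    have h3 : PerOn U p (c a1 - M') (c a1 + M' + 1) := by
      intro t ht1 ht2
      have := hper (t - c a1) (by linarith) (by linarith)
      rwa [show c a1 + (t - c a1) + (p : ℤ) = t + p by ring,
        show c a1 + (t - c a1) = t by ring] at this
    have h4 := hl p hp0 _ _ (by linarith) h3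
    exact hm1'.2.1 (h4 (a1' - 1) (by linarith) (by linarith))
  -- read
  have hR : ∀ t : ℤ, 0 ≤ t → t < b1' - c a1 + (L + m * K + 2 * D + 1) → U (c a1 + t) = U (c j + t) := by
    intro t h1 h2
    have := e1 (c a1 - a1' + t) (by linarith) (by linarith)
    rw [show a1' + (c a1 - a1' + t) = c a1 + t by ring] at this
    rw [this, hj]; congr 1; ring
  have hLf : ∀ t : ℤ, 0 ≤ t → t < L + m * K + D → U (c a1 - 1 - t) = U (c j - 1 - t) := by
    intro t h1 h2
    have := e1 (c a1 - a1' - 1 - t) (by linarith) (by linarith)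
    rw [show a1' + (c a1 - a1' - 1 - t) = c a1 - 1 - t by ring] at this
    rw [this, hj]; congr 1; ring
  have hW : ∀ t : ℤ, -K ≤ t → t < b1 - a1 + K → V (a1 + t) = V (j + t) := by
    intro t h1 h2
    rcases le_or_gt 0 t with h3 | h3
    · refine h.read' hR h3 ?_
      have k1 := h.mono (show a1 + t ≤ b1 + K by linarith)
      have k2 := h.ub' (show b1 ≤ b1 + K by linarith)
      rw [show b1 + (K : ℤ) - b1 = K by ring] at k2
      linarith
    · have := h.readL hLf (r := -1 - t) (by linarith) (by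
        have k1 := h.mono (show a1 - K ≤ a1 - (-1 - t) by linarith)
        have k2 := h.ub' (show a1 - K ≤ a1 by linarith)
        rw [show a1 - (a1 - (K : ℤ)) = K by ring] at k2
        linarith)
      rwa [show a1 - 1 - (-1 - t) = a1 + t by ring, show j - 1 - (-1 - t) = j + t by ring] at this
  -- `[j, j + (b1 - a1))` is a maximal run
  have hMj : MR V Q j (j + (b1 - a1)) := by
    refine ⟨fun t h1 h2 => ?_, ?_, ?_⟩
    · have := hV1.1 (a1 + (t - j)) (by linarith) (by linarith)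
      rw [show a1 + (t - j) + (Q : ℤ) = a1 + (t - j + Q) by ring, hW _ (by linarith) (by linarith),
        hW _ (by linarith) (by linarith)] at this
      rwa [show j + (t - j + (Q : ℤ)) = t + Q by ring, show j + (t - j) = t by ring] at this
    · have := hV1.2.1
      rw [show a1 - 1 + (Q : ℤ) = a1 + (-1 + Q) by ring, show a1 - 1 = a1 + (-1) by ring,
        hW _ (by linarith) (by linarith), hW _ (by linarith) (by linarith)] at this
      rwa [show j + (-1 + (Q : ℤ)) = j - 1 + Q by ring, show j + (-1) = j - 1 by ring] at this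
    · have := hV1.2.2
      rw [show b1 - (Q : ℤ) = a1 + (b1 - a1 - Q) by ring, hW _ (by linarith) (by linarith),
        show b1 = a1 + (b1 - a1) by ring, hW _ (by linarith) (by linarith)] at this
      rwa [show j + (a1 + (b1 - a1) - a1 - (Q : ℤ)) = j + (b1 - a1) - Q by ring] at this
  have hja : j = a2 := by
    have k1 : c j < c a2 + D := by linarith
    have k2 : c a2 < c j + D := by linarith
    have k3 : j < a2 + D := by
      by_contra hcon
      push Not at hcon
      have := h.lb' (show a2 ≤ j by linarith)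
      linarith
    have k4 : a2 < j + D := by
      by_contra hcon
      push Not at hcon
      have := h.lb' (show j ≤ a2 by linarith)
      linarith
    refine LB.unique hQ0.le hMj.lb hV2.lb ?_ ?_
    · linarith
    · linarith
  subst hja
  have hb := hMj.right hV2 (by linarith) (by linarith)
  exact ⟨by linarith, hW⟩

end

/-- for long maximal runs the windows with a fixed margin determine the windows with a big margin -/
lemma Ctx.big (hUL : S_UL) {B C : Type} [Finite B] [Finite C] {V : ℤ → B} {U : ℤ → C} {c d : ℤ → ℤ}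
    {m D Q q : ℕ} (h : Ctx V U c d m D Q q) : ∃ K : ℕ, ∀ M : ℕ, ∃ l : ℕ, ∀ a b a' b' : ℤ,
      MR U q a b → MR U q a' b' → l ≤ b - a → EQ U K a b a' b' → EQ U M a b a' b' := by
  obtain ⟨K1, hK1⟩ := hUL B C V U c d m D Q q h
  obtain ⟨K2, hK2⟩ := hUL B C (rf V) (rf U) (rc c) (rc d) m D Q q h.refl
  refine ⟨K1 + K2, fun M => ?_⟩
  obtain ⟨l1, hl1⟩ := hK1 M
  obtain ⟨l2, hl2⟩ := hK2 M
  refine ⟨l1 + l2 + q, fun a b a' b' hm hm' hl hE => ?_⟩
  push_cast at hl hE
  have p1 : (0 : ℤ) ≤ l1 := by positivity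
  have p2 : (0 : ℤ) ≤ l2 := by positivity
  have p3 : (0 : ℤ) ≤ q := by positivity
  have p4 : (0 : ℤ) ≤ K1 := by positivity
  have p5 : (0 : ℤ) ≤ K2 := by positivity
  have e0 := hE.1
  have hl' : (l1 : ℤ) + l2 + q ≤ b' - a' := by linarith
  have A := hl1 a a' (hm.lb.mono (by linarith)) (hm'.lb.mono (by linarith))
    fun t h1 h2 => hE.2 t (by linarith) (by linarith)
  have hE' := hE.rf
  have A' := hl2 (-b) (-b') (hm.rf.lb.mono (by linarith)) (hm'.rf.lb.mono (by linarith))
    fun t h1 h2 => hE'.2 t (by linarith) (by linarith)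
  refine ⟨e0, fun t h1 h2 => ?_⟩
  rcases lt_or_ge t 0 with h3 | h3
  · exact A t h1 (by linarith)
  rcases lt_or_ge t (b - a) with h4 | h4
  · exact hE.2 t (by linarith) (by linarith)
  · have := A' (b - a - 1 - t) (by linarith) (by linarith)
    unfold rf at this
    rw [show -1 - (-b + (b - a - 1 - t)) = a + t by ring] at this
    rw [this]; congr 1; linarith

end Pool.Agent.T2h96.FC
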