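import Pool.Agent.T2h96.FC.Stm2

set_option autoImplicit false

namespace Pool.Agent.T2h96.FC

lemma mem_range_rc {c : ℤ → ℤ} {i : ℤ} : i ∈ Set.range (rc c) ↔ -i ∈ Set.range c := by
  unfold rc
  constructor
  · rintro ⟨j, hj⟩; exact ⟨-j, by simp only at hj; linarith⟩
  · rintro ⟨j, hj⟩; exact ⟨-j, by simp only [neg_neg]; linarith⟩

lemma ROne.refl {C : Type} {U : ℤ → C} {c : ℤ → ℤ} (h : ROne U c) : ROne (rf U) (rc c) := by
  obtain ⟨P, hP, h⟩ := h
  refine ⟨P, hP, fun M => ?_⟩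
  obtain ⟨L, hL⟩ := h (M + 1)
  refine ⟨L + 1, fun i i' hi hi' hag => ?_⟩
  rw [mem_range_rc] at hi hi'
  obtain ⟨p, hp0, hp1, hp2⟩ := hL (-i) (-i') hi hi' fun t ht => by
    have := hag (-1 - t) (by
      rw [abs_le] at ht ⊢
      push_cast
      constructor <;> linarith)
    unfold rf at this
    rwa [show -1 - (i + (-1 - t)) = -i + t by ring, show -1 - (i' + (-1 - t)) = -i' + t by ring] at this
  refine ⟨p, hp0, hp1, fun t ht1 ht2 => ?_⟩
  have := hp2 (-1 - t - p) (by push_cast; linarith) (by push_cast; linarith)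
  unfold rf
  rw [show -1 - (i + t + p) = -i + (-1 - t - p) by ring, ← this]
  congr 1; ring

lemma Ctx.refl {B C : Type} {V : ℤ → B} {U : ℤ → C} {c d : ℤ → ℤ} {m D Q q : ℕ}
    (h : Ctx V U c d m D Q q) : Ctx (rf V) (rf U) (rc c) (rc d) m D Q q where
  hV := h.hV.refl
  hU := h.hU.refl
  hg := fun j => by
    have := h.hg (-(j + 1)); unfold rc
    rw [show -(j + 1) + 1 = -j by ring] at this; linarith
  hQ := h.hQ.rf
  hq := h.hq.rf
  hQD := h.hQD
  hqD := h.hqD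
  rV := h.rV.refl
  rU := h.rU.refl

/-- the same setting for the word `V` itself -/
lemma Ctx.self {B C : Type} {V : ℤ → B} {U : ℤ → C} {c d : ℤ → ℤ} {m D Q q : ℕ}
    (h : Ctx V U c d m D Q q) : Ctx V V c c m D Q Q where
  hV := h.hV
  hU := h.hV
  hg := h.hg
  hQ := h.hQ
  hq := h.hQ
  hQD := h.hQD
  hqD := h.hQD
  rV := h.rV
  rU := h.rV

end Pool.Agent.T2h96.FC
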