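import Pool.Agent.T2h96.FC.NL

set_option autoImplicit false

namespace Pool.Agent.T2h96.FC

/-- `T` has period `p` on `[a, b)` -/
def PerOn {C : Type} (T : ℤ → C) (p a b : ℤ) : Prop := ∀ t, a ≤ t → t + p < b → T (t + p) = T t

/-- long periodic pieces of `T` have period `Q` -/
def PT {C : Type} (T : ℤ → C) (Q : ℕ) : Prop :=
  0 < Q ∧ ∀ p : ℕ, 0 < p → ∃ l : ℕ, ∀ a b : ℤ, a + l ≤ b → PerOn T p a b → PerOn T Q a b

lemma PerOn.sub {C : Type} {T : ℤ → C} {p a b a' b' : ℤ} (h : PerOn T p a b) (ha : a ≤ a')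
    (hb : b' ≤ b) : PerOn T p a' b' := fun t h1 h2 => h t (by linarith) (by linarith)

lemma PerOn.mulN {C : Type} {T : ℤ → C} {p a b : ℤ} (h : PerOn T p a b) (hp : 0 ≤ p) (k : ℕ) :
    ∀ t, a ≤ t → t + k * p < b → T (t + k * p) = T t := by
  induction k with
  | zero => intro t _ _; simp
  | succ k ih =>
    intro t h1 h2
    push_cast at h2 ⊢
    rw [show t + (k + 1) * p = (t + p) + k * p by ring, ih (t + p) (by linarith) (by linarith)]
    exact h t h1 (by nlinarith [show (0 : ℤ) ≤ k by positivity])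

lemma PerOn.eq {C : Type} {T : ℤ → C} {p a b : ℤ} (h : PerOn T p a b) (hp : 0 < p) {s t : ℤ}
    (hs : a ≤ s) (hs' : s < b) (ht : a ≤ t) (ht' : t < b) (hd : p ∣ s - t) : T s = T t := by
  wlog hst : t ≤ s generalizing s t
  · exact (this ht ht' hs hs' (by rw [← neg_sub]; exact (dvd_neg).2 hd) (by linarith)).symm
  obtain ⟨k, hk⟩ := hd
  have hk0 : 0 ≤ k := by
    by_contra hk1
    push Not at hk1
    nlinarith
  have := h.mulN hp.le k.toNat t ht (by
    rw [Int.toNat_of_nonneg hk0]; linarith [mul_comm p k])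
  rw [Int.toNat_of_nonneg hk0] at this
  rw [← this]
  congr 1
  linarith [mul_comm p k]

lemma PerOn.mul {C : Type} {T : ℤ → C} {p a b : ℤ} (h : PerOn T p a b) (hp : 0 ≤ p) (k : ℕ) :
    PerOn T (k * p) a b := fun t h1 h2 => h.mulN hp k t h1 h2

lemma PT.mul {C : Type} {T : ℤ → C} {Q : ℕ} (h : PT T Q) {k : ℕ} (hk : 0 < k) : PT T (k * Q) := by
  refine ⟨Nat.mul_pos hk h.1, fun p hp => ?_⟩
  obtain ⟨l, hl⟩ := h.2 p hp
  refine ⟨l, fun a b hab hper => ?_⟩
  have := (hl a b hab hper).mul (by positivity) k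
  push_cast
  exact this

lemma PerOn.rf {C : Type} {T : ℤ → C} {p a b : ℤ} (h : PerOn T p a b) : PerOn (rf T) p (-b) (-a) := by
  intro t h1 h2
  unfold FC.rf
  have := h (-1 - (t + p)) (by linarith) (by linarith)
  rw [← this]; congr 1; ring

lemma PT.rf {C : Type} {T : ℤ → C} {Q : ℕ} (h : PT T Q) : PT (rf T) Q := by
  refine ⟨h.1, fun p hp => ?_⟩
  obtain ⟨l, hl⟩ := h.2 p hp
  refine ⟨l, fun a b hab hper => ?_⟩
  have h1 : PerOn T p (-b) (-a) := by have := hper.rf; rwa [rf_rf] at this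
  have h2 := (hl (-b) (-a) (by linarith) h1).rf
  simpa using h2

section

variable {B C : Type} {V : ℤ → B} {U : ℤ → C} {c d : ℤ → ℤ} {m D : ℕ}

lemma Stp.mpos (h : Stp V U c m D) : 1 ≤ m := by
  have h1 := h.pos 0
  have h2 := h.le 0
  by_contra h3
  have h4 : m = 0 := by omega
  rw [h4] at h2
  rw [zero_add] at h1 h2
  push_cast at h2
  linarith

/-- pulling back a period -/
lemma Stp.pre (h : Stp V U c m D) {p a b : ℤ} (hp : 0 < p) (hper : PerOn U p a b)
    (hab : a + m * (p + 2) ≤ b) : ∃ p' : ℤ, 0 < p' ∧ p' ≤ p ∧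
      ∀ z1 z2, a + D ≤ c z1 → c z2 ≤ b - D - m * p → PerOn V p' z1 z2 := by
  obtain ⟨j0, hj1, hj2⟩ := h.cut_in a
  obtain ⟨pn, rfl⟩ : ∃ n : ℕ, p = n := ⟨p.toNat, (Int.toNat_of_nonneg hp.le).symm⟩
  have hm1 : (1 : ℤ) ≤ m := by exact_mod_cast h.mpos
  -- pigeonhole
  obtain ⟨s, s', hss, hmod⟩ : ∃ s s' : Fin (pn + 1), s < s' ∧
      (c (j0 + (s : ℕ))) % pn = (c (j0 + (s' : ℕ))) % pn := by
    have hpn : 0 < pn := by exact_mod_cast hp
    obtain ⟨x, y, hxy, he⟩ := Fintype.exists_ne_map_eq_of_card_lt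
      (fun s : Fin (pn + 1) => (⟨((c (j0 + (s : ℕ))) % pn).toNat, by
        have h1 := Int.emod_nonneg (c (j0 + (s : ℕ))) hp.ne'
        have h2 := Int.emod_lt_of_pos (c (j0 + (s : ℕ))) hp
        omega⟩ : Fin pn)) (by simp)
    simp only [Fin.mk.injEq] at he
    have he' : (c (j0 + (x : ℕ))) % pn = (c (j0 + (y : ℕ))) % pn := by
      have h1 := Int.emod_nonneg (c (j0 + (x : ℕ))) hp.ne'
      have h2 := Int.emod_nonneg (c (j0 + (y : ℕ))) hp.ne'
      omega
    rcases lt_or_gt_of_ne hxy with h1 | h1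
    · exact ⟨x, y, h1, he'⟩
    · exact ⟨y, x, h1, he'.symm⟩
  obtain ⟨x, hx⟩ : ∃ x : ℤ, x = j0 + (s : ℕ) := ⟨_, rfl⟩
  obtain ⟨p', hp'⟩ : ∃ p' : ℤ, p' = (s' : ℕ) - (s : ℕ) := ⟨_, rfl⟩
  have hss' : ((s : ℕ) : ℤ) < (s' : ℕ) := by exact_mod_cast hss
  have hs'le : ((s' : ℕ) : ℤ) ≤ pn := by have := s'.2; exact_mod_cast Nat.lt_succ_iff.1 this
  have hs0 : (0 : ℤ) ≤ (s : ℕ) := by positivity
  have hy : j0 + ((s' : ℕ) : ℤ) = x + p' := by rw [hx, hp']; ring
  rw [hy] at hmod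
  rw [← hx] at hmod
  have hdvd : (pn : ℤ) ∣ c (x + p') - c x := by
    have := Int.emod_emod_of_dvd
    exact (Int.ModEq.dvd hmod)
  have hp'0 : 0 < p' := by rw [hp']; linarith
  have hxa : a ≤ c x := by rw [hx]; exact hj1.trans (h.mono (by linarith))
  have hyb : c (x + p') ≤ b := by
    have h1 : x + p' ≤ j0 + pn := by rw [← hy]; linarith
    have h2 := h.mono h1
    have h3 := h.ub j0 pn
    nlinarith
  have hE : c (x + p') - c x ≤ m * pn := by
    have := h.ub' (show x ≤ x + p' by linarith)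
    have h2 : p' ≤ pn := by rw [hp']; linarith
    nlinarith
  have hE0 : 0 ≤ c (x + p') - c x := by have := h.mono (show x ≤ x + p' by linarith); linarith
  have hagR : ∀ t, 0 ≤ t → t < b - c (x + p') → U (c x + t) = U (c (x + p') + t) := by
    intro t h0 h1
    refine (hper.eq hp (by linarith) (by linarith) (by linarith) (by linarith) ?_).symm
    rwa [show c (x + p') + t - (c x + t) = c (x + p') - c x by ring]
  have hagL : ∀ t, 0 ≤ t → t < c x - a → U (c x - 1 - t) = U (c (x + p') - 1 - t) := by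
    intro t h0 h1
    refine (hper.eq hp (by linarith) (by linarith) (by linarith) (by linarith) ?_).symm
    rwa [show c (x + p') - 1 - t - (c x - 1 - t) = c (x + p') - c x by ring]
  refine ⟨p', hp'0, by rw [hp']; linarith, fun z1 z2 hz1 hz2 z hz hzz => ?_⟩
  rcases le_or_gt x z with h1 | h1
  · have h2 := h.read' hagR (r := z - x) (by linarith) (by
      rw [show x + (z - x) = z by ring]
      have := h.mono (show z ≤ z2 by linarith)
      linarith)
    rw [show x + (z - x) = z by ring] at h2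
    rw [h2]; congr 1; ring
  · have h2 := h.readL hagL (r := x - 1 - z) (by linarith) (by
      rw [show x - (x - 1 - z) = z + 1 by ring]
      have := h.mono (show z1 ≤ z + 1 by linarith)
      linarith)
    rw [show x - 1 - (x - 1 - z) = z by ring] at h2
    rw [h2]; congr 1; ring

lemma Stp.pre' (h : Stp V U c m D) {Q : ℕ} (hQ : PT V Q) {p : ℕ} (hp : 0 < p) : ∃ l : ℕ, ∀ a b z1 z2 : ℤ,
    PerOn U p a b → a + D ≤ c z1 → c z2 ≤ b - D - m * p → z1 + l ≤ z2 → PerOn V Q z1 z2 := by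
  have h1 : ∀ p : ℕ, ∃ l : ℕ, 0 < p → ∀ a b : ℤ, a + l ≤ b → PerOn V p a b → PerOn V Q a b := by
    intro p
    rcases Nat.eq_zero_or_pos p with h0 | h0
    · exact ⟨0, fun h => by omega⟩
    · obtain ⟨l, hl⟩ := hQ.2 p h0
      exact ⟨l, fun _ => hl⟩
  choose l hl using h1
  obtain ⟨L, hL⟩ : ∃ L : ℕ, L = (Finset.range (p + 1)).sup l + m * (p + 2) := ⟨_, rfl⟩
  refine ⟨L, fun a b z1 z2 hper hz1 hz2 hz => ?_⟩
  have h12 := h.lb' (show z1 ≤ z2 by linarith [show (0 : ℤ) ≤ L by positivity])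
  have hLc : (L : ℤ) = ((Finset.range (p + 1)).sup l : ℕ) + m * (p + 2) := by rw [hL]; push_cast; ring
  have hpos1 : (0 : ℤ) ≤ ((Finset.range (p + 1)).sup l : ℕ) := by positivity
  have hpos2 : (0 : ℤ) ≤ m * p := by positivity
  obtain ⟨p', h0, h2, h3⟩ := h.pre (by exact_mod_cast hp) hper (by linarith [show (0:ℤ) ≤ D by positivity])
  have h4 := h3 z1 z2 hz1 hz2
  refine hl p'.toNat (by omega) z1 z2 ?_ (by rwa [Int.toNat_of_nonneg h0.le])
  have h5 : l p'.toNat ≤ (Finset.range (p + 1)).sup l :=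
    Finset.le_sup (f := l) (Finset.mem_range.2 (by omega))
  have h6 : (l p'.toNat : ℤ) ≤ ((Finset.range (p + 1)).sup l : ℕ) := by exact_mod_cast h5
  have h7 : (0 : ℤ) ≤ m * (p + 2) := by positivity
  linarith

/-- images of periodic pieces -/
lemma Stp.imgP (h : Stp V U c m D) {Q z1 z2 : ℤ} (hQ : 0 < Q) (hper : PerOn V Q z1 z2)
    (hz : z1 + Q ≤ z2) : PerOn U (c (z1 + Q) - c z1) (c z1) (c z2) := by
  obtain ⟨h1, h2⟩ := h.img' (i := z1) (j := z1 + Q) (n := z2 - Q - z1) (by linarith) fun t h0 h1 => by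
    have := hper (z1 + t) (by linarith) (by linarith)
    rw [← this]; congr 1; ring
  rw [show z1 + Q + (z2 - Q - z1) = z2 by ring] at h1
  intro t h3 h4
  have := h2 (t - c z1) (by linarith) (by linarith)
  rw [show c z1 + (t - c z1) = t by ring] at this
  rw [this]; congr 1; ring

lemma Stp.imgQ (h : Stp V U c m D) {Q q : ℕ} (hQ : PT V Q) (hq : PT U q) : ∃ l : ℕ, ∀ z1 z2 : ℤ,
    PerOn V Q z1 z2 → z1 + l ≤ z2 → PerOn U q (c z1) (c z2) := by
  have h1 : ∀ p : ℕ, ∃ l : ℕ, 0 < p → ∀ a b : ℤ, a + l ≤ b → PerOn U p a b → PerOn U q a b := by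
    intro p
    rcases Nat.eq_zero_or_pos p with h0 | h0
    · exact ⟨0, fun h => by omega⟩
    · obtain ⟨l, hl⟩ := hq.2 p h0
      exact ⟨l, fun _ => hl⟩
  choose l hl using h1
  obtain ⟨L, hL⟩ : ∃ L : ℕ, L = (Finset.range (m * Q + 1)).sup l + Q := ⟨_, rfl⟩
  refine ⟨L, fun z1 z2 hper hz => ?_⟩
  have hLc : (L : ℤ) = ((Finset.range (m * Q + 1)).sup l : ℕ) + Q := by rw [hL]; push_cast; ring
  have hpos1 : (0 : ℤ) ≤ ((Finset.range (m * Q + 1)).sup l : ℕ) := by positivity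
  have hQ0 : (0 : ℤ) < Q := by exact_mod_cast hQ.1
  have h2 := h.imgP hQ0 hper (by linarith)
  have h3 := h.smono (show z1 < z1 + Q by linarith)
  have h4 := h.ub z1 Q
  obtain ⟨E, hE⟩ : ∃ E : ℕ, c (z1 + Q) - c z1 = E := ⟨(c (z1 + Q) - c z1).toNat, by omega⟩
  rw [hE] at h2
  have h5 : (E : ℤ) ≤ m * Q := by linarith
  have h6 : l E ≤ (Finset.range (m * Q + 1)).sup l :=
    Finset.le_sup (f := l) (Finset.mem_range.2 (by
      have : E ≤ m * Q := by exact_mod_cast h5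
      omega))
  have h7 : (l E : ℤ) ≤ ((Finset.range (m * Q + 1)).sup l : ℕ) := by exact_mod_cast h6
  have h8 := h.lb' (show z1 ≤ z2 by linarith)
  exact hl E (by omega) _ _ (by linarith) h2

/-- the image of a word with `PT` has `PT` -/
lemma Stp.ptU (h : Stp V U c m D) {Q : ℕ} (hQ : PT V Q) : ∃ q, PT U q := by
  have hQ0 : (0 : ℤ) < Q := by exact_mod_cast hQ.1
  have hm := h.mpos
  refine ⟨(m * Q).factorial, Nat.factorial_pos _, fun p hp => ?_⟩
  obtain ⟨l, hl⟩ := h.pre' hQ hp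
  obtain ⟨q, hq⟩ : ∃ q : ℕ, q = (m * Q).factorial := ⟨_, rfl⟩
  rw [← hq]
  have hp0 : (0 : ℤ) < p := by exact_mod_cast hp
  have hm0 : (1 : ℤ) ≤ m := by exact_mod_cast hm
  obtain ⟨n, hn⟩ : ∃ n : ℕ, n = l + Q + q + p := ⟨_, rfl⟩
  refine ⟨D + m + m * n + D + m * p + 1, fun a b hab hper => ?_⟩
  push_cast at hab
  have hnc : (n : ℤ) = l + Q + q + p := by rw [hn]; push_cast; ring
  obtain ⟨z1, hz1, hz1'⟩ := h.cut_in (a + D)
  have hz2 : c (z1 + n) ≤ b - D - m * p := by have := h.ub z1 n; linarith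
  have hl0 : (0 : ℤ) ≤ l := by positivity
  have hq0 : (0 : ℤ) < q := by rw [hq]; exact_mod_cast Nat.factorial_pos _
  have h1 := hl a b z1 (z1 + n) hper hz1 hz2 (by linarith)
  have h2 := h.imgP hQ0 h1 (by linarith)
  have h3 := h.smono (show z1 < z1 + Q by linarith)
  have h4 := h.ub z1 Q
  obtain ⟨E, hE⟩ : ∃ E : ℕ, c (z1 + Q) - c z1 = E := ⟨(c (z1 + Q) - c z1).toNat, by omega⟩
  rw [hE] at h2
  have hEdvd : E ∣ q := by
    rw [hq]
    refine Nat.dvd_factorial (by omega) ?_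
    have h5 : (E : ℤ) ≤ m * Q := by linarith
    exact_mod_cast h5
  obtain ⟨k, hk⟩ := hEdvd
  have h5 : PerOn U q (c z1) (c (z1 + n)) := by
    have := h2.mul (by positivity) k
    rw [hk]; push_cast; rwa [mul_comm (E : ℤ) k]
  have h6 := h.lb z1 n
  -- move `t` into the middle
  intro t ht1 ht2
  obtain ⟨x, hx⟩ : ∃ x : ℤ, x = c z1 + (t - c z1) % p := ⟨_, rfl⟩
  have hx1 := Int.emod_nonneg (t - c z1) hp0.ne'
  have hx2 := Int.emod_lt_of_pos (t - c z1) hp0
  have hdv : (p : ℤ) ∣ t - x := by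
    rw [hx, show t - (c z1 + (t - c z1) % p) = (t - c z1) - (t - c z1) % p by ring]
    exact Int.dvd_self_sub_emod
  have hD0 : (0 : ℤ) ≤ D := by positivity
  have hmp0 : (0 : ℤ) ≤ m * p := by positivity
  have e1 : U t = U x := hper.eq hp0 (by linarith) (by linarith) (by linarith) (by linarith) hdv
  have e2 : U (t + q) = U (x + q) := hper.eq hp0 (by linarith) (by linarith) (by linarith)
    (by linarith) (by rwa [show t + q - (x + q) = t - x by ring])
  rw [e1, e2]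
  exact h5 x (by linarith) (by linarith)

/-- a left break of a run of period `q` and length at least `l` -/
def LB {C : Type} (T : ℤ → C) (q α l : ℤ) : Prop := PerOn T q α (α + l) ∧ T (α - 1 + q) ≠ T (α - 1)

lemma LB.mono {C : Type} {T : ℤ → C} {q α l l' : ℤ} (h : LB T q α l) (hl : l' ≤ l) : LB T q α l' :=
  ⟨h.1.sub le_rfl (by linarith), h.2⟩

/-- two left breaks of runs which overlap a lot are equal -/
lemma LB.unique {C : Type} {T : ℤ → C} {q α β l l' : ℤ} (hq : 0 ≤ q) (h : LB T q α l) (h' : LB T q β l')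
    (h1 : β + q < α + l) (h2 : α + q < β + l') : α = β := by
  rcases lt_trichotomy α β with h3 | h3 | h3
  · exact absurd (h.1 (β - 1) (by linarith) (by linarith)) h'.2
  · exact h3
  · exact absurd (h'.1 (α - 1) (by linarith) (by linarith)) h.2

/-- the image of a left break -/
lemma Stp.child (h : Stp V U c m D) {Q q : ℕ} (hQ : PT V Q) (hq : PT U q) (hQD : D ≤ Q) (hqD : D ≤ q) :
    ∃ l0 : ℕ, ∀ α l : ℤ, l0 ≤ l → LB V Q α l → ∃ δ : ℤ, 0 ≤ δ ∧ δ < D ∧
      LB U q (c α - δ) (c (α + l) - c α + δ) ∧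
      (∀ t, 0 ≤ t → t < δ → U (c α - 1 - t) = U (c (α + Q) - 1 - t)) ∧
      U (c α - 1 - δ) ≠ U (c (α + Q) - 1 - δ) := by
  obtain ⟨l1, hl1⟩ := h.imgQ hQ hq
  refine ⟨l1 + Q + Q + q + D + 1, fun α l hl hLB => ?_⟩
  push_cast at hl
  have hl10 : (0 : ℤ) ≤ l1 := by positivity
  have hQ0 : (0 : ℤ) < Q := by exact_mod_cast hQ.1
  have hq0 : (0 : ℤ) < q := by exact_mod_cast hq.1
  have hD0 : (0 : ℤ) ≤ D := by positivity
  have hQD' : (D : ℤ) ≤ Q := by exact_mod_cast hQD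
  have hqD' : (D : ℤ) ≤ q := by exact_mod_cast hqD
  have hU := hl1 α (α + l) hLB.1 (by linarith)
  have hUE := h.imgP hQ0 hLB.1 (by linarith)
  have hE := h.lb α Q
  have hlen : c α + l ≤ c (α + l) := by have := h.lb' (show α ≤ α + l by linarith); linarith
  have hlen2 : c (α + Q) + (l - Q) ≤ c (α + l) := by
    have := h.lb' (show α + Q ≤ α + l by linarith); linarith
  -- the first difference to the left
  have hne : V (α - 1) ≠ V (α + Q - 1) := by
    intro h1; apply hLB.2; rw [h1]; congr 1; ring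
  have hex : ∃ s : ℕ, U (c α - 1 - s) ≠ U (c (α + Q) - 1 - s) := by
    obtain ⟨t, h1, h2, h3⟩ := h.ld _ _ hne
    exact ⟨t.toNat, by rwa [Int.toNat_of_nonneg h1]⟩
  classical
  obtain ⟨δ, hδ⟩ : ∃ δ : ℕ, δ = Nat.find hex := ⟨_, rfl⟩
  have hδ1 : U (c α - 1 - δ) ≠ U (c (α + Q) - 1 - δ) := by rw [hδ]; exact Nat.find_spec hex
  have hδ2 : ∀ t : ℤ, 0 ≤ t → t < δ → U (c α - 1 - t) = U (c (α + Q) - 1 - t) := by
    intro t h0 h1
    have := Nat.find_min hex (m := t.toNat) (by omega)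
    push Not at this
    rwa [Int.toNat_of_nonneg h0] at this
  have hδD : (δ : ℤ) < D := by
    obtain ⟨t, h1, h2, h3⟩ := h.ld _ _ hne
    by_contra h4
    push Not at h4
    exact h3 (hδ2 t h1 (by linarith))
  have key : ∀ t : ℤ, 0 ≤ t → t ≤ δ → U (c (α + Q) - 1 - t) = U (c α - 1 - t + q) := by
    intro t h0 h1
    have e1 := hU (c (α + Q) - 1 - t) (by linarith) (by linarith)
    have e2 := hUE (c α - 1 - t + q) (by linarith) (by linarith)
    rw [← e1, ← e2]
    congr 1; ring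
  refine ⟨δ, by positivity, hδD, ⟨fun t h1 h2 => ?_, ?_⟩, hδ2, hδ1⟩
  · rcases le_or_gt (c α) t with h3 | h3
    · exact hU t h3 (by linarith)
    · have e1 := hδ2 (c α - 1 - t) (by linarith) (by linarith)
      have e2 := key (c α - 1 - t) (by linarith) (by linarith)
      rw [show c α - 1 - (c α - 1 - t) = t by ring] at e1 e2
      rw [e1, e2]
  · have e2 := key δ (by positivity) le_rfl
    rw [e2] at hδ1
    intro h3
    apply hδ1
    rw [show c α - 1 - (δ : ℤ) = c α - δ - 1 by ring]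
    exact h3.symm

/-- every left break of a long run is the image of a left break of a long run -/
lemma Stp.parent (h : Stp V U c m D) {Q q : ℕ} (hQ : PT V Q) (hq : PT U q) (hQD : D ≤ Q) (hqD : D ≤ q)
    (l' : ℕ) : ∃ l : ℕ, ∀ α : ℤ, LB U q α l → ∃ α' δ : ℤ, 0 ≤ δ ∧ δ < D ∧ α = c α' - δ ∧
      LB V Q α' l' ∧ (∀ t, 0 ≤ t → t < δ → U (c α' - 1 - t) = U (c (α' + Q) - 1 - t)) ∧
      U (c α' - 1 - δ) ≠ U (c (α' + Q) - 1 - δ) := by
  obtain ⟨l0, hl0⟩ := h.child hQ hq hQD hqD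
  obtain ⟨l1, hl1⟩ := h.imgQ hQ hq
  obtain ⟨l2, hl2⟩ := h.pre' hQ hq.1
  have hQ0 : (0 : ℤ) < Q := by exact_mod_cast hQ.1
  have hq0 : (0 : ℤ) < q := by exact_mod_cast hq.1
  have hD0 : (0 : ℤ) ≤ D := by positivity
  have hm0 : (1 : ℤ) ≤ m := by exact_mod_cast h.mpos
  obtain ⟨n, hn⟩ : ∃ n : ℕ, n = l' + l0 + l1 + l2 + q + D + m + q + 1 := ⟨_, rfl⟩
  have hnc : (n : ℤ) = l' + l0 + l1 + l2 + q + D + m + q + 1 := by rw [hn]; push_cast; ring
  refine ⟨D + m + m * n + D + m * q + 1, fun α hα => ?_⟩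
  push_cast at hα
  obtain ⟨z1, hz1, hz1'⟩ := h.cut_in (α + D)
  have hub := h.ub z1 n
  have hlb := h.lb z1 n
  have hmq : (0 : ℤ) ≤ m * q := by positivity
  have h1 := hl2 α (α + (D + m + m * n + D + m * q + 1)) z1 (z1 + n) hα.1 hz1 (by linarith)
    (by linarith [show (0:ℤ) ≤ l' by positivity, show (0:ℤ) ≤ l0 by positivity, show (0:ℤ) ≤ l1 by positivity])
  have hll' : (0 : ℤ) ≤ l' := by positivity
  have hll0 : (0 : ℤ) ≤ l0 := by positivity
  have hll1 : (0 : ℤ) ≤ l1 := by positivity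
  have hll2 : (0 : ℤ) ≤ l2 := by positivity
  -- extend to the left
  have hbd : ∀ z : ℤ, z ≤ z1 → PerOn V Q z (z1 + n) → α - 1 < c z := by
    intro z hz hper
    by_contra h3
    push Not at h3
    have h4 := hl1 z (z1 + n) hper (by linarith)
    exact hα.2 (h4 (α - 1) h3 (by linarith))
  have hbd' : ∃ b : ℤ, ∀ z : ℤ, (z ≤ z1 ∧ PerOn V Q z (z1 + n)) → b ≤ z := by
    obtain ⟨j, hj1, hj2⟩ := h.block (α - 1)
    refine ⟨j, fun z hz => ?_⟩
    have := hbd z hz.1 hz.2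
    by_contra h3
    push Not at h3
    have := h.mono h3.le
    linarith
  obtain ⟨α', ⟨h2, h3⟩, h4⟩ := Int.exists_least_of_bdd hbd' ⟨z1, le_rfl, h1⟩
  have h5 : V (α' - 1 + Q) ≠ V (α' - 1) := by
    intro h6
    have := h4 (α' - 1) ⟨by linarith, fun t ht1 ht2 => by
      rcases eq_or_lt_of_le ht1 with h7 | h7
      · rw [← h7]; exact h6
      · exact h3 t (by linarith) ht2⟩
    linarith
  have hLB : LB V Q α' (z1 + n - α') := ⟨by rw [show α' + (z1 + n - α') = z1 + n by ring]; exact h3, h5⟩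
  obtain ⟨δ, hδ0, hδD, hδ, hδ2, hδ3⟩ := hl0 α' (z1 + n - α') (by linarith) hLB
  have h6 := hbd α' h2 h3
  have h7 := h.mono h2
  rw [show α' + (z1 + n - α') = z1 + n by ring] at hδ
  have h8 : α = c α' - δ := by
    refine LB.unique hq0.le hα hδ ?_ ?_
    · nlinarith
    · linarith
  exact ⟨α', δ, hδ0, hδD, h8, hLB.mono (by linarith), hδ2, hδ3⟩

/-- the window of the image of a left break is determined by the window of the left break -/
lemma Stp.cwin (h : Stp V U c m D) {Q q : ℕ} (hQ0 : 0 < Q) (hQD : D ≤ Q)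
    {g : ℤ} (hg1 : 1 ≤ g) (hg : ∀ j, c j + g ≤ c (j + 1)) {M : ℤ} (hM : D ≤ M) {α1 α2 δ1 δ2 : ℤ}
    (hD1 : 0 ≤ δ1) (hD1' : δ1 < D) (hD2 : 0 ≤ δ2) (hD2' : δ2 < D)
    (h1 : ∀ t, 0 ≤ t → t < δ1 → U (c α1 - 1 - t) = U (c (α1 + Q) - 1 - t))
    (h1' : U (c α1 - 1 - δ1) ≠ U (c (α1 + Q) - 1 - δ1))
    (h2 : ∀ t, 0 ≤ t → t < δ2 → U (c α2 - 1 - t) = U (c (α2 + Q) - 1 - t))
    (h2' : U (c α2 - 1 - δ2) ≠ U (c (α2 + Q) - 1 - δ2))
    {l1 l2 : ℤ} (hV1 : PerOn V Q α1 (α1 + l1)) (hV2 : PerOn V Q α2 (α2 + l2))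
    (hl1 : q + Q < l1) (hl2 : q + Q < l2)
    (hw : ∀ t, -M ≤ t → t < Q → V (α1 + t) = V (α2 + t)) : δ1 = δ2 ∧
      ∀ t, -(g * M - D) ≤ t → t < q → U (c α1 - δ1 + t) = U (c α2 - δ2 + t) := by
  have hQ0' : (0 : ℤ) < Q := by exact_mod_cast hQ0
  have hQD' : (D : ℤ) ≤ Q := by exact_mod_cast hQD
  have hD0 : (0 : ℤ) ≤ D := by positivity
  have hq0 : (0 : ℤ) ≤ q := by positivity
  have hgM : ∀ i : ℤ, ∀ n : ℕ, c i + g * n ≤ c (i + n) := by
    intro i n
    induction n with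
    | zero => simp
    | succ n ih => have := hg (i + n); push_cast; rw [← add_assoc]; nlinarith
  -- images of the window, from the left end
  obtain ⟨e1, e2⟩ := h.img' (i := α1 - M) (j := α2 - M) (n := M + Q) (by linarith) fun t h3 h4 => by
    have := hw (t - M) (by linarith) (by linarith)
    rwa [show α1 + (t - M) = α1 - M + t by ring, show α2 + (t - M) = α2 - M + t by ring] at this
  obtain ⟨e3, -⟩ := h.img' (i := α1 - M) (j := α2 - M) (n := M) (by linarith) fun t h3 h4 => by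
    have := hw (t - M) (by linarith) (by linarith)
    rwa [show α1 + (t - M) = α1 - M + t by ring, show α2 + (t - M) = α2 - M + t by ring] at this
  rw [show α1 - M + (M + Q) = α1 + Q by ring, show α2 - M + (M + Q) = α2 + Q by ring] at e1
  rw [show α1 - M + (M + Q) = α1 + Q by ring] at e2
  rw [show α1 - M + M = α1 by ring, show α2 - M + M = α2 by ring] at e3
  have hgl : g * M ≤ c α1 - c (α1 - M) := by
    have := hgM (α1 - M) M.toNat
    rw [Int.toNat_of_nonneg (by linarith), show α1 - M + M = α1 by ring] at this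
    linarith
  have hgQ : (Q : ℤ) ≤ c (α1 + Q) - c α1 := by have := h.lb α1 Q; linarith
  have E : ∀ x : ℤ, -(g * M) ≤ x → x < c (α1 + Q) - c α1 → U (c α1 + x) = U (c α2 + x) := by
    intro x h3 h4
    have := e2 (c α1 - c (α1 - M) + x) (by linarith) (by linarith)
    rw [show c (α1 - M) + (c α1 - c (α1 - M) + x) = c α1 + x by ring] at this
    rw [this]; congr 1; linarith
  have hDgM : (D : ℤ) ≤ g * M := by nlinarith
  have e4 : ∀ t : ℤ, 0 ≤ t → t < D → U (c α1 - 1 - t) = U (c α2 - 1 - t) := by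
    intro t h3 h4
    have := E (-1 - t) (by linarith) (by linarith)
    rwa [show c α1 + (-1 - t) = c α1 - 1 - t by ring, show c α2 + (-1 - t) = c α2 - 1 - t by ring] at this
  have e5 : ∀ t : ℤ, 0 ≤ t → t < D → U (c (α1 + Q) - 1 - t) = U (c (α2 + Q) - 1 - t) := by
    intro t h3 h4
    have := E (c (α1 + Q) - c α1 - 1 - t) (by linarith) (by linarith)
    rw [show c α1 + (c (α1 + Q) - c α1 - 1 - t) = c (α1 + Q) - 1 - t by ring] at this
    rw [this]; congr 1; linarith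
  have hδ : δ1 = δ2 := by
    rcases lt_trichotomy δ1 δ2 with h3 | h3 | h3
    · exfalso; apply h1'
      rw [e4 _ hD1 hD1', e5 _ hD1 hD1']
      exact h2 _ hD1 h3
    · exact h3
    · exfalso; apply h2'
      rw [← e4 _ hD2 hD2', ← e5 _ hD2 hD2']
      exact h1 _ hD2 h3
  refine ⟨hδ, fun t h3 h4 => ?_⟩
  subst hδ
  have hp1 := h.imgP hQ0' hV1 (by linarith)
  have hp2 := h.imgP hQ0' hV2 (by linarith)
  have hl1' := h.lb' (show α1 ≤ α1 + l1 by linarith)
  have hl2' := h.lb' (show α2 ≤ α2 + l2 by linarith)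
  -- reduce large `t` by periodicity
  have key : ∀ n : ℕ, ∀ t : ℤ, t < q → t ≤ n → -(g * M - D) ≤ t → U (c α1 - δ1 + t) = U (c α2 - δ1 + t) := by
    intro n
    induction n with
    | zero =>
      intro t h5 h6 h7
      have := E (t - δ1) (by linarith) (by push_cast at h6; linarith)
      rwa [show c α1 + (t - δ1) = c α1 - δ1 + t by ring,
        show c α2 + (t - δ1) = c α2 - δ1 + t by ring] at this
    | succ n ih =>
      intro t h5 h6 h7
      push_cast at h6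
      rcases lt_or_ge (t - δ1) (c (α1 + Q) - c α1) with h8 | h8
      · have := E (t - δ1) (by linarith) (by linarith)
        rwa [show c α1 + (t - δ1) = c α1 - δ1 + t by ring,
          show c α2 + (t - δ1) = c α2 - δ1 + t by ring] at this
      · -- compare with the position `t - E` where `E = c (α + Q) - c α`
        have h9 := ih (t - (c (α1 + Q) - c α1)) (by linarith) (by linarith) (by linarith)
        have h10 := hp1 (c α1 - δ1 + t - (c (α1 + Q) - c α1)) (by linarith) (by linarith)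
        have h11 := hp2 (c α2 - δ1 + t - (c (α2 + Q) - c α2)) (by linarith) (by linarith)
        rw [sub_add_cancel] at h10 h11
        rw [h10, h11, show c α1 - δ1 + t - (c (α1 + Q) - c α1) = c α1 - δ1 + (t - (c (α1 + Q) - c α1)) by ring,
          h9]
        congr 1; linarith
  exact key t.toNat t h4 (by omega) h3

end

end Pool.Agent.T2h96.FC
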