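import Mathlib

/-!
# Factor complexity of fixed points of morphisms (MP_52de8b_co, S08765): definitions and tasks

Common definitions and the statements of the independent tasks.
-/

set_option autoImplicit false

open Filter

namespace Pool.Agent.T2h96.FC

/-- `W` is the image of the bi-infinite word `x` under the morphism `H`, and `c` are the cut points:
`H (x j)` is written in `W` on the positions `c j, …, c (j+1) - 1`. -/
structure Des {B C : Type} (H : B → List C) (x : ℤ → B) (W : ℤ → C) (c : ℤ → ℤ) : Prop where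
  step : ∀ j, c (j + 1) = c j + (H (x j)).length
  val : ∀ j (r : ℕ), r < (H (x j)).length → (H (x j))[r]? = some (W (c j + r))

/-- `H` is elementary: it does not factor through a smaller alphabet. -/
def Elem {B C : Type} [Fintype B] (H : B → List C) : Prop :=
  ∀ (m : ℕ) (g : B → List (Fin m)) (f : Fin m → List C),
    (∀ b, H b = (g b).flatMap f) → Fintype.card B ≤ m

/-- TASK DEL (bounded delay of elementary morphisms, both sides). -/
def S_DEL : Prop :=
  ∀ (B C : Type) [Fintype B] [Fintype C] (H : B → List C), Elem H → (∀ b, H b ≠ []) ∧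
    ∃ D : ℕ, ∀ (x y : ℤ → B) (W W' : ℤ → C) (c c' : ℤ → ℤ), Des H x W c → Des H y W' c' →
      (∀ i j, x i ≠ y j → ∃ t : ℕ, t < D ∧ W (c i + t) ≠ W' (c' j + t)) ∧
      (∀ i j, x (i - 1) ≠ y (j - 1) → ∃ t : ℕ, t < D ∧ W (c i - 1 - t) ≠ W' (c' j - 1 - t))

/-- TASK HULL (defect theorem for an elementary morphism and one more word `z`). -/
def S_HULL : Prop :=
  ∀ (B C : Type) [Fintype B] (H : B → List C), Elem H →
    ∀ (z : List C) (X Y : List B), z ≠ [] → X ≠ [] → Y ≠ [] →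
      X.flatMap H ++ z = z ++ Y.flatMap H →
      ∃ (g : B → List B) (f : B → List C) (Z : List B), (∀ b, H b = (g b).flatMap f) ∧
        Z.flatMap f = z ∧ (∀ b, g b ≠ []) ∧ Elem f ∧
        (∀ b b', (g b).head? = (g b').head? → b = b') ∧
        (∀ b b', (g b).getLast? = (g b').getLast? → b = b')

/-- TASK REC (recognizability of elementary morphisms in non-periodic words). -/
def S_REC : Prop :=
  ∀ (B C : Type) [Fintype B] [Fintype C] (H : B → List C), Elem H →
    ∃ P : ℕ, 0 < P ∧ ∀ (x y : ℤ → B) (W : ℤ → C) (c c' : ℤ → ℤ), Des H x W c → Des H y W c' →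
      (∃ i, ∀ j, c i ≠ c' j) →
      (∀ i j, c i ≠ c' j) ∧ (∃ p : ℕ, 0 < p ∧ p ≤ P ∧ ∀ t, W (t + p) = W t) ∧
        (∃ p : ℕ, 0 < p ∧ p ≤ P ∧ ∀ t, x (t + p) = x t)

/-- TASK RONE (compactness form of recognizability). -/
def S_RONE : Prop :=
  ∀ (B C : Type) [Fintype B] [Fintype C] (H : B → List C), Elem H →
    ∃ P : ℕ, 0 < P ∧ ∀ (V : ℤ → B) (U : ℤ → C) (c : ℤ → ℤ), Des H V U c → ∀ M : ℕ, ∃ L : ℕ,
      ∀ i i' : ℤ, i ∈ Set.range c → i' ∉ Set.range c →
        (∀ t : ℤ, |t| ≤ L → U (i + t) = U (i' + t)) →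
        ∃ p : ℕ, 0 < p ∧ p ≤ P ∧ ∀ t : ℤ, -M ≤ t → t + p ≤ M → U (i + t + p) = U (i + t)

/-- TASK PER (long periodic factors of a fixed point have a common period). -/
def S_PER : Prop :=
  ∀ (B : Type) [Fintype B] (τ : B → List B), Elem τ → (∀ b, 2 ≤ (τ b).length) →
    ∀ (V : ℤ → B) (c : ℤ → ℤ), Des τ V V c →
      ∃ Q : ℕ, 0 < Q ∧ ∀ p : ℕ, 0 < p → ∃ l : ℕ, ∀ (a : ℤ) (n : ℕ), l ≤ n →
        (∀ t, a ≤ t → t + p < a + n → V (t + p) = V t) →
        (∀ t, a ≤ t → t + Q < a + n → V (t + Q) = V t)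

/-- The growth function of a nonnegative matrix `N` with weights `w`: the total weight of the
letters after `k` steps, starting from the letter `b`. -/
def G {B : Type} [Fintype B] (N : B → B → ℕ) (w : B → ℕ) : ℕ → B → ℕ
  | 0, b => w b
  | k + 1, b => ∑ c, N b c * G N w k c

/-- TASK GROW (growth of the letters: `k^e θ^k` up to constants). -/
def S_GROW : Prop :=
  ∀ (B : Type) [Fintype B] [DecidableEq B] (N : B → B → ℕ) (w : B → ℕ), (∀ b, 0 < w b) →
    (∀ b, Tendsto (fun k => G N w k b) atTop atTop) → ∀ b, ∃ (θ : ℝ) (e : ℕ) (c C : ℝ),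
      1 < θ ∧ 0 < c ∧ 0 < C ∧ ∀ k : ℕ, c * ((k : ℝ) + 1) ^ e * θ ^ k ≤ G N w k b ∧
        (G N w k b : ℝ) ≤ C * ((k : ℝ) + 1) ^ e * θ ^ k

/-- TASK CNT (counting the terms below `n`). -/
def S_CNT : Prop :=
  ∀ (g : ℕ → ℝ) (θ : ℝ) (e : ℕ) (c C : ℝ), 1 < θ → 0 < c → 0 < C →
    (∀ k : ℕ, c * ((k : ℝ) + 1) ^ e * θ ^ k ≤ g k ∧ g k ≤ C * ((k : ℝ) + 1) ^ e * θ ^ k) →
    ∀ P r : ℕ, r < P → ∃ K : ℝ, ∀ n : ℕ, 3 ≤ n → {k : ℕ | k % P = r ∧ g k ≤ n}.Finite ∧
      |({k : ℕ | k % P = r ∧ g k ≤ n}.ncard : ℝ) -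
        (Real.log n - e * Real.log (Real.log n)) / (P * Real.log θ)| ≤ K

/-- TASK ASY (from the expansion with bounded error to the equivalent). -/
def S_ASY : Prop :=
  ∀ (s : ℕ → ℝ) (A B K : ℝ), (∀ n : ℕ, 3 ≤ n →
      |s n - A * Real.log n - B * Real.log (Real.log n)| ≤ K) → (∀ n, 0 ≤ s n) →
    (∀ M : ℝ, ∃ n, M < s n) → ∃ C : ℝ, 0 < C ∧
      (Asymptotics.IsEquivalent atTop s (fun n : ℕ => C * Real.log (Real.log (n : ℝ))) ∨
       Asymptotics.IsEquivalent atTop s (fun n : ℕ => C * Real.log (n : ℝ)))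

/-- The number of factors of length `n` of a one-sided word, as in the frozen statement. -/
noncomputable def pc {A : Type} (u : ℕ → A) (n : ℕ) : ℕ :=
  (Set.range (fun i : ℕ => List.ofFn (fun j : Fin n => u (i + j.val)))).ncard

/-- TASK UNB (the complexity of a fixed point of a morphism which is not quasi-uniform is not
linear). -/
def S_UNB : Prop :=
  ∀ (k : ℕ) (σ : Fin k → List (Fin k)) (a : Fin k) (u : ℕ → Fin k),
    (∀ b : Fin k, Tendsto
      (fun m : ℕ => ((fun w : List (Fin k) => w.flatMap σ)^[m] [b]).length) atTop atTop) →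
    (σ a).head? = some a → 2 ≤ (σ a).length →
    (∀ m i : ℕ, i < ((fun w : List (Fin k) => w.flatMap σ)^[m] [a]).length →
      ((fun w : List (Fin k) => w.flatMap σ)^[m] [a])[i]? = some (u i)) →
    (∀ b : Fin k, ∃ i : ℕ, u i = b) →
    ¬ (∀ b c : Fin k, Asymptotics.IsTheta atTop
        (fun m : ℕ => (((fun w : List (Fin k) => w.flatMap σ)^[m] [b]).length : ℝ))
        (fun m : ℕ => (((fun w : List (Fin k) => w.flatMap σ)^[m] [c]).length : ℝ))) →
    ∀ M : ℕ, ∃ n : ℕ, 0 < n ∧ M * n ≤ pc u n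

/-- TASK RED (reduction to elementary morphisms, two-sided words). -/
def S_RED : Prop :=
  ∀ (k : ℕ) (σ : Fin k → List (Fin k)) (a : Fin k) (u : ℕ → Fin k),
    (∀ b : Fin k, Tendsto
      (fun m : ℕ => ((fun w : List (Fin k) => w.flatMap σ)^[m] [b]).length) atTop atTop) →
    (σ a).head? = some a → 2 ≤ (σ a).length →
    (∀ m i : ℕ, i < ((fun w : List (Fin k) => w.flatMap σ)^[m] [a]).length →
      ((fun w : List (Fin k) => w.flatMap σ)^[m] [a])[i]? = some (u i)) →
    ∃ (l : ℕ) (τ : Fin l → List (Fin l)) (f : Fin l → List (Option (Fin k)))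
      (V : ℤ → Fin l) (U : ℤ → Option (Fin k)) (c d : ℤ → ℤ),
      Elem τ ∧ Elem f ∧ (∀ b, 2 ≤ (τ b).length) ∧ Des τ V V c ∧ Des f V U d ∧
        (∀ i : ℤ, i < 0 → U i = none) ∧ (∀ i : ℕ, U i = some (u i))

/-- The factor of length `n` at the position `i` of a bi-infinite word. -/
def wd {C : Type} (T : ℤ → C) (n : ℕ) (i : ℤ) : Fin n → C := fun t => T (i + t)

/-- The number of factors of length `n` of a bi-infinite word. -/
noncomputable def pz {C : Type} (T : ℤ → C) (n : ℕ) : ℕ := (Set.range (wd T n)).ncard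

/-- TASK PU (one-sided versus two-sided complexity). -/
def S_PU : Prop :=
  ∀ (A : Type) [Fintype A] (u : ℕ → A) (U : ℤ → Option A), (∀ i : ℤ, i < 0 → U i = none) →
    (∀ i : ℕ, U i = some (u i)) → ∀ n : ℕ, pz U n = pc u n + n

/-- The occurrences of `w`. -/
def occ {C : Type} (T : ℤ → C) {n : ℕ} (w : Fin n → C) : Set ℤ := {i | wd T n i = w}

/-- The bilateral multiplicity of `w`: (number of two-sided extensions) - (left extensions) -
(right extensions) + 1. -/
noncomputable def mul {C : Type} (T : ℤ → C) {n : ℕ} (w : Fin n → C) : ℤ :=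
  (((fun i : ℤ => (T (i - 1), T (i + n))) '' occ T w).ncard : ℤ) -
    ((fun i : ℤ => T (i - 1)) '' occ T w).ncard - ((fun i : ℤ => T (i + n)) '' occ T w).ncard + 1

/-- TASK SD (second difference of the complexity). -/
def S_SD : Prop :=
  ∀ (C : Type) [Fintype C] (T : ℤ → C) (n : ℕ), (pz T (n + 2) : ℤ) - 2 * pz T (n + 1) + pz T n =
    ∑ w ∈ (Set.toFinite (Set.range (wd T n))).toFinset, mul T w

end Pool.Agent.T2h96.FC
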