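import Pool.Agent.T2h96.FC.Lev

/-!
# Third list of tasks: the non-periodic bispecial words
-/

set_option autoImplicit false

open Filter

namespace Pool.Agent.T2h96.FC

/-- a bispecial family: the words of length `n` at the positions of `F` are equal, and they are
extended to both sides in more than one way -/
structure Fm {C : Type} (T : ℤ → C) (F : Set ℤ) (n : ℤ) : Prop where
  n0 : 0 ≤ n
  com : ∀ i ∈ F, ∀ j ∈ F, ∀ t, 0 ≤ t → t < n → T (i + t) = T (j + t)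
  lft : ∃ i ∈ F, ∃ j ∈ F, T (i - 1) ≠ T (j - 1)
  rgt : ∃ i ∈ F, ∃ j ∈ F, T (i + n) ≠ T (j + n)

/-- the family `(F', n')` of `T` is the child of the family `(F, n)` of `V` -/
structure Ch {B C : Type} (V : ℤ → B) (T : ℤ → C) (c : ℤ → ℤ) (D : ℕ) (F : Set ℤ) (n : ℤ)
    (F' : Set ℤ) (n' L R : ℤ) : Prop where
  fV : Fm V F n
  fT : Fm T F' n'
  L0 : 0 ≤ L
  LD : L < D
  R0 : 0 ≤ R
  RD : R < D
  im : F' = (fun j => c j - L) '' F
  len : ∀ j ∈ F, n' = c (j + n) - c j + L + R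

/-- TASK CHE: every family has a child -/
def S_CHE : Prop := ∀ (B C : Type) (V : ℤ → B) (T : ℤ → C) (c : ℤ → ℤ) (m D : ℕ), Stp V T c m D →
  ∀ F n, Fm V F n → ∃ F' n' L R, Ch V T c D F n F' n' L R

/-- TASK UNI (part of CHE): two bispecial families obtained from the same set of positions are equal -/
def S_UNI : Prop := ∀ (C : Type) (T : ℤ → C) (G : Set ℤ) (e : ℤ → ℤ) (t t' n n' : ℤ),
  Fm T ((fun j => e j - t) '' G) n → Fm T ((fun j => e j - t') '' G) n' → 0 ≤ t → t ≤ n → 0 ≤ t' →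
  t' ≤ n' → t = t' ∧ n = n'

/-- the child as a function -/
noncomputable def nx {B C : Type} (V : ℤ → B) (T : ℤ → C) (c : ℤ → ℤ) (D : ℕ) (s : Set ℤ × ℤ) :
    Set ℤ × ℤ := by
  classical
  exact if h : ∃ x : Set ℤ × ℤ, ∃ L R, Ch V T c D s.1 s.2 x.1 x.2 L R then h.choose else s

/-- TASK AH (anchoring): a word which is not periodic inside margins of length `L` contains a cut
which is seen in all of its occurrences -/
def S_AH : Prop := ∀ (B C : Type) (V : ℤ → B) (T : ℤ → C) (c : ℤ → ℤ) (m D q : ℕ), Stp V T c m D →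
  PT T q → ROne T c → ∃ L1 : ℕ, ∀ L : ℤ, L1 ≤ L → ∀ i n : ℤ, 2 * L + m ≤ n →
    ¬ PerOn T q (i + L) (i + n - L) → ∃ t, L ≤ t ∧ t < n - L ∧
      ∀ i', (∀ s, 0 ≤ s → s < n → T (i' + s) = T (i + s)) → i' + t ∈ Set.range c

/-- anchoring as a hypothesis -/
def AHp {C : Type} (T : ℤ → C) (c : ℤ → ℤ) (m q L1 : ℕ) : Prop := ∀ L : ℤ, L1 ≤ L →
  ∀ i n : ℤ, 2 * L + m ≤ n → ¬ PerOn T q (i + L) (i + n - L) → ∃ t, L ≤ t ∧ t < n - L ∧
    ∀ i', (∀ s, 0 ≤ s → s < n → T (i' + s) = T (i + s)) → i' + t ∈ Set.range c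

/-- TASK PAR: existence and uniqueness of the parent -/
def S_PAR : Prop := ∀ (B C : Type) (V : ℤ → B) (T : ℤ → C) (c : ℤ → ℤ) (m D q L1 : ℕ),
  Stp V T c m D → AHp T c m q L1 → ∀ K : ℤ, L1 ≤ K → D ≤ K → ∀ (F' : Set ℤ) (n' : ℤ), Fm T F' n' →
    2 * K + m ≤ n' → (∀ i ∈ F', ¬ PerOn T q (i + K) (i + n' - K)) →
    (∃ F n L R, Ch V T c D F n F' n' L R) ∧
    ∀ F n L R G ν L' R', Ch V T c D F n F' n' L R → Ch V T c D G ν F' n' L' R' → F = G ∧ n = ν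

/-- the conclusion of `S_UL` for one word and one constant -/
def ULp {C : Type} (T : ℤ → C) (q K : ℕ) : Prop := ∀ M : ℕ, ∃ l : ℕ, ∀ α β : ℤ, LB T q α l →
  LB T q β l → (∀ t : ℤ, -K ≤ t → t < q → T (α + t) = T (β + t)) →
    ∀ t : ℤ, -M ≤ t → t < q → T (α + t) = T (β + t)

/-- TASK LS: long bispecial families which are periodic inside big margins are periodic inside
margins `K` -/
def S_LS : Prop := ∀ (C : Type) (T : ℤ → C) (q K : ℕ), 0 < q → ULp T q K → ULp (rf T) q K →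
  ∀ M : ℕ, ∃ l : ℕ, ∀ (F : Set ℤ) (n : ℤ), l ≤ n → Fm T F n →
    ∀ i ∈ F, PerOn T q (i + M) (i + n - M) → ∀ i' ∈ F, PerOn T q (i' + K) (i' + n - K)

/-- TASK NPU: if the child is periodic inside margins, so is the parent -/
def S_NPU : Prop := ∀ (B C : Type) (V : ℤ → B) (T : ℤ → C) (c : ℤ → ℤ) (m D Q q : ℕ) (g : ℤ),
  Stp V T c m D → PT V Q → 0 < q → 1 ≤ g → (∀ j, c j + g ≤ c (j + 1)) → ∀ K M : ℤ, 0 ≤ K → 0 ≤ M →
    K + D + m * q ≤ g * M → ∃ l : ℕ, ∀ F n F' n' L R, Ch V T c D F n F' n' L R → l ≤ n →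
      ∀ i ∈ F', PerOn T q (i + K) (i + n' - K) → ∀ j ∈ F, PerOn V Q (j + M) (j + n - M)

/-- TASK NPD: if the parent is periodic inside (big) margins, then the child is periodic inside
margins of length `K` -/
def S_NPD : Prop := ∀ (B C : Type) (V : ℤ → B) (T : ℤ → C) (c : ℤ → ℤ) (m D Q q K : ℕ),
  Stp V T c m D → PT V Q → PT T q → ULp T q K → ULp (rf T) q K → ∀ M : ℕ,
    ∃ l : ℕ, ∀ F n F' n' L R, Ch V T c D F n F' n' L R → l ≤ n →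
      ∀ j ∈ F, PerOn V Q (j + M) (j + n - M) → ∀ i ∈ F', PerOn T q (i + K) (i + n' - K)

/-- TASK AL: alignment of the occurrences of a child, one step (`E` is the number of letters lost on
both sides) -/
def S_AL : Prop := ∀ (B C : Type) (V : ℤ → B) (T : ℤ → C) (c : ℤ → ℤ) (m D q L1 : ℕ) (g E : ℤ),
  Stp V T c m D → AHp T c m q L1 → 1 ≤ g → (∀ j, c j + g ≤ c (j + 1)) → 0 ≤ E → D + E ≤ g * D →
  ∀ K : ℤ, L1 ≤ K →
    ∀ (F : Set ℤ) (n : ℤ) (F' : Set ℤ) (n' L R : ℤ), Ch V T c D F n F' n' L R →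
      2 * (K + E) + m ≤ n' → (∀ i ∈ F', ¬ PerOn T q (i + (K + E)) (i + n' - (K + E))) →
      ∀ j ∈ F, ∀ i' : ℤ, (∀ t : ℤ, E ≤ t → t < n' - E → T (i' + t) = T (c j - L + t)) →
        ∃ j' : ℤ, (∀ t : ℤ, D ≤ t → t < n - D → V (j' + t) = V (j + t)) ∧
          ∀ x : ℤ, D ≤ x → x ≤ n - D → c (j' + x) - i' = c (j + x) - (c j - L)

/-- the family `(F', n')` of `U` is the descendant of the family `(F, n)` of `V` after `k` steps
`V → V` and one step `V → U` -/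
structure Lv {B C : Type} (V : ℤ → B) (U : ℤ → C) (c d : ℤ → ℤ) (k : ℕ) (F : Set ℤ) (n : ℤ)
    (F' : Set ℤ) (n' L R : ℤ) : Prop where
  fV : Fm V F n
  fU : Fm U F' n'
  L0 : 0 ≤ L
  R0 : 0 ≤ R
  im : F' = (fun j => d (c^[k] j) - L) '' F
  len : ∀ j ∈ F, n' = d (c^[k] (j + n)) - d (c^[k] j) + L + R

/-- the `k`-th descendant in `V` -/
noncomputable def Vk {B : Type} (V : ℤ → B) (c : ℤ → ℤ) (D : ℕ) (s : Set ℤ × ℤ) (k : ℕ) :
    Set ℤ × ℤ := (nx V V c D)^[k] s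

/-- the `k`-th descendant in `U` -/
noncomputable def Uk {B C : Type} (V : ℤ → B) (U : ℤ → C) (c d : ℤ → ℤ) (D : ℕ) (s : Set ℤ × ℤ)
    (k : ℕ) : Set ℤ × ℤ := nx V U d D (Vk V c D s k)

/-- TASK LV: the descendants, all levels at once (uses CHE) -/
def S_LV : Prop := ∀ (B C : Type) (V : ℤ → B) (U : ℤ → C) (c d : ℤ → ℤ) (m D : ℕ),
  Stp V V c m D → Stp V U d m D → ∀ F n, Fm V F n → ∀ k, ∃ L R,
    Lv V U c d k F n (Uk V U c d D (F, n) k).1 (Uk V U c d D (F, n) k).2 L R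

/-- TASK LVV: the same for the descendants in `V` (second part of LV) -/
def S_LVV : Prop := ∀ (B : Type) (V : ℤ → B) (c : ℤ → ℤ) (m D : ℕ),
  Stp V V c m D → ∀ F n, Fm V F n → ∀ k, ∃ L R,
    Lv V V c id k F n (Vk V c D (F, n) k).1 (Vk V c D (F, n) k).2 L R

/-- TASK GRA: growth of the length of the descendants (uses CHE) -/
def S_GRA : Prop := ∀ (B C : Type) (V : ℤ → B) (U : ℤ → C) (c d : ℤ → ℤ) (m D : ℕ),
  Stp V V c m D → Stp V U d m D → GR c d → ∀ F n, Fm V F n → 0 < n →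
    ∃ (θ : ℝ) (e : ℕ) (κ K : ℝ), 1 < θ ∧ 0 < κ ∧ 0 < K ∧ ∀ k : ℕ,
      κ * ((k : ℝ) + 1) ^ e * θ ^ k ≤ (((Uk V U c d D (F, n) k).2 + 1 : ℤ) : ℝ) ∧
      (((Uk V U c d D (F, n) k).2 + 1 : ℤ) : ℝ) ≤ K * ((k : ℝ) + 1) ^ e * θ ^ k

/-- TASK RAP: whether the position `y` agrees with the positions of `X` after `k` steps up to the
common extension of `X` is eventually periodic in `k` (uniformly) -/
def S_RAP : Prop := ∀ (B C : Type) [Finite B] (V : ℤ → B) (U : ℤ → C) (c d : ℤ → ℤ) (m D : ℕ),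
  Stp V V c m D → (∀ j, c j + 2 ≤ c (j + 1)) → Stp V U d m D → ∃ N P : ℕ, 0 < P ∧ ∀ k, N ≤ k →
    ∀ (r : ℕ) (X : Set ℤ) (y a T T' : ℤ), IsR V X id a → IsR U X (fun j => d (c^[k] j)) T →
      IsR U X (fun j => d (c^[k + r * P] j)) T' →
      ((∀ x ∈ X, ∀ s, 0 ≤ s → s < T → U (d (c^[k] y) + s) = U (d (c^[k] x) + s)) ↔
        (∀ x ∈ X, ∀ s, 0 ≤ s → s < T' →
          U (d (c^[k + r * P] y) + s) = U (d (c^[k + r * P] x) + s)))

/-- the multiplicity of a family -/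
noncomputable def mlF {C : Type} (T : ℤ → C) (F : Set ℤ) (n : ℤ) : ℤ :=
  (((fun i : ℤ => (T (i - 1), T (i + n))) '' F).ncard : ℤ) -
    ((fun i : ℤ => T (i - 1)) '' F).ncard - ((fun i : ℤ => T (i + n)) '' F).ncard + 1

/-- the family consists of all the occurrences of its word -/
def Cld {C : Type} (T : ℤ → C) (F : Set ℤ) (n : ℤ) : Prop :=
  ∀ i ∈ F, ∀ i', (∀ s, 0 ≤ s → s < n → T (i' + s) = T (i + s)) → i' ∈ F

/-- the core words of `(F, n)` extend to the same word at level `k` only on `F` -/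
def CL {B C : Type} (V : ℤ → B) (U : ℤ → C) (c d : ℤ → ℤ) (D : ℕ) (k : ℕ) (F : Set ℤ) (n : ℤ)
    (L R : ℤ) : Prop :=
  ∀ j ∈ F, ∀ j' : ℤ, (∀ t : ℤ, D ≤ t → t < n - D → V (j' + t) = V (j + t)) →
    (∀ s : ℤ, 0 ≤ s → s < d (c^[k] (j + n)) - d (c^[k] (j + n - D)) + R →
      U (d (c^[k] (j' + n - D)) + s) = U (d (c^[k] (j + n - D)) + s)) →
    (∀ s : ℤ, 0 ≤ s → s < d (c^[k] (j + D)) - d (c^[k] j) + L →
      U (d (c^[k] (j' + D)) - 1 - s) = U (d (c^[k] (j + D)) - 1 - s)) → j' ∈ F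

/-- all the occurrences of the descendant are aligned -/
def Al {B C : Type} (V : ℤ → B) (U : ℤ → C) (c d : ℤ → ℤ) (D : ℕ) (k : ℕ) (F : Set ℤ)
    (n n' L : ℤ) : Prop :=
  ∀ j ∈ F, ∀ i' : ℤ, (∀ s : ℤ, 0 ≤ s → s < n' → U (i' + s) = U (d (c^[k] j) - L + s)) →
    ∃ j' : ℤ, (∀ t : ℤ, D ≤ t → t < n - D → V (j' + t) = V (j + t)) ∧
      ∀ x : ℤ, D ≤ x → x ≤ n - D →
        d (c^[k] (j' + x)) - i' = d (c^[k] (j + x)) - (d (c^[k] j) - L)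

/-- TASK CLQ: closedness in terms of the cores -/
def S_CLQ : Prop := ∀ (B C : Type) (V : ℤ → B) (U : ℤ → C) (c d : ℤ → ℤ) (m D : ℕ),
  Stp V V c m D → Stp V U d m D → ∀ (k : ℕ) (F : Set ℤ) (n : ℤ) (F' : Set ℤ) (n' L R : ℤ),
    Lv V U c d k F n F' n' L R → 2 * D ≤ n → Al V U c d D k F n n' L →
    (Cld U F' n' ↔ CL V U c d D k F n L R)

/-- TASK CLP: closedness is eventually periodic in the level -/
def S_CLP : Prop := ∀ (B C : Type) [Finite B] (V : ℤ → B) (U : ℤ → C) (c d : ℤ → ℤ) (m D : ℕ),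
  Stp V V c m D → (∀ j, c j + 2 ≤ c (j + 1)) → Stp V U d m D → ∃ N P : ℕ, 0 < P ∧ ∀ k, N ≤ k →
    ∀ (r : ℕ) (F : Set ℤ) (n : ℤ) (F' : Set ℤ) (n' L R : ℤ) (F'' : Set ℤ) (n'' L' R' : ℤ),
      2 * D ≤ n → Lv V U c d k F n F' n' L R → Lv V U c d (k + r * P) F n F'' n'' L' R' →
      (CL V U c d D k F n L R ↔ CL V U c d D (k + r * P) F n L' R')

/-- TASK MLP: the multiplicity is eventually periodic in the level -/
def S_MLP : Prop := ∀ (B C : Type) [Finite B] (V : ℤ → B) (U : ℤ → C) (c d : ℤ → ℤ) (m D : ℕ),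
  Stp V V c m D → (∀ j, c j + 2 ≤ c (j + 1)) → Stp V U d m D → ∃ N P : ℕ, 0 < P ∧ ∀ k, N ≤ k →
    ∀ (r : ℕ) (F : Set ℤ) (n : ℤ) (F' : Set ℤ) (n' L R : ℤ) (F'' : Set ℤ) (n'' L' R' : ℤ),
      Lv V U c d k F n F' n' L R → Lv V U c d (k + r * P) F n F'' n'' L' R' →
      mlF U F' n' = mlF U F'' n''

/-- `F` is a union of classes of windows -/
def Sat {B : Type} (V : ℤ → B) (D : ℕ) (F : Set ℤ) (n : ℤ) : Prop :=
  ∀ j ∈ F, ∀ j' : ℤ, (∀ t : ℤ, -D ≤ t → t < n + D → V (j' + t) = V (j + t)) → j' ∈ F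

/-- TASK SAT: closed families are unions of classes of windows, and these are finitely many -/
def S_SAT : Prop := ∀ (B C : Type) [Finite B] (V : ℤ → B) (U : ℤ → C) (c d : ℤ → ℤ) (m D : ℕ),
  Stp V V c m D → (∀ j, c j + 2 ≤ c (j + 1)) → Stp V U d m D →
    (∀ (k : ℕ) (F : Set ℤ) (n : ℤ) (F' : Set ℤ) (n' L R : ℤ), Lv V U c d k F n F' n' L R →
      Cld U F' n' → Sat V D F n) ∧
    ∀ N : ℤ, {s : Set ℤ × ℤ | 0 ≤ s.2 ∧ s.2 ≤ N ∧ Sat V D s.1 s.2}.Finite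

/-- seeds: families of bounded length whose child is long -/
structure Sd {B : Type} (V : ℤ → B) (c : ℤ → ℤ) (D Q : ℕ) (M L2 L4 : ℤ) (s : Set ℤ × ℤ) : Prop where
  fm : Fm V s.1 s.2
  np : ∀ j ∈ s.1, ¬ PerOn V Q (j + M) (j + s.2 - M)
  lo : L2 ≤ s.2
  hi : s.2 ≤ L4
  nxt : L4 < (Vk V c D s 1).2

/-- properties of all the descendants -/
structure Gd {B C : Type} (V : ℤ → B) (U : ℤ → C) (c d : ℤ → ℤ) (D Q q : ℕ) (M K L2 L4 : ℤ)
    (s : Set ℤ × ℤ) : Prop where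
  fV : ∀ k, Fm V (Vk V c D s k).1 (Vk V c D s k).2
  nV : ∀ k, ∀ j ∈ (Vk V c D s k).1, ¬ PerOn V Q (j + M) (j + (Vk V c D s k).2 - M)
  lo : ∀ k, L2 ≤ (Vk V c D s k).2
  s0 : s.2 ≤ L4
  hi : ∀ k, 1 ≤ k → L4 < (Vk V c D s k).2
  fU : ∀ k, Fm U (Uk V U c d D s k).1 (Uk V U c d D s k).2
  nU : ∀ k, ∀ j ∈ (Uk V U c d D s k).1, ¬ PerOn U q (j + K) (j + (Uk V U c d D s k).2 - K)

/-- TASK NPC: all the descendants of a seed are non-periodic (uses CHE, NPU) -/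
def S_NPC : Prop := ∀ (B C : Type) (V : ℤ → B) (U : ℤ → C) (c d : ℤ → ℤ) (m D Q q : ℕ),
  Ctx V U c d m D Q q → ∀ M K : ℤ, 0 ≤ K → K + D + m * q ≤ M → D + m * Q ≤ M → ∃ l : ℕ,
    ∀ L2 L4 : ℤ, l ≤ L2 → ∀ s, Sd V c D Q M L2 L4 s → Gd V U c d D Q q M K L2 L4 s

/-- TASK INJ: a family of `U` determines the seed and the level (uses CHE, PAR) -/
def S_INJ : Prop := ∀ (B C : Type) (V : ℤ → B) (U : ℤ → C) (c d : ℤ → ℤ) (m D Q q LV LU : ℕ),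
  Ctx V U c d m D Q q → AHp V c m Q LV → AHp U d m q LU → ∀ M K L2 L4 : ℤ, LV ≤ M → D ≤ M →
    LU ≤ K → D ≤ K → 2 * M + m ≤ L2 → 2 * K + m ≤ L2 → ∀ s s', Gd V U c d D Q q M K L2 L4 s →
      Gd V U c d D Q q M K L2 L4 s' → ∀ k k', Uk V U c d D s k = Uk V U c d D s' k' →
        s = s' ∧ k = k'

/-- TASK SUR: every long non-periodic family of `U` is a descendant of a seed (uses CHE, PAR, NPD) -/
def S_SUR : Prop := ∀ (B C : Type) (V : ℤ → B) (U : ℤ → C) (c d : ℤ → ℤ) (m D Q q LV LU KV K : ℕ),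
  Ctx V U c d m D Q q → AHp V c m Q LV → AHp U d m q LU → ULp V Q KV → ULp (rf V) Q KV →
    ULp U q K → ULp (rf U) q K → ∀ M : ℕ, KV ≤ M → LV ≤ M → D ≤ M → LU ≤ K → D ≤ K → ∃ l : ℕ,
      ∀ L2 L4 : ℤ, l ≤ L2 → m * L2 + 2 * D ≤ L4 → ∃ l' : ℕ, ∀ (F' : Set ℤ) (n' : ℤ),
        Fm U F' n' → (∀ i ∈ F', ¬ PerOn U q (i + K) (i + n' - K)) → l' ≤ n' →
        ∃ s k, 1 ≤ k ∧ Sd V c D Q M L2 L4 s ∧ Uk V U c d D s k = (F', n')

/-- TASK CC: all the occurrences of a descendant of a seed are aligned (uses CHE, LV, AL) -/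
def S_CC : Prop := ∀ (B C : Type) (V : ℤ → B) (U : ℤ → C) (c d : ℤ → ℤ) (m D Q q LV LU : ℕ),
  Ctx V U c d m D Q q → AHp V c m Q LV → AHp U d m q LU → ∀ M K L2 L4 : ℤ, LV + D ≤ M →
    LU ≤ K → 2 * M + m ≤ L2 → 2 * K + m ≤ L2 → 2 * D ≤ L2 → ∀ s,
      Gd V U c d D Q q M K L2 L4 s → ∀ k L R,
        Lv V U c d k s.1 s.2 (Uk V U c d D s k).1 (Uk V U c d D s k).2 L R →
        Al V U c d D k s.1 s.2 (Uk V U c d D s k).2 L

end Pool.Agent.T2h96.FC
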