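import Pool.Agent.T2h96.FC.Stm3

/-!
# Task AH: anchoring
-/

set_option autoImplicit false

open Filter

namespace Pool.Agent.T2h96.FC

theorem t_AH : S_AH := by
  intro B C V T c m D q hS hq hR
  obtain ⟨P, hP, hR⟩ := hR
  have hl : ∀ p : ℕ, ∃ l : ℕ, 0 < p → ∀ a b : ℤ, a + l ≤ b → PerOn T p a b → PerOn T q a b := by
    intro p
    rcases Nat.eq_zero_or_pos p with h0 | h0
    · exact ⟨0, fun h => by omega⟩
    · obtain ⟨l, hl⟩ := hq.2 p h0
      exact ⟨l, fun _ => hl⟩
  choose l hl using hl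
  obtain ⟨M1, hM1⟩ : ∃ M1 : ℕ, M1 = m + q + 1 + (Finset.range (P + 1)).sup l := ⟨_, rfl⟩
  obtain ⟨Lr, hLr⟩ := hR M1
  refine ⟨Lr + M1, fun L hL i n hn hper => ?_⟩
  push_cast at hL
  by_contra hcon
  push Not at hcon
  apply hper
  have hLr0 : (0 : ℤ) ≤ Lr := by positivity
  have hM10 : (0 : ℤ) ≤ M1 := by positivity
  have hm0 : (0 : ℤ) ≤ m := by positivity
  have hcut : ∀ j : ℤ, i + L ≤ c j → c j < i + n - L → PerOn T q (c j - M1) (c j + M1 + 1) := by
    intro j h1 h2
    obtain ⟨i', h3, h4⟩ := hcon (c j - i) (by linarith) (by linarith)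
    obtain ⟨p, hp0, hp1, hp2⟩ := hLr (c j) (i' + (c j - i)) ⟨j, rfl⟩ h4 fun t ht => by
      rw [abs_le] at ht
      have := h3 (c j - i + t) (by linarith [ht.1]) (by linarith [ht.2])
      rw [show i + (c j - i + t) = c j + t by ring] at this
      rw [← this]; congr 1; ring
    have h5 : PerOn T p (c j - M1) (c j + M1 + 1) := by
      intro u hu1 hu2
      have := hp2 (u - c j) (by linarith) (by linarith)
      rw [show c j + (u - c j) + (p : ℤ) = u + p by ring, show c j + (u - c j) = u by ring] at this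
      exact this
    refine hl p hp0 _ _ ?_ h5
    have h6 : l p ≤ (Finset.range (P + 1)).sup l :=
      Finset.le_sup (f := l) (Finset.mem_range.2 (by omega))
    have h7 : (l p : ℤ) ≤ M1 := by exact_mod_cast (by omega : l p ≤ M1)
    linarith
  have hMmq : (m : ℤ) + q + 1 ≤ M1 := by
    have : m + q + 1 ≤ M1 := by omega
    exact_mod_cast this
  have hq0 : (0 : ℤ) ≤ q := by positivity
  intro u hu1 hu2
  rcases le_total u (i + n - L - m) with h8 | h8
  · obtain ⟨j, hj1, hj2⟩ := hS.cut_in u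
    exact hcut j (by linarith) (by linarith) u (by linarith) (by linarith)
  · obtain ⟨j, hj1, hj2⟩ := hS.cut_in (i + n - L - m)
    exact hcut j (by linarith) (by linarith) u (by linarith) (by linarith)

end Pool.Agent.T2h96.FC
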