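import Pool.Agent.T2h96.FC.Stm3

/-!
# Existence and uniqueness of the parent of a bispecial family
-/

set_option autoImplicit false

namespace Pool.Agent.T2h96.FC

theorem t_PAR : S_UNI → S_CHE → S_PAR := by
  classical
  intro hUNI hCHE B C V T c m D q L1 h hAH K hLK hDK F' n' hF' hn' hnp
  have hm0 : (0 : ℤ) ≤ m := by positivity
  have hD0 : (0 : ℤ) ≤ D := by positivity
  obtain ⟨i0, hi0, -, -, -⟩ := id hF'.lft
  obtain ⟨t, ht1, ht2, ht3⟩ := hAH K hLK i0 n' hn' (hnp i0 hi0)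
  have hcut : ∀ i ∈ F', i + t ∈ Set.range c := fun i hi =>
    ht3 i fun s h0 h1 => hF'.com i hi i0 hi0 s h0 h1
  obtain ⟨G, hG⟩ : ∃ G : Set ℤ, ∀ x, x ∈ G ↔ c x - t ∈ F' := ⟨{x | c x - t ∈ F'}, fun _ => Iff.rfl⟩
  have hFG : F' = (fun x => c x - t) '' G := by
    ext i
    constructor
    · intro hi
      obtain ⟨x, hx⟩ := hcut i hi
      exact ⟨x, (hG x).2 (by rw [hx]; rwa [add_sub_cancel_right]), by simp only; rw [hx]; ring⟩
    · rintro ⟨x, hx, rfl⟩
      exact (hG x).1 hx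
  -- the letters on the right of `G`
  have hexR : ∃ r : ℕ, ∃ x ∈ G, ∃ y ∈ G, V (x + r) ≠ V (y + r) := by
    by_contra hcon
    push Not at hcon
    obtain ⟨i, hi, j, hj, hij⟩ := hF'.rgt
    rw [hFG] at hi hj
    obtain ⟨x, hx, rfl⟩ := hi
    obtain ⟨y, hy, rfl⟩ := hj
    simp only at hij
    obtain ⟨-, h2⟩ := h.img' (i := x) (j := y) (n := n' - t + 1) (by linarith) fun s h0 _ => by
      have := hcon s.toNat x hx y hy
      rwa [Int.toNat_of_nonneg h0] at this
    have h3 := h.lb' (show x ≤ x + (n' - t + 1) by linarith)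
    have h4 := h2 (n' - t) (by linarith) (by linarith)
    rw [show c x + (n' - t) = c x - t + n' by ring, show c y + (n' - t) = c y - t + n' by ring] at h4
    exact hij h4
  have hexL : ∃ r : ℕ, ∃ x ∈ G, ∃ y ∈ G, V (x - 1 - r) ≠ V (y - 1 - r) := by
    by_contra hcon
    push Not at hcon
    obtain ⟨i, hi, j, hj, hij⟩ := hF'.lft
    rw [hFG] at hi hj
    obtain ⟨x, hx, rfl⟩ := hi
    obtain ⟨y, hy, rfl⟩ := hj
    simp only at hij
    obtain ⟨h1, h2⟩ := h.img' (i := x - (t + 1)) (j := y - (t + 1)) (n := t + 1) (by linarith)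
      fun s h0 h1 => by
        have := hcon (t - s).toNat x hx y hy
        rw [Int.toNat_of_nonneg (by linarith)] at this
        rwa [show x - 1 - (t - s) = x - (t + 1) + s by ring,
          show y - 1 - (t - s) = y - (t + 1) + s by ring] at this
    rw [sub_add_cancel, sub_add_cancel] at h1
    rw [sub_add_cancel] at h2
    have h3 := h.lb' (show x - (t + 1) ≤ x by linarith)
    have h4 := h2 (c x - c (x - (t + 1)) - t - 1) (by linarith) (by linarith)
    apply hij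
    rw [show c x - t - 1 = c (x - (t + 1)) + (c x - c (x - (t + 1)) - t - 1) by ring, h4]
    congr 1; linarith
  obtain ⟨ρ, hρ⟩ : ∃ ρ : ℕ, ρ = Nat.find hexR := ⟨_, rfl⟩
  obtain ⟨ρ', hρ'⟩ : ∃ ρ' : ℕ, ρ' = Nat.find hexL := ⟨_, rfl⟩
  have hρ1 : ∃ x ∈ G, ∃ y ∈ G, V (x + ρ) ≠ V (y + ρ) := by rw [hρ]; exact Nat.find_spec hexR
  have hρ2 : ∀ s : ℤ, 0 ≤ s → s < ρ → ∀ x ∈ G, ∀ y ∈ G, V (x + s) = V (y + s) := by
    intro s h0 h1 x hx y hy
    have := Nat.find_min hexR (m := s.toNat) (by omega)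
    push Not at this
    have h2 := this x hx y hy
    rwa [Int.toNat_of_nonneg h0] at h2
  have hρ1' : ∃ x ∈ G, ∃ y ∈ G, V (x - 1 - ρ') ≠ V (y - 1 - ρ') := by
    rw [hρ']; exact Nat.find_spec hexL
  have hρ2' : ∀ s : ℤ, 0 ≤ s → s < ρ' → ∀ x ∈ G, ∀ y ∈ G, V (x - 1 - s) = V (y - 1 - s) := by
    intro s h0 h1 x hx y hy
    have := Nat.find_min hexL (m := s.toNat) (by omega)
    push Not at this
    have h2 := this x hx y hy
    rwa [Int.toNat_of_nonneg h0] at h2
  have hρ0 : (0 : ℤ) ≤ ρ := by positivity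
  have hρ0' : (0 : ℤ) ≤ ρ' := by positivity
  refine ⟨?_, ?_⟩
  · -- existence
    have hFm : Fm V ((fun x => x - (ρ' : ℤ)) '' G) (ρ' + ρ) := by
      refine ⟨by linarith, ?_, ?_, ?_⟩
      · rintro _ ⟨x, hx, rfl⟩ _ ⟨y, hy, rfl⟩ s h0 h1
        simp only
        rcases lt_or_ge s ρ' with h2 | h2
        · have := hρ2' (ρ' - 1 - s) (by linarith) (by linarith) x hx y hy
          rwa [show x - 1 - (ρ' - 1 - s) = x - ρ' + s by ring,
            show y - 1 - (ρ' - 1 - s) = y - ρ' + s by ring] at this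
        · have := hρ2 (s - ρ') (by linarith) (by linarith) x hx y hy
          rwa [show x + (s - ρ') = x - ρ' + s by ring, show y + (s - ρ') = y - ρ' + s by ring] at this
      · obtain ⟨x, hx, y, hy, h1⟩ := hρ1'
        refine ⟨_, ⟨x, hx, rfl⟩, _, ⟨y, hy, rfl⟩, ?_⟩
        simp only
        rwa [show x - (ρ' : ℤ) - 1 = x - 1 - ρ' by ring, show y - (ρ' : ℤ) - 1 = y - 1 - ρ' by ring]
      · obtain ⟨x, hx, y, hy, h1⟩ := hρ1
        refine ⟨_, ⟨x, hx, rfl⟩, _, ⟨y, hy, rfl⟩, ?_⟩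
        simp only
        rwa [show x - (ρ' : ℤ) + (ρ' + ρ) = x + ρ by ring, show y - (ρ' : ℤ) + (ρ' + ρ) = y + ρ by ring]
    obtain ⟨F1, n1, L, R, hch⟩ := hCHE B C V T c m D h _ _ hFm
    obtain ⟨x0, hx0, -, -, -⟩ := id hρ1
    have hconst : ∀ x ∈ G, c x - c (x - ρ') = c x0 - c (x0 - ρ') := by
      intro x hx
      obtain ⟨h1, -⟩ := h.img' (i := x - ρ') (j := x0 - ρ') (n := ρ') hρ0' fun s h0 h1 => by
        have := hρ2' (ρ' - 1 - s) (by linarith) (by linarith) x hx x0 hx0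
        rwa [show x - 1 - (ρ' - 1 - s) = x - ρ' + s by ring,
          show x0 - 1 - (ρ' - 1 - s) = x0 - ρ' + s by ring] at this
      rwa [sub_add_cancel, sub_add_cancel] at h1
    obtain ⟨t1, ht1e⟩ : ∃ t1 : ℤ, t1 = c x0 - c (x0 - ρ') + L := ⟨_, rfl⟩
    have hF1 : F1 = (fun x => c x - t1) '' G := by
      rw [hch.im, Set.image_image]
      refine Set.image_congr fun x hx => ?_
      have := hconst x hx
      linarith
    have hmono1 := h.mono (show x0 - ρ' ≤ x0 by linarith)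
    have hmono2 := h.mono (show x0 ≤ x0 - ρ' + (ρ' + ρ) by linarith)
    have hlen := hch.len (x0 - ρ') ⟨x0, hx0, rfl⟩
    have hL0 := hch.L0
    have hR0 := hch.R0
    have h1 := hUNI C T G c t t1 n' n1 (by rw [← hFG]; exact hF') (by rw [← hF1]; exact hch.fT)
      (by linarith) (by linarith) (by linarith) (by linarith)
    obtain ⟨h2, h3⟩ := h1
    have hFF : F1 = F' := by rw [hF1, hFG, h2]
    rw [hFF, ← h3] at hch
    exact ⟨_, _, L, R, hch⟩
  · -- uniqueness
    have key : ∀ F n L R, Ch V T c D F n F' n' L R → ∃ r, 0 ≤ r ∧ r ≤ n ∧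
        F = (fun j => id j - r) '' G := by
      intro F n L R hch
      obtain ⟨j0, hj0, -, -, -⟩ := id hch.fV.lft
      have hi : c j0 - L ∈ F' := by rw [hch.im]; exact ⟨j0, hj0, rfl⟩
      obtain ⟨x0, hx0⟩ := hcut _ hi
      have hlen := hch.len j0 hj0
      have hLD := hch.LD
      have hRD := hch.RD
      have h1 : j0 ≤ x0 := h.le_iff.1 (by linarith)
      have h2 : x0 ≤ j0 + n := h.le_iff.1 (by linarith)
      refine ⟨x0 - j0, by linarith, by linarith, ?_⟩
      have hcj : ∀ j ∈ F, c (j + (x0 - j0)) = c j + (t - L) := by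
        intro j hj
        obtain ⟨h3, -⟩ := h.img' (i := j) (j := j0) (n := x0 - j0) (by linarith) fun s h0 h1 =>
          hch.fV.com j hj j0 hj0 s h0 (by linarith)
        rw [show j0 + (x0 - j0) = x0 by ring] at h3
        linarith
      ext j
      constructor
      · intro hj
        refine ⟨j + (x0 - j0), (hG _).2 ?_, by simp⟩
        rw [hcj j hj, hch.im]
        exact ⟨j, hj, by simp only; ring⟩
      · rintro ⟨x, hx, rfl⟩
        have h3 := (hG x).1 hx
        rw [hch.im] at h3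
        obtain ⟨j, hj, h4⟩ := h3
        simp only at h4
        have h5 : c x = c (j + (x0 - j0)) := by rw [hcj j hj]; linarith
        have h6 := h.inj h5
        simp only [id]
        rwa [h6, add_sub_cancel_right]
    intro F n L R G2 ν L' R' hch hch'
    obtain ⟨r, hr0, hrn, hF⟩ := key F n L R hch
    obtain ⟨r', hr0', hrn', hG2⟩ := key G2 ν L' R' hch'
    obtain ⟨h1, h2⟩ := hUNI B V G id r r' n ν (by rw [← hF]; exact hch.fV) (by rw [← hG2]; exact hch'.fV)
      hr0 hrn hr0' hrn'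
    exact ⟨by rw [hF, hG2, h1], h2⟩

end Pool.Agent.T2h96.FC
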